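import Pool.Agent.XW.Defs

/-!
# Project XW: the statements for `2 ∉ X`, and basic facts about the characters

Part 1: for `2 ∉ X` all the objects are those of the project XV.
Part 2: basic facts for all `X` (products over unions, periodicity, values, reciprocity).
-/

set_option autoImplicit false

namespace Pool.Agent.XW.Od

open Finset
open Pool.Agent.Z700 (V3 pr un hh)
open Pool.Agent.NH1 (rd)
open Pool.Agent.NH2 (wp ev)
open Pool.Agent.XV (bl vec LN rl ph Ph Coc UV cpa cpl EM SyM S_PHI S_REF)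
open Pool.Agent.Y687 (saw)

variable {δ : ℤ}

/-! ### Part 1: bridge lemmas -/

theorem Pe.mono {P Q : Finset ℕ} (h : Pe Q) (hs : P ⊆ Q) : Pe P := fun p hp => h p (hs hp)

theorem Pe.left {P Q : Finset ℕ} (h : Pe (P ∪ Q)) : Pe P := Pe.mono h subset_union_left

theorem Pe.right {P Q : Finset ℕ} (h : Pe (P ∪ Q)) : Pe Q := Pe.mono h subset_union_right

theorem Pe_union {P Q : Finset ℕ} : Pe (P ∪ Q) ↔ Pe P ∧ Pe Q := by
  refine ⟨fun h => ⟨Pe.left h, Pe.right h⟩, fun h p hp => ?_⟩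
  rcases mem_union.1 hp with h1 | h1
  · exact h.1 p h1
  · exact h.2 p h1

theorem Pe_of_Pq {X : Finset ℕ} (h : XV.Pq X) : Pe X := fun p hp => ⟨(h p hp).1, (h p hp).2.2⟩

theorem Pq_of_Pe {X : Finset ℕ} (h : Pe X) (h2 : 2 ∉ X) : XV.Pq X := fun p hp =>
  ⟨(h p hp).1, fun e => h2 (e ▸ hp), (h p hp).2⟩

theorem not_mem_of_Pq {X : Finset ℕ} (h : XV.Pq X) : 2 ∉ X := fun h2 => (h 2 h2).2.1 rfl

theorem Pe_iff_Pq {X : Finset ℕ} (h2 : 2 ∉ X) : Pe X ↔ XV.Pq X :=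
  ⟨fun h => Pq_of_Pe h h2, Pe_of_Pq⟩

theorem Pq_erase {X : Finset ℕ} (h : Pe X) : XV.Pq (X.erase 2) :=
  Pq_of_Pe (Pe.mono h (erase_subset _ _)) (by simp)

theorem prod_js (c : ℤ) : ∀ X : Finset ℕ, (∀ p ∈ X, p ≠ 0) →
    ∏ p ∈ X, jacobiSym c p = jacobiSym c (pr X) := by
  intro X
  induction X using Finset.induction_on with
  | empty => intro _; simp [pr]
  | insert a s ha ih =>
    intro h
    have h0 : a ≠ 0 := h a (mem_insert_self _ _)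
    have h1 : ∀ p ∈ s, p ≠ 0 := fun p hp => h p (mem_insert_of_mem hp)
    have i1 : NeZero a := ⟨h0⟩
    have i2 : NeZero (pr s) := ⟨prod_ne_zero_iff.2 h1⟩
    have e : pr (insert a s) = a * pr s := by
      unfold pr
      rw [prod_insert ha]
    rw [prod_insert ha, ih h1, e, jacobiSym.mul_right]

theorem pe_odd {X : Finset ℕ} (h : 2 ∉ X) : pe δ X = pr X := by
  unfold pe pr md
  exact prod_congr rfl fun p hp => if_neg fun e : p = 2 => h (e ▸ hp)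

theorem ch_odd {X : Finset ℕ} (hX : Pe X) (h : 2 ∉ X) (c : ℤ) : ch δ X c = jacobiSym c (pr X) := by
  rw [← prod_js c X fun p hp => (hX p hp).1.ne_zero]
  unfold ch sy
  exact prod_congr rfl fun p hp => if_neg fun e : p = 2 => h (e ▸ hp)

theorem sg_odd {X : Finset ℕ} (hX : Pe X) (h : 2 ∉ X) : sg δ X = jacobiSym (-1) (pr X) :=
  ch_odd hX h _

theorem pr_mod2 {X : Finset ℕ} (hX : Pe X) (h : 2 ∉ X) : pr X % 2 = 1 := by
  unfold pr
  refine Nat.odd_iff.1 (prod_induction _ Odd (fun a b ha hb => ha.mul hb) odd_one fun p hp => ?_)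
  exact (hX p hp).1.odd_of_ne_two fun e => h (e ▸ hp)

theorem js_neg_one {n : ℕ} (h : n % 2 = 1) : (jacobiSym (-1) n = 1 ↔ n % 4 = 1) ∧
    (jacobiSym (-1) n = -1 ↔ n % 4 = 3) := by
  rw [jacobiSym.at_neg_one (Nat.odd_iff.2 h), ZMod.χ₄_nat_eq_if_mod_four, if_neg (by omega)]
  by_cases h1 : n % 4 = 1
  · rw [if_pos h1]
    constructor
    · simp [h1]
    · constructor
      · intro h2; norm_num at h2
      · omega
  · rw [if_neg h1]
    constructor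
    · constructor
      · intro h2; norm_num at h2
      · omega
    · simp; omega

theorem sg_odd_one {X : Finset ℕ} (hX : Pe X) (h : 2 ∉ X) : sg δ X = 1 ↔ pr X % 4 = 1 := by
  rw [sg_odd hX h]
  exact (js_neg_one (pr_mod2 hX h)).1

theorem sg_odd_neg {X : Finset ℕ} (hX : Pe X) (h : 2 ∉ X) : sg δ X = -1 ↔ pr X % 4 = 3 := by
  rw [sg_odd hX h]
  exact (js_neg_one (pr_mod2 hX h)).2

theorem Ja_odd {X : Finset ℕ} (hX : Pe X) (h : 2 ∉ X) : Ja δ X ↔ XV.Ka (pr X) := by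
  unfold Ja XV.Ka
  rw [sg_odd_one hX h, pe_odd h]
  omega

theorem Jb_odd {X : Finset ℕ} (hX : Pe X) (h : 2 ∉ X) : Jb δ X ↔ XV.Kb (pr X) := by
  unfold Jb XV.Kb
  rw [sg_odd_neg hX h, pe_odd h]
  omega

theorem Jc_odd {X : Finset ℕ} (hX : Pe X) (h : 2 ∉ X) : Jc δ X ↔ XV.Kc (pr X) := by
  unfold Jc XV.Kc
  rw [sg_odd_one hX h, pe_odd h]
  omega

theorem Jd_odd {X : Finset ℕ} (hX : Pe X) (h : 2 ∉ X) : Jd δ X ↔ XV.Kd (pr X) := by
  unfold Jd XV.Kd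
  rw [sg_odd_neg hX h, pe_odd h]
  omega

theorem Xi_odd {X : Finset ℕ} (h : 2 ∉ X) : ¬ Xi δ X := fun e => h (by rw [e.2]; simp)

theorem gm_odd {q : ℕ} {N : Finset ℕ} {p : ℕ} (h : p ≠ 2) (v : V3) :
    gm δ q N p v = ph q p (rd p v) := if_neg h

theorem Pt_odd {q : ℕ} {N P : Finset ℕ} (h : 2 ∉ P) (v : V3) : Pt δ q N P v = Ph q P v := by
  unfold Pt Ph
  exact prod_congr rfl fun p hp => gm_odd (fun e => h (e ▸ hp)) v

/-- for `2 ∉ P` the sum is the sum of `XV` (with the norm `pe δ N`) -/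
theorem A_odd' {q : ℕ} {N P : Finset ℕ} (h : 2 ∉ P) (β : ℤ) :
    A δ q N P β = XV.A q P (pe δ N) β := by
  unfold A XV.A
  exact sum_congr rfl fun v _ => Pt_odd h v

theorem A_odd {q : ℕ} {N P : Finset ℕ} (hN : 2 ∉ N) (h : P ⊆ N) (β : ℤ) :
    A δ q N P β = XV.A q P (pr N) β := by
  rw [A_odd' fun e => hN (h e), pe_odd hN]

theorem S5_odd' {N P : Finset ℕ} (h : 2 ∉ P) (β : ℤ) :
    S5 δ N P β = XV.S5 P (pe δ N) β := by
  unfold S5 XV.S5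
  rw [A_odd' h]

theorem S5_odd {N P : Finset ℕ} (hN : 2 ∉ N) (h : P ⊆ N) (β : ℤ) :
    S5 δ N P β = XV.S5 P (pr N) β := by
  rw [S5_odd' fun e => hN (h e), pe_odd hN]

theorem AC_odd {q : ℕ} {N : Finset ℕ} (h : 2 ∉ N) (β : ℤ) (γ : ℕ → ℤ) :
    AC δ q N β γ = XV.AC q N β γ := by
  classical
  unfold AC XV.AC
  rw [pe_odd h]
  congr 1
  refine filter_congr fun v _ => and_congr_right fun _ => forall₂_congr fun p hp => ?_
  rw [gm_odd fun e => h (e ▸ hp)]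

theorem pr_sdiff {N D : Finset ℕ} (h : D ⊆ N) : pr N = pr D * pr (N \ D) := by
  unfold pr
  rw [mul_comm, prod_sdiff h]

theorem pr_erase {N : Finset ℕ} {p : ℕ} (h : p ∈ N) : pr N = p * pr (N.erase p) := by
  unfold pr
  rw [mul_prod_erase N (fun x => x) h]

theorem not_dvd_pr {N : Finset ℕ} (hN : ∀ l ∈ N, l.Prime) {p : ℕ} (hp : p.Prime) (h : p ∉ N) :
    ¬ p ∣ pr N := by
  intro hd
  obtain ⟨l, hl, hl2⟩ := (Prime.dvd_finsetProd_iff hp.prime _).1 hd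
  exact h ((Nat.prime_dvd_prime_iff_eq hp (hN l hl)).1 hl2 ▸ hl)

theorem gen_odd {N D : Finset ℕ} (hN : Pe N) (h : 2 ∉ N) (hD : D ⊆ N) {p : ℕ} (hp : p ∈ N) :
    gen δ N D p = XV.gen N D p := by
  unfold gen XV.gen
  rw [pe_odd h]
  by_cases h1 : p ∈ D
  · rw [if_pos h1, if_pos h1]
    have pp := (hN p hp).1
    have e1 : (∏ l ∈ D, l) / p = pr (D.erase p) := by
      have := pr_erase h1
      unfold pr at this ⊢
      rw [this]
      exact Nat.mul_div_cancel_left _ pp.pos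
    have e2 : pr N / p = pr (D.erase p) * pr (N \ D) := by
      rw [pr_sdiff hD, pr_erase h1, mul_assoc]
      exact Nat.mul_div_cancel_left _ pp.pos
    have nd : ¬ p ∣ pr (D.erase p) := not_dvd_pr (fun l hl => (hN l (hD (mem_of_mem_erase hl))).1) pp
      (by simp)
    have e3 : jacobiSym ((pr (D.erase p) : ℤ) ^ 2) p = 1 := by
      rw [jacobiSym.pow_left]
      refine jacobiSym.sq_one ?_
      rw [Int.gcd_natCast_natCast]
      exact ((Nat.Prime.coprime_iff_not_dvd pp).2 nd).symm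
    rw [e1, e2]
    push_cast
    rw [show (pr (D.erase p) : ℤ) * (pr (D.erase p) * pr (N \ D)) =
      (pr (D.erase p) : ℤ) ^ 2 * pr (N \ D) by ring, jacobiSym.mul_left, e3, one_mul]
  · rw [if_neg h1, if_neg h1]
    rfl

theorem Kr_odd {N : Finset ℕ} (hN : Pe N) (h : 2 ∉ N) : Kr δ N ↔ XV.Kr N := by
  unfold Kr XV.Kr
  rw [erase_eq_of_notMem h]
  refine forall₂_congr fun D hD => ?_
  have e : (∀ p ∈ N, gen δ N D p = 1) ↔ ∀ p ∈ N, XV.gen N D p = 1 :=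
    forall₂_congr fun p hp => by rw [gen_odd hN h hD hp]
  rw [e]
  simp

theorem Fm_odd {X : Finset ℕ} (h : 2 ∉ X) (k : ℤ) (q : ℤ × ℤ × ℤ) :
    Fm δ X k q ↔ XV.Fm X k q := by
  unfold Fm XV.Fm
  rw [pe_odd h]

theorem cx_odd {X : Finset ℕ} (h : 2 ∉ X) (q : ℤ × ℤ × ℤ) : cx δ X q = NH2.cx X q := by
  unfold cx NH2.cx sy
  refine prod_congr rfl fun p hp => ?_
  have : p ≠ 2 := fun e => h (e ▸ hp)
  simp only [if_neg this]

theorem Nr_odd {X : Finset ℕ} (h : 2 ∉ X) (k x M : ℤ) : Nr δ X k x M = XV.Nr X k x M := by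
  classical
  unfold Nr XV.Nr
  refine finsum_congr fun q => ?_
  simp only [Fm_odd h, cx_odd h]

theorem Fx_odd {X : Finset ℕ} (hX : Pe X) (h : 2 ∉ X) (x M : ℤ) : Fx δ X x M = XV.Fx X x M := by
  unfold Fx XV.Fx
  rw [Nr_odd h, Nr_odd h, sg_odd hX h]

theorem w1_odd {p : ℕ} (h : p ≠ 2) (a a' x y : ℕ) : w1 δ p a a' x y = NH2.w1 p a a' x y := by
  unfold w1 NH2.w1 sy
  simp only [if_neg h]

theorem w2_odd {p : ℕ} (h : p ≠ 2) (a a' x y : ℕ) : w2 δ p a a' x y = NH2.w2 p a a' x y := by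
  unfold w2 NH2.w2 sy
  simp only [if_neg h]

theorem prod_w1_odd {X : Finset ℕ} (h : 2 ∉ X) (a a' x y : ℕ) :
    ∏ p ∈ X, w1 δ p a a' x y = ∏ p ∈ X, NH2.w1 p a a' x y :=
  prod_congr rfl fun _ hp => w1_odd (fun e => h (e ▸ hp)) _ _ _ _

theorem prod_w2_odd {X : Finset ℕ} (h : 2 ∉ X) (a a' x y : ℕ) :
    ∏ p ∈ X, w2 δ p a a' x y = ∏ p ∈ X, NH2.w2 p a a' x y :=
  prod_congr rfl fun _ hp => w2_odd (fun e => h (e ▸ hp)) _ _ _ _

theorem WW_odd {u v : ℕ} {X Z : Finset ℕ} (hX : 2 ∉ X) (hZ : 2 ∉ Z) (T : ℕ) :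
    WW δ u v X Z T = XV.WW u v X Z T := by
  unfold WW XV.WW
  rw [pe_odd hX, pe_odd hZ]
  refine sum_congr rfl fun a _ => sum_congr rfl fun a' _ => ?_
  rw [prod_w1_odd hX, prod_w2_odd hZ]

theorem Wt_odd {X Z : Finset ℕ} (hX : Pe X) (hZ : Pe Z) (hX2 : 2 ∉ X) (hZ2 : 2 ∉ Z) :
    Wt δ X Z = XV.Wt X Z := by
  unfold Wt XV.Wt
  rw [pe_odd hZ2]
  refine sum_congr rfl fun t _ => ?_
  rw [ch_odd hZ hZ2, Fx_odd hX hX2]

theorem fc_odd {N : ℕ} (h : Odd N) (D l : ℕ) : fc N D l = XV.fc N D l := by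
  unfold fc XV.fc
  by_cases h1 : l ∣ N
  · rw [if_pos h1, if_pos h1, if_neg]
    rintro rfl
    rw [Nat.odd_iff] at h
    omega
  · rw [if_neg h1, if_neg h1, if_pos h]

theorem loc_odd {u v N : ℕ} (h : Odd N) (T : ℕ) : loc u v N T = XV.loc u v N T := by
  unfold loc XV.loc
  simp only [fc_odd h]

theorem loc1_odd {u N : ℕ} (h : Odd N) (T : ℕ) : loc1 u N T = XV.loc1 u N T := by
  unfold loc1 XV.loc1
  simp only [fc_odd h]

theorem pf_odd {u N : ℕ} (h : Odd N) (T : ℕ) : pf u N T = XV.pf u N T := by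
  unfold pf XV.pf
  simp only [fc_odd h]

theorem wq_odd {q : ℕ} {N : Finset ℕ} {M p : ℕ} (h : p ≠ 2) (T : ℕ) :
    wq q N M p T = wp p M T := if_neg h

theorem prod_wq_odd {q : ℕ} {N P : Finset ℕ} {M : ℕ} (h : 2 ∉ P) (T : ℕ) :
    ∏ p ∈ P, wq q N M p T = ∏ p ∈ P, wp p M T :=
  prod_congr rfl fun _ hp => wq_odd (fun e => h (e ▸ hp)) _

theorem SS_odd {Z : Finset ℕ} (hZ : Pe Z) (h : 2 ∉ Z) (s : ℚ → ℤ) :
    SS s δ Z = Y687.SS s (pr Z) (pr Z) := by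
  unfold SS Y687.SS
  rw [pe_odd h]
  refine sum_congr rfl fun t _ => ?_
  rw [ch_odd hZ h]

/-! ### Part 2: basic facts for all `X` -/

/-! #### the prime `2` -/

theorem md_two : md δ 2 = δ.natAbs := if_pos rfl

theorem md_ne {p : ℕ} (h : p ≠ 2) : md δ p = p := if_neg h

theorem sy_two (c : ℤ) : sy δ 2 c = c2 δ c := if_pos rfl

theorem sy_ne {p : ℕ} (h : p ≠ 2) (c : ℤ) : sy δ p c = jacobiSym c p := if_neg h

theorem na_m4 : Int.natAbs (-4) = 4 := rfl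

theorem na_8 : Int.natAbs 8 = 8 := rfl

theorem na_m8 : Int.natAbs (-8) = 8 := rfl

theorem c2_m4 (c : ℤ) : c2 (-4) c = if c % 2 = 0 then 0 else if c % 4 = 1 then 1 else -1 := by
  unfold c2
  rw [if_pos rfl, ZMod.χ₄_int_eq_if_mod_four]

theorem c2_8 (c : ℤ) :
    c2 8 c = if c % 2 = 0 then 0 else if c % 8 = 1 ∨ c % 8 = 7 then 1 else -1 := by
  unfold c2
  rw [if_neg (by norm_num), if_pos rfl, ZMod.χ₈_int_eq_if_mod_eight]

theorem c2_m8 (c : ℤ) :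
    c2 (-8) c = if c % 2 = 0 then 0 else if c % 8 = 1 ∨ c % 8 = 3 then 1 else -1 := by
  unfold c2
  rw [if_neg (by norm_num), if_neg (by norm_num), ZMod.χ₈'_int_eq_if_mod_eight]

theorem c2_even {c : ℤ} (hδ : Dt δ) (h : (2 : ℤ) ∣ c) : c2 δ c = 0 := by
  rcases hδ with rfl | rfl | rfl
  · rw [c2_m4, if_pos (by omega)]
  · rw [c2_8, if_pos (by omega)]
  · rw [c2_m8, if_pos (by omega)]

theorem c2_pm {c : ℤ} (hδ : Dt δ) (h : ¬ (2 : ℤ) ∣ c) : c2 δ c = 1 ∨ c2 δ c = -1 := by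
  rcases hδ with rfl | rfl | rfl
  · rw [c2_m4, if_neg (by omega)]
    split_ifs <;> simp
  · rw [c2_8, if_neg (by omega)]
    split_ifs <;> simp
  · rw [c2_m8, if_neg (by omega)]
    split_ifs <;> simp

theorem c2_mul (c d : ℤ) : c2 δ (c * d) = c2 δ c * c2 δ d := by
  unfold c2
  split_ifs <;> push_cast <;> exact map_mul _ _ _

theorem c2_one : c2 δ 1 = 1 := by
  unfold c2
  split_ifs <;> push_cast <;> exact map_one _

theorem c2_congr {c d : ℤ} (hδ : Dt δ) (h : δ ∣ c - d) : c2 δ c = c2 δ d := by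
  rcases hδ with rfl | rfl | rfl
  · rw [c2_m4, c2_m4]
    rw [Int.neg_dvd] at h
    split_ifs <;> first | rfl | omega
  · rw [c2_8, c2_8]
    split_ifs <;> first | rfl | omega
  · rw [c2_m8, c2_m8]
    rw [Int.neg_dvd] at h
    split_ifs <;> first | rfl | omega

/-- primitivity -/
theorem c2_half {c : ℤ} (hδ : Dt δ) (h : ¬ (2 : ℤ) ∣ c) :
    c2 δ (c + (δ.natAbs / 2 : ℕ)) = - c2 δ c := by
  rcases hδ with rfl | rfl | rfl
  · rw [c2_m4, c2_m4, na_m4]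
    norm_num
    split_ifs <;> first | rfl | omega
  · rw [c2_8, c2_8, na_8]
    norm_num
    split_ifs <;> first | rfl | omega
  · rw [c2_m8, c2_m8, na_m8]
    norm_num
    split_ifs <;> first | rfl | omega

theorem c2_neg_one (hδ : Dt δ) : c2 δ (-1) = if δ < 0 then -1 else 1 := by
  rcases hδ with rfl | rfl | rfl
  · rw [c2_m4]; norm_num
  · rw [c2_8]; norm_num
  · rw [c2_m8]; norm_num

theorem c2_neg_one_mul (hδ : Dt δ) : c2 δ (-1) * (δ.natAbs : ℤ) = δ := by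
  rw [c2_neg_one hδ]
  rcases hδ with rfl | rfl | rfl <;> norm_num

theorem natAbs_Dt (hδ : Dt δ) : δ.natAbs = 4 ∨ δ.natAbs = 8 := by
  rcases hδ with rfl | rfl | rfl <;> simp

/-- reciprocity at `2` -/
theorem c2_nat (hδ : Dt δ) {m : ℕ} (hm : Odd m) : c2 δ m = jacobiSym δ m := by
  have h2 : jacobiSym 4 m = 1 := by
    rw [show (4 : ℤ) = 2 ^ 2 by norm_num]
    refine jacobiSym.sq_one' ?_
    rw [show (2 : ℤ) = ((2 : ℕ) : ℤ) by norm_num, Int.gcd_natCast_natCast]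
    exact (Nat.coprime_two_left).2 hm
  rcases hδ with rfl | rfl | rfl
  · unfold c2
    rw [if_pos rfl, show (-4 : ℤ) = -1 * 4 by norm_num, jacobiSym.mul_left, h2, mul_one,
      jacobiSym.at_neg_one hm]
    push_cast
    rfl
  · unfold c2
    rw [if_neg (by norm_num), if_pos rfl, show (8 : ℤ) = 2 * 4 by norm_num, jacobiSym.mul_left, h2,
      mul_one, jacobiSym.at_two hm]
    push_cast
    rfl
  · unfold c2
    rw [if_neg (by norm_num), if_neg (by norm_num), show (-8 : ℤ) = -2 * 4 by norm_num,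
      jacobiSym.mul_left, h2, mul_one, jacobiSym.at_neg_two hm]
    push_cast
    rfl

theorem c2_nat_m4 {m : ℕ} (hm : Odd m) : c2 (-4) m = jacobiSym (-1) m := by
  unfold c2
  rw [if_pos rfl, jacobiSym.at_neg_one hm]
  push_cast
  rfl

theorem c2_nat_8 {m : ℕ} (hm : Odd m) : c2 8 m = jacobiSym 2 m := by
  unfold c2
  rw [if_neg (by norm_num), if_pos rfl, jacobiSym.at_two hm]
  push_cast
  rfl

theorem c2_nat_m8 {m : ℕ} (hm : Odd m) : c2 (-8) m = jacobiSym (-2) m := by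
  unfold c2
  rw [if_neg (by norm_num), if_neg (by norm_num), jacobiSym.at_neg_two hm]
  push_cast
  rfl

/-! #### the local symbol -/

theorem md_pos (hδ : Dt δ) {p : ℕ} (hp : p.Prime) : 0 < md δ p := by
  by_cases h : p = 2
  · rw [h, md_two]
    have := natAbs_Dt hδ
    omega
  · rw [md_ne h]
    exact hp.pos

theorem dvd_md (hδ : Dt δ) {p : ℕ} : p ∣ md δ p := by
  by_cases h : p = 2
  · rw [h, md_two]
    have := natAbs_Dt hδ
    omega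
  · rw [md_ne h]

theorem prime_dvd_md (hδ : Dt δ) {p l : ℕ} (hp : p.Prime) (hl : l.Prime) : l ∣ md δ p ↔ l = p := by
  by_cases h : p = 2
  · subst h
    rw [md_two]
    constructor
    · intro h
      have h4 : l ∣ 2 ^ 3 := by
        rcases natAbs_Dt hδ with e | e <;> rw [e] at h
        · exact h.trans (by norm_num)
        · exact h
      exact (Nat.prime_dvd_prime_iff_eq hl Nat.prime_two).1 (hl.dvd_of_dvd_pow h4)
    · rintro rfl
      have := natAbs_Dt hδ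
      omega
  · rw [md_ne h]
    exact Nat.prime_dvd_prime_iff_eq hl hp

theorem sy_mul {p : ℕ} (c d : ℤ) : sy δ p (c * d) = sy δ p c * sy δ p d := by
  by_cases h : p = 2
  · subst h
    rw [sy_two, sy_two, sy_two, c2_mul]
  · rw [sy_ne h, sy_ne h, sy_ne h, jacobiSym.mul_left]

theorem sy_one {p : ℕ} : sy δ p 1 = 1 := by
  by_cases h : p = 2
  · subst h
    rw [sy_two, c2_one]
  · rw [sy_ne h, jacobiSym.one_left]

theorem sy_congr (hδ : Dt δ) {p : ℕ} {c d : ℤ} (h : (md δ p : ℤ) ∣ c - d) :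
    sy δ p c = sy δ p d := by
  by_cases h2 : p = 2
  · subst h2
    rw [md_two, Int.natAbs_dvd] at h
    rw [sy_two, sy_two, c2_congr hδ h]
  · rw [md_ne h2] at h
    have h3 : c % p = d % p := Int.emod_eq_emod_iff_emod_sub_eq_zero.2 (Int.emod_eq_zero_of_dvd h)
    rw [sy_ne h2, sy_ne h2, jacobiSym.mod_left c, jacobiSym.mod_left d, h3]

theorem sy_dvd (hδ : Dt δ) {p : ℕ} (hp : p.Prime) {c : ℤ} (h : (p : ℤ) ∣ c) : sy δ p c = 0 := by
  by_cases h2 : p = 2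
  · subst h2
    rw [sy_two, c2_even hδ h]
  · rw [sy_ne h2]
    have i1 : NeZero p := ⟨hp.ne_zero⟩
    rw [jacobiSym.eq_zero_iff_not_coprime]
    intro h3
    have h4 : (p : ℤ) ∣ Int.gcd c p := Int.dvd_coe_gcd h dvd_rfl
    rw [h3] at h4
    have h5 := hp.one_lt
    have h6 := Int.le_of_dvd (by norm_num) h4
    push_cast at h6
    omega

theorem sy_pm (hδ : Dt δ) {p : ℕ} (hp : p.Prime) {c : ℤ} (h : ¬ (p : ℤ) ∣ c) :
    sy δ p c = 1 ∨ sy δ p c = -1 := by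
  by_cases h2 : p = 2
  · subst h2
    rw [sy_two]
    exact c2_pm hδ h
  · rw [sy_ne h2]
    refine jacobiSym.eq_one_or_neg_one ?_
    rw [Int.gcd_comm]
    exact (Int.isCoprime_iff_gcd_eq_one).1 ((Nat.prime_iff_prime_int.1 hp).coprime_iff_not_dvd.2 h)

theorem sy_zero_iff (hδ : Dt δ) {p : ℕ} (hp : p.Prime) {c : ℤ} : sy δ p c = 0 ↔ (p : ℤ) ∣ c := by
  refine ⟨fun h => ?_, sy_dvd hδ hp⟩
  by_contra h1
  rcases sy_pm hδ hp h1 with h2 | h2 <;> rw [h] at h2 <;> norm_num at h2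

/-- reciprocity -/
theorem sy_nat (hδ : Dt δ) {p : ℕ} (hp : p.Prime) {m : ℕ} (hm : Odd m) :
    sy δ p m = jacobiSym (sy δ p (-1) * md δ p) m := by
  by_cases h2 : p = 2
  · subst h2
    rw [sy_two, sy_two, md_two, c2_nat hδ hm, c2_neg_one_mul hδ]
  · have ho := hp.odd_of_ne_two h2
    rw [sy_ne h2, sy_ne h2, md_ne h2, jacobiSym.mul_left, jacobiSym.at_neg_one ho,
      jacobiSym.quadratic_reciprocity' hm ho]
    rfl

/-! #### products -/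

theorem pe_empty : pe δ ∅ = 1 := prod_empty

theorem ch_empty (c : ℤ) : ch δ ∅ c = 1 := prod_empty

theorem sg_empty : sg δ ∅ = 1 := ch_empty _

theorem pe_union {X Z : Finset ℕ} (h : Disjoint X Z) : pe δ (X ∪ Z) = pe δ X * pe δ Z :=
  prod_union h

theorem ch_union {X Z : Finset ℕ} (h : Disjoint X Z) (c : ℤ) :
    ch δ (X ∪ Z) c = ch δ X c * ch δ Z c := prod_union h

theorem sg_union {X Z : Finset ℕ} (h : Disjoint X Z) : sg δ (X ∪ Z) = sg δ X * sg δ Z :=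
  ch_union h _

theorem pe_sdiff {P N : Finset ℕ} (h : P ⊆ N) : pe δ N = pe δ P * pe δ (N \ P) := by
  unfold pe
  rw [mul_comm, prod_sdiff h]

theorem ch_sdiff {P N : Finset ℕ} (h : P ⊆ N) (c : ℤ) : ch δ N c = ch δ P c * ch δ (N \ P) c := by
  unfold ch
  rw [mul_comm, prod_sdiff h]

theorem sg_sdiff {P N : Finset ℕ} (h : P ⊆ N) : sg δ N = sg δ P * sg δ (N \ P) := ch_sdiff h _

theorem pe_single (p : ℕ) : pe δ {p} = md δ p := prod_singleton _ _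

theorem ch_single (p : ℕ) (c : ℤ) : ch δ {p} c = sy δ p c := prod_singleton _ _

theorem pe_insert {p : ℕ} {X : Finset ℕ} (h : p ∉ X) : pe δ (insert p X) = md δ p * pe δ X :=
  prod_insert h

theorem ch_insert {p : ℕ} {X : Finset ℕ} (h : p ∉ X) (c : ℤ) :
    ch δ (insert p X) c = sy δ p c * ch δ X c := prod_insert h

theorem pe_erase {p : ℕ} {N : Finset ℕ} (h : p ∈ N) : pe δ N = md δ p * pe δ (N.erase p) :=
  (mul_prod_erase N (md δ) h).symm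

theorem ch_erase {p : ℕ} {N : Finset ℕ} (h : p ∈ N) (c : ℤ) :
    ch δ N c = sy δ p c * ch δ (N.erase p) c := (mul_prod_erase N (fun p => sy δ p c) h).symm

theorem pe_two {N : Finset ℕ} (h : 2 ∈ N) : pe δ N = δ.natAbs * pr (N.erase 2) := by
  rw [pe_erase h, md_two, pe_odd (by simp)]

theorem ch_two {N : Finset ℕ} (hN : Pe N) (h : 2 ∈ N) (c : ℤ) :
    ch δ N c = c2 δ c * jacobiSym c (pr (N.erase 2)) := by
  rw [ch_erase h, sy_two, ch_odd (Pe.mono hN (erase_subset _ _)) (by simp)]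

theorem sg_two {N : Finset ℕ} (hN : Pe N) (h : 2 ∈ N) :
    sg δ N = c2 δ (-1) * jacobiSym (-1) (pr (N.erase 2)) := ch_two hN h _

theorem ch_mul {X : Finset ℕ} (c d : ℤ) : ch δ X (c * d) = ch δ X c * ch δ X d := by
  unfold ch
  rw [← prod_mul_distrib]
  exact prod_congr rfl fun p _ => sy_mul c d

theorem ch_one {X : Finset ℕ} : ch δ X 1 = 1 := by
  unfold ch
  exact prod_eq_one fun p _ => sy_one

theorem ch_neg {X : Finset ℕ} (c : ℤ) : ch δ X (-c) = sg δ X * ch δ X c := by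
  rw [show -c = -1 * c by ring, ch_mul]
  rfl

theorem dvd_pe {X : Finset ℕ} {p : ℕ} (h : p ∈ X) : md δ p ∣ pe δ X := dvd_prod_of_mem _ h

theorem ch_congr (hδ : Dt δ) {X : Finset ℕ} {c d : ℤ} (h : (pe δ X : ℤ) ∣ c - d) :
    ch δ X c = ch δ X d := by
  unfold ch
  exact prod_congr rfl fun p hp =>
    sy_congr hδ ((Int.natCast_dvd_natCast.2 (dvd_pe hp)).trans h)

theorem ch_add_mul (hδ : Dt δ) {X : Finset ℕ} (c k : ℤ) :
    ch δ X (c + k * pe δ X) = ch δ X c := ch_congr hδ ⟨k, by ring⟩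

theorem ch_add_mul' (hδ : Dt δ) {X : Finset ℕ} (c k : ℤ) :
    ch δ X (c + pe δ X * k) = ch δ X c := ch_congr hδ ⟨k, by ring⟩

/-! #### the number `pe` -/

theorem pe_pos (hδ : Dt δ) {X : Finset ℕ} (hX : Pe X) : 0 < pe δ X :=
  prod_pos fun p hp => md_pos hδ (hX p hp).1

theorem pe_ne (hδ : Dt δ) {X : Finset ℕ} (hX : Pe X) : pe δ X ≠ 0 := (pe_pos hδ hX).ne'

theorem pe_posZ (hδ : Dt δ) {X : Finset ℕ} (hX : Pe X) : (0 : ℤ) < pe δ X := by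
  exact_mod_cast pe_pos hδ hX

theorem prime_dvd_pe (hδ : Dt δ) {X : Finset ℕ} (hX : Pe X) {l : ℕ} (hl : l.Prime) :
    l ∣ pe δ X ↔ l ∈ X := by
  unfold pe
  rw [Prime.dvd_finsetProd_iff hl.prime]
  constructor
  · rintro ⟨p, hp, h⟩
    rw [prime_dvd_md hδ (hX p hp).1 hl] at h
    exact h ▸ hp
  · intro h
    exact ⟨l, h, dvd_md hδ⟩

theorem pe_primeFactors (hδ : Dt δ) {X : Finset ℕ} (hX : Pe X) : (pe δ X).primeFactors = X := by
  ext l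
  rw [Nat.mem_primeFactors]
  constructor
  · rintro ⟨hl, h, _⟩
    exact (prime_dvd_pe hδ hX hl).1 h
  · intro h
    exact ⟨(hX l h).1, (prime_dvd_pe hδ hX (hX l h).1).2 h, pe_ne hδ hX⟩

theorem pe_dvd {P N : Finset ℕ} (h : P ⊆ N) : pe δ P ∣ pe δ N := ⟨_, pe_sdiff h⟩

theorem pe_coprime (hδ : Dt δ) {X Z : Finset ℕ} (hX : Pe X) (hZ : Pe Z) (h : Disjoint X Z) :
    Nat.Coprime (pe δ X) (pe δ Z) := by
  refine Nat.Coprime.symm ?_
  by_contra h1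
  obtain ⟨l, hl, h2, h3⟩ := Nat.Prime.not_coprime_iff_dvd.1 h1
  exact disjoint_left.1 h ((prime_dvd_pe hδ hX hl).1 h3) ((prime_dvd_pe hδ hZ hl).1 h2)

theorem pe_four {X : Finset ℕ} (hδ : Dt δ) (h : 2 ∈ X) : 4 ∣ pe δ X := by
  have h1 : md δ 2 ∣ pe δ X := dvd_pe h
  rw [md_two] at h1
  rcases natAbs_Dt hδ with e | e <;> rw [e] at h1
  · exact h1
  · exact (by norm_num : 4 ∣ 8).trans h1

theorem pe_odd_iff (hδ : Dt δ) {X : Finset ℕ} (hX : Pe X) : Odd (pe δ X) ↔ 2 ∉ X := by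
  rw [← prime_dvd_pe hδ hX Nat.prime_two, Nat.two_dvd_ne_zero, Nat.odd_iff]

theorem pe_odd' {X : Finset ℕ} (hX : Pe X) (h : 2 ∉ X) : Odd (pe δ X) := by
  rw [pe_odd h, Nat.odd_iff]
  exact pr_mod2 hX h

theorem pe_m4 {X : Finset ℕ} (hX : Pe X) (h : 2 ∈ X) : pe (-4) X % 8 = 4 := by
  have h1 := pr_mod2 (Pe.mono hX (erase_subset 2 _)) (by simp)
  rw [pe_two h, na_m4]
  omega

theorem pe_8 {X : Finset ℕ} (hX : Pe X) (h : 2 ∈ X) : pe 8 X % 16 = 8 := by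
  have h1 := pr_mod2 (Pe.mono hX (erase_subset 2 _)) (by simp)
  rw [pe_two h, na_8]
  omega

theorem pe_m8 {X : Finset ℕ} (hX : Pe X) (h : 2 ∈ X) : pe (-8) X % 16 = 8 := by
  have h1 := pr_mod2 (Pe.mono hX (erase_subset 2 _)) (by simp)
  rw [pe_two h, na_m8]
  omega

theorem pe_mod3 (hδ : Dt δ) {X : Finset ℕ} (hX : Pe X) : pe δ X % 3 = 1 ∨ pe δ X % 3 = 2 := by
  have h := (prime_dvd_pe hδ hX Nat.prime_three).not.2 fun h => (hX 3 h).2.1 rfl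
  omega

theorem pe_mod5 (hδ : Dt δ) {X : Finset ℕ} (hX : Pe X) :
    pe δ X % 5 = 1 ∨ pe δ X % 5 = 2 ∨ pe δ X % 5 = 3 ∨ pe δ X % 5 = 4 := by
  have h := (prime_dvd_pe hδ hX Nat.prime_five).not.2 fun h => (hX 5 h).2.2 rfl
  omega

theorem pe_cop3 (hδ : Dt δ) {X : Finset ℕ} (hX : Pe X) : Nat.Coprime (pe δ X) 3 := by
  rw [Nat.coprime_comm, Nat.Prime.coprime_iff_not_dvd Nat.prime_three,
    prime_dvd_pe hδ hX Nat.prime_three]
  exact fun h => (hX 3 h).2.1 rfl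

theorem pe_cop5 (hδ : Dt δ) {X : Finset ℕ} (hX : Pe X) : Nat.Coprime (pe δ X) 5 := by
  rw [Nat.coprime_comm, Nat.Prime.coprime_iff_not_dvd Nat.prime_five,
    prime_dvd_pe hδ hX Nat.prime_five]
  exact fun h => (hX 5 h).2.2 rfl

theorem pe_cop15 (hδ : Dt δ) {X : Finset ℕ} (hX : Pe X) : Nat.Coprime (pe δ X) 15 :=
  Nat.Coprime.mul_right (pe_cop3 hδ hX) (pe_cop5 hδ hX)

theorem pe_one_iff (hδ : Dt δ) {X : Finset ℕ} (hX : Pe X) : pe δ X = 1 ↔ X = ∅ := by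
  constructor
  · intro h
    rw [← pe_primeFactors hδ hX, h, Nat.primeFactors_one]
  · rintro rfl
    exact pe_empty

theorem pe_fac_odd (hδ : Dt δ) {X : Finset ℕ} (hX : Pe X) {p : ℕ} (hp : p ∈ X) (h2 : p ≠ 2) :
    (pe δ X).factorization p = 1 := by
  have pp := (hX p hp).1
  have hE : Pe (X.erase p) := Pe.mono hX (erase_subset _ _)
  have hn : ¬ p ∣ pe δ (X.erase p) := by
    rw [prime_dvd_pe hδ hE pp]
    simp
  rw [pe_erase hp, md_ne h2, Nat.factorization_mul pp.ne_zero (pe_ne hδ hE), Finsupp.add_apply,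
    pp.factorization_self, Nat.factorization_eq_zero_of_not_dvd hn]

theorem pe_fac_two (hδ : Dt δ) {X : Finset ℕ} (hX : Pe X) (hp : 2 ∈ X) :
    (pe δ X).factorization 2 = if δ = -4 then 2 else 3 := by
  have hE : Pe (X.erase 2) := Pe.mono hX (erase_subset _ _)
  have hn : ¬ 2 ∣ pe δ (X.erase 2) := by
    rw [prime_dvd_pe hδ hE Nat.prime_two]
    simp
  have h0 : md δ 2 ≠ 0 := (md_pos hδ Nat.prime_two).ne'
  have h1 : (md δ 2).factorization 2 = if δ = -4 then 2 else 3 := by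
    rw [md_two]
    rcases hδ with rfl | rfl | rfl
    · rw [na_m4, if_pos rfl, show (4 : ℕ) = 2 ^ 2 by norm_num,
        Nat.Prime.factorization_pow Nat.prime_two]
      simp
    · rw [na_8, if_neg (by norm_num), show (8 : ℕ) = 2 ^ 3 by norm_num,
        Nat.Prime.factorization_pow Nat.prime_two]
      simp
    · rw [na_m8, if_neg (by norm_num), show (8 : ℕ) = 2 ^ 3 by norm_num,
        Nat.Prime.factorization_pow Nat.prime_two]
      simp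
  rw [pe_erase hp, Nat.factorization_mul h0 (pe_ne hδ hE), Finsupp.add_apply, h1,
    Nat.factorization_eq_zero_of_not_dvd hn, add_zero]

/-! #### values of the character -/

theorem cop_iff (hδ : Dt δ) {X : Finset ℕ} (hX : Pe X) {c : ℤ} :
    IsCoprime c (pe δ X) ↔ ∀ p ∈ X, ¬ (p : ℤ) ∣ c := by
  constructor
  · intro h p hp hc
    have h1 : (p : ℤ) ∣ pe δ X := Int.natCast_dvd_natCast.2 ((prime_dvd_pe hδ hX (hX p hp).1).2 hp)
    have h2 := h.isUnit_of_dvd' hc h1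
    have h3 := Int.isUnit_iff.1 h2
    have h4 := (hX p hp).1.one_lt
    omega
  · intro h
    rw [Int.isCoprime_iff_gcd_eq_one]
    by_contra h1
    obtain ⟨l, hl, h2⟩ := Nat.exists_prime_and_dvd h1
    have h3 : (l : ℤ) ∣ c := (Int.natCast_dvd_natCast.2 h2).trans (Int.gcd_dvd_left ..)
    have h4 : (l : ℤ) ∣ pe δ X := (Int.natCast_dvd_natCast.2 h2).trans (Int.gcd_dvd_right ..)
    exact h l ((prime_dvd_pe hδ hX hl).1 (Int.natCast_dvd_natCast.1 h4)) h3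

theorem ch_zero_iff (hδ : Dt δ) {X : Finset ℕ} (hX : Pe X) {c : ℤ} :
    ch δ X c = 0 ↔ ¬ IsCoprime c (pe δ X) := by
  rw [cop_iff hδ hX]
  unfold ch
  rw [prod_eq_zero_iff]
  push Not
  exact exists_congr fun p => and_congr_right fun hp => sy_zero_iff hδ (hX p hp).1

theorem ch_pm (hδ : Dt δ) {X : Finset ℕ} (hX : Pe X) {c : ℤ} (h : IsCoprime c (pe δ X)) :
    ch δ X c = 1 ∨ ch δ X c = -1 := by
  rw [cop_iff hδ hX] at h
  unfold ch
  refine prod_induction _ (fun x => x = 1 ∨ x = -1) ?_ (Or.inl rfl) fun p hp =>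
    sy_pm hδ (hX p hp).1 (h p hp)
  rintro a b (rfl | rfl) (rfl | rfl) <;> simp

theorem ch_pm_nat (hδ : Dt δ) {X : Finset ℕ} (hX : Pe X) {t : ℕ} (h : Nat.Coprime t (pe δ X)) :
    ch δ X t = 1 ∨ ch δ X t = -1 := ch_pm hδ hX (Nat.isCoprime_iff_coprime.2 h)

theorem ch_sq (hδ : Dt δ) {X : Finset ℕ} (hX : Pe X) {c : ℤ} (h : IsCoprime c (pe δ X)) :
    ch δ X c * ch δ X c = 1 := by
  rcases ch_pm hδ hX h with e | e <;> rw [e] <;> norm_num

theorem sg_pm (hδ : Dt δ) {X : Finset ℕ} (hX : Pe X) : sg δ X = 1 ∨ sg δ X = -1 :=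
  ch_pm hδ hX (isCoprime_one_left.neg_left)

theorem sg_sq (hδ : Dt δ) {X : Finset ℕ} (hX : Pe X) : sg δ X * sg δ X = 1 :=
  ch_sq hδ hX (isCoprime_one_left.neg_left)

/-- primitivity at `2` (for all `c`) -/
theorem ch_half (hδ : Dt δ) {X : Finset ℕ} (hX : Pe X) (h : 2 ∈ X) (c : ℤ) :
    ch δ X (c + (pe δ X / 2 : ℕ)) = - ch δ X c := by
  have h1 := pr_mod2 (Pe.mono hX (erase_subset 2 _)) (by simp)
  obtain ⟨k, hk⟩ : ∃ k, pr (X.erase 2) = 2 * k + 1 := ⟨pr (X.erase 2) / 2, by omega⟩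
  have e : pe δ X / 2 = (δ.natAbs / 2) * pr (X.erase 2) := by
    rw [pe_two h]
    rcases natAbs_Dt hδ with e | e <;> rw [e] <;> omega
  have hE : Pe (X.erase 2) := Pe.mono hX (erase_subset _ _)
  rw [ch_erase h, ch_erase h, sy_two, sy_two, e]
  have e2 : ch δ (X.erase 2) (c + ((δ.natAbs / 2 * pr (X.erase 2) : ℕ) : ℤ)) =
      ch δ (X.erase 2) c := by
    refine ch_congr hδ ⟨((δ.natAbs / 2 : ℕ) : ℤ), ?_⟩
    rw [pe_odd (by simp)]
    push_cast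
    ring
  rw [e2]
  by_cases hc : (2 : ℤ) ∣ c
  · have h3 : (2 : ℤ) ∣ c + ((δ.natAbs / 2 * pr (X.erase 2) : ℕ) : ℤ) := by
      refine dvd_add hc (Int.natCast_dvd_natCast.2 (Dvd.dvd.mul_right ?_ _))
      rcases natAbs_Dt hδ with e | e <;> rw [e]
      norm_num
    rw [c2_even hδ h3, c2_even hδ hc]
    simp
  · have h3 : c2 δ (c + ((δ.natAbs / 2 * pr (X.erase 2) : ℕ) : ℤ)) =
        c2 δ (c + (δ.natAbs / 2 : ℕ)) := by
      refine c2_congr hδ ?_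
      rw [← Int.natAbs_dvd]
      refine ⟨k, ?_⟩
      rw [hk]
      rcases natAbs_Dt hδ with e | e <;> rw [e] <;> push_cast <;> ring
    rw [h3, c2_half hδ hc]
    ring

theorem js_prod_left (m : ℕ) (f : ℕ → ℤ) (X : Finset ℕ) :
    ∏ p ∈ X, jacobiSym (f p) m = jacobiSym (∏ p ∈ X, f p) m := by
  induction X using Finset.induction_on with
  | empty => simp [jacobiSym.one_left]
  | insert a s ha ih => rw [prod_insert ha, prod_insert ha, ih, jacobiSym.mul_left]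

/-- reciprocity -/
theorem ch_nat (hδ : Dt δ) {X : Finset ℕ} (hX : Pe X) {m : ℕ} (hm : Odd m) :
    ch δ X m = jacobiSym (sg δ X * pe δ X) m := by
  have e : sg δ X * (pe δ X : ℤ) = ∏ p ∈ X, (sy δ p (-1) * md δ p) := by
    unfold sg ch pe
    push_cast
    rw [prod_mul_distrib]
  rw [e, ← js_prod_left]
  unfold ch
  exact prod_congr rfl fun p hp => sy_nat hδ (hX p hp).1 hm

/-! #### the classes -/

theorem Ja_empty : Ja δ ∅ := ⟨sg_empty, by rw [pe_empty], Or.inl (by rw [pe_empty])⟩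

theorem cls_cases (hδ : Dt δ) {X Z : Finset ℕ} (hX : Pe X) (hZ : Pe Z) (h : Disjoint X Z) :
    (sg δ X = 1 ∨ sg δ X = -1) ∧ (sg δ Z = 1 ∨ sg δ Z = -1) ∧
    (sg δ (X ∪ Z) = sg δ X * sg δ Z) ∧
    (pe δ X % 3 = 1 ∨ pe δ X % 3 = 2) ∧ (pe δ Z % 3 = 1 ∨ pe δ Z % 3 = 2) ∧
    (pe δ (X ∪ Z) % 3 = (pe δ X % 3) * (pe δ Z % 3) % 3) ∧
    (pe δ X % 5 = 1 ∨ pe δ X % 5 = 2 ∨ pe δ X % 5 = 3 ∨ pe δ X % 5 = 4) ∧
    (pe δ Z % 5 = 1 ∨ pe δ Z % 5 = 2 ∨ pe δ Z % 5 = 3 ∨ pe δ Z % 5 = 4) ∧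
    (pe δ (X ∪ Z) % 5 = (pe δ X % 5) * (pe δ Z % 5) % 5) := by
  refine ⟨sg_pm hδ hX, sg_pm hδ hZ, sg_union h, pe_mod3 hδ hX, pe_mod3 hδ hZ, ?_, pe_mod5 hδ hX,
    pe_mod5 hδ hZ, ?_⟩
  · rw [pe_union h, Nat.mul_mod]
  · rw [pe_union h, Nat.mul_mod]

theorem cls_excl {X : Finset ℕ} : (Ja δ X → ¬ Jb δ X ∧ ¬ Jc δ X ∧ ¬ Jd δ X) ∧
    (Jb δ X → ¬ Ja δ X ∧ ¬ Jc δ X ∧ ¬ Jd δ X) ∧ (Jc δ X → ¬ Ja δ X ∧ ¬ Jb δ X ∧ ¬ Jd δ X) ∧
    (Jd δ X → ¬ Ja δ X ∧ ¬ Jb δ X ∧ ¬ Jc δ X) := by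
  unfold Ja Jb Jc Jd
  omega

/-- the class of a union with a set of the class `a` -/
theorem Ja_union (hδ : Dt δ) {X Z : Finset ℕ} (hX : Pe X) (hZ : Pe Z) (h : Disjoint X Z)
    (h1 : Ja δ X) :
    (Ja δ (X ∪ Z) ↔ Ja δ Z) ∧ (Jb δ (X ∪ Z) ↔ Jb δ Z) ∧ (Jc δ (X ∪ Z) ↔ Jc δ Z) ∧
      (Jd δ (X ∪ Z) ↔ Jd δ Z) := by
  obtain ⟨a1, a2, a3, a4, a5, a6, a7, a8, a9⟩ := cls_cases hδ hX hZ h
  unfold Ja at h1
  obtain ⟨b1, b2, b3⟩ := h1
  rw [b1] at a3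
  rw [b2] at a6
  unfold Ja Jb Jc Jd
  rcases b3 with b3 | b3 <;> rw [b3] at a9 <;> rcases a2 with a2 | a2 <;>
    rcases a5 with a5 | a5 <;> rcases a8 with a8 | a8 | a8 | a8 <;> rw [a2] at a3 <;>
    rw [a5] at a6 <;> rw [a8] at a9 <;> simp only [a2, a5, a8, a3, a6, a9] <;> decide

/-- the class of a union with a set of the class `b` -/
theorem Jb_union (hδ : Dt δ) {X Z : Finset ℕ} (hX : Pe X) (hZ : Pe Z) (h : Disjoint X Z)
    (h1 : Jb δ X) :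
    (Jb δ (X ∪ Z) ↔ Ja δ Z) ∧ (Ja δ (X ∪ Z) ↔ Jb δ Z) ∧ (Jd δ (X ∪ Z) ↔ Jc δ Z) ∧
      (Jc δ (X ∪ Z) ↔ Jd δ Z) := by
  obtain ⟨a1, a2, a3, a4, a5, a6, a7, a8, a9⟩ := cls_cases hδ hX hZ h
  unfold Jb at h1
  obtain ⟨b1, b2, b3⟩ := h1
  rw [b1] at a3
  rw [b2] at a6
  unfold Ja Jb Jc Jd
  rcases b3 with b3 | b3 <;> rw [b3] at a9 <;> rcases a2 with a2 | a2 <;>
    rcases a5 with a5 | a5 <;> rcases a8 with a8 | a8 | a8 | a8 <;> rw [a2] at a3 <;>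
    rw [a5] at a6 <;> rw [a8] at a9 <;> simp only [a2, a5, a8, a3, a6, a9] <;> decide

/-- the class of a union with a set of the class `c` -/
theorem Jc_union (hδ : Dt δ) {X Z : Finset ℕ} (hX : Pe X) (hZ : Pe Z) (h : Disjoint X Z)
    (h1 : Jc δ X) :
    (Jc δ (X ∪ Z) ↔ Ja δ Z) ∧ (Jd δ (X ∪ Z) ↔ Jb δ Z) ∧ (Ja δ (X ∪ Z) ↔ Jc δ Z) ∧
      (Jb δ (X ∪ Z) ↔ Jd δ Z) := by
  obtain ⟨a1, a2, a3, a4, a5, a6, a7, a8, a9⟩ := cls_cases hδ hX hZ h
  unfold Jc at h1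
  obtain ⟨b1, b2, b3⟩ := h1
  rw [b1] at a3
  rw [b2] at a6
  unfold Ja Jb Jc Jd
  rcases b3 with b3 | b3 <;> rw [b3] at a9 <;> rcases a2 with a2 | a2 <;>
    rcases a5 with a5 | a5 <;> rcases a8 with a8 | a8 | a8 | a8 <;> rw [a2] at a3 <;>
    rw [a5] at a6 <;> rw [a8] at a9 <;> simp only [a2, a5, a8, a3, a6, a9] <;> decide

/-- the class of a union with a set of the class `d` -/
theorem Jd_union (hδ : Dt δ) {X Z : Finset ℕ} (hX : Pe X) (hZ : Pe Z) (h : Disjoint X Z)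
    (h1 : Jd δ X) :
    (Jd δ (X ∪ Z) ↔ Ja δ Z) ∧ (Jc δ (X ∪ Z) ↔ Jb δ Z) ∧ (Jb δ (X ∪ Z) ↔ Jc δ Z) ∧
      (Ja δ (X ∪ Z) ↔ Jd δ Z) := by
  obtain ⟨a1, a2, a3, a4, a5, a6, a7, a8, a9⟩ := cls_cases hδ hX hZ h
  unfold Jd at h1
  obtain ⟨b1, b2, b3⟩ := h1
  rw [b1] at a3
  rw [b2] at a6
  unfold Ja Jb Jc Jd
  rcases b3 with b3 | b3 <;> rw [b3] at a9 <;> rcases a2 with a2 | a2 <;>
    rcases a5 with a5 | a5 <;> rcases a8 with a8 | a8 | a8 | a8 <;> rw [a2] at a3 <;>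
    rw [a5] at a6 <;> rw [a8] at a9 <;> simp only [a2, a5, a8, a3, a6, a9] <;> decide

/-- the class of a union -/
theorem Jmul (hδ : Dt δ) {X Z : Finset ℕ} (hX : Pe X) (hZ : Pe Z) (h : Disjoint X Z) :
    (Ja δ X → Ja δ Z → Ja δ (X ∪ Z)) ∧ (Ja δ X → Jb δ Z → Jb δ (X ∪ Z)) ∧
    (Ja δ X → Jc δ Z → Jc δ (X ∪ Z)) ∧ (Ja δ X → Jd δ Z → Jd δ (X ∪ Z)) ∧
    (Jb δ X → Jb δ Z → Ja δ (X ∪ Z)) ∧ (Jb δ X → Jc δ Z → Jd δ (X ∪ Z)) ∧
    (Jb δ X → Jd δ Z → Jc δ (X ∪ Z)) ∧ (Jc δ X → Jc δ Z → Ja δ (X ∪ Z)) ∧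
    (Jc δ X → Jd δ Z → Jb δ (X ∪ Z)) ∧ (Jd δ X → Jd δ Z → Ja δ (X ∪ Z)) :=
  ⟨fun h1 => (Ja_union hδ hX hZ h h1).1.2, fun h1 => (Ja_union hδ hX hZ h h1).2.1.2,
    fun h1 => (Ja_union hδ hX hZ h h1).2.2.1.2, fun h1 => (Ja_union hδ hX hZ h h1).2.2.2.2,
    fun h1 => (Jb_union hδ hX hZ h h1).2.1.2, fun h1 => (Jb_union hδ hX hZ h h1).2.2.1.2,
    fun h1 => (Jb_union hδ hX hZ h h1).2.2.2.2, fun h1 => (Jc_union hδ hX hZ h h1).2.2.1.2,
    fun h1 => (Jc_union hδ hX hZ h h1).2.2.2.2, fun h1 => (Jd_union hδ hX hZ h h1).2.2.2.2⟩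

end Pool.Agent.XW.Od
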