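import Pool.Agent.XW.T.Part
import Pool.Agent.XV.T.Fin
import Pool.Agent.XV.T.Cls
import Pool.Agent.NH3.XE.Fin

/-!
# Project XW: the final statement for all the imaginary quadratic fields in which `3` splits and `5`
is inert (by the discriminant)
-/

set_option autoImplicit false

namespace Pool.Agent.XW.F

open Pool.Agent.NH3.XE (FD KrF fd_odd krF_odd fd_ev)
open Pool.Agent.XV.T (RZ)
open Pool.Agent.Y687 (RankBSD)

/-- the squarefree integer `d` with `ℚ(√D) = ℚ(√d)`, for a discriminant `D` -/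
def sqf (D : ℤ) : ℤ := if D % 4 = 0 then D / 4 else D

theorem fd_cases {D : ℤ} (h : FD D) :
    (D % 4 = 1 ∧ sqf D = D ∧ Pool.Agent.NH3.XD.DB D) ∨
    (D % 4 = 0 ∧ sqf D = D / 4 ∧
      XW.T.Ev (Pool.Agent.NH3.XE.dl D) D.natAbs.primeFactors (D / 4)) := by
  rcases h.2.1 with h1 | h1
  · left
    refine ⟨h1.1, if_neg (by omega), (fd_odd.1 ⟨h, by omega⟩)⟩
  · right
    exact ⟨h1.1, if_pos h1.1, fd_ev h (by omega)⟩

/-- **the final statement** -/
theorem all_out {D : ℤ} (h : FD D) : (RZ (sqf D) ↔ KrF D) ∧ (KrF D ↔ XR.NoFour (sqf D)) ∧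
    (RZ (sqf D) → RankBSD (-12987 * sqf D ^ 2) (-263466 * sqf D ^ 3)) := by
  rcases fd_cases h with ⟨-, h2, h3⟩ | ⟨-, h2, h3⟩
  · rw [h2]
    obtain ⟨-, -, g1, g2, -⟩ := Pool.Agent.XV.T.out D h3
    rw [krF_odd h3]
    exact ⟨g1, Pool.Agent.XV.T.krD_noFour h3, g2⟩
  · rw [h2]
    exact XW.T.outE _ _ _ h3

theorem ne_zero {D : ℤ} (h : FD D) : sqf D ≠ 0 := by
  have h0 := h.1
  rcases fd_cases h with ⟨-, h2, h3⟩ | ⟨-, h2, h3⟩
  · rw [h2]
    omega
  · rw [h2]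
    omega

end Pool.Agent.XW.F
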