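import Pool.Agent.XV.Defs2

/-!
# Twists of `X_0(15)` by all imaginary quadratic fields in which `3` splits and `5` is inert

Project XW: the extension of the project XV to the even discriminants.  A finite set `N` of primes
different from `3` and `5`, which may contain `2`, is the discriminant `∏ p*` up to sign, where `2`
stands for the prime discriminant `δ = -4, 8, -8`.  `pe δ N` is its absolute value, `ch δ N` its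
Kronecker symbol, `sg δ N` the value at `-1`.  For `2 ∉ N` everything is as in the project XV.
The character which belongs to `2` on the vectors of norm `pe δ N` is the orientation at `q` (`om`) times the
product of all the other characters.
-/

set_option autoImplicit false

namespace Pool.Agent.XW

open Finset
open Pool.Agent.Z700 (V3 un hh)
open Pool.Agent.NH1 (rd)
open Pool.Agent.NH2 (wp ev)
open Pool.Agent.XV (bl vec LN rl ph Ph Coc UV cpa cpl EM SyM S_PHI S_REF)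
open Pool.Agent.Y687 (saw)

noncomputable section

/-! ### discriminants -/

/-- the prime discriminants at `2` -/
def Dt (δ : ℤ) : Prop := δ = -4 ∨ δ = 8 ∨ δ = -8

/-- the Kronecker symbol of `δ` -/
def c2 (δ c : ℤ) : ℤ := if δ = -4 then ZMod.χ₄ c else if δ = 8 then ZMod.χ₈ c else ZMod.χ₈' c

/-- the symbol at `p` -/
def sy (δ : ℤ) (p : ℕ) (c : ℤ) : ℤ := if p = 2 then c2 δ c else jacobiSym c p

/-- the modulus at `p` -/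
def md (δ : ℤ) (p : ℕ) : ℕ := if p = 2 then δ.natAbs else p

/-- the absolute value of the discriminant -/
def pe (δ : ℤ) (X : Finset ℕ) : ℕ := ∏ p ∈ X, md δ p

/-- the character -/
def ch (δ : ℤ) (X : Finset ℕ) (c : ℤ) : ℤ := ∏ p ∈ X, sy δ p c

/-- the sign -/
def sg (δ : ℤ) (X : Finset ℕ) : ℤ := ch δ X (-1)

/-- the primes which occur -/
def Pe (P : Finset ℕ) : Prop := ∀ p ∈ P, p.Prime ∧ p ≠ 3 ∧ p ≠ 5

/-! ### classes (for `2 ∉ X` these are the classes `Ka`, `Kb`, `Kc`, `Kd` of `pr X`) -/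

def Ja (δ : ℤ) (X : Finset ℕ) : Prop := sg δ X = 1 ∧ pe δ X % 3 = 1 ∧ (pe δ X % 5 = 1 ∨ pe δ X % 5 = 4)
def Jb (δ : ℤ) (X : Finset ℕ) : Prop := sg δ X = -1 ∧ pe δ X % 3 = 2 ∧ (pe δ X % 5 = 2 ∨ pe δ X % 5 = 3)
def Jc (δ : ℤ) (X : Finset ℕ) : Prop := sg δ X = 1 ∧ pe δ X % 3 = 2 ∧ (pe δ X % 5 = 2 ∨ pe δ X % 5 = 3)
def Jd (δ : ℤ) (X : Finset ℕ) : Prop := sg δ X = -1 ∧ pe δ X % 3 = 1 ∧ (pe δ X % 5 = 1 ∨ pe δ X % 5 = 4)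

/-- the exceptional case `ℚ(i)` -/
def Xi (δ : ℤ) (N : Finset ℕ) : Prop := δ = -4 ∧ N = {2}

/-! ### the sums -/

/-- the linear form with `bl q v w = c (el q v) (el q w)` modulo `q` (`c = 3` for `q = 5`, `c = 1` for
`q = 3`) -/
def el (q : ℕ) (v : V3) : ℤ := if q = 5 then v 0 + 3 * v 1 + 2 * v 2 else v 1 - v 2

/-- the orientation at `q` of a vector of norm `M` -/
def om (q M : ℕ) (v : V3) : ℤ := if (q : ℤ) ∣ el q v - (if q = 5 ∧ M % 5 = 2 then 2 else 1) then 1 else -1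

/-- the character of the vectors of norm `pe δ N` which belongs to `p ∈ N` -/
def gm (δ : ℤ) (q : ℕ) (N : Finset ℕ) (p : ℕ) (v : V3) : ℤ :=
  if p = 2 then om q (pe δ N) v * Ph q (N.erase 2) v else ph q p (rd p v)

/-- the product of the characters of the subset `P` of `N` -/
def Pt (δ : ℤ) (q : ℕ) (N P : Finset ℕ) (v : V3) : ℤ := ∏ p ∈ P, gm δ q N p v

/-- the sum over the vectors on the line -/
def A (δ : ℤ) (q : ℕ) (N P : Finset ℕ) (β : ℤ) : ℤ := ∑ v ∈ (vec q (pe δ N)).filter (LN q β), Pt δ q N P v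

/-- the sums of the lattice `L 5` -/
def S5 (δ : ℤ) (N P : Finset ℕ) (β : ℤ) : ℤ :=
  4 * A δ 5 N P β - if P = ∅ then ((vec 5 (pe δ N)).card : ℤ) else 0

open Classical in
/-- the number of vectors on the line with given characters -/
def AC (δ : ℤ) (q : ℕ) (N : Finset ℕ) (β : ℤ) (γ : ℕ → ℤ) : ℕ :=
  ((vec q (pe δ N : ℤ)).filter fun v => LN q β v ∧ ∀ p ∈ N, gm δ q N p v = γ p).card

/-- VAN5: the sums of the lattice `L 5` vanish -/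
def S_VAN5 : Prop := ∀ δ : ℤ, Dt δ → ∀ N : Finset ℕ, Pe N → Jb δ N → ∀ β : ℤ,
  (3 : ℤ) ∣ β ^ 2 + pe δ N → ∀ P ⊆ N, P.Nonempty → ¬ Ja δ P → ¬ Jd δ P → A δ 5 N P β = 0

/-- VAN3: the sums of the lattice `L 3` vanish -/
def S_VAN3 : Prop := ∀ δ : ℤ, Dt δ → ∀ N : Finset ℕ, Pe N → Jd δ N → ∀ β : ℤ,
  (5 : ℤ) ∣ β ^ 2 + pe δ N → ∀ P ⊆ N, P.Nonempty → ¬ Jc δ P → ¬ Jd δ P → A δ 3 N P β = 0

/-- V4: the sums over all vectors vanish -/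
def S_V4 : Prop := ∀ δ : ℤ, Dt δ → ∀ q : ℕ, (q = 3 ∨ q = 5) → ∀ N : Finset ℕ, Pe N →
  (q = 5 → Jb δ N) → (q = 3 → Jd δ N) → ∀ P ⊆ N, P.Nonempty → ∑ v ∈ vec q (pe δ N : ℤ), Pt δ q N P v = 0

/-- EQ3: the vectors of the lattice `L 3` are equidistributed on the six lines -/
def S_EQ3 : Prop := ∀ δ : ℤ, Dt δ → ∀ N : Finset ℕ, Pe N → Jd δ N → ∀ β : ℤ,
  (5 : ℤ) ∣ β ^ 2 + pe δ N → ((vec 3 (pe δ N : ℤ)).card : ℤ) = 6 * A δ 3 N ∅ β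

/-- EV3: the numbers of the vectors of `L 3` with given characters are even -/
def S_EV3 : Prop := ∀ δ : ℤ, Dt δ → ∀ N : Finset ℕ, Pe N → Jd δ N → ¬ Xi δ N → ∀ β : ℤ,
  (5 : ℤ) ∣ β ^ 2 + pe δ N → ∀ γ : ℕ → ℤ, Even (AC δ 3 N β γ)

/-- CNT5: the parity of the numbers of the vectors of `L 5` with given characters -/
def S_CNT5 : Prop := ∀ δ : ℤ, Dt δ → ∀ N : Finset ℕ, Pe N → (∀ p ∈ N, Jb δ {p}) → Odd N.card → ∀ β : ℤ,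
  (3 : ℤ) ∣ β ^ 2 + pe δ N → ∀ γ γ' : ℕ → ℤ, (∀ p ∈ N, γ p = 1 ∨ γ p = -1) →
  (∀ p ∈ N, γ' p = 1 ∨ γ' p = -1) → AC δ 5 N β γ % 2 = AC δ 5 N β γ' % 2

/-- the Rédei symbols of the subset `D` (at odd primes) -/
def gen (δ : ℤ) (N D : Finset ℕ) (p : ℕ) : ℤ :=
  if p ∈ D then jacobiSym (((∏ l ∈ D, l) / p * (pe δ N / p) : ℕ) : ℤ) p
  else jacobiSym ((∏ l ∈ D, l : ℕ) : ℤ) p

/-- the Rédei kernel is trivial (the class number of the field of discriminant `- pe δ N` has four-rank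
`0`; not for `ℚ(i)`) -/
def Kr (δ : ℤ) (N : Finset ℕ) : Prop := ∀ D ⊆ N, (∀ p ∈ N.erase 2, gen δ N D p = 1) →
  D = ∅ ∨ D = if δ = -4 then N.erase 2 else N

/-- V5: the number of vectors of `L 5` -/
def S_V5 : Prop := ∀ δ : ℤ, Dt δ → ∀ N : Finset ℕ, Pe N → Jb δ N →
  ∃ T : ℤ, ((vec 5 (pe δ N : ℤ)).card : ℤ) = 2 ^ N.card * T ∧ (Odd T ↔ Kr δ N)

/-- V3: the number of vectors of `L 3` -/
def S_V3 : Prop := ∀ δ : ℤ, Dt δ → ∀ N : Finset ℕ, Pe N → Jd δ N → ¬ Xi δ N →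
  ∃ T : ℤ, ((vec 3 (pe δ N : ℤ)).card : ℤ) = 6 * 2 ^ N.card * T

/-! ### the indefinite side -/

/-- the forms of discriminant `(pe δ X)²` in the class `k` modulo `30` -/
def Fm (δ : ℤ) (X : Finset ℕ) (k : ℤ) (q : ℤ × ℤ × ℤ) : Prop :=
  q.2.1 ^ 2 - 4 * q.1 * q.2.2 = (pe δ X : ℤ) ^ 2 ∧ (15 : ℤ) ∣ q.1 ∧ (30 : ℤ) ∣ q.2.1 - k * pe δ X

/-- the genus character -/
def cx (δ : ℤ) (X : Finset ℕ) (q : ℤ × ℤ × ℤ) : ℤ :=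
  ∏ p ∈ X, if (p : ℤ) ∣ q.1 then sy δ p q.2.2 else sy δ p q.1

open Classical in
/-- the weighted number of the forms of the class `k` changing sign between `∞` and `x / M` -/
def Nr (δ : ℤ) (X : Finset ℕ) (k : ℤ) (x M : ℤ) : ℤ := ∑ᶠ q : ℤ × ℤ × ℤ,
  if Fm δ X k q ∧ 0 < q.1 ∧ ev q x M < 0 then cx δ X q else 0

/-- the counting function -/
def Fx (δ : ℤ) (X : Finset ℕ) (x M : ℤ) : ℤ := Nr δ X 11 x M - sg δ X * Nr δ X 19 x M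

/-- COC: the counting functions are cocycles -/
def S_COC : Prop := ∀ δ : ℤ, Dt δ → ∀ X : Finset ℕ, Pe X → Coc (Fx δ X)

/-- PARI: the parity -/
def S_PARI : Prop := ∀ δ : ℤ, Dt δ → ∀ X : Finset ℕ, Pe X → ∀ x M : ℤ,
  Fx δ X (-x) M = - sg δ X * Fx δ X x M

/-- PARB: the value at a parabolic element -/
def S_PARB : Prop := ∀ δ : ℤ, Dt δ → ∀ X : Finset ℕ, Pe X → X.Nonempty → sg δ X = 1 → Fx δ X 5 16 = 0

/-- the local weight at `p ∈ X` -/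
def w1 (δ : ℤ) (p a a' x y : ℕ) : ℤ := if p ∣ a ∧ p ∣ a' then sy δ p (-((x * y : ℕ) : ℤ))
  else sy δ p ((a * a' : ℕ) : ℤ)

/-- the local weight at `p ∈ Z` -/
def w2 (δ : ℤ) (p a a' x y : ℕ) : ℤ := if p ∣ a ∧ p ∣ x then sy δ p (-((a' * y : ℕ) : ℤ))
  else sy δ p ((a * x : ℕ) : ℤ)

/-- C1A: forms and cusps as factorizations -/
def S_C1A : Prop := ∀ δ : ℤ, Dt δ → ∀ (u v : ℕ) (k : ℤ), UV u v k → ∀ X Z : Finset ℕ, Pe (X ∪ Z) →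
  Disjoint X Z → Z.Nonempty →
  ∑ t ∈ un (pe δ Z), ch δ Z t * Nr δ X k t (pe δ Z) =
    ∑ T ∈ (range (pe δ X * pe δ Z)).filter (fun T => v ∣ T),
      ∑ a ∈ (pe δ X * pe δ Z - T).divisors.filter (u ∣ ·), ∑ a' ∈ T.divisors.filter (v ∣ ·),
        (∏ p ∈ X, w1 δ p a a' (T / a') ((pe δ X * pe δ Z - T) / a)) *
          ∑ t ∈ (un (pe δ Z)).filter (fun t : ℕ => (pe δ Z : ℤ) ∣ (a : ℤ) * (t : ℤ) - ((T / a' : ℕ) : ℤ) ∧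
            (pe δ Z : ℤ) ∣ (a' : ℤ) * (t : ℤ) + (((pe δ X * pe δ Z - T) / a : ℕ) : ℤ)), ch δ Z t

/-- the divisor sum -/
def WW (δ : ℤ) (u v : ℕ) (X Z : Finset ℕ) (T : ℕ) : ℤ :=
  ∑ a ∈ (pe δ X * pe δ Z - T).divisors.filter (u ∣ ·), ∑ a' ∈ T.divisors.filter (v ∣ ·),
    (∏ p ∈ X, w1 δ p a a' (T / a') ((pe δ X * pe δ Z - T) / a)) *
      ∏ p ∈ Z, w2 δ p a a' (T / a') ((pe δ X * pe δ Z - T) / a)

/-- the twisted sum of the counting function -/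
def Wt (δ : ℤ) (X Z : Finset ℕ) : ℤ := ∑ t ∈ un (pe δ Z), ch δ Z t * Fx δ X t (pe δ Z)

/-- C1: the twisted sum of the counting function as a sum of divisor sums (both classes) -/
def S_C1 : Prop := ∀ δ : ℤ, Dt δ → ∀ X Z : Finset ℕ, Pe (X ∪ Z) → Disjoint X Z → Z.Nonempty →
  sg δ (X ∪ Z) = -1 →
  Wt δ X Z = 2 * ∑ T ∈ (range (pe δ X * pe δ Z)).filter (fun T => 3 ∣ T), WW δ 5 3 X Z T ∧
  Wt δ X Z = 2 * sg δ Z * ∑ T ∈ (range (pe δ X * pe δ Z)).filter (fun T => 5 ∣ T), WW δ 3 5 X Z T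

/-- the local factor at `l` -/
def fc (N D l : ℕ) : ℤ := if l ∣ N then (if l = 2 then 2 else 1 + hh N D l)
  else ∑ j ∈ range (D.factorization l + 1), (if Odd N then jacobiSym l N else jacobiSym (-(N : ℤ)) l) ^ j

/-- the local densities, with the count at `v` -/
def loc (u v N T : ℕ) : ℤ := if Odd ((N - T).factorization u) then (T.factorization v : ℤ) *
    ∏ l ∈ ((T * (N - T)).primeFactors.erase u).erase v, fc N (T * (N - T)) l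
  else 0

/-- the local densities away from `u` -/
def loc1 (u N T : ℕ) : ℤ := if Odd ((N - T).factorization u) then
    ∏ l ∈ (T * (N - T)).primeFactors.erase u, fc N (T * (N - T)) l
  else 0

/-- the weight at `p` of the inner product `M - 2 T`, `M = pe δ N` -/
def wq (q : ℕ) (N : Finset ℕ) (M p T : ℕ) : ℤ :=
  if p = 2 then (if q ∣ T then 1 else -1) * ∏ l ∈ N.erase 2, wp l M T else wp p M T

/-- C2: evaluation of the divisor sums -/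
def S_C2 : Prop := ∀ δ : ℤ, Dt δ → ∀ X Z : Finset ℕ, Pe (X ∪ Z) → Disjoint X Z → ∀ T : ℕ, 0 < T →
  T < pe δ (X ∪ Z) →
  (Jb δ (X ∪ Z) → WW δ 5 3 X Z T = - sg δ X *
    (∏ p ∈ X, wq 5 (X ∪ Z) (pe δ (X ∪ Z)) p T) * loc 5 3 (pe δ (X ∪ Z)) T) ∧
  (Jd δ (X ∪ Z) → WW δ 3 5 X Z T = - sg δ X *
    (∏ p ∈ X, wq 3 (X ∪ Z) (pe δ (X ∪ Z)) p T) * loc 3 5 (pe δ (X ∪ Z)) T)

/-- C20: evaluation of the divisor sums of level `l` -/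
def S_C20 : Prop := ∀ δ : ℤ, Dt δ → ∀ N : Finset ℕ, Pe N → ∀ T : ℕ, 0 < T → T < pe δ N →
  (Jb δ N → WW δ 5 1 ∅ N T = - loc1 5 (pe δ N) T) ∧
  (Jd δ N → WW δ 3 1 ∅ N T = - loc1 3 (pe δ N) T)

/-! ### pairs of vectors -/

/-- the product of the local factors away from `u` -/
def pf (u N T : ℕ) : ℤ := ∏ l ∈ (T * (N - T)).primeFactors.erase u, fc N (T * (N - T)) l

/-- PC: the number of pairs of vectors with given inner product -/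
def S_PC : Prop := ∀ δ : ℤ, Dt δ → ∀ N : Finset ℕ, Pe N → ∀ T : ℕ, 0 < T → T < pe δ N →
  (Jb δ N → (cpa 5 (pe δ N) T : ℤ) =
    if Odd ((T * (pe δ N - T)).factorization 5) then 6 * pf 5 (pe δ N) T else 0) ∧
  (Jd δ N → (cpa 3 (pe δ N) T : ℤ) =
    if Odd ((T * (pe δ N - T)).factorization 3) then 12 * pf 3 (pe δ N) T else 0)

/-- PS: the number of pairs with a common line -/
def S_PS : Prop := ∀ δ : ℤ, Dt δ → ∀ N : Finset ℕ, Pe N → ∀ β : ℤ, ∀ T : ℕ, 0 < T → T < pe δ N →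
  (Jb δ N → (3 : ℤ) ∣ β ^ 2 + pe δ N → (cpl 5 (pe δ N) T β : ℤ) =
    if Odd ((T * (pe δ N - T)).factorization 5) then
      6 * (T.factorization 3 : ℤ) * ∏ l ∈ ((T * (pe δ N - T)).primeFactors.erase 5).erase 3,
        fc (pe δ N) (T * (pe δ N - T)) l else 0) ∧
  (Jd δ N → (5 : ℤ) ∣ β ^ 2 + pe δ N → (cpl 3 (pe δ N) T β : ℤ) =
    if Odd ((T * (pe δ N - T)).factorization 3) then
      12 * (T.factorization 5 : ℤ) * ∏ l ∈ ((T * (pe δ N - T)).primeFactors.erase 3).erase 5,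
        fc (pe δ N) (T * (pe δ N - T)) l else 0)

/-- WTV: the weights of the pairs of vectors -/
def S_WTV : Prop := ∀ δ : ℤ, Dt δ → ∀ q : ℕ, (q = 3 ∨ q = 5) → ∀ N : Finset ℕ, Pe N →
  (q = 5 → Jb δ N) → (q = 3 → Jd δ N) → ∀ P ⊆ N,
  ∀ v ∈ vec q (pe δ N : ℤ), ∀ w ∈ vec q (pe δ N : ℤ), ∀ T : ℕ, T < pe δ N →
  bl q v w = (pe δ N : ℤ) - 2 * T → Pt δ q N P v * Pt δ q N P w = ∏ p ∈ P, wq q N (pe δ N) p T

/-- WPN: the product of all the weights -/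
def S_WPN : Prop := ∀ δ : ℤ, Dt δ → ∀ N : Finset ℕ, Pe N → ∀ T : ℕ, 0 < T → T < pe δ N →
  (Jb δ N → ∏ l ∈ (T * (pe δ N - T)).primeFactors.erase 5, fc (pe δ N) (T * (pe δ N - T)) l ≠ 0 →
    (Odd ((pe δ N - T).factorization 5) → ∏ p ∈ N, wq 5 N (pe δ N) p T = -1) ∧
    (Odd (T.factorization 5) → ∏ p ∈ N, wq 5 N (pe δ N) p T = 1)) ∧
  (Jd δ N → ∏ l ∈ (T * (pe δ N - T)).primeFactors.erase 3, fc (pe δ N) (T * (pe δ N - T)) l ≠ 0 →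
    (Odd ((pe δ N - T).factorization 3) → ∏ p ∈ N, wq 3 N (pe δ N) p T = -1) ∧
    (Odd (T.factorization 3) → ∏ p ∈ N, wq 3 N (pe δ N) p T = 1))

/-- SQ: the squares of the sums over the vectors -/
def S_SQ : Prop := ∀ δ : ℤ, Dt δ → ∀ N : Finset ℕ, Pe N →
  (Jb δ N → ∀ β : ℤ, (3 : ℤ) ∣ β ^ 2 + pe δ N → ∀ P ⊆ N, (P = ∅ ∨ Ja δ P ∨ Jd δ P) →
    S5 δ N P β ^ 2 + (if P = ∅ then 3 * ((vec 5 (pe δ N : ℤ)).card : ℤ) ^ 2 else 0) =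
    144 * ∑ T ∈ (range (pe δ N)).filter (fun T => 3 ∣ T), (∏ p ∈ P, wq 5 N (pe δ N) p T) *
      loc 5 3 (pe δ N) T) ∧
  (Jd δ N → ∀ β : ℤ, (5 : ℤ) ∣ β ^ 2 + pe δ N → ∀ Q ⊆ N, (Jc δ Q ∨ Jd δ Q) →
    36 * A δ 3 N Q β ^ 2 - (if Q = N then ((vec 3 (pe δ N : ℤ)).card : ℤ) ^ 2 else 0) =
    - (144 * ∑ T ∈ (range (pe δ N)).filter (fun T => 5 ∣ T), (∏ p ∈ N \ Q, wq 3 N (pe δ N) p T) *
      loc 3 5 (pe δ N) T))

/-- CARD: the squares of the numbers of vectors -/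
def S_CARD : Prop := ∀ δ : ℤ, Dt δ → ∀ N : Finset ℕ, Pe N →
  (Jb δ N → ((vec 5 (pe δ N : ℤ)).card : ℤ) ^ 2 = 2 * (vec 5 (pe δ N : ℤ)).card +
    12 * ∑ T ∈ Ioo 0 (pe δ N), loc1 5 (pe δ N) T) ∧
  (Jd δ N → ((vec 3 (pe δ N : ℤ)).card : ℤ) ^ 2 = 2 * (vec 3 (pe δ N : ℤ)).card +
    24 * ∑ T ∈ Ioo 0 (pe δ N), loc1 3 (pe δ N) T)

/-- CLS: the number of vectors and the class number -/
def S_CLS : Prop := ∀ δ : ℤ, Dt δ → ∀ N : Finset ℕ, Pe N →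
  (Jb δ N → ((vec 5 (pe δ N : ℤ)).card : ℚ) =
    -6 * ∑ t ∈ un (pe δ N), (ch δ N t : ℚ) * saw (pe δ N) t) ∧
  (Jd δ N → ((vec 3 (pe δ N : ℤ)).card : ℚ) =
    -12 * ∑ t ∈ un (pe δ N), (ch δ N t : ℚ) * saw (pe δ N) t)

/-- DIA: the twisted sums are squares -/
def S_DIA : Prop := ∀ δ : ℤ, Dt δ → ∀ P Z : Finset ℕ, Pe (P ∪ Z) → Disjoint P Z → Z.Nonempty →
  (Jb δ (P ∪ Z) → ∀ β : ℤ, (3 : ℤ) ∣ β ^ 2 + pe δ (P ∪ Z) →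
    (P = ∅ → 72 * Wt δ P Z = - (S5 δ Z ∅ β ^ 2 + 3 * ((vec 5 (pe δ Z : ℤ)).card : ℤ) ^ 2)) ∧
    (P.Nonempty → Ja δ P → 72 * Wt δ P Z = - S5 δ (P ∪ Z) P β ^ 2) ∧
    (P.Nonempty → Jc δ P → 72 * Wt δ P Z = S5 δ (P ∪ Z) Z β ^ 2)) ∧
  (Jd δ (P ∪ Z) → ∀ β : ℤ, (5 : ℤ) ∣ β ^ 2 + pe δ (P ∪ Z) →
    (P = ∅ → 72 * Wt δ P Z = ((vec 3 (pe δ Z : ℤ)).card : ℤ) ^ 2 - 36 * A δ 3 Z Z β ^ 2) ∧
    (P.Nonempty → Jc δ P → 2 * Wt δ P Z = A δ 3 (P ∪ Z) P β ^ 2) ∧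
    (P.Nonempty → Ja δ P → 2 * Wt δ P Z = - A δ 3 (P ∪ Z) Z β ^ 2))

/-! ### the formulas -/

/-- the formulas for disjoint nonempty sets `P` (class `a` or `c`), `Z` (class `b` or `d`) -/
def S_E14 : Prop := ∀ δ : ℤ, Dt δ → ∀ P Z : Finset ℕ, Pe (P ∪ Z) → Disjoint P Z → P.Nonempty →
  Z.Nonempty →
  (Ja δ P → Jb δ Z → ∀ β β' : ℤ, (3 : ℤ) ∣ β ^ 2 + pe δ (P ∪ Z) → (3 : ℤ) ∣ β' ^ 2 + pe δ Z →
    S5 δ (P ∪ Z) P β ^ 2 = -4 * Fx δ P 1 4 * S5 δ Z ∅ β' ^ 2) ∧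
  (Jc δ P → Jb δ Z → ∀ β β' : ℤ, (5 : ℤ) ∣ β ^ 2 + pe δ (P ∪ Z) → (3 : ℤ) ∣ β' ^ 2 + pe δ Z →
    9 * A δ 3 (P ∪ Z) P β ^ 2 = Fx δ P 1 4 * S5 δ Z ∅ β' ^ 2) ∧
  (Ja δ P → Jd δ Z → ∀ β β' : ℤ, (5 : ℤ) ∣ β ^ 2 + pe δ (P ∪ Z) → (5 : ℤ) ∣ β' ^ 2 + pe δ Z →
    A δ 3 (P ∪ Z) Z β ^ 2 = -4 * Fx δ P 1 4 * A δ 3 Z Z β' ^ 2) ∧
  (Jc δ P → Jd δ Z → ∀ β β' : ℤ, (3 : ℤ) ∣ β ^ 2 + pe δ (P ∪ Z) → (5 : ℤ) ∣ β' ^ 2 + pe δ Z →
    S5 δ (P ∪ Z) Z β ^ 2 = 144 * Fx δ P 1 4 * A δ 3 Z Z β' ^ 2)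

/-- the structure theorem: powers of two, and the law for the class `b` -/
def S_MAIN : Prop := ∀ δ : ℤ, Dt δ → ∀ N : Finset ℕ, Pe N →
  (Jb δ N → ∀ β : ℤ, (3 : ℤ) ∣ β ^ 2 + pe δ N →
    ∃ T z : ℤ, ((vec 5 (pe δ N : ℤ)).card : ℤ) = 2 ^ N.card * T ∧
      S5 δ N ∅ β = 2 ^ N.card * (T + 2 * z)) ∧
  (Jd δ N → ¬ Xi δ N → ∀ β : ℤ, (5 : ℤ) ∣ β ^ 2 + pe δ N → (2 ^ N.card : ℤ) ∣ A δ 3 N N β) ∧
  (N.Nonempty → (Ja δ N ∨ Jc δ N) → (4 ^ N.card : ℤ) ∣ Fx δ N 1 4)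

/-! ### the modular symbols -/

/-- the character sum of values of `s` -/
def SS (s : ℚ → ℤ) (δ : ℤ) (Z : Finset ℕ) : ℤ := ∑ t ∈ un (pe δ Z), ch δ Z t * s ((t : ℚ) / pe δ Z)

/-- E56: the values of the class `b` and of the class `d` -/
def S_E56 : Prop := ∀ (s : ℚ → ℤ) (a : ℕ → ℤ), SyM s a → ∀ δ : ℤ, Dt δ → ∀ Z : Finset ℕ, Pe Z →
  (Jb δ Z → ∀ β : ℤ, (3 : ℤ) ∣ β ^ 2 + pe δ Z → S5 δ Z ∅ β ^ 2 * s (1 / 4) = 18 * SS s δ Z) ∧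
  (Jd δ Z → ∀ β : ℤ, (5 : ℤ) ∣ β ^ 2 + pe δ Z → 2 * A δ 3 Z Z β ^ 2 * s (1 / 4) = SS s δ Z)

end

end Pool.Agent.XW
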