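import Pool.Agent.XW.Defs
import Pool.Agent.NH2.C1

/-!
# Project XW, C1: the twisted sum as a sum of divisor sums (helper17)
-/

set_option autoImplicit false

namespace Pool.Agent.XW

open Finset
open Pool.Agent.Z700 (un)
open Pool.Agent.NH2 (ev)
open Pool.Agent.XV (UV)
open Pool.Agent.NH2.C1 (rf rf_mem rf_dvd rf_rf sum_rf sgB trB)

namespace C1

/-! ### the symbols -/

theorem Dt_nat {δ : ℤ} (hδ : Dt δ) : δ.natAbs = 4 ∨ δ.natAbs = 8 := by
  rcases hδ with rfl | rfl | rfl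
  · left; rfl
  · right; rfl
  · right; rfl

theorem c2_congr {δ x y : ℤ} (hδ : Dt δ) (h : (δ.natAbs : ℤ) ∣ x - y) : c2 δ x = c2 δ y := by
  rcases hδ with rfl | rfl | rfl
  · have h' : ((x : ℤ) : ZMod 4) = (y : ℤ) := by
      rw [← sub_eq_zero, ← Int.cast_sub, ZMod.intCast_zmod_eq_zero_iff_dvd]
      exact_mod_cast h
    unfold c2
    rw [if_pos rfl, if_pos rfl, h']
  · have h' : ((x : ℤ) : ZMod 8) = (y : ℤ) := by
      rw [← sub_eq_zero, ← Int.cast_sub, ZMod.intCast_zmod_eq_zero_iff_dvd]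
      exact_mod_cast h
    unfold c2
    rw [if_neg (by norm_num), if_pos rfl, if_neg (by norm_num), if_pos rfl, h']
  · have h' : ((x : ℤ) : ZMod 8) = (y : ℤ) := by
      rw [← sub_eq_zero, ← Int.cast_sub, ZMod.intCast_zmod_eq_zero_iff_dvd]
      exact_mod_cast h
    unfold c2
    rw [if_neg (by norm_num), if_neg (by norm_num), if_neg (by norm_num), if_neg (by norm_num), h']

theorem c2_mul (δ x y : ℤ) : c2 δ (x * y) = c2 δ x * c2 δ y := by
  unfold c2
  split_ifs <;> push_cast <;> rw [map_mul]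

theorem c2_even {δ x : ℤ} (h : 2 ∣ x) : c2 δ x = 0 := by
  obtain ⟨y, rfl⟩ := h
  have e4 : ∀ y : ZMod 4, ZMod.χ₄ (2 * y) = 0 := by decide
  have e8 : ∀ y : ZMod 8, ZMod.χ₈ (2 * y) = 0 := by decide
  have e8' : ∀ y : ZMod 8, ZMod.χ₈' (2 * y) = 0 := by decide
  unfold c2
  split_ifs
  · push_cast; exact e4 _
  · push_cast; exact e8 _
  · push_cast; exact e8' _

theorem c2_odd {δ x : ℤ} (h : ¬ 2 ∣ x) : c2 δ x * c2 δ x = 1 := by
  obtain ⟨y, rfl⟩ : ∃ y, x = 2 * y + 1 := ⟨x / 2, by omega⟩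
  have e4 : ∀ y : ZMod 4, ZMod.χ₄ (2 * y + 1) * ZMod.χ₄ (2 * y + 1) = 1 := by decide
  have e8 : ∀ y : ZMod 8, ZMod.χ₈ (2 * y + 1) * ZMod.χ₈ (2 * y + 1) = 1 := by decide
  have e8' : ∀ y : ZMod 8, ZMod.χ₈' (2 * y + 1) * ZMod.χ₈' (2 * y + 1) = 1 := by decide
  unfold c2
  split_ifs
  · push_cast; exact e4 _
  · push_cast; exact e8 _
  · push_cast; exact e8' _

theorem c2_half {δ x : ℤ} (hδ : Dt δ) : c2 δ (x + (δ.natAbs / 2 : ℕ)) = - c2 δ x := by
  have e4 : ∀ y : ZMod 4, ZMod.χ₄ (y + 2) = - ZMod.χ₄ y := by decide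
  have e8 : ∀ y : ZMod 8, ZMod.χ₈ (y + 4) = - ZMod.χ₈ y := by decide
  have e8' : ∀ y : ZMod 8, ZMod.χ₈' (y + 4) = - ZMod.χ₈' y := by decide
  rcases hδ with rfl | rfl | rfl
  · unfold c2
    rw [if_pos rfl, if_pos rfl, ← e4]
    norm_num
  · unfold c2
    rw [if_neg (by norm_num), if_pos rfl, if_neg (by norm_num), if_pos rfl, ← e8]
    norm_num
  · unfold c2
    rw [if_neg (by norm_num), if_neg (by norm_num), if_neg (by norm_num), if_neg (by norm_num), ← e8']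
    norm_num

theorem sy_congr {δ x y : ℤ} {p : ℕ} (hδ : Dt δ) (h : (md δ p : ℤ) ∣ x - y) :
    sy δ p x = sy δ p y := by
  unfold sy
  unfold md at h
  split_ifs with h2
  · rw [if_pos h2] at h
    exact c2_congr hδ h
  · rw [if_neg h2] at h
    exact Pool.Agent.Z363.Z705.jac_congr h

theorem sy_mul (δ x y : ℤ) (p : ℕ) : sy δ p (x * y) = sy δ p x * sy δ p y := by
  unfold sy
  split_ifs
  · exact c2_mul _ _ _
  · exact jacobiSym.mul_left _ _ _

theorem ch_mul (δ x y : ℤ) (X : Finset ℕ) : ch δ X (x * y) = ch δ X x * ch δ X y := by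
  unfold ch
  rw [← Finset.prod_mul_distrib]
  exact Finset.prod_congr rfl fun p _ => sy_mul _ _ _ _

theorem ch_congr {δ x y : ℤ} {X : Finset ℕ} (hδ : Dt δ) (h : (pe δ X : ℤ) ∣ x - y) :
    ch δ X x = ch δ X y := by
  unfold ch
  refine Finset.prod_congr rfl fun p hp => sy_congr hδ ?_
  refine dvd_trans ?_ h
  exact_mod_cast Finset.dvd_prod_of_mem (fun p => md δ p) hp

theorem sg_sq (δ : ℤ) (X : Finset ℕ) : sg δ X * sg δ X = 1 := by
  unfold sg
  rw [← ch_mul]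
  unfold ch
  refine Finset.prod_eq_one fun p _ => ?_
  unfold sy
  split_ifs
  · unfold c2
    split_ifs <;> norm_num
  · norm_num

theorem md_pos {δ : ℤ} {p : ℕ} (hδ : Dt δ) (hp : p.Prime) : 0 < md δ p := by
  unfold md
  split_ifs
  · rcases Dt_nat hδ with h | h <;> omega
  · exact hp.pos

theorem pe_pos {δ : ℤ} {X : Finset ℕ} (hδ : Dt δ) (hX : ∀ p ∈ X, p.Prime) : 0 < pe δ X :=
  Finset.prod_pos fun p hp => md_pos hδ (hX p hp)

theorem ch_rf {δ : ℤ} {Z : Finset ℕ} {u : ℕ} (hδ : Dt δ) (hu : u < pe δ Z) :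
    ch δ Z ((rf (pe δ Z) u : ℕ) : ℤ) = sg δ Z * ch δ Z (u : ℤ) := by
  unfold sg
  rw [← ch_mul]
  apply ch_congr hδ
  have := rf_dvd hu
  have e : ((rf (pe δ Z) u : ℕ) : ℤ) - -1 * (u : ℤ) = ((rf (pe δ Z) u : ℕ) : ℤ) + u := by ring
  rw [e]
  exact this

/-! ### the Chinese remainder theorem -/

theorem md_cop {δ : ℤ} (hδ : Dt δ) {p q : ℕ} (hp : p.Prime) (hq : q.Prime) (h : p ≠ q) :
    Nat.Coprime (md δ p) (md δ q) := by
  have hc := (Nat.coprime_primes hp hq).2 h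
  unfold md
  split_ifs with h1 h2 h2
  · exact absurd (h1.trans h2.symm) h
  · subst h1
    rcases Dt_nat hδ with h3 | h3
    · rw [h3]
      exact Nat.Coprime.pow_left 2 hc
    · rw [h3]
      exact Nat.Coprime.pow_left 3 hc
  · subst h2
    rcases Dt_nat hδ with h3 | h3
    · rw [h3]
      exact Nat.Coprime.pow_right 2 hc
    · rw [h3]
      exact Nat.Coprime.pow_right 3 hc
  · exact hc

theorem sum_crt_prod {δ : ℤ} (hδ : Dt δ) (G : ℕ → ℕ → ℤ) (P : Finset ℕ) (hP : ∀ p ∈ P, p.Prime) :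
    ∑ u ∈ range (pe δ P), ∏ p ∈ P, G p (u % md δ p) = ∏ p ∈ P, ∑ u ∈ range (md δ p), G p u := by
  classical
  induction P using Finset.induction_on with
  | empty => simp [pe]
  | insert p P hp ih =>
    have hpp := hP p (mem_insert_self _ _)
    have hP' : ∀ q ∈ P, q.Prime := fun q hq => hP q (mem_insert_of_mem hq)
    have hpos : 0 < pe δ P := pe_pos hδ hP'
    have hcop : Nat.Coprime (md δ p) (pe δ P) := by
      refine Nat.Coprime.prod_right fun q hq => ?_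
      refine md_cop hδ hpp (hP' q hq) ?_
      rintro rfl
      exact hp hq
    have e : pe δ (insert p P) = md δ p * pe δ P := by
      unfold pe
      rw [Finset.prod_insert hp]
    rw [e, Finset.prod_insert hp, ← ih hP',
      ← Pool.Agent.Z363.Z705.sum_crt hcop (md_pos hδ hpp) hpos]
    refine Finset.sum_congr rfl fun u _ => ?_
    rw [Finset.prod_insert hp]
    congr 1
    refine Finset.prod_congr rfl fun q hq => ?_
    have hqd : md δ q ∣ pe δ P := Finset.dvd_prod_of_mem (fun q => md δ q) hq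
    rw [Nat.mod_mod_of_dvd u hqd]

theorem pe_dvd_iff {δ : ℤ} (hδ : Dt δ) {P : Finset ℕ} (hP : ∀ p ∈ P, p.Prime) (x : ℤ) :
    (pe δ P : ℤ) ∣ x ↔ ∀ p ∈ P, (md δ p : ℤ) ∣ x := by
  classical
  constructor
  · intro h p hp
    exact (Int.natCast_dvd_natCast.2 (Finset.dvd_prod_of_mem (fun p => md δ p) hp)).trans h
  · intro h
    rw [Int.natCast_dvd]
    unfold pe
    refine Finset.prod_dvd_of_isRelPrime ?_ fun p hp => Int.natCast_dvd.1 (h p hp)
    intro p hp q hq hpq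
    exact Nat.coprime_iff_isRelPrime.1 (md_cop hδ (hP p hp) (hP q hq) hpq)

/-! ### the local sums -/

section

variable (δ : ℤ) (a a' x y : ℕ)

open Classical in
/-- the local summand -/
noncomputable def G (p u : ℕ) : ℤ :=
  if (md δ p : ℤ) ∣ (a : ℤ) * (u : ℤ) - (x : ℤ) ∧ (md δ p : ℤ) ∣ (a' : ℤ) * (u : ℤ) + (y : ℤ)
    then sy δ p (u : ℤ) else 0

theorem G_mod (hδ : Dt δ) (p u : ℕ) : G δ a a' x y p (u % md δ p) = G δ a a' x y p u := by
  have h0 : (md δ p : ℤ) ∣ ((u % md δ p : ℕ) : ℤ) - (u : ℤ) := by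
    have h := Nat.div_add_mod u (md δ p)
    refine ⟨-((u / md δ p : ℕ) : ℤ), ?_⟩
    have h1 : (u : ℤ) = (md δ p : ℤ) * ((u / md δ p : ℕ) : ℤ) + ((u % md δ p : ℕ) : ℤ) := by
      exact_mod_cast h.symm
    linear_combination -h1
  unfold G
  have e1 : (md δ p : ℤ) ∣ (a : ℤ) * ((u % md δ p : ℕ) : ℤ) - (x : ℤ) ↔
      (md δ p : ℤ) ∣ (a : ℤ) * (u : ℤ) - (x : ℤ) := by
    have : (a : ℤ) * ((u % md δ p : ℕ) : ℤ) - (x : ℤ) = a * (((u % md δ p : ℕ) : ℤ) - (u : ℤ)) +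
      ((a : ℤ) * (u : ℤ) - (x : ℤ)) := by ring
    rw [this]
    exact (Int.dvd_add_right (h0.mul_left _))
  have e2 : (md δ p : ℤ) ∣ (a' : ℤ) * ((u % md δ p : ℕ) : ℤ) + (y : ℤ) ↔
      (md δ p : ℤ) ∣ (a' : ℤ) * (u : ℤ) + (y : ℤ) := by
    have : (a' : ℤ) * ((u % md δ p : ℕ) : ℤ) + (y : ℤ) = a' * (((u % md δ p : ℕ) : ℤ) - (u : ℤ)) +
      ((a' : ℤ) * (u : ℤ) + (y : ℤ)) := by ring
    rw [this]
    exact (Int.dvd_add_right (h0.mul_left _))
  rw [sy_congr hδ h0]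
  simp only [e1, e2]

theorem local_odd {p : ℕ} (hp : p.Prime) (p2 : p ≠ 2) (h3 : p ∣ a * y + a' * x) :
    ∑ u ∈ range p, G δ a a' x y p u = w2 δ p a a' x y := by
  classical
  obtain ⟨d, hd⟩ := h3
  have hB := Pool.Agent.NH2.t_C1B p d hp.squarefree (hp.odd_of_ne_two p2) a a' x y
    (by rw [hd, mul_comm])
  rw [hp.primeFactors, Finset.prod_singleton] at hB
  have e2 : w2 δ p a a' x y = Pool.Agent.NH2.w2 p a a' x y := by
    unfold w2 Pool.Agent.NH2.w2 sy
    rw [if_neg p2, if_neg p2]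
  rw [e2, ← hB, un, Finset.filter_filter, Finset.sum_filter]
  refine Finset.sum_congr rfl fun u _ => ?_
  unfold G sy md
  rw [if_neg p2, if_neg p2]
  by_cases hc : Nat.Coprime u p
  · by_cases h1 : (p : ℤ) ∣ (a : ℤ) * (u : ℤ) - (x : ℤ) ∧ (p : ℤ) ∣ (a' : ℤ) * (u : ℤ) + (y : ℤ)
    · rw [if_pos h1, if_pos ⟨hc, h1⟩]
    · rw [if_neg h1, if_neg fun h => h1 h.2]
  · have hnc : ¬ (Nat.Coprime u p ∧ (p : ℤ) ∣ (a : ℤ) * (u : ℤ) - (x : ℤ) ∧
        (p : ℤ) ∣ (a' : ℤ) * (u : ℤ) + (y : ℤ)) := fun h => hc h.1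
    rw [if_neg hnc]
    have h3 : jacobiSym (u : ℤ) p = 0 := by
      have := NeZero.mk hp.ne_zero
      rw [jacobiSym.eq_zero_iff_not_coprime]
      intro h
      exact hc (by simpa using h)
    rw [h3]
    simp

/-- a linear congruence has one solution -/
theorem single {M b : ℕ} (hM : 0 < M) (h : Nat.Coprime b M) (z : ℤ) :
    ∃ u ∈ range M, (M : ℤ) ∣ b * (u : ℤ) - z ∧ ∀ v ∈ range M, (M : ℤ) ∣ b * (v : ℤ) - z → v = u := by
  have : NeZero M := ⟨hM.ne'⟩
  have hu : IsUnit (b : ZMod M) := (ZMod.isUnit_iff_coprime b M).2 h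
  obtain ⟨w, hw⟩ := hu
  refine ⟨((z : ZMod M) * (w⁻¹ : (ZMod M)ˣ)).val, mem_range.2 (ZMod.val_lt _), ?_, ?_⟩
  · rw [← ZMod.intCast_zmod_eq_zero_iff_dvd]
    push_cast
    rw [ZMod.natCast_zmod_val, ← hw]
    have : (w : ZMod M) * ((z : ZMod M) * ((w⁻¹ : (ZMod M)ˣ) : ZMod M)) =
      (z : ZMod M) * ((w : ZMod M) * ((w⁻¹ : (ZMod M)ˣ) : ZMod M)) := by ring
    rw [this, Units.mul_inv, mul_one, sub_self]
  · intro v hv hvz
    rw [← ZMod.intCast_zmod_eq_zero_iff_dvd] at hvz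
    push_cast at hvz
    rw [← hw] at hvz
    have h1 : (v : ZMod M) = (z : ZMod M) * ((w⁻¹ : (ZMod M)ˣ) : ZMod M) := by
      rw [sub_eq_zero] at hvz
      rw [← hvz]
      have : (w : ZMod M) * (v : ZMod M) * ((w⁻¹ : (ZMod M)ˣ) : ZMod M) =
        (v : ZMod M) * ((w : ZMod M) * ((w⁻¹ : (ZMod M)ˣ) : ZMod M)) := by ring
      rw [this, Units.mul_inv, mul_one]
    rw [← h1, ZMod.val_natCast_of_lt (mem_range.1 hv)]

/-- the sum over all residues vanishes -/
theorem sum_c2 {δ : ℤ} (hδ : Dt δ) : ∑ u ∈ range δ.natAbs, c2 δ (u : ℤ) = 0 := by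
  have h : ∀ u : ℕ, c2 δ ((u + δ.natAbs / 2 : ℕ) : ℤ) = - c2 δ (u : ℤ) := by
    intro u
    rw [← c2_half hδ]
    push_cast
    rfl
  rcases Dt_nat hδ with h4 | h4
  · rw [h4] at h ⊢
    have h0 := h 0
    have h1 := h 1
    simp only [Finset.sum_range_succ, Finset.sum_range_zero]
    norm_num at h0 h1 ⊢
    rw [h0, h1]
    ring
  · rw [h4] at h ⊢
    have h0 := h 0
    have h1 := h 1
    have h2 := h 2
    have h3 := h 3
    simp only [Finset.sum_range_succ, Finset.sum_range_zero]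
    norm_num at h0 h1 h2 h3 ⊢
    rw [h0, h1, h2, h3]
    ring

theorem local_two (hδ : Dt δ) (h3 : δ.natAbs ∣ a * y + a' * x) :
    ∑ u ∈ range δ.natAbs, G δ a a' x y 2 u = w2 δ 2 a a' x y := by
  classical
  have hm2 : md δ 2 = δ.natAbs := by unfold md; rw [if_pos rfl]
  have hsy : ∀ c, sy δ 2 c = c2 δ c := by intro c; unfold sy; rw [if_pos rfl]
  have hM : 0 < δ.natAbs := by rcases Dt_nat hδ with h | h <;> omega
  have hM2 : (2 : ℤ) ∣ (δ.natAbs : ℤ) := by rcases Dt_nat hδ with h | h <;> rw [h] <;> norm_num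
  have hcop : ∀ b : ℕ, ¬ 2 ∣ b → Nat.Coprime b δ.natAbs := by
    intro b hb
    have hb' : Nat.Coprime b 2 := (Nat.coprime_comm.1 ((Nat.Prime.coprime_iff_not_dvd Nat.prime_two).2 hb))
    rcases Dt_nat hδ with h | h
    · rw [h]; exact Nat.Coprime.pow_right 2 hb'
    · rw [h]; exact Nat.Coprime.pow_right 3 hb'
  have hcz : ∀ b : ℕ, ¬ 2 ∣ b → ∀ z : ℤ, (δ.natAbs : ℤ) ∣ b * z → (δ.natAbs : ℤ) ∣ z := by
    intro b hb z hz
    refine IsCoprime.dvd_of_dvd_mul_left ?_ hz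
    exact (Nat.isCoprime_iff_coprime.2 (hcop b hb)).symm
  have h3z : (δ.natAbs : ℤ) ∣ (a : ℤ) * y + a' * x := by exact_mod_cast h3
  unfold w2 G
  simp only [hm2, hsy]
  set M := δ.natAbs with hMdef
  by_cases ha : 2 ∣ a
  · have haz : (2 : ℤ) ∣ (a : ℤ) := by exact_mod_cast ha
    by_cases hx : 2 ∣ x
    · have hxz : (2 : ℤ) ∣ (x : ℤ) := by exact_mod_cast hx
      rw [if_pos ⟨ha, hx⟩]
      by_cases ha' : 2 ∣ a'
      · have haz' : (2 : ℤ) ∣ (a' : ℤ) := by exact_mod_cast ha'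
        have e2 : c2 δ (-((a' * y : ℕ) : ℤ)) = 0 := by
          apply c2_even
          push_cast
          exact (haz'.mul_right _).neg_right
        rw [e2]
        -- the half shift
        have hinv : ∀ u : ℕ, ((M : ℤ) ∣ (a : ℤ) * ((u + M / 2 : ℕ) : ℤ) - (x : ℤ) ∧
            (M : ℤ) ∣ (a' : ℤ) * ((u + M / 2 : ℕ) : ℤ) + (y : ℤ)) ↔
            ((M : ℤ) ∣ (a : ℤ) * (u : ℤ) - (x : ℤ) ∧ (M : ℤ) ∣ (a' : ℤ) * (u : ℤ) + (y : ℤ)) := by
          intro u
          obtain ⟨b, hb⟩ := haz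
          obtain ⟨b', hb'⟩ := haz'
          have hh : (2 : ℤ) * ((M / 2 : ℕ) : ℤ) = M := by
            have : 2 * (M / 2) = M := by
              rcases Dt_nat hδ with h | h <;> omega
            exact_mod_cast this
          have e1 : (a : ℤ) * ((u + M / 2 : ℕ) : ℤ) - (x : ℤ) = M * b + ((a : ℤ) * (u : ℤ) - (x : ℤ)) := by
            rw [Nat.cast_add]
            linear_combination b * hh + ((M / 2 : ℕ) : ℤ) * hb
          have e2 : (a' : ℤ) * ((u + M / 2 : ℕ) : ℤ) + (y : ℤ) =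
              M * b' + ((a' : ℤ) * (u : ℤ) + (y : ℤ)) := by
            rw [Nat.cast_add]
            linear_combination b' * hh + ((M / 2 : ℕ) : ℤ) * hb'
          rw [e1, e2, Int.dvd_add_right (dvd_mul_right _ _), Int.dvd_add_right (dvd_mul_right _ _)]
        have hg : ∀ u : ℕ, (if (M : ℤ) ∣ (a : ℤ) * ((u + M / 2 : ℕ) : ℤ) - (x : ℤ) ∧
            (M : ℤ) ∣ (a' : ℤ) * ((u + M / 2 : ℕ) : ℤ) + (y : ℤ) then c2 δ ((u + M / 2 : ℕ) : ℤ) else 0) =
            - (if (M : ℤ) ∣ (a : ℤ) * (u : ℤ) - (x : ℤ) ∧ (M : ℤ) ∣ (a' : ℤ) * (u : ℤ) + (y : ℤ)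
              then c2 δ (u : ℤ) else 0) := by
          intro u
          rw [if_congr (hinv u) rfl rfl]
          split_ifs
          · rw [← c2_half hδ, Nat.cast_add]
          · rfl
        have hMM : M = M / 2 + M / 2 := by rcases Dt_nat hδ with h | h <;> omega
        have hsplit : ∀ f : ℕ → ℤ, (∀ u, f (u + M / 2) = - f u) → ∑ u ∈ range M, f u = 0 := by
          intro f hf
          conv_lhs => rw [hMM]
          rw [Finset.sum_range_add, ← Finset.sum_add_distrib]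
          refine Finset.sum_eq_zero fun u _ => ?_
          rw [add_comm (M / 2) u, hf]
          ring
        exact hsplit _ hg
      · obtain ⟨u, hu, hu1, hu2⟩ := single hM (hcop a' ha') (-(y : ℤ))
        rw [sub_neg_eq_add] at hu1
        rw [Finset.sum_eq_single u]
        · have haz' : ¬ (2 : ℤ) ∣ (a' : ℤ) := by exact_mod_cast ha'
          have h7 : (M : ℤ) ∣ (a : ℤ) * u - x := by
            apply hcz a' ha'
            have : (a' : ℤ) * ((a : ℤ) * u - x) = a * (a' * u + y) - (a * y + a' * x) := by ring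
            rw [this]
            exact dvd_sub (hu1.mul_left _) h3z
          rw [if_pos ⟨h7, hu1⟩]
          have h8 : (M : ℤ) ∣ (-((a' * y : ℕ) : ℤ)) - a' * a' * u := by
            have : (-((a' * y : ℕ) : ℤ)) - a' * a' * u = -(a' * (a' * u + y)) := by push_cast; ring
            rw [this]
            exact (Dvd.dvd.mul_left hu1 _).neg_right
          rw [c2_congr hδ h8, c2_mul, c2_mul, c2_odd haz', one_mul]
        · intro v hv hvu
          rw [if_neg]
          rintro ⟨-, h⟩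
          apply hvu
          apply hu2 v hv
          rwa [sub_neg_eq_add]
        · intro h
          exact absurd hu h
    · rw [if_neg (fun h => hx h.2)]
      have e2 : c2 δ ((a * x : ℕ) : ℤ) = 0 := by
        apply c2_even
        push_cast
        exact haz.mul_right _
      rw [e2]
      refine Finset.sum_eq_zero fun u _ => ?_
      rw [if_neg]
      rintro ⟨h, -⟩
      apply hx
      have h4 : (2 : ℤ) ∣ (x : ℤ) := by
        have h5 := dvd_sub (haz.mul_right (u : ℤ)) (hM2.trans h)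
        rwa [sub_sub_cancel] at h5
      exact_mod_cast h4
  · rw [if_neg (fun h => ha h.1)]
    have haz : ¬ (2 : ℤ) ∣ (a : ℤ) := by exact_mod_cast ha
    obtain ⟨u, hu, hu1, hu2⟩ := single hM (hcop a ha) (x : ℤ)
    rw [Finset.sum_eq_single u]
    · have h7 : (M : ℤ) ∣ (a' : ℤ) * u + y := by
        apply hcz a ha
        have : (a : ℤ) * ((a' : ℤ) * u + y) = a' * (a * u - x) + (a * y + a' * x) := by ring
        rw [this]
        exact dvd_add (hu1.mul_left _) h3z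
      rw [if_pos ⟨hu1, h7⟩]
      have h8 : (M : ℤ) ∣ ((a * x : ℕ) : ℤ) - a * a * u := by
        have : ((a * x : ℕ) : ℤ) - a * a * u = -(a * (a * u - x)) := by push_cast; ring
        rw [this]
        exact (Dvd.dvd.mul_left hu1 _).neg_right
      rw [c2_congr hδ h8, c2_mul, c2_mul, c2_odd haz, one_mul]
    · intro v hv hvu
      rw [if_neg]
      rintro ⟨h, -⟩
      exact hvu (hu2 v hv h)
    · intro h
      exact absurd hu h

end

theorem ch_zero {δ : ℤ} (hδ : Dt δ) {Z : Finset ℕ} (hZ : ∀ p ∈ Z, p.Prime) {u : ℕ}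
    (h : ¬ Nat.Coprime u (pe δ Z)) : ch δ Z (u : ℤ) = 0 := by
  unfold ch
  rw [Finset.prod_eq_zero_iff]
  by_contra hne
  push Not at hne
  apply h
  unfold pe
  refine Nat.Coprime.prod_right fun p hp => ?_
  have h1 := hne p hp
  unfold sy at h1
  unfold md
  split_ifs at h1 ⊢ with h2
  · have h3 : ¬ 2 ∣ u := by
      intro h3
      apply h1
      apply c2_even
      exact_mod_cast h3
    have hb' : Nat.Coprime u 2 :=
      (Nat.coprime_comm.1 ((Nat.Prime.coprime_iff_not_dvd Nat.prime_two).2 h3))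
    rcases Dt_nat hδ with h | h
    · rw [h]; exact Nat.Coprime.pow_right 2 hb'
    · rw [h]; exact Nat.Coprime.pow_right 3 hb'
  · have := NeZero.mk (hZ p hp).ne_zero
    by_contra h4
    apply h1
    rw [jacobiSym.eq_zero_iff_not_coprime]
    intro h
    exact h4 (by simpa using h)

/-- the character sum over the cusps -/
theorem c1b {δ : ℤ} (hδ : Dt δ) {Z : Finset ℕ} (hZ : ∀ p ∈ Z, p.Prime) (a a' x y d : ℕ)
    (hdet : a * y + a' * x = d * pe δ Z) :
    ∑ t ∈ (un (pe δ Z)).filter (fun t : ℕ => (pe δ Z : ℤ) ∣ (a : ℤ) * (t : ℤ) - (x : ℤ) ∧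
      (pe δ Z : ℤ) ∣ (a' : ℤ) * (t : ℤ) + (y : ℤ)), ch δ Z t = ∏ p ∈ Z, w2 δ p a a' x y := by
  classical
  have h1 : ∀ p ∈ Z, ∑ u ∈ range (md δ p), G δ a a' x y p u = w2 δ p a a' x y := by
    intro p hp
    have hd : md δ p ∣ a * y + a' * x := by
      rw [hdet]
      exact (Finset.dvd_prod_of_mem (fun p => md δ p) hp).mul_left _
    by_cases p2 : p = 2
    · subst p2
      have hm2 : md δ 2 = δ.natAbs := by unfold md; rw [if_pos rfl]
      rw [hm2] at hd ⊢
      exact local_two δ a a' x y hδ hd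
    · have hm2 : md δ p = p := by unfold md; rw [if_neg p2]
      rw [hm2] at hd ⊢
      exact local_odd δ a a' x y (hZ p hp) p2 hd
  rw [← Finset.prod_congr rfl h1, ← sum_crt_prod hδ (G δ a a' x y) _ hZ, Finset.sum_filter]
  have h2 : ∀ u : ℕ, ∏ p ∈ Z, G δ a a' x y p (u % md δ p) =
      if (pe δ Z : ℤ) ∣ (a : ℤ) * (u : ℤ) - (x : ℤ) ∧ (pe δ Z : ℤ) ∣ (a' : ℤ) * (u : ℤ) + (y : ℤ)
      then ch δ Z (u : ℤ) else 0 := by
    intro u
    have h3 : ∀ p ∈ Z, G δ a a' x y p (u % md δ p) = G δ a a' x y p u := fun p _ =>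
      G_mod δ a a' x y hδ p u
    rw [Finset.prod_congr rfl h3]
    unfold G
    rw [Finset.prod_ite_zero]
    have h4 : (∀ p ∈ Z, (md δ p : ℤ) ∣ (a : ℤ) * (u : ℤ) - (x : ℤ) ∧
        (md δ p : ℤ) ∣ (a' : ℤ) * (u : ℤ) + (y : ℤ)) ↔
        ((pe δ Z : ℤ) ∣ (a : ℤ) * (u : ℤ) - (x : ℤ) ∧ (pe δ Z : ℤ) ∣ (a' : ℤ) * (u : ℤ) + (y : ℤ)) := by
      rw [pe_dvd_iff hδ hZ, pe_dvd_iff hδ hZ]
      exact forall₂_and
    simp only [h4]
    rfl
  rw [un, Finset.sum_filter]
  refine Finset.sum_congr rfl fun u _ => ?_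
  rw [h2]
  by_cases hc : Nat.Coprime u (pe δ Z)
  · rw [if_pos hc]
  · rw [if_neg hc, ch_zero hδ hZ hc]
    simp

/-! ### the counting functions -/

theorem Nr_neg (δ : ℤ) (X : Finset ℕ) (x M : ℤ) : Nr δ X 19 x M = Nr δ X 11 (-x) M := by
  classical
  unfold Nr
  rw [← finsum_comp_equiv sgB]
  refine finsum_congr fun q => ?_
  have e1 : Fm δ X 19 (sgB q) ↔ Fm δ X 11 q := by
    unfold Fm sgB
    simp only [Equiv.coe_fn_mk]
    have h : (30 : ℤ) ∣ -q.2.1 - 19 * (pe δ X : ℤ) ↔ (30 : ℤ) ∣ q.2.1 - 11 * (pe δ X : ℤ) := by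
      constructor
      · intro h; omega
      · intro h; omega
    rw [h, neg_pow_two]
  have e2 : ev (sgB q) x M = ev q (-x) M := by
    unfold ev sgB
    simp only [Equiv.coe_fn_mk]
    ring
  have e3 : cx δ X (sgB q) = cx δ X q := rfl
  have e4 : (sgB q).1 = q.1 := rfl
  simp only [e1, e2, e3, e4]

/-- the translation at `2` -/
theorem two_shift {M : ℕ} (hM : M = 4 ∨ M = 8) {A B C P : ℤ} (h : B ^ 2 - 4 * A * C = P ^ 2)
    (hP : (M : ℤ) ∣ P) (hA : 2 ∣ A) (hC : ¬ 2 ∣ C) : (M : ℤ) ∣ A + B := by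
  have hB : (2 : ℤ) ∣ B := by
    have hM2 : (2 : ℤ) ∣ (M : ℤ) := by rcases hM with h | h <;> rw [h] <;> norm_num
    have h1 : (2 : ℤ) ∣ B ^ 2 := by
      have : B ^ 2 = P ^ 2 + 2 * (2 * A * C) := by linear_combination h
      rw [this]
      exact dvd_add (dvd_pow (hM2.trans hP) (by norm_num)) (dvd_mul_right _ _)
    exact Int.prime_two.dvd_of_dvd_pow h1
  have hcop : IsCoprime (4 : ℤ) C := by
    have h2 : IsCoprime (2 : ℤ) C := (Prime.coprime_iff_not_dvd Int.prime_two).2 hC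
    have : (4 : ℤ) = 2 ^ 2 := by norm_num
    rw [this]
    exact h2.pow_left
  have h4P : (4 : ℤ) ∣ P := by
    refine dvd_trans ?_ hP
    rcases hM with h | h <;> rw [h] <;> norm_num
  obtain ⟨β, rfl⟩ := hB
  obtain ⟨α, rfl⟩ := hA
  obtain ⟨o, rfl⟩ := h4P
  have h1 : β ^ 2 = 2 * (α * C) + 4 * o ^ 2 := by linarith
  have hβ : (2 : ℤ) ∣ β := by
    refine Int.prime_two.dvd_of_dvd_pow (n := 2) ?_
    rw [h1]
    exact ⟨α * C + 2 * o ^ 2, by ring⟩
  obtain ⟨γ, rfl⟩ := hβ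
  have h2 : α * C = 2 * (γ ^ 2 - o ^ 2) := by linarith
  have h3 : (2 : ℤ) ∣ α := by
    have h4 : (2 : ℤ) ∣ α * C := ⟨_, h2⟩
    rcases Int.prime_two.dvd_or_dvd h4 with h5 | h5
    · exact h5
    · exact absurd h5 hC
  obtain ⟨α', rfl⟩ := h3
  rcases hM with rfl | rfl
  · exact ⟨α' + γ, by push_cast; ring⟩
  · have h5 : α' * C = γ ^ 2 - o ^ 2 := by linarith
    have ho : (2 : ℤ) ∣ o := by
      obtain ⟨c, hc⟩ := hP
      exact ⟨c, by push_cast at hc; linarith⟩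
    obtain ⟨o', rfl⟩ := ho
    have h6 : (2 : ℤ) ∣ α' + γ := by
      obtain ⟨c, hc⟩ : ∃ c, C = 2 * c + 1 := ⟨C / 2, by omega⟩
      rcases Int.even_or_odd' γ with ⟨g, hg | hg⟩
      · have : α' = 2 * (2 * g ^ 2 - 2 * o' ^ 2 - α' * c) := by
          rw [hg, hc] at h5
          linarith
        omega
      · have : α' = 2 * (2 * g ^ 2 + 2 * g - 2 * o' ^ 2 - α' * c) + 1 := by
          rw [hg, hc] at h5
          linarith
        omega
    obtain ⟨c, hc⟩ := h6
    exact ⟨c, by push_cast; linarith⟩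

theorem Nr_per {δ : ℤ} (hδ : Dt δ) (X : Finset ℕ) (hX : ∀ p ∈ X, p.Prime) (k x M : ℤ) :
    Nr δ X k (x + M) M = Nr δ X k x M := by
  classical
  unfold Nr
  rw [← finsum_comp_equiv trB (f := fun q => if Fm δ X k q ∧ 0 < q.1 ∧ ev q x M < 0 then cx δ X q else 0)]
  refine finsum_congr fun q => ?_
  have e1 : Fm δ X k (trB q) ↔ Fm δ X k q := by
    unfold Fm trB
    simp only [Equiv.coe_fn_mk]
    constructor
    · rintro ⟨h1, h2, h3⟩
      refine ⟨by linear_combination h1, h2, ?_⟩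
      have : q.2.1 - k * (pe δ X : ℤ) = (q.2.1 + 2 * q.1 - k * (pe δ X : ℤ)) - 2 * q.1 := by ring
      rw [this]
      refine dvd_sub h3 ?_
      obtain ⟨c, hc⟩ := h2
      exact ⟨c, by rw [hc]; ring⟩
    · rintro ⟨h1, h2, h3⟩
      refine ⟨by linear_combination h1, h2, ?_⟩
      have : (q.2.1 + 2 * q.1 - k * (pe δ X : ℤ)) = (q.2.1 - k * (pe δ X : ℤ)) + 2 * q.1 := by ring
      rw [this]
      refine dvd_add h3 ?_
      obtain ⟨c, hc⟩ := h2
      exact ⟨c, by rw [hc]; ring⟩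
  have e2 : ev (trB q) x M = ev q (x + M) M := by
    unfold ev trB
    simp only [Equiv.coe_fn_mk]
    ring
  have e4 : (trB q).1 = q.1 := rfl
  simp only [e1, e2, e4]
  split_ifs with h
  · obtain ⟨⟨h1, -, -⟩, -, -⟩ := h
    unfold cx
    refine Finset.prod_congr rfl fun p hp => ?_
    rw [e4]
    split_ifs with hd
    · have hmd : (md δ p : ℤ) ∣ (pe δ X : ℤ) := by
        exact_mod_cast Finset.dvd_prod_of_mem (fun p => md δ p) hp
      have e5 : (trB q).2.2 - q.2.2 = q.1 + q.2.1 := by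
        unfold trB
        simp only [Equiv.coe_fn_mk]
        ring
      by_cases p2 : p = 2
      · subst p2
        have hm2 : md δ 2 = δ.natAbs := by unfold md; rw [if_pos rfl]
        have hM4 := Dt_nat hδ
        have hd' : (2 : ℤ) ∣ q.1 := by exact_mod_cast hd
        by_cases hC : (2 : ℤ) ∣ q.2.2
        · -- both symbols vanish
          have hB : (2 : ℤ) ∣ q.2.1 := by
            have hM2 : (2 : ℤ) ∣ (md δ 2 : ℤ) := by
              rw [hm2]
              rcases hM4 with h | h <;> rw [h] <;> norm_num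
            have h2 : (2 : ℤ) ∣ q.2.1 ^ 2 := by
              have : q.2.1 ^ 2 = (pe δ X : ℤ) ^ 2 + 2 * (2 * q.1 * q.2.2) := by
                linear_combination h1
              rw [this]
              exact dvd_add (dvd_pow (hM2.trans hmd) (by norm_num)) (dvd_mul_right _ _)
            exact Int.prime_two.dvd_of_dvd_pow h2
          have z1 : sy δ 2 q.2.2 = 0 := by
            unfold sy
            rw [if_pos rfl]
            exact c2_even hC
          have z2 : sy δ 2 (trB q).2.2 = 0 := by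
            unfold sy
            rw [if_pos rfl]
            apply c2_even
            have : (trB q).2.2 = q.2.2 + (q.1 + q.2.1) := by linarith
            rw [this]
            exact dvd_add hC (dvd_add hd' hB)
          rw [z1, z2]
        · apply sy_congr hδ
          rw [hm2] at hmd ⊢
          have := two_shift hM4 h1 hmd hd' hC
          rw [← e5] at this
          rwa [dvd_sub_comm]
      · have hmp : md δ p = p := by unfold md; rw [if_neg p2]
        apply sy_congr hδ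
        rw [hmp] at hmd ⊢
        have hpp := Nat.prime_iff_prime_int.1 (hX p hp)
        have h2 : (p : ℤ) ∣ q.2.1 ^ 2 := by
          have : q.2.1 ^ 2 = (pe δ X : ℤ) ^ 2 + 4 * q.1 * q.2.2 := by linear_combination h1
          rw [this]
          exact dvd_add (dvd_pow hmd (by norm_num)) ((hd.mul_left 4).mul_right _)
        have h3 := hpp.dvd_of_dvd_pow h2
        rw [dvd_sub_comm, e5]
        exact dvd_add hd h3
    · rfl
  · rfl

theorem Nr_rf {δ : ℤ} (hδ : Dt δ) (X : Finset ℕ) (hX : ∀ p ∈ X, p.Prime) {m u : ℕ} (hu : u < m) :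
    Nr δ X 11 (-(u : ℤ)) (m : ℤ) = Nr δ X 11 ((rf m u : ℕ) : ℤ) (m : ℤ) := by
  rcases Nat.eq_zero_or_pos u with rfl | h0
  · have : rf m 0 = 0 := by unfold rf; simp
    rw [this]
    simp
  · have h1 : rf m u = m - u := by
      unfold rf
      exact Nat.mod_eq_of_lt (by omega)
    rw [h1, Nat.cast_sub hu.le, ← Nr_per hδ X hX 11 (-(u : ℤ)) (m : ℤ)]
    congr 1
    ring

/-- the divisor sums from the forms and cusps -/
theorem sum_WW (h1 : S_C1A) {δ : ℤ} (hδ : Dt δ) (u v : ℕ) (k : ℤ) (huv : UV u v k) (X Z : Finset ℕ)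
    (hP : Pe (X ∪ Z)) (hXZ : Disjoint X Z) (hZn : Z.Nonempty) :
    ∑ t ∈ un (pe δ Z), ch δ Z t * Nr δ X k t (pe δ Z) =
      ∑ T ∈ (range (pe δ X * pe δ Z)).filter (fun T => v ∣ T), WW δ u v X Z T := by
  classical
  have hZp : ∀ p ∈ Z, p.Prime := fun p hp => (hP p (mem_union_right _ hp)).1
  rw [h1 δ hδ u v k huv X Z hP hXZ hZn]
  refine Finset.sum_congr rfl fun T hT => ?_
  rw [mem_filter, mem_range] at hT
  unfold WW
  refine Finset.sum_congr rfl fun a ha => ?_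
  refine Finset.sum_congr rfl fun a' ha' => ?_
  congr 1
  rw [mem_filter, Nat.mem_divisors] at ha ha'
  have hdet : a * ((pe δ X * pe δ Z - T) / a) + a' * (T / a') = pe δ X * pe δ Z := by
    rw [Nat.mul_div_cancel' ha.1.1, Nat.mul_div_cancel' ha'.1.1]
    exact Nat.sub_add_cancel (le_of_lt hT.1)
  exact c1b hδ hZp a a' (T / a') ((pe δ X * pe δ Z - T) / a) (pe δ X) hdet

end C1

open C1

theorem t_C1' (h1 : S_C1A) : S_C1 := by
  classical
  intro δ hδ X Z hP hXZ hZn hN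
  have hXp : ∀ p ∈ X, p.Prime := fun p hp => (hP p (mem_union_left _ hp)).1
  have hZp : ∀ p ∈ Z, p.Prime := fun p hp => (hP p (mem_union_right _ hp)).1
  have hA := sum_WW h1 hδ 5 3 11 (Or.inl ⟨rfl, rfl, rfl⟩) X Z hP hXZ hZn
  have hB := sum_WW h1 hδ 3 5 19 (Or.inr ⟨rfl, rfl, rfl⟩) X Z hP hXZ hZn
  have hm0 : 0 < pe δ Z := pe_pos hδ hZp
  have hsq : sg δ Z * sg δ Z = 1 := sg_sq δ Z
  have hj : sg δ X * sg δ Z = -1 := by
    rw [← hN]
    unfold sg ch
    rw [Finset.prod_union hXZ]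
  -- the sum with `Nr δ X 19`
  have h19 : ∑ u ∈ un (pe δ Z), ch δ Z u * Nr δ X 19 u (pe δ Z) =
      sg δ Z * ∑ u ∈ un (pe δ Z), ch δ Z u * Nr δ X 11 u (pe δ Z) := by
    rw [sum_rf hm0 (fun u => ch δ Z u * Nr δ X 11 u (pe δ Z)), Finset.mul_sum]
    refine Finset.sum_congr rfl fun u hu => ?_
    have hum : u < pe δ Z := mem_range.1 (mem_filter.1 hu).1
    rw [Nr_neg, Nr_rf hδ X hXp hum, ch_rf hδ hum, ← mul_assoc, ← mul_assoc]
    congr 1
    rw [hsq, one_mul]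
  have hsum : Wt δ X Z = 2 * ∑ u ∈ un (pe δ Z), ch δ Z u * Nr δ X 11 u (pe δ Z) := by
    unfold Wt
    have e : ∀ u ∈ un (pe δ Z), ch δ Z u * Fx δ X u (pe δ Z) = ch δ Z u * Nr δ X 11 u (pe δ Z) -
        sg δ X * (ch δ Z u * Nr δ X 19 u (pe δ Z)) := by
      intro u _
      unfold Fx
      ring
    rw [Finset.sum_congr rfl e, Finset.sum_sub_distrib, ← Finset.mul_sum, h19, ← mul_assoc, hj]
    ring
  constructor
  · rw [hsum, hA]
  · rw [← hB, h19, hsum]
    linear_combination (-2 * ∑ u ∈ un (pe δ Z), ch δ Z u * Nr δ X 11 u (pe δ Z)) * hsq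

theorem t_C1 (h : S_C1A) (_hp : S_PARI) : S_C1 := t_C1' h

end Pool.Agent.XW
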