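import Pool.Agent.XW.C1A
import Pool.Agent.Y275.N.C2

/-!
# Project XW, job XW-05: evaluation of the divisor sums (helper90)

Port of `Pool/Agent/XV/C2.lean` (helper68) and of the proofs of helper574, helper275, helper949 and
helper51 to the symbols `sy δ`.
-/

set_option autoImplicit false

namespace Pool.Agent.XW.C2n

open Finset
open Pool.Agent.Z700 (hh)
open Pool.Agent.NH2 (wp)
open Pool.Agent.Y574.Z7 (sum_local chp dvd_fac alt_sum one_sum two_pt jac_prod)
open Pool.Agent.Y275.N (alt_zero)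
open Pool.Agent.XW.C1A (md_two md_ne md_pos dvd_md of_dvd_md of_dvd_pe c2_zero c2_ne c2_congr sy_two
  sy_odd jac_zero jac_ne jac_congr)

/-! ### the symbols -/

theorem c2_mul (δ a b : ℤ) : c2 δ (a * b) = c2 δ a * c2 δ b := by
  unfold c2
  split_ifs
  · rw [Int.cast_mul, map_mul]
  · rw [Int.cast_mul, map_mul]
  · rw [Int.cast_mul, map_mul]

theorem c2_one (δ : ℤ) : c2 δ 1 = 1 := by
  unfold c2
  split_ifs
  · rw [Int.cast_one, map_one]
  · rw [Int.cast_one, map_one]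
  · rw [Int.cast_one, map_one]

theorem c2_sq {δ n : ℤ} (h : ¬ (2 : ℤ) ∣ n) : c2 δ n * c2 δ n = 1 := by
  unfold c2
  have h1 : ¬ n % 2 = 0 := by omega
  split_ifs
  · rw [ZMod.χ₄_int_eq_if_mod_four, if_neg h1]
    split_ifs <;> norm_num
  · rw [ZMod.χ₈_int_eq_if_mod_eight, if_neg h1]
    split_ifs <;> norm_num
  · rw [ZMod.χ₈'_int_eq_if_mod_eight, if_neg h1]
    split_ifs <;> norm_num

theorem sy_mul (δ : ℤ) (p : ℕ) (a b : ℤ) : sy δ p (a * b) = sy δ p a * sy δ p b := by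
  unfold sy
  split_ifs
  · exact c2_mul δ a b
  · exact jacobiSym.mul_left ..

theorem sy_one (δ : ℤ) (p : ℕ) : sy δ p 1 = 1 := by
  unfold sy
  split_ifs
  · exact c2_one δ
  · exact jacobiSym.one_left ..

theorem sy_neg (δ : ℤ) (p : ℕ) (a : ℤ) : sy δ p (-a) = sy δ p (-1) * sy δ p a := by
  rw [← sy_mul, neg_one_mul]

theorem sy_sq {δ : ℤ} {p : ℕ} (hp : p.Prime) {n : ℤ} (h : ¬ (p : ℤ) ∣ n) :
    sy δ p n * sy δ p n = 1 := by
  by_cases h2 : p = 2
  · subst h2
    rw [sy_two]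
    exact c2_sq (by exact_mod_cast h)
  · rw [sy_odd h2, ← sq]
    apply jacobiSym.sq_one
    have h1 : IsCoprime (p : ℤ) n := (Nat.prime_iff_prime_int.1 hp).coprime_iff_not_dvd.2 h
    exact Int.isCoprime_iff_gcd_eq_one.1 h1.symm

theorem sy_neg_sq {δ : ℤ} {p : ℕ} (hp : p.Prime) : sy δ p (-1) * sy δ p (-1) = 1 :=
  sy_sq hp fun h => hp.one_lt.ne' (by
    have h1 : (p : ℤ) ∣ 1 := (dvd_neg).1 h
    exact_mod_cast Int.eq_one_of_dvd_one (by positivity) h1)

theorem sy_pm {δ : ℤ} {p : ℕ} (hp : p.Prime) : sy δ p (-1) = 1 ∨ sy δ p (-1) = -1 :=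
  mul_self_eq_one_iff.1 (sy_neg_sq hp)

/-- the symbol of the part prime to `p` -/
def cp (δ : ℤ) (p n : ℕ) : ℤ := sy δ p ((n / p ^ n.factorization p : ℕ) : ℤ)

variable {δ : ℤ}

theorem cp_odd {p : ℕ} (h : p ≠ 2) (n : ℕ) : cp δ p n = chp p n := by
  unfold cp
  rw [sy_odd h]
  rfl

theorem cp_mul (p a b : ℕ) : cp δ p (a * b) = cp δ p a * cp δ p b := by
  unfold cp
  rw [Nat.ordCompl_mul, Nat.cast_mul, sy_mul]

theorem cp_one (p : ℕ) : cp δ p 1 = 1 := by
  unfold cp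
  simp [sy_one]

theorem cp_self {p : ℕ} (hp : p.Prime) : cp δ p p = 1 := by
  unfold cp
  rw [hp.factorization_self, pow_one, Nat.div_self hp.pos]
  exact_mod_cast sy_one δ p

theorem cp_nd {p n : ℕ} (h : ¬ p ∣ n) : cp δ p n = sy δ p n := by
  unfold cp
  rw [Nat.factorization_eq_zero_of_not_dvd h, pow_zero, Nat.div_one]

theorem cp_sq {p n : ℕ} (hp : p.Prime) (hn : n ≠ 0) : cp δ p n * cp δ p n = 1 := by
  have h := Nat.coprime_ordCompl hp hn
  unfold cp
  apply sy_sq hp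
  intro h1
  have h2 : p ∣ n / p ^ n.factorization p := by exact_mod_cast h1
  exact (hp.coprime_iff_not_dvd.1 h) h2

theorem cp_pm {p n : ℕ} (hp : p.Prime) (hn : n ≠ 0) : cp δ p n = 1 ∨ cp δ p n = -1 :=
  mul_self_eq_one_iff.1 (cp_sq hp hn)

theorem sy_eq {p : ℕ} (hp : p.Prime) (n : ℕ) : sy δ p n = if p ∣ n then 0 else cp δ p n := by
  split_ifs with h
  · exact jac_zero hp (by exact_mod_cast h)
  · exact (cp_nd h).symm

/-- the product of the symbols -/
def Pn (δ : ℤ) (N : Finset ℕ) (m : ℕ) : ℤ := ∏ q ∈ N, cp δ q m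

variable {N : Finset ℕ}

theorem Pn_one : Pn δ N 1 = 1 := Finset.prod_eq_one fun q _ => cp_one q

theorem Pn_mul (a b : ℕ) : Pn δ N (a * b) = Pn δ N a * Pn δ N b := by
  unfold Pn
  rw [← Finset.prod_mul_distrib]
  exact Finset.prod_congr rfl fun q _ => cp_mul q a b

theorem Pn_pow (a k : ℕ) : Pn δ N (a ^ k) = Pn δ N a ^ k := by
  induction k with
  | zero => rw [pow_zero, pow_zero, Pn_one]
  | succ k ih => rw [pow_succ, Pn_mul, ih, pow_succ]

theorem Pn_prod (s : Finset ℕ) (f : ℕ → ℕ) :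
    Pn δ N (∏ l ∈ s, f l) = ∏ l ∈ s, Pn δ N (f l) := by
  classical
  induction s using Finset.induction_on with
  | empty => rw [Finset.prod_empty, Finset.prod_empty, Pn_one]
  | insert l s hl ih => rw [Finset.prod_insert hl, Finset.prod_insert hl, Pn_mul, ih]

/-- `Pn` is completely multiplicative -/
theorem Pn_fac (Q : Finset ℕ) (m : ℕ) (hm : m ≠ 0) (h : m.primeFactors ⊆ Q) :
    Pn δ N m = ∏ l ∈ Q, Pn δ N l ^ m.factorization l := by
  have h1 : ∏ l ∈ m.primeFactors, l ^ m.factorization l = m := by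
    have h2 := Nat.prod_factorization_pow_eq_self hm
    unfold Finsupp.prod at h2
    rwa [Nat.support_factorization] at h2
  have h2 : Pn δ N m = ∏ l ∈ m.primeFactors, Pn δ N l ^ m.factorization l := by
    conv_lhs => rw [← h1]
    rw [Pn_prod]
    exact Finset.prod_congr rfl fun l _ => Pn_pow l _
  rw [h2]
  refine Finset.prod_subset h fun l _ hl => ?_
  rw [Finsupp.notMem_support_iff.1 (by rwa [Nat.support_factorization]), pow_zero]

theorem Pn_sq (hN : Pe N) {m : ℕ} (hm : m ≠ 0) : Pn δ N m * Pn δ N m = 1 := by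
  unfold Pn
  rw [← Finset.prod_mul_distrib]
  exact Finset.prod_eq_one fun q hq => cp_sq (hN q hq).1 hm

theorem Pn_pm (hN : Pe N) {m : ℕ} (hm : m ≠ 0) : Pn δ N m = 1 ∨ Pn δ N m = -1 :=
  mul_self_eq_one_iff.1 (Pn_sq hN hm)

/-- the value away from `N` -/
theorem Pn_ch (hN : Pe N) {l : ℕ} (hl : l.Prime) (h : l ∉ N) : Pn δ N l = ch δ N l := by
  unfold Pn ch
  refine Finset.prod_congr rfl fun q hq => cp_nd ?_
  intro hd
  rw [(Nat.prime_dvd_prime_iff_eq (hN q hq).1 hl).1 hd] at hq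
  exact h hq

/-! ### reciprocity -/

/-- reciprocity for one prime -/
theorem sy_recip (hD : Dt δ) {p l : ℕ} (hp : p.Prime) (hl : l.Prime) (h2 : l ≠ 2) :
    sy δ p l = jacobiSym (sy δ p (-1) * md δ p) l := by
  have hlo : Odd l := hl.odd_of_ne_two h2
  by_cases h : p = 2
  · subst h
    rw [sy_two, sy_two, md_two]
    have h4 : jacobiSym 4 l = 1 := by
      have h5 : ((4 : ℤ)) = 2 ^ 2 := by norm_num
      rw [h5]
      apply jacobiSym.sq_one'
      rw [show (2 : ℤ) = ((2 : ℕ) : ℤ) from rfl, Int.gcd_natCast_natCast]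
      exact (Nat.coprime_primes Nat.prime_two hl).2 (Ne.symm h2)
    rcases hD with rfl | rfl | rfl
    · have e1 : c2 (-4) (-1) = -1 := by decide
      have e2 : c2 (-4) (l : ℤ) = ZMod.χ₄ l := by
        unfold c2
        rw [if_pos rfl, Int.cast_natCast]
      rw [e1, e2, ← jacobiSym.at_neg_one hlo]
      have e3 : (-1 : ℤ) * ((Int.natAbs (-4) : ℕ) : ℤ) = -1 * 4 := by norm_num
      rw [e3, jacobiSym.mul_left, h4, mul_one]
    · have e1 : c2 8 (-1) = 1 := by decide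
      have e2 : c2 8 (l : ℤ) = ZMod.χ₈ l := by
        unfold c2
        rw [if_neg (by norm_num), if_pos rfl, Int.cast_natCast]
      rw [e1, e2, ← jacobiSym.at_two hlo]
      have e3 : (1 : ℤ) * ((Int.natAbs 8 : ℕ) : ℤ) = 2 * 4 := by norm_num
      rw [e3, jacobiSym.mul_left, h4, mul_one]
    · have e1 : c2 (-8) (-1) = -1 := by decide
      have e2 : c2 (-8) (l : ℤ) = ZMod.χ₈' l := by
        unfold c2
        rw [if_neg (by norm_num), if_neg (by norm_num), Int.cast_natCast]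
      rw [e1, e2, ← jacobiSym.at_neg_two hlo]
      have e3 : (-1 : ℤ) * ((Int.natAbs (-8) : ℕ) : ℤ) = -2 * 4 := by norm_num
      rw [e3, jacobiSym.mul_left, h4, mul_one]
  · have hpo := hp.odd_of_ne_two h
    rw [sy_odd h, sy_odd h, md_ne h, jacobiSym.at_neg_one hpo]
    have h5 : p % 4 = 1 ∨ p % 4 = 3 := by
      rw [Nat.odd_iff] at hpo; omega
    rcases h5 with h5 | h5
    · rw [ZMod.χ₄_nat_one_mod_four h5, one_mul]
      exact (jacobiSym.quadratic_reciprocity_one_mod_four h5 hlo).symm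
    · rw [ZMod.χ₄_nat_three_mod_four h5, neg_one_mul, jacobiSym.neg _ hlo]
      have h6 : l % 4 = 1 ∨ l % 4 = 3 := by
        rw [Nat.odd_iff] at hlo; omega
      rcases h6 with h6 | h6
      · rw [ZMod.χ₄_nat_one_mod_four h6, one_mul]
        exact jacobiSym.quadratic_reciprocity_one_mod_four h6 hpo
      · rw [ZMod.χ₄_nat_three_mod_four h6]
        have := jacobiSym.quadratic_reciprocity_three_mod_four h5 h6
        rw [this]
        ring

/-- reciprocity -/
theorem ch_recip (hD : Dt δ) {N : Finset ℕ} (hN : Pe N) {l : ℕ} (hl : l.Prime) (h2 : l ≠ 2) :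
    ch δ N l = jacobiSym (sg δ N * pe δ N) l := by
  classical
  induction N using Finset.induction_on with
  | empty =>
    unfold ch sg pe ch
    simp
  | insert p s hp ih =>
    have h1 : ch δ (insert p s) l = sy δ p l * ch δ s l := by
      unfold ch
      rw [Finset.prod_insert hp]
    have h3 : sg δ (insert p s) = sy δ p (-1) * sg δ s := by
      unfold sg ch
      rw [Finset.prod_insert hp]
    have h4 : pe δ (insert p s) = md δ p * pe δ s := by
      unfold pe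
      rw [Finset.prod_insert hp]
    rw [h1, h3, h4, ih fun q hq => hN q (Finset.mem_insert_of_mem hq),
      sy_recip hD (hN p (Finset.mem_insert_self _ _)).1 hl h2, ← jacobiSym.mul_left]
    congr 1
    push_cast
    ring

/-! ### the set `N` -/

/-- the hypotheses on the two sets and on the auxiliary primes -/
structure Hy (u v : ℕ) (δ : ℤ) (X Z : Finset ℕ) : Prop where
  hD : Dt δ
  pm : Pe (X ∪ Z)
  dj : Disjoint X Z
  hs : sg δ (X ∪ Z) = -1
  up : u.Prime
  un : u ∉ X ∪ Z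
  uP : Pn δ (X ∪ Z) u = -1
  vp : v = 1 ∨ (v.Prime ∧ v ∉ X ∪ Z ∧ Pn δ (X ∪ Z) v = 1)
  uv : u ≠ v

variable {u v : ℕ} {X Z : Finset ℕ}

theorem pe_union (h : Disjoint X Z) : pe δ (X ∪ Z) = pe δ X * pe δ Z := prod_union h

theorem pe_pos (hD : Dt δ) {N : Finset ℕ} (hN : Pe N) : 0 < pe δ N := C1A.pr_pos hD hN

theorem mem_dvd (hD : Dt δ) {N : Finset ℕ} {p : ℕ} (hp : p ∈ N) : p ∣ pe δ N :=
  (dvd_md hD p).trans (Finset.dvd_prod_of_mem (fun p => md δ p) hp)

theorem dvd_iff' (hD : Dt δ) {N : Finset ℕ} {S T p : ℕ} (hST : S + T = pe δ N) (hp : p ∈ N) :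
    p ∣ S ↔ p ∣ T := by
  have h := mem_dvd hD hp
  rw [← hST] at h
  exact ⟨fun h1 => (Nat.dvd_add_right h1).1 h, fun h1 => (Nat.dvd_add_left h1).1 h⟩

theorem ch_two (hN : Pe N) (h2 : 2 ∉ N) (a : ℤ) : ch δ N a = jacobiSym a (pe δ N) := by
  have e : pe δ N = ∏ p ∈ N, p := by
    unfold pe
    refine Finset.prod_congr rfl fun p hp => md_ne ?_
    rintro rfl
    exact h2 hp
  rw [e, jac_prod _ _ fun q hq => (hN q hq).1.ne_zero]
  unfold ch
  refine Finset.prod_congr rfl fun p hp => sy_odd ?_ a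
  rintro rfl
  exact h2 hp

theorem odd_iff (hD : Dt δ) (hN : Pe N) : Odd (pe δ N) ↔ 2 ∉ N := by
  constructor
  · intro h h2
    have := mem_dvd hD h2
    rw [Nat.odd_iff] at h
    omega
  · intro h
    rw [← Nat.not_even_iff_odd, even_iff_two_dvd]
    intro h2
    exact h (of_dvd_pe hD hN Nat.prime_two h2)

/-- the value of the symbol away from `N` -/
theorem Pn_l (hD : Dt δ) (hN : Pe N) (hs : sg δ N = -1) {l : ℕ} (hl : l.Prime) (h : l ∉ N) :
    Pn δ N l = if Odd (pe δ N) then jacobiSym l (pe δ N) else jacobiSym (-(pe δ N : ℤ)) l := by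
  rw [Pn_ch hN hl h]
  split_ifs with ho
  · exact ch_two hN ((odd_iff hD hN).1 ho) l
  · have h2 : l ≠ 2 := by
      rintro rfl
      exact ho ((odd_iff hD hN).2 h)
    rw [ch_recip hD hN hl h2, hs, neg_one_mul]

/-- `l` divides `pe δ N` exactly once -/
theorem pe_erase {l : ℕ} (hl : l ∈ N) (h2 : l ≠ 2) : pe δ N = l * pe δ (N.erase l) := by
  unfold pe
  rw [← Finset.mul_prod_erase N _ hl, md_ne h2]

/-- reciprocity for the odd primes of `N` -/
theorem Pn_self (hD : Dt δ) (hN : Pe N) (hs : sg δ N = -1) {l : ℕ} (hl : l ∈ N) (h2 : l ≠ 2) :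
    Pn δ N l = cp δ l (pe δ N) := by
  have hp := (hN l hl).1
  have hodd := hp.odd_of_ne_two h2
  have hN' : Pe (N.erase l) := fun q hq => hN q (Finset.mem_of_mem_erase hq)
  have hnl : l ∉ N.erase l := Finset.notMem_erase l N
  have hnd : ¬ l ∣ pe δ (N.erase l) := fun h => hnl (of_dvd_pe hD hN' hp h)
  have e1 : Pn δ N l = Pn δ (N.erase l) l := by
    unfold Pn
    rw [← Finset.mul_prod_erase N _ hl, cp_self hp, one_mul]
  have e2 : cp δ l (pe δ N) = sy δ l (pe δ (N.erase l)) := by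
    rw [pe_erase hl h2, cp_mul, cp_self hp, one_mul, cp_nd hnd]
  have e3 : sg δ N = sy δ l (-1) * sg δ (N.erase l) := by
    unfold sg ch
    rw [← Finset.mul_prod_erase N _ hl]
  have e4 : sg δ (N.erase l) = - sy δ l (-1) := by
    rw [hs] at e3
    have h5 := sy_neg_sq (δ := δ) hp
    linear_combination (-sy δ l (-1)) * e3 - sg δ (N.erase l) * h5
  have e5 : jacobiSym (-sy δ l (-1)) l = 1 := by
    rw [jacobiSym.neg _ hodd, ← jacobiSym.at_neg_one hodd, sy_odd h2]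
    rcases sy_pm (δ := δ) hp with h5 | h5
    · rw [sy_odd h2] at h5
      rw [h5, jacobiSym.one_left, one_mul]
    · rw [sy_odd h2] at h5
      rw [h5, h5]
      norm_num
  rw [e1, e2, Pn_ch hN' hp hnl, ch_recip hD hN' hp h2, e4, jacobiSym.mul_left, e5, one_mul, sy_odd h2]

/-! ### the local weights -/

/-- the local weight at the elements of `X` -/
def wx (δ : ℤ) (S T q i j : ℕ) : ℤ :=
  if q ∣ T then (if i = 0 ∧ j = 0 then 1 else if i = S.factorization q ∧ j = T.factorization q then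
    sy δ q (-1) * (cp δ q S * cp δ q T) else 0) else 1

/-- the local weight at the elements of `Z` -/
def wn (δ : ℤ) (S T q i j : ℕ) : ℤ :=
  if q ∣ T then (if i = S.factorization q ∧ j = 0 then sy δ q (-1) * cp δ q S
      else if i = 0 ∧ j = T.factorization q then cp δ q T else 0) else cp δ q T

theorem w1_eq {p S T a a' : ℕ} (hp : p.Prime) (hS : S ≠ 0) (hT : T ≠ 0)
    (hd : p ∣ S ↔ p ∣ T) (ha : a ∣ S) (ha' : a' ∣ T) :
    w1 δ p a a' (T / a') (S / a) =
      cp δ p a * cp δ p a' * wx δ S T p (a.factorization p) (a'.factorization p) := by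
  obtain ⟨Y, rfl⟩ := ha
  obtain ⟨X, rfl⟩ := ha'
  have a0 : a ≠ 0 := left_ne_zero_of_mul hS
  have Y0 : Y ≠ 0 := right_ne_zero_of_mul hS
  have b0 : a' ≠ 0 := left_ne_zero_of_mul hT
  have X0 : X ≠ 0 := right_ne_zero_of_mul hT
  rw [Nat.mul_div_cancel_left _ (Nat.pos_of_ne_zero a0), Nat.mul_div_cancel_left _ (Nat.pos_of_ne_zero b0)]
  rw [dvd_fac hp hS, dvd_fac hp hT, Nat.factorization_mul a0 Y0, Nat.factorization_mul b0 X0,
    Finsupp.add_apply, Finsupp.add_apply] at hd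
  unfold w1 wx
  rw [sy_neg, sy_eq hp, sy_eq hp]
  simp only [dvd_fac hp a0, dvd_fac hp b0, dvd_fac hp (mul_ne_zero X0 Y0),
    dvd_fac hp (mul_ne_zero a0 b0), dvd_fac hp hT, Nat.factorization_mul a0 Y0,
    Nat.factorization_mul b0 X0, Nat.factorization_mul X0 Y0, Nat.factorization_mul a0 b0,
    Finsupp.add_apply, cp_mul]
  have s1 := cp_sq (δ := δ) hp a0
  have s2 := cp_sq (δ := δ) hp b0
  generalize (sy δ p (-1) : ℤ) = c at *
  generalize a.factorization p = i at *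
  generalize Y.factorization p = y at *
  generalize a'.factorization p = j at *
  generalize X.factorization p = x at *
  generalize cp δ p a = α at *
  generalize cp δ p a' = α' at *
  generalize cp δ p Y = υ at *
  generalize cp δ p X = ξ at *
  split_ifs
  all_goals first
    | (exfalso; omega)
    | ring1
    | (linear_combination (-(c * ξ * υ)) * (s1 + s2))
    | (linear_combination (-(c * ξ * υ) * (α' * α')) * s1 - (c * ξ * υ) * s2)

theorem w2_eq {p S T a a' : ℕ} (hp : p.Prime) (hS : S ≠ 0) (hT : T ≠ 0)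
    (hd : p ∣ S ↔ p ∣ T) (ha : a ∣ S) (ha' : a' ∣ T) :
    w2 δ p a a' (T / a') (S / a) =
      cp δ p a * cp δ p a' * wn δ S T p (a.factorization p) (a'.factorization p) := by
  obtain ⟨Y, rfl⟩ := ha
  obtain ⟨X, rfl⟩ := ha'
  have a0 : a ≠ 0 := left_ne_zero_of_mul hS
  have Y0 : Y ≠ 0 := right_ne_zero_of_mul hS
  have b0 : a' ≠ 0 := left_ne_zero_of_mul hT
  have X0 : X ≠ 0 := right_ne_zero_of_mul hT
  rw [Nat.mul_div_cancel_left _ (Nat.pos_of_ne_zero a0), Nat.mul_div_cancel_left _ (Nat.pos_of_ne_zero b0)]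
  rw [dvd_fac hp hS, dvd_fac hp hT, Nat.factorization_mul a0 Y0, Nat.factorization_mul b0 X0,
    Finsupp.add_apply, Finsupp.add_apply] at hd
  unfold w2 wn
  rw [sy_neg, sy_eq hp, sy_eq hp]
  simp only [dvd_fac hp a0, dvd_fac hp X0, dvd_fac hp (mul_ne_zero b0 Y0),
    dvd_fac hp (mul_ne_zero a0 X0), dvd_fac hp hT, Nat.factorization_mul a0 Y0, Nat.factorization_mul b0 X0,
    Nat.factorization_mul b0 Y0, Nat.factorization_mul a0 X0, Finsupp.add_apply, cp_mul]
  have s1 := cp_sq (δ := δ) hp a0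
  have s2 := cp_sq (δ := δ) hp b0
  generalize (sy δ p (-1) : ℤ) = c at *
  generalize a.factorization p = i at *
  generalize Y.factorization p = y at *
  generalize a'.factorization p = j at *
  generalize X.factorization p = x at *
  generalize cp δ p a = α at *
  generalize cp δ p a' = α' at *
  generalize cp δ p Y = υ at *
  generalize cp δ p X = ξ at *
  split_ifs
  all_goals first
    | (exfalso; omega)
    | ring1
    | (linear_combination (-(α * ξ)) * s2)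
    | (linear_combination (-(c * α' * υ)) * s1)

/-- the local weight at an element of `N` -/
def gw (δ : ℤ) (X : Finset ℕ) (S T l i j : ℕ) : ℤ := if l ∈ X then wx δ S T l i j else wn δ S T l i j

/-- the excluded primes -/
def ex (u v : ℕ) : Finset ℕ := if v = 1 then {u} else {u, v}

theorem mem_ex {l : ℕ} : l ∈ ex u v ↔ l = u ∨ (l = v ∧ v ≠ 1) := by
  unfold ex
  split_ifs with h
  · simp [h]
  · simp [h]

/-- all the primes -/
def QQ (u v : ℕ) (N : Finset ℕ) (S T : ℕ) : Finset ℕ := ex u v ∪ (N ∪ (S * T).primeFactors)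

theorem ex_QQ {S T : ℕ} : ex u v ⊆ QQ u v N S T := subset_union_left

theorem sub_QQ {S T : ℕ} : N ⊆ QQ u v N S T := fun _ hq =>
  mem_union_right _ (mem_union_left _ hq)

theorem pf_QQ {S T : ℕ} : (S * T).primeFactors ⊆ QQ u v N S T := fun _ hq =>
  mem_union_right _ (mem_union_right _ hq)

theorem QQ_prime {S T : ℕ} (h : Hy u v δ X Z) :
    ∀ l ∈ QQ u v (X ∪ Z) S T, l.Prime := by
  intro l hl
  unfold QQ at hl
  rcases Finset.mem_union.1 hl with hl | hl
  · rcases mem_ex.1 hl with rfl | ⟨rfl, h1⟩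
    · exact h.up
    · rcases h.vp with h2 | h2
      · exact absurd h2 h1
      · exact h2.1
  rcases Finset.mem_union.1 hl with hl | hl
  · exact (h.pm l hl).1
  · exact Nat.prime_of_mem_primeFactors hl

/-- the local weights -/
def Wl (u v : ℕ) (δ : ℤ) (X N : Finset ℕ) (S T l i j : ℕ) : ℤ :=
  Pn δ N l ^ (i + j) * (if l ∈ N then gw δ X S T l i j else 1) *
    (if l = u then (if 1 ≤ i then 1 else 0) else 1) * (if l = v then (if 1 ≤ j then 1 else 0) else 1)

theorem term_eq {S T : ℕ} (h : Hy u v δ X Z) (hS : S ≠ 0) (hT : T ≠ 0)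
    (hST : S + T = pe δ (X ∪ Z)) {a a' : ℕ} (ha : a ∣ S) (ha' : a' ∣ T) :
    (if u ∣ a then (if v ∣ a' then
      (∏ p ∈ X, w1 δ p a a' (T / a') (S / a)) * ∏ p ∈ Z, w2 δ p a a' (T / a') (S / a) else 0)
        else 0) =
      ∏ l ∈ QQ u v (X ∪ Z) S T, Wl u v δ X (X ∪ Z) S T l (a.factorization l) (a'.factorization l) := by
  classical
  obtain ⟨N, hN⟩ : ∃ N, N = X ∪ Z := ⟨_, rfl⟩
  have hpr := QQ_prime (S := S) (T := T) h
  have hpm := h.pm
  rw [← hN] at hST hpr hpm ⊢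
  have a0 : a ≠ 0 := by rintro rfl; exact hS (zero_dvd_iff.1 ha)
  have b0 : a' ≠ 0 := by rintro rfl; exact hT (zero_dvd_iff.1 ha')
  have hsa : a.primeFactors ⊆ QQ u v N S T :=
    (Nat.primeFactors_mono (ha.mul_right T) (mul_ne_zero hS hT)).trans pf_QQ
  have hsb : a'.primeFactors ⊆ QQ u v N S T :=
    (Nat.primeFactors_mono (ha'.mul_left S) (mul_ne_zero hS hT)).trans pf_QQ
  unfold Wl
  rw [Finset.prod_mul_distrib, Finset.prod_mul_distrib, Finset.prod_mul_distrib]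
  have e1 : ∏ l ∈ QQ u v N S T, Pn δ N l ^ (a.factorization l + a'.factorization l) =
      Pn δ N a * Pn δ N a' := by
    rw [Pn_fac (QQ u v N S T) a a0 hsa, Pn_fac (QQ u v N S T) a' b0 hsb,
      ← Finset.prod_mul_distrib]
    exact Finset.prod_congr rfl fun l _ => pow_add _ _ _
  have e2 : ∏ l ∈ QQ u v N S T, (if l ∈ N then
      gw δ X S T l (a.factorization l) (a'.factorization l) else 1) =
      ∏ l ∈ N, gw δ X S T l (a.factorization l) (a'.factorization l) := by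
    rw [Finset.prod_ite_mem, Finset.inter_eq_right.2 sub_QQ]
  have e3 : ∏ l ∈ QQ u v N S T, (if l = u then (if 1 ≤ a.factorization l then (1 : ℤ) else 0)
      else 1) = if u ∣ a then 1 else 0 := by
    rw [Finset.prod_ite_eq' (QQ u v N S T) u
      (fun l => if 1 ≤ a.factorization l then (1 : ℤ) else 0),
      if_pos (ex_QQ (mem_ex.2 (Or.inl rfl)))]
    simp only [dvd_fac h.up a0]
  have e4 : ∏ l ∈ QQ u v N S T, (if l = v then
      (if 1 ≤ a'.factorization l then (1 : ℤ) else 0) else 1) =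
      if v ∣ a' then 1 else 0 := by
    rcases h.vp with h1 | h1
    · rw [if_pos (by rw [h1]; exact one_dvd _)]
      refine Finset.prod_eq_one fun l hl => ?_
      have := (hpr l hl).one_lt
      rw [if_neg (by omega)]
    · rw [Finset.prod_ite_eq' (QQ u v N S T) v (fun l =>
        (if 1 ≤ a'.factorization l then (1 : ℤ) else 0)),
        if_pos (ex_QQ (mem_ex.2 (Or.inr ⟨rfl, h1.1.one_lt.ne'⟩)))]
      simp only [dvd_fac h1.1 b0]
  rw [e1, e2, e3, e4]
  have e5 : (∏ p ∈ X, w1 δ p a a' (T / a') (S / a)) * ∏ p ∈ Z, w2 δ p a a' (T / a') (S / a) =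
      Pn δ N a * Pn δ N a' *
        ∏ l ∈ N, gw δ X S T l (a.factorization l) (a'.factorization l) := by
    unfold Pn
    rw [← Finset.prod_mul_distrib, ← Finset.prod_mul_distrib, hN, Finset.prod_union h.dj]
    rw [hN] at hpm hST
    congr 1
    · refine Finset.prod_congr rfl fun p hp => ?_
      have hpn : p ∈ X ∪ Z := mem_union_left _ hp
      rw [w1_eq (hpm p hpn).1 hS hT (dvd_iff' h.hD hST hpn) ha ha']
      unfold gw
      rw [if_pos hp]
    · refine Finset.prod_congr rfl fun p hp => ?_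
      have hpX : p ∉ X := fun h' => (Finset.disjoint_left.1 h.dj h') hp
      have hpn : p ∈ X ∪ Z := mem_union_right _ hp
      rw [w2_eq (hpm p hpn).1 hS hT (dvd_iff' h.hD hST hpn) ha ha']
      unfold gw
      rw [if_neg hpX]
  rw [e5]
  split_ifs <;> simp

/-- the sum of the local weights -/
def Ls (u v : ℕ) (δ : ℤ) (X N : Finset ℕ) (S T l : ℕ) : ℤ :=
  ∑ i ∈ range (S.factorization l + 1), ∑ j ∈ range (T.factorization l + 1), Wl u v δ X N S T l i j

theorem WW_eq {S T : ℕ} (h : Hy u v δ X Z) (hS : S ≠ 0) (hT : T ≠ 0)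
    (hST : S + T = pe δ (X ∪ Z)) : WW δ u v X Z T =
      ∏ l ∈ QQ u v (X ∪ Z) S T, Ls u v δ X (X ∪ Z) S T l := by
  have hnT : pe δ X * pe δ Z - T = S := by rw [← pe_union h.dj]; omega
  unfold Ls
  rw [← sum_local (Wl u v δ X (X ∪ Z) S T) (QQ u v (X ∪ Z) S T) (QQ_prime h) S T hS hT
    (fun l hl hd => pf_QQ (Nat.mem_primeFactors.2 ⟨hl, hd.mul_right T, mul_ne_zero hS hT⟩))
    (fun l hl hd => pf_QQ (Nat.mem_primeFactors.2 ⟨hl, hd.mul_left S, mul_ne_zero hS hT⟩))]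
  unfold WW
  rw [hnT, Finset.sum_filter]
  refine Finset.sum_congr rfl fun a ha => ?_
  rw [Finset.sum_filter]
  have ha1 := Nat.dvd_of_mem_divisors ha
  have h1 : ∀ a' ∈ T.divisors,
      ∏ l ∈ QQ u v (X ∪ Z) S T, Wl u v δ X (X ∪ Z) S T l (a.factorization l) (a'.factorization l) =
      (if u ∣ a then (if v ∣ a' then
      (∏ p ∈ X, w1 δ p a a' (T / a') (S / a)) * ∏ p ∈ Z, w2 δ p a a' (T / a') (S / a) else 0)
        else 0) :=
    fun a' ha' => (term_eq h hS hT hST ha1 (Nat.dvd_of_mem_divisors ha')).symm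
  rw [Finset.sum_congr rfl h1]
  by_cases h2 : u ∣ a
  · simp only [if_pos h2]
  · simp only [if_neg h2, Finset.sum_const_zero]

/-! ### the local factors -/

theorem fac_D {S T : ℕ} (hS : S ≠ 0) (hT : T ≠ 0) (l : ℕ) :
    (T * S).factorization l = S.factorization l + T.factorization l := by
  rw [Nat.factorization_mul hT hS, Finsupp.add_apply, add_comm]

theorem mem_D {S T l : ℕ} (hS : S ≠ 0) (hT : T ≠ 0) (hl : l.Prime) :
    l ∈ (T * S).primeFactors ↔ l ∣ S ∨ l ∣ T := by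
  rw [Nat.mem_primeFactors, Nat.Prime.dvd_mul hl]
  constructor
  · rintro ⟨_, h | h, _⟩
    · exact Or.inr h
    · exact Or.inl h
  · exact fun h => ⟨hl, h.symm, mul_ne_zero hT hS⟩

/-- the local sign -/
def ep (δ : ℤ) (N : Finset ℕ) (S T l : ℕ) : ℤ :=
  sy δ l (-1) * (Pn δ N l) ^ (S.factorization l + T.factorization l) * (cp δ l S * cp δ l T)

theorem ep_sq {S T l : ℕ} (hN : Pe N) (hl : l.Prime) (hS : S ≠ 0) (hT : T ≠ 0) :
    ep δ N S T l * ep δ N S T l = 1 := by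
  unfold ep
  have h1 := sy_neg_sq (δ := δ) hl
  have h2 := cp_sq (δ := δ) hl hS
  have h3 := cp_sq (δ := δ) hl hT
  have h4 : (Pn δ N l) ^ (S.factorization l + T.factorization l) *
      (Pn δ N l) ^ (S.factorization l + T.factorization l) = 1 := by
    rw [← mul_pow, Pn_sq hN hl.ne_zero, one_pow]
  generalize (Pn δ N l) ^ (S.factorization l + T.factorization l) = A at *
  generalize sy δ l (-1) = c at *
  generalize cp δ l S = s at *
  generalize cp δ l T = t at *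
  have : c * A * (s * t) * (c * A * (s * t)) = (c * c) * (A * A) * (s * s) * (t * t) := by ring
  rw [this, h1, h2, h3, h4]
  norm_num

theorem hh_eq {S T l : ℕ} (hD : Dt δ) (hN : Pe N) (hs : sg δ N = -1) (hS : S ≠ 0) (hT : T ≠ 0)
    (hl : l ∈ N) (h2 : l ≠ 2) : hh (pe δ N) (T * S) l = ep δ N S T l := by
  have hp := (hN l hl).1
  have hodd := hp.odd_of_ne_two h2
  have h0 : pe δ N ≠ 0 := (pe_pos hD hN).ne'
  have hsq : cp δ l (pe δ N) * cp δ l (pe δ N) = 1 := cp_sq hp h0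
  have hN' : Pe (N.erase l) := fun q hq => hN q (Finset.mem_of_mem_erase hq)
  have hnd : ¬ l ∣ pe δ (N.erase l) := fun h =>
    (Finset.notMem_erase l N) (of_dvd_pe hD hN' hp h)
  have hm : cp δ l (pe δ N) = jacobiSym ((pe δ N / l : ℕ) : ℤ) l := by
    rw [pe_erase hl h2, Nat.mul_div_cancel_left _ hp.pos, cp_mul, cp_self hp, one_mul, cp_nd hnd,
      sy_odd h2]
  have hDD : jacobiSym ((T * S / l ^ (T * S).factorization l : ℕ) : ℤ) l = cp δ l S * cp δ l T := by
    have : jacobiSym ((T * S / l ^ (T * S).factorization l : ℕ) : ℤ) l = chp l (T * S) := rfl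
    rw [this, ← cp_odd (δ := δ) h2, cp_mul, mul_comm]
  have hc : (ZMod.χ₄ (l : ZMod 4) : ℤ) = sy δ l (-1) := by
    rw [sy_odd h2, jacobiSym.at_neg_one hodd]
  unfold Pool.Agent.Z700.hh ep
  rw [Pn_self hD hN hs hl h2, jacobiSym.neg _ hodd, jacobiSym.neg _ hodd, Nat.cast_mul,
    jacobiSym.mul_left, hDD, ← hm, ← fac_D hS hT l, hc]
  split_ifs with h
  · obtain ⟨k, hk⟩ := h
    rw [hk, ← two_mul, pow_mul, sq, hsq, one_pow]
    ring
  · rw [Nat.not_even_iff_odd] at h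
    obtain ⟨k, hk⟩ := h
    rw [hk, pow_succ, pow_mul, sq, hsq, one_pow]
    ring

theorem facp_eq {S T l : ℕ} (hD : Dt δ) (hN : Pe N) (hs : sg δ N = -1) (hS : S ≠ 0) (hT : T ≠ 0)
    (hl : l ∈ N) (h2 : l ≠ 2) : fc (pe δ N) (T * S) l = 1 + ep δ N S T l := by
  unfold fc
  rw [if_pos (mem_dvd hD hl), if_neg h2, hh_eq hD hN hs hS hT hl h2]

theorem facg_eq {S T l : ℕ} (hD : Dt δ) (hN : Pe N) (hs : sg δ N = -1) (hS : S ≠ 0) (hT : T ≠ 0)
    (hp : l.Prime) (hl : l ∉ N) : fc (pe δ N) (T * S) l =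
      ∑ j ∈ range (S.factorization l + T.factorization l + 1), Pn δ N l ^ j := by
  unfold fc
  rw [if_neg (fun h => hl (of_dvd_pe hD hN hp h)), fac_D hS hT, Pn_l hD hN hs hp hl]

/-! ### the local sums -/

theorem Ls_u {S T : ℕ} (h : Hy u v δ X Z) (hST : S + T = pe δ (X ∪ Z)) :
    Ls u v δ X (X ∪ Z) S T u = if Odd (S.factorization u) then -1 else 0 := by
  have hu : ¬ u ∣ pe δ (X ∪ Z) := fun h' => h.un (of_dvd_pe h.hD h.pm h.up h')
  unfold Ls
  by_cases hd : u ∣ S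
  · have hT : ¬ u ∣ T := fun h' => hu (hST ▸ dvd_add hd h')
    rw [Nat.factorization_eq_zero_of_not_dvd hT, zero_add, ← alt_sum]
    refine Finset.sum_congr rfl fun i _ => ?_
    rw [Finset.sum_range_one]
    unfold Wl
    rw [if_neg h.un, if_pos rfl, if_neg h.uv, h.uP, add_zero]
    ring
  · rw [Nat.factorization_eq_zero_of_not_dvd hd, zero_add, Finset.sum_range_one,
      if_neg (by decide)]
    refine Finset.sum_eq_zero fun j _ => ?_
    unfold Wl
    rw [if_pos rfl, if_neg (by norm_num : ¬ 1 ≤ 0)]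
    ring

theorem Ls_v {S T : ℕ} (h : Hy u v δ X Z) (hST : S + T = pe δ (X ∪ Z)) (hv : v ≠ 1) :
    Ls u v δ X (X ∪ Z) S T v = (T.factorization v : ℤ) := by
  obtain ⟨hvp, hvn, hvP⟩ := h.vp.resolve_left hv
  have hv' : ¬ v ∣ pe δ (X ∪ Z) := fun h' => hvn (of_dvd_pe h.hD h.pm hvp h')
  unfold Ls
  by_cases hd : v ∣ T
  · have hS : ¬ v ∣ S := fun h' => hv' (hST ▸ dvd_add h' hd)
    rw [Nat.factorization_eq_zero_of_not_dvd hS, zero_add, Finset.sum_range_one, ← one_sum]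
    refine Finset.sum_congr rfl fun j _ => ?_
    unfold Wl
    rw [if_neg hvn, if_pos rfl, if_neg (fun h' => h.uv h'.symm), hvP, one_pow]
    ring
  · rw [Nat.factorization_eq_zero_of_not_dvd hd, zero_add, Nat.cast_zero]
    refine Finset.sum_eq_zero fun i _ => ?_
    rw [Finset.sum_range_one]
    unfold Wl
    rw [if_pos (rfl : v = v), if_neg (by norm_num : ¬ 1 ≤ 0)]
    ring

theorem Wl_ex {N : Finset ℕ} {S T l : ℕ} (hp : l.Prime) (hl : l ∉ ex u v) (i j : ℕ) :
    Wl u v δ X N S T l i j = Pn δ N l ^ (i + j) *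
      (if l ∈ N then gw δ X S T l i j else 1) := by
  rw [mem_ex] at hl
  push Not at hl
  unfold Wl
  have hlv : l ≠ v := by
    intro h
    have h1 := hl.2 h
    exact hp.one_lt.ne' (h.trans h1)
  rw [if_neg hl.1, mul_one, if_neg hlv, mul_one]

theorem Ls_gen {S T l : ℕ} (h : Hy u v δ X Z) (hS : S ≠ 0) (hT : T ≠ 0)
    (hST : S + T = pe δ (X ∪ Z)) (hp : l.Prime) (hex : l ∉ ex u v) (hl : l ∉ X ∪ Z) :
    Ls u v δ X (X ∪ Z) S T l = fc (pe δ (X ∪ Z)) (T * S) l := by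
  rw [facg_eq h.hD h.pm h.hs hS hT hp hl]
  unfold Ls
  simp only [Wl_ex hp hex, if_neg hl, mul_one]
  have h0 : S.factorization l = 0 ∨ T.factorization l = 0 := by
    by_contra h'
    push Not at h'
    have h1 := (dvd_fac hp hS).2 (by omega)
    have h2 := (dvd_fac hp hT).2 (by omega)
    exact hl (of_dvd_pe h.hD h.pm hp (hST ▸ dvd_add h1 h2))
  rcases h0 with h0 | h0
  · rw [h0, zero_add, Finset.sum_range_one, zero_add]
    exact Finset.sum_congr rfl fun j _ => by rw [zero_add]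
  · rw [h0, zero_add, add_zero]
    exact Finset.sum_congr rfl fun i _ => by rw [Finset.sum_range_one, add_zero]

/-- the local sums at the elements of `X` -/
theorem Ls_X {S T : ℕ} (h : Hy u v δ X Z) (hS : S ≠ 0) (hT : T ≠ 0)
    (hST : S + T = pe δ (X ∪ Z)) {p : ℕ} (hpX : p ∈ X) (hex : p ∉ ex u v) :
    Ls u v δ X (X ∪ Z) S T p = if p ∣ T then 1 + ep δ (X ∪ Z) S T p else 1 := by
  have hp : p ∈ X ∪ Z := mem_union_left _ hpX
  have hd := dvd_iff' h.hD hST hp
  have hpp := (h.pm p hp).1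
  unfold Ls
  simp only [Wl_ex hpp hex, if_pos hp]
  unfold gw wx
  simp only [if_pos hpX]
  by_cases h' : p ∣ T
  · rw [if_pos h']
    unfold ep
    simp only [if_pos h']
    have s1 := (dvd_fac hpp hS).1 (hd.2 h')
    have t1 := (dvd_fac hpp hT).1 h'
    rw [two_pt (S.factorization p) (T.factorization p) 0 0 (S.factorization p) (T.factorization p)
      (Nat.zero_le _) (Nat.zero_le _) le_rfl le_rfl (Or.inl (by omega)) 1
      (sy δ p (-1) * (cp δ p S * cp δ p T)) (fun i j => Pn δ (X ∪ Z) p ^ (i + j))]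
    ring
  · rw [if_neg h']
    simp only [if_neg h']
    rw [Nat.factorization_eq_zero_of_not_dvd h', Nat.factorization_eq_zero_of_not_dvd (fun h1 => h' (hd.1 h1))]
    simp

/-- the local sums at the elements of `Z` -/
theorem Ls_Z {S T : ℕ} (h : Hy u v δ X Z) (hS : S ≠ 0) (hT : T ≠ 0)
    (hST : S + T = pe δ (X ∪ Z)) {p : ℕ} (hp : p ∈ X ∪ Z) (hpX : p ∉ X) (hex : p ∉ ex u v) :
    Ls u v δ X (X ∪ Z) S T p = (Pn δ (X ∪ Z) p ^ T.factorization p * cp δ p T) *
      (if p ∣ T then 1 + ep δ (X ∪ Z) S T p else 1) := by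
  have hd := dvd_iff' h.hD hST hp
  have hpp := (h.pm p hp).1
  unfold Ls
  simp only [Wl_ex hpp hex, if_pos hp]
  unfold gw wn
  simp only [if_neg hpX]
  by_cases h' : p ∣ T
  · rw [if_pos h']
    unfold ep
    simp only [if_pos h']
    have s1 := (dvd_fac hpp hS).1 (hd.2 h')
    have t1 := (dvd_fac hpp hT).1 h'
    rw [two_pt (S.factorization p) (T.factorization p) (S.factorization p) 0 0 (T.factorization p)
      le_rfl (Nat.zero_le _) (Nat.zero_le _) le_rfl (Or.inl (by omega)) (sy δ p (-1) * cp δ p S)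
      (cp δ p T) (fun i j => Pn δ (X ∪ Z) p ^ (i + j))]
    simp only [add_zero, zero_add]
    have c1 := cp_sq (δ := δ) hpp hT
    have c2 : Pn δ (X ∪ Z) p ^ T.factorization p * Pn δ (X ∪ Z) p ^ T.factorization p = 1 := by
      rw [← mul_pow, Pn_sq h.pm hpp.ne_zero, one_pow]
    rw [pow_add]
    linear_combination (-(sy δ p (-1) * Pn δ (X ∪ Z) p ^ S.factorization p * cp δ p S *
      (cp δ p T * cp δ p T))) * c2 -
      (sy δ p (-1) * Pn δ (X ∪ Z) p ^ S.factorization p * cp δ p S) * c1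
  · rw [if_neg h']
    simp only [if_neg h']
    rw [Nat.factorization_eq_zero_of_not_dvd h', Nat.factorization_eq_zero_of_not_dvd (fun h1 => h' (hd.1 h1))]
    simp only [zero_add, Finset.sum_range_one, pow_zero, one_mul, mul_one]

/-! ### the product formula -/

/-- the local factor or one -/
def Ff (δ : ℤ) (N : Finset ℕ) (S T l : ℕ) : ℤ :=
  if l ∈ (T * S).primeFactors then fc (pe δ N) (T * S) l else 1

theorem Ff_N {S T l : ℕ} (hD : Dt δ) (hN : Pe N) (hs : sg δ N = -1) (hS : S ≠ 0) (hT : T ≠ 0)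
    (hST : S + T = pe δ N) (hl : l ∈ N) (h2 : l ≠ 2) :
    Ff δ N S T l = if l ∣ T then 1 + ep δ N S T l else 1 := by
  have hd := dvd_iff' hD hST hl
  have hD' : l ∈ (T * S).primeFactors ↔ l ∣ T := by rw [mem_D hS hT (hN l hl).1, hd, or_self]
  unfold Ff
  simp only [hD', facp_eq hD hN hs hS hT hl h2]

theorem Ff_two {S T : ℕ} (hD : Dt δ) (hS : S ≠ 0) (hT : T ≠ 0)
    (hST : S + T = pe δ N) (hl : 2 ∈ N) :
    Ff δ N S T 2 = if 2 ∣ T then 2 else 1 := by
  have hd := dvd_iff' hD hST hl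
  have hD' : 2 ∈ (T * S).primeFactors ↔ 2 ∣ T := by rw [mem_D hS hT Nat.prime_two, hd, or_self]
  unfold Ff
  simp only [hD']
  unfold fc
  rw [if_pos (mem_dvd hD hl), if_pos rfl]

/-- the local sign at the elements of `N` which do not divide `T` -/
theorem ep_nd {S T l : ℕ} (hD : Dt δ) (hN : Pe N) (hT : T ≠ 0)
    (hST : S + T = pe δ N) (hl : l ∈ N) (hd : ¬ l ∣ T) : ep δ N S T l = 1 := by
  have hp := (hN l hl).1
  have hS' : ¬ l ∣ S := fun h1 => hd ((dvd_iff' hD hST hl).1 h1)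
  unfold ep
  rw [Nat.factorization_eq_zero_of_not_dvd hd, Nat.factorization_eq_zero_of_not_dvd hS', add_zero,
    pow_zero, mul_one, cp_nd hS']
  have e1 : sy δ l (S : ℤ) = sy δ l (-1) * cp δ l T := by
    rw [cp_nd hd, ← sy_neg]
    apply jac_congr hD
    have h3 : md δ l ∣ pe δ N := Finset.dvd_prod_of_mem (fun p => md δ p) hl
    have : ((S : ℤ) - (-(T : ℤ))) = ((pe δ N : ℕ) : ℤ) := by rw [← hST]; push_cast; ring
    rw [this]
    exact_mod_cast h3
  rw [e1]
  have h1 := sy_neg_sq (δ := δ) hp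
  have h2 := cp_sq (δ := δ) hp hT
  linear_combination (cp δ l T * cp δ l T) * h1 + h2

/-- the exponents away from `N` -/
theorem away {S T l : ℕ} (hD : Dt δ) (hN : Pe N) (hs : sg δ N = -1) (hS : S ≠ 0) (hT : T ≠ 0)
    (hST : S + T = pe δ N) (hp : l.Prime) (hl : l ∉ N) (hF : Ff δ N S T l ≠ 0) :
    Pn δ N l ^ (S.factorization l + T.factorization l) = 1 ∧
      Pn δ N l ^ T.factorization l = 1 := by
  have h0 : S.factorization l = 0 ∨ T.factorization l = 0 := by
    by_contra h'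
    push Not at h'
    have h1 := (dvd_fac hp hS).2 (by omega)
    have h2 := (dvd_fac hp hT).2 (by omega)
    exact hl (of_dvd_pe hD hN hp (hST ▸ dvd_add h1 h2))
  have key : Pn δ N l ^ (S.factorization l + T.factorization l) = 1 := by
    by_cases hm : l ∈ (T * S).primeFactors
    · unfold Ff at hF
      rw [if_pos hm, facg_eq hD hN hs hS hT hp hl] at hF
      rcases Pn_pm (δ := δ) hN hp.ne_zero with h6 | h6
      · rw [h6, one_pow]
      · rw [h6] at hF ⊢
        rcases Nat.even_or_odd (S.factorization l + T.factorization l) with h7 | h7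
        · exact h7.neg_one_pow
        · exfalso
          apply hF
          obtain ⟨k, hk⟩ := h7
          rw [hk]
          exact alt_zero k
    · rw [mem_D hS hT hp] at hm
      push Not at hm
      rw [Nat.factorization_eq_zero_of_not_dvd hm.1, Nat.factorization_eq_zero_of_not_dvd hm.2,
        add_zero, pow_zero]
  refine ⟨key, ?_⟩
  rcases h0 with h0 | h0
  · rw [h0, zero_add] at key
    exact key
  · rw [h0, pow_zero]

/-- the product formula -/
theorem ep_prod {S T : ℕ} (h : Hy u v δ X Z) (hS : S ≠ 0) (hT : T ≠ 0)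
    (hST : S + T = pe δ (X ∪ Z)) (hodd : Odd (S.factorization u))
    (hF : ∀ l ∈ QQ u v (X ∪ Z) S T \ ex u v, Ff δ (X ∪ Z) S T l ≠ 0) :
    ∏ p ∈ X ∪ Z, ep δ (X ∪ Z) S T p = 1 := by
  classical
  obtain ⟨N, hN⟩ : ∃ N, N = X ∪ Z := ⟨_, rfl⟩
  have hpr := QQ_prime (S := S) (T := T) h
  have hpm := h.pm
  have hs := h.hs
  have hun := h.un
  have huP := h.uP
  have hvP := h.vp
  rw [← hN] at hST hpr hpm hs hF hun huP hvP ⊢
  have huS : u ∣ S := by
    rw [dvd_fac h.up hS]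
    exact hodd.pos
  have huT : ¬ u ∣ T := fun h' => hun (of_dvd_pe h.hD hpm h.up (hST ▸ dvd_add huS h'))
  have hsT : T.primeFactors ⊆ QQ u v N S T :=
    (Nat.primeFactors_mono (dvd_mul_left T S) (mul_ne_zero hS hT)).trans pf_QQ
  have hsS : S.primeFactors ⊆ QQ u v N S T :=
    (Nat.primeFactors_mono (dvd_mul_right S T) (mul_ne_zero hS hT)).trans pf_QQ
  have e1 : Pn δ N S * Pn δ N T =
      ∏ l ∈ QQ u v N S T, Pn δ N l ^ (S.factorization l + T.factorization l) := by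
    rw [Pn_fac _ S hS hsS, Pn_fac _ T hT hsT, ← Finset.prod_mul_distrib]
    exact Finset.prod_congr rfl fun l _ => (pow_add _ _ _).symm
  have e2 : ∏ l ∈ QQ u v N S T \ N, Pn δ N l ^ (S.factorization l + T.factorization l) =
      ∏ l ∈ QQ u v N S T \ N, if l = u then (-1 : ℤ) else 1 := by
    refine Finset.prod_congr rfl fun l hl => ?_
    obtain ⟨hl1, hl2⟩ := Finset.mem_sdiff.1 hl
    have hp := hpr l hl1
    by_cases hlu : l = u
    · rw [if_pos hlu, hlu, huP, Nat.factorization_eq_zero_of_not_dvd huT, add_zero, hodd.neg_one_pow]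
    · rw [if_neg hlu]
      by_cases hex : l ∈ ex u v
      · rcases mem_ex.1 hex with h' | ⟨h', h''⟩
        · exact absurd h' hlu
        · rw [h', (hvP.resolve_left h'').2.2, one_pow]
      · exact (away h.hD hpm hs hS hT hST hp hl2 (hF l (Finset.mem_sdiff.2 ⟨hl1, hex⟩))).1
  have e3 : ∏ l ∈ QQ u v N S T \ N, (if l = u then (-1 : ℤ) else 1) = -1 := by
    rw [Finset.prod_ite_eq' (QQ u v N S T \ N) u (fun _ => (-1 : ℤ)), if_pos]
    exact Finset.mem_sdiff.2 ⟨ex_QQ (mem_ex.2 (Or.inl rfl)), hun⟩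
  have e4 : Pn δ N S * Pn δ N T =
      -∏ l ∈ N, Pn δ N l ^ (S.factorization l + T.factorization l) := by
    rw [e1, ← Finset.prod_sdiff (sub_QQ (u := u) (v := v) (N := N) (S := S) (T := T)), e2, e3,
      neg_one_mul]
  have e5 : ∏ p ∈ N, ep δ N S T p = sg δ N *
      (∏ l ∈ N, Pn δ N l ^ (S.factorization l + T.factorization l)) *
        (Pn δ N S * Pn δ N T) := by
    unfold ep
    rw [Finset.prod_mul_distrib, Finset.prod_mul_distrib, Finset.prod_mul_distrib]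
    rfl
  have e6 : (∏ l ∈ N, Pn δ N l ^ (S.factorization l + T.factorization l)) *
      (∏ l ∈ N, Pn δ N l ^ (S.factorization l + T.factorization l)) = 1 := by
    rw [← Finset.prod_mul_distrib]
    refine Finset.prod_eq_one fun l hl => ?_
    rw [← mul_pow, Pn_sq hpm (hpm l hl).1.ne_zero, one_pow]
  rw [e5, e4, hs]
  linear_combination e6

/-- the local signs -/
theorem ep_one {S T : ℕ} (h : Hy u v δ X Z) (hS : S ≠ 0) (hT : T ≠ 0)
    (hST : S + T = pe δ (X ∪ Z)) (hodd : Odd (S.factorization u))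
    (hF : ∀ l ∈ QQ u v (X ∪ Z) S T \ ex u v, Ff δ (X ∪ Z) S T l ≠ 0)
    (hPs : X ∪ Z ⊆ QQ u v (X ∪ Z) S T \ ex u v) {p : ℕ} (hp : p ∈ X ∪ Z) :
    ep δ (X ∪ Z) S T p = 1 := by
  have key : ∀ p ∈ X ∪ Z, p ≠ 2 → ep δ (X ∪ Z) S T p = 1 := by
    intro p hp h2
    by_cases hd : p ∣ T
    · have h1 := hF p (hPs hp)
      rw [Ff_N h.hD h.pm h.hs hS hT hST hp h2, if_pos hd] at h1
      rcases mul_self_eq_one_iff.1 (ep_sq (δ := δ) (N := X ∪ Z) h.pm (h.pm p hp).1 hS hT) with h3 | h3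
      · exact h3
      · rw [h3] at h1
        exact absurd (by norm_num) h1
    · exact ep_nd h.hD h.pm hT hST hp hd
  by_cases h2 : p = 2
  · subst h2
    have h1 := ep_prod h hS hT hST hodd hF
    rw [← Finset.mul_prod_erase _ _ hp, Finset.prod_eq_one, mul_one] at h1
    · exact h1
    · intro q hq
      exact key q (Finset.mem_of_mem_erase hq) (Finset.ne_of_mem_erase hq)
  · exact key p hp h2

/-- the local sums away from the excluded primes -/
theorem Ls_Q' {S T : ℕ} (h : Hy u v δ X Z) (hS : S ≠ 0) (hT : T ≠ 0)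
    (hST : S + T = pe δ (X ∪ Z)) {l : ℕ} (hl : l ∈ QQ u v (X ∪ Z) S T \ ex u v)
    (h2 : l = 2 → l ∈ X ∪ Z → ep δ (X ∪ Z) S T l = 1) :
    Ls u v δ X (X ∪ Z) S T l = (if l ∈ Z then Pn δ (X ∪ Z) l ^ T.factorization l * cp δ l T else 1) *
      Ff δ (X ∪ Z) S T l := by
  obtain ⟨hl1, hex⟩ := Finset.mem_sdiff.1 hl
  have hp := QQ_prime h l hl1
  by_cases hlP : l ∈ X ∪ Z
  · have hFe : Ff δ (X ∪ Z) S T l = if l ∣ T then 1 + ep δ (X ∪ Z) S T l else 1 := by
      by_cases hl2 : l = 2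
      · rw [h2 hl2 hlP]
        subst hl2
        rw [Ff_two h.hD hS hT hST hlP]
        norm_num
      · exact Ff_N h.hD h.pm h.hs hS hT hST hlP hl2
    by_cases h3 : l ∈ X
    · have hlZ : l ∉ Z := fun h' => (Finset.disjoint_left.1 h.dj h3) h'
      rw [if_neg hlZ, one_mul, Ls_X h hS hT hST h3 hex, hFe]
    · have hlZ : l ∈ Z := (Finset.mem_union.1 hlP).resolve_left h3
      rw [if_pos hlZ, Ls_Z h hS hT hST hlP h3 hex, hFe]
  · have hlZ : l ∉ Z := fun h' => hlP (Finset.mem_union_right _ h')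
    rw [if_neg hlZ, one_mul, Ls_gen h hS hT hST hp hex hlP]
    unfold Ff
    split_ifs with h'
    · rfl
    · rw [facg_eq h.hD h.pm h.hs hS hT hp hlP]
      rw [mem_D hS hT hp] at h'
      push Not at h'
      rw [Nat.factorization_eq_zero_of_not_dvd h'.1, Nat.factorization_eq_zero_of_not_dvd h'.2]
      simp

/-- the product of the local factors -/
theorem prod_Ff {S T : ℕ} :
    ∏ l ∈ QQ u v N S T \ ex u v, Ff δ N S T l =
      ∏ l ∈ (T * S).primeFactors \ ex u v, fc (pe δ N) (T * S) l := by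
  classical
  unfold Ff
  rw [Finset.prod_ite_mem]
  refine Finset.prod_congr ?_ fun _ _ => rfl
  ext l
  rw [Finset.mem_inter, Finset.mem_sdiff, Finset.mem_sdiff]
  constructor
  · rintro ⟨h1, h2⟩
    exact ⟨h2, h1.2⟩
  · rintro ⟨h1, h2⟩
    exact ⟨⟨pf_QQ (by rwa [mul_comm S T]), h2⟩, h1⟩

/-- the sign -/
theorem sign_eq {S T : ℕ} (h : Hy u v δ X Z) (hS : S ≠ 0) (hT : T ≠ 0)
    (hTu : ¬ u ∣ T) (hST : S + T = pe δ (X ∪ Z))
    (hF : ∀ l ∈ QQ u v (X ∪ Z) S T \ ex u v, Ff δ (X ∪ Z) S T l ≠ 0) :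
    ∏ l ∈ X ∪ Z, (Pn δ (X ∪ Z) l ^ T.factorization l * cp δ l T) = 1 := by
  classical
  have hsub : T.primeFactors ⊆ QQ u v (X ∪ Z) S T :=
    (Nat.primeFactors_mono (dvd_mul_left T S) (mul_ne_zero hS hT)).trans pf_QQ
  have e2 : Pn δ (X ∪ Z) T = ∏ l ∈ X ∪ Z, Pn δ (X ∪ Z) l ^ T.factorization l := by
    rw [Pn_fac (QQ u v (X ∪ Z) S T) T hT hsub]
    symm
    refine Finset.prod_subset sub_QQ fun l hl hlP => ?_
    have hp := QQ_prime h l hl
    by_cases hex : l ∈ ex u v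
    · rcases mem_ex.1 hex with h' | ⟨h', h''⟩
      · rw [h', Nat.factorization_eq_zero_of_not_dvd hTu, pow_zero]
      · rw [h', (h.vp.resolve_left h'').2.2, one_pow]
    · exact (away h.hD h.pm h.hs hS hT hST hp hlP (hF l (Finset.mem_sdiff.2 ⟨hl, hex⟩))).2
  rw [Finset.prod_mul_distrib, ← e2]
  have e3 : ∏ l ∈ X ∪ Z, cp δ l T = Pn δ (X ∪ Z) T := rfl
  rw [e3]
  exact Pn_sq h.pm hT

/-! ### the weights of the pairs -/

theorem wp_eq {S T p : ℕ} (hD : Dt δ) (hN : Pe N) (hs : sg δ N = -1)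
    (hST : S + T = pe δ N) (hp : p ∈ N) (h2 : p ≠ 2) :
    wp p (pe δ N) T = cp δ p S * Pn δ N p ^ S.factorization p := by
  have hpp := (hN p hp).1
  have hnT : pe δ N - T = S := by omega
  have h0 : pe δ N ≠ 0 := (pe_pos hD hN).ne'
  have hN' : Pe (N.erase p) := fun q hq => hN q (Finset.mem_of_mem_erase hq)
  have hnd : ¬ p ∣ pe δ (N.erase p) := fun h =>
    (Finset.notMem_erase p N) (of_dvd_pe hD hN' hpp h)
  have hm : cp δ p (pe δ N) = jacobiSym ((pe δ N / p : ℕ) : ℤ) p := by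
    rw [pe_erase hp h2, Nat.mul_div_cancel_left _ hpp.pos, cp_mul, cp_self hpp, one_mul, cp_nd hnd,
      sy_odd h2]
  have hsq : cp δ p (pe δ N) * cp δ p (pe δ N) = 1 := cp_sq hpp h0
  unfold Pool.Agent.NH2.wp
  rw [hnT, Pn_self hD hN hs hp h2, Nat.cast_mul, jacobiSym.mul_left, ← hm]
  have hc : jacobiSym ((S / p ^ S.factorization p : ℕ) : ℤ) p = cp δ p S := (cp_odd h2 S).symm
  rw [hc]
  split_ifs with he
  · obtain ⟨k, hk⟩ := he
    rw [hk, ← two_mul, pow_mul, sq, hsq, one_pow, mul_one]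
  · rw [Nat.not_even_iff_odd] at he
    obtain ⟨k, hk⟩ := he
    rw [hk, pow_succ, pow_mul, sq, hsq, one_pow, one_mul]

/-- comparison of the weights -/
theorem cmp {S T p : ℕ} (hN : Pe N) (hS : S ≠ 0) (hp : p ∈ N)
    (he : ep δ N S T p = 1) :
    Pn δ N p ^ T.factorization p * cp δ p T =
      sy δ p (-1) * (cp δ p S * Pn δ N p ^ S.factorization p) := by
  have hpp := (hN p hp).1
  have c0 := sy_neg_sq (δ := δ) hpp
  have c3 := cp_sq (δ := δ) hpp hS
  have c4 : Pn δ N p ^ S.factorization p * Pn δ N p ^ S.factorization p = 1 := by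
    rw [← mul_pow, Pn_sq hN hpp.ne_zero, one_pow]
  unfold ep at he
  rw [pow_add] at he
  generalize Pn δ N p ^ S.factorization p = A at *
  generalize Pn δ N p ^ T.factorization p = B at *
  generalize sy δ p (-1) = c at *
  generalize cp δ p S = s at *
  generalize cp δ p T = t at *
  linear_combination (c * s * A) * he - (B * t * (A * A) * (s * s)) * c0 -
    (B * t * (s * s)) * c4 - (B * t) * c3

/-- the weights -/
theorem cmp' {S T : ℕ} (h : Hy u v δ X Z) (hS : S ≠ 0) (hT : T ≠ 0)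
    (hTu : ¬ u ∣ T) (hST : S + T = pe δ (X ∪ Z))
    (hF : ∀ l ∈ QQ u v (X ∪ Z) S T \ ex u v, Ff δ (X ∪ Z) S T l ≠ 0)
    (he : ∀ p ∈ X ∪ Z, ep δ (X ∪ Z) S T p = 1) {p : ℕ} (hp : p ∈ X ∪ Z) :
    Pn δ (X ∪ Z) p ^ T.factorization p * cp δ p T =
      sy δ p (-1) * wq u (X ∪ Z) (pe δ (X ∪ Z)) p T := by
  have key : ∀ p ∈ X ∪ Z, p ≠ 2 → Pn δ (X ∪ Z) p ^ T.factorization p * cp δ p T =
      sy δ p (-1) * wp p (pe δ (X ∪ Z)) T := by
    intro p hp h2
    rw [wp_eq h.hD h.pm h.hs hST hp h2]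
    exact cmp h.pm hS hp (he p hp)
  unfold wq
  by_cases h2 : p = 2
  · subst h2
    rw [if_pos rfl, if_neg hTu]
    have hsg := sign_eq h hS hT hTu hST hF
    rw [← Finset.mul_prod_erase _ _ hp,
      Finset.prod_congr rfl fun q hq => key q (Finset.mem_of_mem_erase hq) (Finset.ne_of_mem_erase hq),
      Finset.prod_mul_distrib] at hsg
    have h3 : sy δ 2 (-1) * ∏ q ∈ (X ∪ Z).erase 2, sy δ q (-1) = -1 :=
      (Finset.mul_prod_erase (X ∪ Z) (fun q => sy δ q (-1)) hp).trans h.hs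
    have h4 := sy_neg_sq (δ := δ) Nat.prime_two
    have h5 : (Pn δ (X ∪ Z) 2 ^ T.factorization 2 * cp δ 2 T) *
        (Pn δ (X ∪ Z) 2 ^ T.factorization 2 * cp δ 2 T) = 1 := by
      have c1 := cp_sq (δ := δ) Nat.prime_two hT
      have c2 : Pn δ (X ∪ Z) 2 ^ T.factorization 2 * Pn δ (X ∪ Z) 2 ^ T.factorization 2 = 1 := by
        rw [← mul_pow, Pn_sq h.pm (by norm_num), one_pow]
      linear_combination (cp δ 2 T * cp δ 2 T) * c2 + c1
    generalize Pn δ (X ∪ Z) 2 ^ T.factorization 2 * cp δ 2 T = x at *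
    generalize ∏ q ∈ (X ∪ Z).erase 2, sy δ q (-1) = B at *
    generalize ∏ l ∈ (X ∪ Z).erase 2, wp l (pe δ (X ∪ Z)) T = W at *
    generalize sy δ 2 (-1) = c at *
    have h6 : B = -c := by linear_combination c * h3 - B * h4
    rw [h6] at hsg
    linear_combination (-x) * hsg + (-(c * W)) * h5
  · rw [if_neg h2]
    exact key p hp h2

/-- the divisor sums -/
theorem main {S T : ℕ} (h : Hy u v δ X Z) (hS : S ≠ 0) (hT : T ≠ 0)
    (hST : S + T = pe δ (X ∪ Z)) : WW δ u v X Z T =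
      - sg δ X * (∏ p ∈ X, wq u (X ∪ Z) (pe δ (X ∪ Z)) p T) *
      (if Odd (S.factorization u) then (if v = 1 then 1 else (T.factorization v : ℤ)) *
        ∏ l ∈ (T * S).primeFactors \ ex u v, fc (pe δ (X ∪ Z)) (T * S) l else 0) := by
  classical
  rw [WW_eq h hS hT hST]
  have hE : ∏ l ∈ ex u v, Ls u v δ X (X ∪ Z) S T l = (if Odd (S.factorization u) then -1 else 0) *
      (if v = 1 then 1 else (T.factorization v : ℤ)) := by
    unfold ex
    by_cases hv : v = 1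
    · rw [if_pos hv, if_pos hv, Finset.prod_singleton, Ls_u h hST, mul_one]
    · rw [if_neg hv, if_neg hv, Finset.prod_pair h.uv, Ls_u h hST, Ls_v h hST hv]
  have hPs : X ∪ Z ⊆ QQ u v (X ∪ Z) S T \ ex u v := by
    intro l hl'
    refine Finset.mem_sdiff.2 ⟨sub_QQ hl', fun h' => ?_⟩
    rcases mem_ex.1 h' with h' | ⟨h', h''⟩
    · rw [h'] at hl'
      exact h.un hl'
    · rw [h'] at hl'
      exact (h.vp.resolve_left h'').2.1 hl'
  have hPsub : Z ⊆ QQ u v (X ∪ Z) S T \ ex u v := fun l hl => hPs (Finset.mem_union_right _ hl)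
  rw [← Finset.prod_sdiff (ex_QQ (u := u) (v := v) (N := X ∪ Z) (S := S) (T := T)), hE]
  by_cases hodd : Odd (S.factorization u)
  · rw [if_pos hodd, if_pos hodd, ← prod_Ff]
    have huS : u ∣ S := by
      rw [dvd_fac h.up hS]
      exact hodd.pos
    have huT : ¬ u ∣ T := fun h' => h.un (of_dvd_pe h.hD h.pm h.up (hST ▸ dvd_add huS h'))
    by_cases hF : ∀ l ∈ QQ u v (X ∪ Z) S T \ ex u v, Ff δ (X ∪ Z) S T l ≠ 0
    · have he : ∀ p ∈ X ∪ Z, ep δ (X ∪ Z) S T p = 1 := fun p hp =>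
        ep_one h hS hT hST hodd hF hPs hp
      have e1 : ∏ l ∈ QQ u v (X ∪ Z) S T \ ex u v, Ls u v δ X (X ∪ Z) S T l =
          (∏ l ∈ Z, (Pn δ (X ∪ Z) l ^ T.factorization l * cp δ l T)) *
            ∏ l ∈ QQ u v (X ∪ Z) S T \ ex u v, Ff δ (X ∪ Z) S T l := by
        rw [Finset.prod_congr rfl fun l (hl : l ∈ QQ u v (X ∪ Z) S T \ ex u v) =>
            Ls_Q' h hS hT hST hl fun _ hm => he l hm,
          Finset.prod_mul_distrib, Finset.prod_ite_mem, Finset.inter_eq_right.2 hPsub]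
      rw [e1]
      have hs := sign_eq h hS hT huT hST hF
      rw [Finset.prod_union h.dj] at hs
      have hX : ∏ l ∈ X, (Pn δ (X ∪ Z) l ^ T.factorization l * cp δ l T) =
          sg δ X * ∏ p ∈ X, wq u (X ∪ Z) (pe δ (X ∪ Z)) p T := by
        unfold sg ch
        rw [← Finset.prod_mul_distrib]
        refine Finset.prod_congr rfl fun p hp => ?_
        exact cmp' h hS hT huT hST hF he (mem_union_left _ hp)
      have hZ : (∏ l ∈ Z, (Pn δ (X ∪ Z) l ^ T.factorization l * cp δ l T)) *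
          (∏ l ∈ Z, (Pn δ (X ∪ Z) l ^ T.factorization l * cp δ l T)) = 1 := by
        rw [← Finset.prod_mul_distrib]
        refine Finset.prod_eq_one fun p hp => ?_
        have hpp := (h.pm p (mem_union_right _ hp)).1
        have c1 := cp_sq (δ := δ) hpp hT
        have c2 : Pn δ (X ∪ Z) p ^ T.factorization p * Pn δ (X ∪ Z) p ^ T.factorization p = 1 := by
          rw [← mul_pow, Pn_sq h.pm hpp.ne_zero, one_pow]
        linear_combination (cp δ p T * cp δ p T) * c2 + c1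
      have hX' : -sg δ X * ∏ p ∈ X, wq u (X ∪ Z) (pe δ (X ∪ Z)) p T =
          -(∏ l ∈ X, (Pn δ (X ∪ Z) l ^ T.factorization l * cp δ l T)) := by
        rw [hX, neg_mul]
      rw [hX']
      generalize ∏ l ∈ X, (Pn δ (X ∪ Z) l ^ T.factorization l * cp δ l T) = A at hs ⊢
      generalize ∏ l ∈ Z, (Pn δ (X ∪ Z) l ^ T.factorization l * cp δ l T) = B at hs hZ ⊢
      have hAB : A = B := by
        calc A = A * (B * B) := by rw [hZ, mul_one]
          _ = (A * B) * B := by ring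
          _ = B := by rw [hs, one_mul]
      rw [hAB]
      ring
    · push Not at hF
      obtain ⟨l, hl, hl0⟩ := hF
      have hl2 : l = 2 → l ∈ X ∪ Z → ep δ (X ∪ Z) S T l = 1 := by
        intro h1 h3
        exfalso
        subst h1
        rw [Ff_two h.hD hS hT hST h3] at hl0
        split_ifs at hl0 <;> norm_num at hl0
      have e2 : Ls u v δ X (X ∪ Z) S T l = 0 := by
        rw [Ls_Q' h hS hT hST hl hl2, hl0, mul_zero]
      rw [Finset.prod_eq_zero hl hl0, Finset.prod_eq_zero hl e2]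
      ring
  · rw [if_neg hodd, if_neg hodd]
    ring

/-! ### the two classes -/

theorem Pn_five {N : Finset ℕ} (hD : Dt δ) (hN : Pe N) (hs : sg δ N = -1)
    (h : pe δ N % 5 = 2 ∨ pe δ N % 5 = 3) : Pn δ N 5 = -1 := by
  have h5 : (5 : ℕ) ∉ N := fun h => (hN 5 h).2.2 rfl
  rw [Pn_ch hN (by norm_num) h5, ch_recip hD hN (by norm_num) (by norm_num), hs, neg_one_mul,
    jacobiSym.mod_left]
  have h' : (-(pe δ N : ℤ)) % ((5 : ℕ) : ℤ) = 3 ∨ (-(pe δ N : ℤ)) % ((5 : ℕ) : ℤ) = 2 := by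
    push_cast
    omega
  rcases h' with h' | h' <;> rw [h'] <;> norm_num

theorem Pn_five' {N : Finset ℕ} (hD : Dt δ) (hN : Pe N) (hs : sg δ N = -1)
    (h : pe δ N % 5 = 1 ∨ pe δ N % 5 = 4) : Pn δ N 5 = 1 := by
  have h5 : (5 : ℕ) ∉ N := fun h => (hN 5 h).2.2 rfl
  rw [Pn_ch hN (by norm_num) h5, ch_recip hD hN (by norm_num) (by norm_num), hs, neg_one_mul,
    jacobiSym.mod_left]
  have h' : (-(pe δ N : ℤ)) % ((5 : ℕ) : ℤ) = 1 ∨ (-(pe δ N : ℤ)) % ((5 : ℕ) : ℤ) = 4 := by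
    push_cast
    omega
  rcases h' with h' | h' <;> rw [h'] <;> norm_num

theorem Pn_three {N : Finset ℕ} (hD : Dt δ) (hN : Pe N) (hs : sg δ N = -1)
    (h : pe δ N % 3 = 1) : Pn δ N 3 = -1 := by
  have h5 : (3 : ℕ) ∉ N := fun h => (hN 3 h).2.1 rfl
  rw [Pn_ch hN (by norm_num) h5, ch_recip hD hN (by norm_num) (by norm_num), hs, neg_one_mul,
    jacobiSym.mod_left]
  have h' : (-(pe δ N : ℤ)) % ((3 : ℕ) : ℤ) = 2 := by
    push_cast
    omega
  rw [h']
  norm_num

theorem Pn_three' {N : Finset ℕ} (hD : Dt δ) (hN : Pe N) (hs : sg δ N = -1)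
    (h : pe δ N % 3 = 2) : Pn δ N 3 = 1 := by
  have h5 : (3 : ℕ) ∉ N := fun h => (hN 3 h).2.1 rfl
  rw [Pn_ch hN (by norm_num) h5, ch_recip hD hN (by norm_num) (by norm_num), hs, neg_one_mul,
    jacobiSym.mod_left]
  have h' : (-(pe δ N : ℤ)) % ((3 : ℕ) : ℤ) = 1 := by
    push_cast
    omega
  rw [h']
  norm_num

theorem hyb (hD : Dt δ) (hpm : Pe (X ∪ Z)) (hdj : Disjoint X Z) (hk : Jb δ (X ∪ Z)) :
    Hy 5 3 δ X Z ∧ Hy 5 1 δ X Z := by
  obtain ⟨hs, h3, h5⟩ := hk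
  have n5 : (5 : ℕ) ∉ X ∪ Z := fun h => (hpm 5 h).2.2 rfl
  have n3 : (3 : ℕ) ∉ X ∪ Z := fun h => (hpm 3 h).2.1 rfl
  have p5 := Pn_five hD hpm hs h5
  have p3 := Pn_three' hD hpm hs h3
  exact ⟨⟨hD, hpm, hdj, hs, by norm_num, n5, p5, Or.inr ⟨by norm_num, n3, p3⟩, by norm_num⟩,
    ⟨hD, hpm, hdj, hs, by norm_num, n5, p5, Or.inl rfl, by norm_num⟩⟩

theorem hyd (hD : Dt δ) (hpm : Pe (X ∪ Z)) (hdj : Disjoint X Z) (hk : Jd δ (X ∪ Z)) :
    Hy 3 5 δ X Z ∧ Hy 3 1 δ X Z := by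
  obtain ⟨hs, h3, h5⟩ := hk
  have n5 : (5 : ℕ) ∉ X ∪ Z := fun h => (hpm 5 h).2.2 rfl
  have n3 : (3 : ℕ) ∉ X ∪ Z := fun h => (hpm 3 h).2.1 rfl
  have p5 := Pn_five' hD hpm hs h5
  have p3 := Pn_three hD hpm hs h3
  exact ⟨⟨hD, hpm, hdj, hs, by norm_num, n3, p3, Or.inr ⟨by norm_num, n5, p5⟩, by norm_num⟩,
    ⟨hD, hpm, hdj, hs, by norm_num, n3, p3, Or.inl rfl, by norm_num⟩⟩

theorem main_loc {T : ℕ} (h : Hy u v δ X Z) (hT : 0 < T) (hlt : T < pe δ (X ∪ Z))
    (hv : v ≠ 1) : WW δ u v X Z T = - sg δ X * (∏ p ∈ X, wq u (X ∪ Z) (pe δ (X ∪ Z)) p T) *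
      loc u v (pe δ (X ∪ Z)) T := by
  rw [main h (S := pe δ (X ∪ Z) - T) (by omega) (by omega) (by omega), if_neg hv]
  unfold loc
  congr 1
  refine if_congr Iff.rfl ?_ rfl
  congr 1
  refine Finset.prod_congr ?_ fun _ _ => rfl
  ext l
  rw [Finset.mem_sdiff, mem_ex, Finset.mem_erase, Finset.mem_erase]
  constructor
  · rintro ⟨h1, h2⟩
    exact ⟨fun h => h2 (Or.inr ⟨h, hv⟩), fun h => h2 (Or.inl h), h1⟩
  · rintro ⟨h1, h2, h3⟩
    refine ⟨h3, ?_⟩
    rintro (h | ⟨h, _⟩)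
    · exact h2 h
    · exact h1 h

theorem main_loc1 {N : Finset ℕ} {T : ℕ} (h : Hy u 1 δ ∅ N) (hT : 0 < T)
    (hlt : T < pe δ N) : WW δ u 1 ∅ N T = - loc1 u (pe δ N) T := by
  have e0 : ∅ ∪ N = N := Finset.empty_union N
  rw [main h (S := pe δ N - T) (by omega) (by omega) (by rw [e0]; omega), if_pos rfl, e0]
  have e : sg δ ∅ = 1 := by
    unfold sg ch
    rw [Finset.prod_empty]
  rw [e, Finset.prod_empty, mul_one, neg_one_mul, neg_inj]
  unfold loc1
  refine if_congr Iff.rfl ?_ rfl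
  rw [one_mul]
  refine Finset.prod_congr ?_ fun _ _ => rfl
  ext l
  rw [Finset.mem_sdiff, mem_ex, Finset.mem_erase]
  constructor
  · rintro ⟨h1, h2⟩
    exact ⟨fun h => h2 (Or.inl h), h1⟩
  · rintro ⟨h1, h2⟩
    refine ⟨h2, ?_⟩
    rintro (h | ⟨_, h⟩)
    · exact h1 h
    · exact h rfl

end Pool.Agent.XW.C2n

namespace Pool.Agent.XW

open Pool.Agent.XW.C2n

/-- C2 -/
theorem t_C2 : S_C2 := by
  intro δ hD X Z hpm hdj T hT hlt
  exact ⟨fun hk => main_loc (hyb hD hpm hdj hk).1 hT hlt (by norm_num),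
    fun hk => main_loc (hyd hD hpm hdj hk).1 hT hlt (by norm_num)⟩

/-- C20 -/
theorem t_C20 : S_C20 := by
  intro δ hD N hpm T hT hlt
  have hpm' : Pe (∅ ∪ N) := by rwa [Finset.empty_union]
  have hk' : ∀ {J : ℤ → Finset ℕ → Prop}, J δ N → J δ (∅ ∪ N) := by
    intro J hJ
    rwa [Finset.empty_union]
  exact ⟨fun hk => main_loc1 (hyb hD hpm' (Finset.disjoint_empty_left _) (hk' hk)).2 hT hlt,
    fun hk => main_loc1 (hyd hD hpm' (Finset.disjoint_empty_left _) (hk' hk)).2 hT hlt⟩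

end Pool.Agent.XW
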