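import Pool.Agent.XW.CardB

/-!
# XW-13: the numbers of vectors and the class number
-/

set_option autoImplicit false

open Finset

namespace Pool.Agent.XW.Card

open Pool.Agent.Z700 (V3 un)
open Pool.Agent.Y687 (saw ded)
open Pool.Agent.Y687.N (Cd)
open Pool.Agent.XV (bl vec cpa Nq Om)
open Pool.Agent.XV.Card (Gd gd5 gd3 mem_vec bounds cpa_zero cpa_last sum_split Nq_congr un_dvd sum_permG
  Cd_congr)

/-! ### the local sums -/

section

variable (δ : ℤ) (a a' X Y : ℕ)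

open Classical in
/-- the local summand -/
noncomputable def G (p : ℕ) (u : ℤ) : ℤ :=
  if (md δ p : ℤ) ∣ (a : ℤ) * u - (X : ℤ) ∧ (md δ p : ℤ) ∣ (a' : ℤ) * u + (Y : ℤ)
    then sy δ p u else 0

variable {δ}

theorem G_per (hδ : Dt δ) (p : ℕ) (x y : ℤ) (h : (md δ p : ℤ) ∣ x - y) :
    G δ a a' X Y p x = G δ a a' X Y p y := by
  unfold G
  have e1 : (md δ p : ℤ) ∣ (a : ℤ) * x - (X : ℤ) ↔ (md δ p : ℤ) ∣ (a : ℤ) * y - (X : ℤ) := by
    have : (a : ℤ) * x - (X : ℤ) = a * (x - y) + ((a : ℤ) * y - (X : ℤ)) := by ring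
    rw [this]
    exact (Int.dvd_add_right (h.mul_left _))
  have e2 : (md δ p : ℤ) ∣ (a' : ℤ) * x + (Y : ℤ) ↔ (md δ p : ℤ) ∣ (a' : ℤ) * y + (Y : ℤ) := by
    have : (a' : ℤ) * x + (Y : ℤ) = a' * (x - y) + ((a' : ℤ) * y + (Y : ℤ)) := by ring
    rw [this]
    exact (Int.dvd_add_right (h.mul_left _))
  rw [sy_per hδ h]
  simp only [e1, e2]

theorem G_mod (hδ : Dt δ) (p u : ℕ) :
    G δ a a' X Y p ((u % md δ p : ℕ) : ℤ) = G δ a a' X Y p (u : ℤ) := by
  refine G_per a a' X Y hδ p _ _ ?_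
  have h := Nat.div_add_mod u (md δ p)
  refine ⟨-((u / md δ p : ℕ) : ℤ), ?_⟩
  have h1 : (u : ℤ) = md δ p * ((u / md δ p : ℕ) : ℤ) + ((u % md δ p : ℕ) : ℤ) := by
    exact_mod_cast h.symm
  rw [h1]
  ring

/-- a linear congruence has one solution -/
theorem single {m x : ℕ} (hm : 0 < m) (h : Nat.Coprime x m) (z : ℤ) :
    ∃ u ∈ range m, (m : ℤ) ∣ x * (u : ℤ) - z ∧ ∀ v ∈ range m, (m : ℤ) ∣ x * (v : ℤ) - z → v = u := by
  have : NeZero m := ⟨hm.ne'⟩
  obtain ⟨e, he⟩ : ∃ e : (ZMod m)ˣ, e = ZMod.unitOfCoprime x h := ⟨_, rfl⟩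
  have he' : (e : ZMod m) = x := by rw [he, ZMod.coe_unitOfCoprime]
  refine ⟨(((e⁻¹ : (ZMod m)ˣ) : ZMod m) * (z : ZMod m)).val, mem_range.2 (ZMod.val_lt _), ?_, ?_⟩
  · rw [← ZMod.intCast_zmod_eq_zero_iff_dvd]
    push_cast
    rw [ZMod.natCast_zmod_val, ← he', ← mul_assoc, Units.mul_inv, one_mul, sub_self]
  · intro v hv hvz
    rw [← ZMod.intCast_zmod_eq_zero_iff_dvd] at hvz
    push_cast at hvz
    have h1 : (v : ZMod m) = ((e⁻¹ : (ZMod m)ˣ) : ZMod m) * (z : ZMod m) := by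
      rw [← he'] at hvz
      rw [← sub_eq_zero.1 hvz, ← mul_assoc, Units.inv_mul, one_mul]
    rw [← h1, ZMod.val_natCast_of_lt (mem_range.1 hv)]

theorem local_sum (hδ : Dt δ) {p : ℕ} (hp : p.Prime) (h3 : md δ p ∣ a * Y + a' * X) :
    ∑ u ∈ range (md δ p), G δ a a' X Y p (u : ℤ) = w2 δ p a a' X Y := by
  have hm := md_pos hδ hp
  have hpm : (p : ℤ) ∣ (md δ p : ℤ) := by exact_mod_cast (md_dvd hδ hp).1
  have h3z : (md δ p : ℤ) ∣ (a : ℤ) * Y + a' * X := by exact_mod_cast h3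
  have hco : ∀ {x : ℕ}, ¬ p ∣ x → IsCoprime (md δ p : ℤ) (x : ℤ) := fun {x} hx =>
    Nat.isCoprime_iff_coprime.2 ((md_cop_iff hδ hp x).2 hx).symm
  unfold w2
  by_cases ha : p ∣ a
  · have haz : (p : ℤ) ∣ (a : ℤ) := by exact_mod_cast ha
    by_cases hX : p ∣ X
    · have hXz : (p : ℤ) ∣ (X : ℤ) := by exact_mod_cast hX
      rw [if_pos ⟨ha, hX⟩]
      by_cases ha' : p ∣ a'
      · have haz' : (p : ℤ) ∣ (a' : ℤ) := by exact_mod_cast ha'
        have e2 : sy δ p (-((a' * Y : ℕ) : ℤ)) = 0 :=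
          sy_zero hδ hp (by push_cast; exact (haz'.mul_right _).neg_right)
        rw [e2]
        obtain ⟨t, ht1, ht2, ht3⟩ := sy_flip hδ hp
        have h4 := sum_permG hm ht1 (fun x => (G δ a a' X Y p x : ℚ)) (fun x y h => by
          rw [G_per a a' X Y hδ p x y h])
        have h5 : ∀ u ∈ range (md δ p), (G δ a a' X Y p ((t : ℤ) * (u : ℤ)) : ℚ) =
            -(G δ a a' X Y p (u : ℤ) : ℚ) := by
          intro u _
          have h6 : ((md δ p / p : ℕ) : ℤ) ∣ (t : ℤ) - 1 := by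
            have := (Nat.modEq_iff_dvd.1 ht2.symm)
            exact_mod_cast this
          have key : ∀ b : ℕ, (p : ℤ) ∣ (b : ℤ) → (md δ p : ℤ) ∣ (b : ℤ) * (t * u) - b * u := by
            intro b hb
            obtain ⟨c, hc⟩ := h6
            obtain ⟨b', hb'⟩ := hb
            have h7 : (md δ p : ℤ) = p * (md δ p / p : ℕ) := by
              exact_mod_cast (Nat.mul_div_cancel' (md_dvd hδ hp).1).symm
            refine ⟨b' * c * u, ?_⟩
            have h8 : (t : ℤ) = 1 + ((md δ p / p : ℕ) : ℤ) * c := by linarith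
            rw [h7, h8, hb']
            ring
          unfold G
          have e1 : (md δ p : ℤ) ∣ (a : ℤ) * (t * u) - (X : ℤ) ↔
              (md δ p : ℤ) ∣ (a : ℤ) * u - (X : ℤ) := by
            have : (a : ℤ) * (t * u) - (X : ℤ) = ((a : ℤ) * (t * u) - a * u) + ((a : ℤ) * u - (X : ℤ)) := by
              ring
            rw [this]
            exact (Int.dvd_add_right (key a haz))
          have e2 : (md δ p : ℤ) ∣ (a' : ℤ) * (t * u) + (Y : ℤ) ↔
              (md δ p : ℤ) ∣ (a' : ℤ) * u + (Y : ℤ) := by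
            have : (a' : ℤ) * (t * u) + (Y : ℤ) = ((a' : ℤ) * (t * u) - a' * u) +
              ((a' : ℤ) * u + (Y : ℤ)) := by ring
            rw [this]
            exact (Int.dvd_add_right (key a' haz'))
          rw [sy_mul, ht3]
          simp only [e1, e2]
          split_ifs
          · push_cast
            ring
          · simp
        rw [sum_congr rfl h5, sum_neg_distrib] at h4
        have h9 : ∑ u ∈ range (md δ p), (G δ a a' X Y p (u : ℤ) : ℚ) = 0 := by linarith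
        exact_mod_cast h9
      · obtain ⟨u, hu, hu1, hu2⟩ := single hm ((md_cop_iff hδ hp a').2 ha') (-(Y : ℤ))
        rw [sub_neg_eq_add] at hu1
        have haz' : ¬ (p : ℤ) ∣ (a' : ℤ) := by exact_mod_cast ha'
        have hu3 : (md δ p : ℤ) ∣ (a : ℤ) * u - X := by
          have h8 : (md δ p : ℤ) ∣ a' * ((a : ℤ) * u - X) := by
            have : (a' : ℤ) * ((a : ℤ) * u - X) = a * (a' * u + Y) - (a * Y + a' * X) := by ring
            rw [this]
            exact dvd_sub (hu1.mul_left _) h3z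
          exact (hco ha').dvd_of_dvd_mul_left h8
        rw [Finset.sum_eq_single u]
        · rw [G, if_pos ⟨hu3, hu1⟩]
          have h8 : (md δ p : ℤ) ∣ (-((a' * Y : ℕ) : ℤ)) - a' * a' * u := by
            have : (-((a' * Y : ℕ) : ℤ)) - a' * a' * u = -(a' * (a' * u + Y)) := by push_cast; ring
            rw [this]
            exact (Dvd.dvd.mul_left hu1 _).neg_right
          rw [sy_per hδ h8, sy_mul, sy_mul, sy_sq hδ hp haz', one_mul]
        · intro v hv hvu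
          rw [G, if_neg]
          rintro ⟨-, h⟩
          apply hvu
          apply hu2 v hv
          rwa [sub_neg_eq_add]
        · intro h
          exact absurd hu h
    · rw [if_neg (fun h => hX h.2)]
      have e2 : sy δ p ((a * X : ℕ) : ℤ) = 0 :=
        sy_zero hδ hp (by push_cast; exact haz.mul_right _)
      rw [e2]
      refine Finset.sum_eq_zero fun u _ => ?_
      rw [G, if_neg]
      rintro ⟨h, -⟩
      apply hX
      have h4 : (p : ℤ) ∣ (X : ℤ) := by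
        have := dvd_sub (haz.mul_right (u : ℤ)) (hpm.trans h)
        rwa [sub_sub_cancel] at this
      exact_mod_cast h4
  · rw [if_neg (fun h => ha h.1)]
    have haz : ¬ (p : ℤ) ∣ (a : ℤ) := by exact_mod_cast ha
    obtain ⟨u, hu, hu1, hu2⟩ := single hm ((md_cop_iff hδ hp a).2 ha) (X : ℤ)
    rw [Finset.sum_eq_single u]
    · have h7 : (md δ p : ℤ) ∣ (a' : ℤ) * u + Y := by
        have h8 : (md δ p : ℤ) ∣ a * ((a' : ℤ) * u + Y) := by
          have : (a : ℤ) * ((a' : ℤ) * u + Y) = a' * (a * u - X) + (a * Y + a' * X) := by ring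
          rw [this]
          exact dvd_add (hu1.mul_left _) h3z
        exact (hco ha).dvd_of_dvd_mul_left h8
      rw [G, if_pos ⟨hu1, h7⟩]
      have h8 : (md δ p : ℤ) ∣ ((a * X : ℕ) : ℤ) - a * a * u := by
        have : ((a * X : ℕ) : ℤ) - a * a * u = -(a * (a * u - X)) := by push_cast; ring
        rw [this]
        exact (Dvd.dvd.mul_left hu1 _).neg_right
      rw [sy_per hδ h8, sy_mul, sy_mul, sy_sq hδ hp haz, one_mul]
    · intro v hv hvu
      rw [G, if_neg]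
      rintro ⟨h, -⟩
      exact hvu (hu2 v hv h)
    · intro h
      exact absurd hu h

end

variable {δ : ℤ} {N : Finset ℕ}

theorem pe_dvd_iff (hδ : Dt δ) (hN : Pe N) (x : ℤ) :
    (pe δ N : ℤ) ∣ x ↔ ∀ p ∈ N, (md δ p : ℤ) ∣ x := by
  constructor
  · intro h p hp
    exact (Int.natCast_dvd_natCast.2 (Finset.dvd_prod_of_mem (md δ) hp)).trans h
  · intro h
    unfold pe
    rw [Nat.cast_prod]
    refine Finset.prod_dvd_of_coprime ?_ h
    intro p hp q hq hpq
    exact Nat.isCoprime_iff_coprime.2 (md_cop hδ (hN p hp).1 (hN q hq).1 hpq)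

/-- the character sum over the cusps -/
theorem c1b (hδ : Dt δ) (hN : Pe N) (a a' X Y : ℕ) (hdet : a * Y + a' * X = pe δ N) :
    ∑ u ∈ (un (pe δ N)).filter (fun u : ℕ => (pe δ N : ℤ) ∣ (a : ℤ) * (u : ℤ) - (X : ℤ) ∧
      (pe δ N : ℤ) ∣ (a' : ℤ) * (u : ℤ) + (Y : ℤ)), ch δ N u =
      ∏ p ∈ N, w2 δ p a a' X Y := by
  classical
  have h1 : ∀ p ∈ N, ∑ u ∈ range (md δ p), G δ a a' X Y p (u : ℤ) = w2 δ p a a' X Y := by
    intro p hp
    refine local_sum a a' X Y hδ (hN p hp).1 ?_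
    rw [hdet]
    exact Finset.dvd_prod_of_mem (md δ) hp
  rw [← Finset.prod_congr rfl h1, ← sum_crt_prod (fun p u => G δ a a' X Y p (u : ℤ)) (md δ) N
    (fun p hp => md_pos hδ (hN p hp).1)
    (fun p hp q hq hpq => md_cop hδ (hN p hp).1 (hN q hq).1 hpq), Finset.sum_filter]
  have h2 : ∀ u : ℕ, ∏ p ∈ N, G δ a a' X Y p ((u % md δ p : ℕ) : ℤ) =
      if (pe δ N : ℤ) ∣ (a : ℤ) * (u : ℤ) - (X : ℤ) ∧ (pe δ N : ℤ) ∣ (a' : ℤ) * (u : ℤ) + (Y : ℤ)
      then ch δ N (u : ℤ) else 0 := by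
    intro u
    have h3 : ∀ p ∈ N, G δ a a' X Y p ((u % md δ p : ℕ) : ℤ) = G δ a a' X Y p (u : ℤ) := fun p _ =>
      G_mod a a' X Y hδ p u
    rw [Finset.prod_congr rfl h3]
    unfold G
    rw [Finset.prod_ite_zero]
    have h4 : (∀ p ∈ N, (md δ p : ℤ) ∣ (a : ℤ) * (u : ℤ) - (X : ℤ) ∧
        (md δ p : ℤ) ∣ (a' : ℤ) * (u : ℤ) + (Y : ℤ)) ↔
        ((pe δ N : ℤ) ∣ (a : ℤ) * (u : ℤ) - (X : ℤ) ∧
          (pe δ N : ℤ) ∣ (a' : ℤ) * (u : ℤ) + (Y : ℤ)) := by
      rw [pe_dvd_iff hδ hN, pe_dvd_iff hδ hN]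
      exact forall₂_and
    simp only [h4]
    rfl
  rw [un, Finset.sum_filter]
  change _ = ∑ u ∈ range (pe δ N), ∏ p ∈ N, G δ a a' X Y p ((u % md δ p : ℕ) : ℤ)
  refine Finset.sum_congr rfl fun u _ => ?_
  rw [h2]
  by_cases hc : Nat.Coprime u (pe δ N)
  · rw [if_pos hc]
  · rw [if_neg hc, (cha hδ hN).zero u hc]
    simp

/-! ### pairs of vectors -/

theorem par5 (v w : V3) (h : Even (bl 5 v v - bl 5 w w)) : Even (bl 5 v w - bl 5 v v) := by
  have e : ∀ v w : V3, bl 5 v w = (v 0 + v 1 + v 2) * (w 0 + w 1 + w 2) +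
      2 * (v 0 * w 0 + 3 * (v 1 * w 1) + 3 * (v 2 * w 2) - (v 0 * w 1 + v 1 * w 0) +
        (v 1 * w 2 + v 2 * w 1)) := by
    intro v w
    rw [Pool.Agent.XV.Card.bl5]
    ring
  rw [e, e] at h ⊢
  simp only [Int.even_sub, Int.even_add, Int.even_mul, even_two, true_or, iff_true, or_self] at h ⊢
  tauto

theorem par3 (v w : V3) (h : Even (bl 3 v v - bl 3 w w)) : Even (bl 3 v w - bl 3 v v) := by
  have e : ∀ v w : V3, bl 3 v w = v 0 * w 0 +
      2 * (v 0 * w 0 + 2 * (v 1 * w 1) + 2 * (v 2 * w 2) + (v 1 * w 2 + v 2 * w 1)) := by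
    intro v w
    rw [Pool.Agent.XV.Card.bl3]
    ring
  rw [e, e] at h ⊢
  simp only [Int.even_sub, Int.even_add, Int.even_mul, even_two, true_or, iff_true, or_self] at h ⊢
  tauto

variable {q : ℕ}

/-- the sum of the numbers of pairs -/
theorem sum_cpa (hq : Gd q) (hp : ∀ v w : V3, Even (bl q v v - bl q w w) → Even (bl q v w - bl q v v))
    (n : ℕ) : (vec q (n : ℤ)).card ^ 2 = ∑ T ∈ range (n + 1), cpa q n T := by
  classical
  have h0 : (vec q (n : ℤ)).card ^ 2 = (vec q (n : ℤ) ×ˢ vec q (n : ℤ)).card := by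
    rw [card_product, sq]
  have hb : ∀ x ∈ vec q (n : ℤ) ×ˢ vec q (n : ℤ), ∃ T : ℕ, T < n + 1 ∧
      bl q x.1 x.2 = (n : ℤ) - 2 * T := by
    intro x hx
    rw [mem_product, mem_vec hq, mem_vec hq] at hx
    obtain ⟨h1, h2⟩ := bounds hq hx.1 hx.2
    have h3 := hp x.1 x.2 (by rw [hx.1, hx.2, sub_self]; exact Even.zero)
    rw [hx.1] at h3
    obtain ⟨a, ha⟩ := h3
    refine ⟨(-a).toNat, by omega, by omega⟩
  rw [h0, card_eq_sum_card_fiberwise (f := fun x : V3 × V3 => (((n : ℤ) - bl q x.1 x.2) / 2).toNat)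
    (t := range (n + 1))]
  · refine sum_congr rfl fun T hT => ?_
    unfold cpa
    congr 1
    refine filter_congr fun x hx => ?_
    obtain ⟨T', h1, h2⟩ := hb x hx
    rw [h2]
    constructor
    · intro h
      omega
    · intro h
      omega
  · intro x hx
    obtain ⟨T', h1, h2⟩ := hb x hx
    simp only [coe_range, Set.mem_Iio]
    rw [h2]
    omega

theorem card_sq (hq : Gd q) (hp : ∀ v w : V3, Even (bl q v v - bl q w w) → Even (bl q v w - bl q v v))
    {n : ℕ} (hn : 0 < n) :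
    ((vec q (n : ℤ)).card : ℤ) ^ 2 = 2 * (vec q (n : ℤ)).card + ∑ T ∈ Ioo 0 n, (cpa q n T : ℤ) := by
  have h1 := sum_cpa hq hp n
  have h2 : ((vec q (n : ℤ)).card : ℤ) ^ 2 = ∑ T ∈ range (n + 1), (cpa q n T : ℤ) := by
    exact_mod_cast h1
  rw [h2, sum_split hn (fun T => (cpa q n T : ℤ)), cpa_zero hq, cpa_last hq]
  ring

/-! ### folding -/

theorem fold {u n : ℕ} (hu : u.Prime) (hun : ¬ u ∣ n) :
    ∑ T ∈ Ioo 0 n, (if Odd ((T * (n - T)).factorization u) then pf u n T else 0) =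
      2 * ∑ T ∈ Ioo 0 n, loc1 u n T := by
  classical
  have h1 : ∀ T ∈ Ioo 0 n, (if Odd ((T * (n - T)).factorization u) then pf u n T else 0) =
      loc1 u n T + loc1 u n (n - T) := by
    intro T hT
    rw [mem_Ioo] at hT
    have hT0 : T ≠ 0 := by omega
    have hT1 : n - T ≠ 0 := by omega
    have hT2 : n - (n - T) = T := by omega
    have h2 : (T * (n - T)).factorization u = T.factorization u + (n - T).factorization u := by
      rw [Nat.factorization_mul hT0 hT1, Finsupp.add_apply]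
    have h3 : T.factorization u = 0 ∨ (n - T).factorization u = 0 := by
      by_contra hcon
      push Not at hcon
      have h4 : u ∣ T := (hu.dvd_iff_one_le_factorization hT0).2 (Nat.pos_of_ne_zero hcon.1)
      have h5 : u ∣ n - T := (hu.dvd_iff_one_le_factorization hT1).2 (Nat.pos_of_ne_zero hcon.2)
      apply hun
      have h6 := dvd_add h4 h5
      rwa [Nat.add_sub_cancel' hT.2.le] at h6
    unfold loc1 pf
    rw [hT2, h2, mul_comm (n - T) T]
    rcases h3 with h3 | h3 <;> rw [h3] <;> simp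
  rw [sum_congr rfl h1, sum_add_distrib, two_mul]
  congr 1
  refine sum_nbij' (fun T => n - T) (fun T => n - T) ?_ ?_ ?_ ?_ ?_
  · intro T hT
    rw [mem_Ioo] at hT ⊢
    omega
  · intro T hT
    rw [mem_Ioo] at hT ⊢
    omega
  · intro T hT
    rw [mem_Ioo] at hT
    show n - (n - T) = T
    omega
  · intro T hT
    rw [mem_Ioo] at hT
    show n - (n - T) = T
    omega
  · intro T hT
    rfl

/-! ### the class number -/

theorem sum_neg (hδ : Dt δ) (hN : Pe N) (hs : sg δ N = -1) (h1n : 1 < pe δ N) {u v : ℕ} :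
    ∑ t ∈ un (pe δ N), (ch δ N (t : ℤ)) * (Nq u v (pe δ N) (-t)) =
      - ∑ t ∈ un (pe δ N), (ch δ N (t : ℤ)) * (Nq u v (pe δ N) t) := by
  obtain ⟨n, hn⟩ : ∃ n, n = pe δ N := ⟨_, rfl⟩
  have hc := cha hδ hN
  rw [← hn] at hc h1n ⊢
  rw [← sum_neg_distrib]
  have hmem : ∀ t : ℕ, t ∈ un n → t < n ∧ Nat.Coprime t n ∧ 0 < t := by
    intro t ht
    have hu := Pool.Agent.Y687.mem_rr.1 (show t ∈ Pool.Agent.Y687.rr n from ht)
    refine ⟨hu.1, hu.2, ?_⟩
    rcases Nat.eq_zero_or_pos t with h0 | h0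
    · subst h0
      have := hu.2
      rw [Nat.coprime_zero_left] at this
      omega
    · exact h0
  have hmap : ∀ t ∈ un n, n - t ∈ un n := by
    intro t ht
    obtain ⟨h1, h2, h3⟩ := hmem t ht
    refine Pool.Agent.Y687.mem_rr.2 ⟨by omega, ?_⟩
    rw [Nat.coprime_comm]
    exact (Nat.coprime_self_sub_right h1.le).2 h2.symm
  refine sum_nbij' (fun t => n - t) (fun t => n - t) hmap hmap ?_ ?_ ?_
  · intro t ht
    have := hmem t ht
    show n - (n - t) = t
    omega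
  · intro t ht
    have := hmem t ht
    show n - (n - t) = t
    omega
  · intro t ht
    have hu := hmem t ht
    have e : ((n - t : ℕ) : ℤ) = n - t := by
      rw [Nat.cast_sub hu.1.le]
    rw [e, Nq_congr (x := -(t : ℤ)) (y := (n : ℤ) - t) ⟨-1, by ring⟩]
    have e2 : ch δ N ((n : ℤ) - t) = -ch δ N (t : ℤ) := by
      rw [hc.per ((n : ℤ) - t) ((-1) * t) ⟨1, by ring⟩, hc.mul, show ch δ N (-1) = -1 from hs]
      ring
    rw [e2]
    ring

/-- the counting side -/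
theorem sum_Nq (hδ : Dt δ) (hN : Pe N) (l : ℕ) :
    ∑ t ∈ un (pe δ N), (ch δ N (t : ℤ)) * (Nq l 1 (pe δ N) t) =
      ∑ T ∈ range (pe δ N), WW δ l 1 ∅ N T := by
  classical
  have h1 : ∀ t ∈ un (pe δ N), (ch δ N (t : ℤ)) * (Nq l 1 (pe δ N) t) =
      ∑ w ∈ Om l 1 (pe δ N), if Cd (pe δ N) t w then ch δ N (t : ℤ) else 0 := by
    intro t _
    unfold Nq
    rw [← sum_filter, sum_const, nsmul_eq_mul]
    ring
  rw [sum_congr rfl h1, sum_comm]
  unfold Om
  rw [sum_sigma]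
  refine sum_congr rfl fun T hT => ?_
  have hp0 : pe δ (∅ : Finset ℕ) = 1 := by
    unfold pe
    simp
  unfold WW
  rw [hp0, one_mul, sum_product]
  refine sum_congr rfl fun a ha => ?_
  refine sum_congr rfl fun a' ha' => ?_
  rw [mem_filter, Nat.mem_divisors] at ha ha'
  have hT := mem_range.1 hT
  rw [← sum_filter, prod_empty, one_mul]
  exact c1b hδ hN a a' (T / a') ((pe δ N - T) / a) (by
    rw [Nat.mul_div_cancel' ha.1.1, Nat.mul_div_cancel' ha'.1.1]
    omega)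

theorem sum_WW (l : ℕ) (hpos : 0 < pe δ N)
    (h : ∀ T, 0 < T → T < pe δ N → WW δ l 1 ∅ N T = - loc1 l (pe δ N) T) :
    ∑ T ∈ range (pe δ N), WW δ l 1 ∅ N T = - ∑ T ∈ Ioo 0 (pe δ N), loc1 l (pe δ N) T := by
  have h1 : range (pe δ N) = insert 0 (Ioo 0 (pe δ N)) := by
    ext T
    simp only [mem_range, mem_insert, mem_Ioo]
    omega
  have h0 : WW δ l 1 ∅ N 0 = 0 := by
    unfold WW
    simp
  rw [h1, sum_insert (by simp), h0, zero_add, ← sum_neg_distrib]
  refine sum_congr rfl fun T hT => ?_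
  rw [mem_Ioo] at hT
  exact h T hT.1 hT.2

/-- the class number relation -/
theorem relation (hL : Pool.Agent.XV.S_LVL) (hδ : Dt δ) (hN : Pe N) (hs : sg δ N = -1)
    (h1n : 1 < pe δ N) {l : ℕ}
    (hl : l = 3 ∨ l = 5) (hc : Nat.Coprime (pe δ N) l) (hj : ch δ N l = -1)
    (hW : ∀ T, 0 < T → T < pe δ N → WW δ l 1 ∅ N T = - loc1 l (pe δ N) T) :
    (2 : ℚ) * ((∑ T ∈ Ioo 0 (pe δ N), loc1 l (pe δ N) T : ℤ) : ℚ) =
      24 / ((l : ℚ) - 1) * HH (pe δ N) (ch δ N) ^ 2 + 2 * HH (pe δ N) (ch δ N) := by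
  have hC := cha hδ hN
  obtain ⟨n, hn⟩ : ∃ n, n = pe δ N := ⟨_, rfl⟩
  have hpos : 0 < n := by omega
  obtain ⟨z, hz⟩ : ∃ z : ℤ, (n : ℤ) ∣ l * z - 1 := by
    have h1 : IsCoprime (n : ℤ) (l : ℤ) := Nat.isCoprime_iff_coprime.2 (hn ▸ hc)
    obtain ⟨a, b, hab⟩ := h1
    exact ⟨b, ⟨-a, by linarith⟩⟩
  rw [← hn] at hC
  have hjz : ch δ N z = -1 := by
    have h1 : ch δ N (l * z) = 1 := by
      rw [hC.per _ 1 hz, hC.one]
    rw [hC.mul, hj] at h1
    omega
  have e1 : ((∑ t ∈ un n, (ch δ N (t : ℤ)) * (Nq l 1 n (-t) - Nq l 1 n t) : ℤ) : ℚ) =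
      24 / ((l : ℚ) - 1) * HH n (ch δ N) ^ 2 + 2 * HH n (ch δ N) := by
    push_cast
    have h1 : ∀ t ∈ un n, (ch δ N (t : ℤ) : ℚ) * ((Nq l 1 n (-t) : ℚ) - (Nq l 1 n t : ℚ)) =
        12 / ((l : ℚ) - 1) * ((ch δ N (t : ℤ) : ℚ) * ded (1 * t) n) -
        12 / ((l : ℚ) - 1) * ((ch δ N (t : ℤ) : ℚ) * ded (l * t) n)
        + (ch δ N (t : ℤ) : ℚ) * saw n (1 * t) -
        (ch δ N (t : ℤ) : ℚ) * saw n (z * (((t : ZMod n)⁻¹).val : ℤ)) := by
      intro t ht
      have h2 := hL l n hl hpos (hn ▸ hc) t (((t : ZMod n)⁻¹).val : ℤ) z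
        (un_dvd ht) hz
      push_cast at h2
      rw [h2, one_mul]
      ring
    rw [sum_congr rfl h1, sum_sub_distrib, sum_add_distrib, sum_sub_distrib, ← mul_sum, ← mul_sum,
      sum_un hC (fun t => ded (1 * (t : ℤ)) n),
      sum_un hC (fun t => ded (l * (t : ℤ)) n),
      sum_un hC (fun t => saw n (1 * (t : ℤ))),
      char_inv hC, char_ded hC, char_ded hC, char_saw hC, hjz, hC.one, hj]
    push_cast
    ring
  have e2 : ∑ t ∈ un n, (ch δ N (t : ℤ)) * (Nq l 1 n (-t) - Nq l 1 n t) =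
      2 * ∑ T ∈ Ioo 0 n, loc1 l n T := by
    simp_rw [mul_sub]
    rw [sum_sub_distrib, hn, sum_neg hδ hN hs h1n, sum_Nq hδ hN, sum_WW l (hn ▸ hpos) hW]
    ring
  rw [← hn, ← e1, e2]
  push_cast
  ring

end Pool.Agent.XW.Card

namespace Pool.Agent.XW

open Pool.Agent.XV (vec)

/-- **CARD.** -/
theorem t_CARD (h : S_PC) : S_CARD := by
  intro δ hδ N hN
  have hpos := Card.pe_pos hδ hN
  constructor
  · intro hb
    have hb' := hb
    unfold Jb at hb'
    rw [Card.card_sq Pool.Agent.XV.Card.gd5 Card.par5 hpos]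
    congr 1
    rw [show (12 : ℤ) = 6 * 2 by norm_num, mul_assoc, ← Card.fold (by norm_num) (by omega), mul_sum]
    refine sum_congr rfl fun T hT => ?_
    rw [mem_Ioo] at hT
    rw [(h δ hδ N hN T hT.1 hT.2).1 hb, mul_ite, mul_zero]
  · intro hd
    have hd' := hd
    unfold Jd at hd'
    rw [Card.card_sq Pool.Agent.XV.Card.gd3 Card.par3 hpos]
    congr 1
    rw [show (24 : ℤ) = 12 * 2 by norm_num, mul_assoc, ← Card.fold (by norm_num) (by omega), mul_sum]
    refine sum_congr rfl fun T hT => ?_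
    rw [mem_Ioo] at hT
    rw [(h δ hδ N hN T hT.1 hT.2).2 hd, mul_ite, mul_zero]

/-- **CLS.** -/
theorem t_CLS (h1 : S_CARD) (h2 : Pool.Agent.XV.S_LVL) (h3 : S_C20) : S_CLS := by
  intro δ hδ N hN
  have hpos := Card.pe_pos hδ hN
  have hsum : ∑ t ∈ Pool.Agent.Z700.un (pe δ N), (ch δ N t : ℚ) *
      Pool.Agent.Y687.saw (pe δ N) t = Card.HH (pe δ N) (ch δ N) :=
    Card.sum_un (Card.cha hδ hN) (fun t => Pool.Agent.Y687.saw (pe δ N) (t : ℤ))
  constructor
  · intro hb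
    have hb' := hb
    unfold Jb at hb'
    have h1n : 1 < pe δ N := by omega
    have h30 : ¬ 3 ∣ pe δ N := by omega
    have hj : ch δ N ((5 : ℕ) : ℤ) = -1 := by
      have e := Card.ch_five hδ hN
      rw [Nat.cast_ofNat, e, jacobiSym.mod_left]
      have : ((pe δ N : ℤ) % (5 : ℕ)) = 2 ∨ ((pe δ N : ℤ) % (5 : ℕ)) = 3 := by omega
      rcases this with h | h <;> rw [h] <;> norm_num
    have hr := Card.relation h2 hδ hN hb'.1 h1n (Or.inr rfl)
      ((Nat.coprime_comm.1 ((Nat.Prime.coprime_iff_not_dvd (by norm_num)).2 (by omega))))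
      hj fun T hT0 hT1 => ((h3 δ hδ N hN T hT0 hT1).1 hb)
    obtain ⟨k, hk⟩ := Card.HH_int (χ := ch δ N) hpos
    have hq := congrArg (fun z : ℤ => (z : ℚ)) ((h1 δ hδ N hN).1 hb)
    rw [hsum]
    have := Pool.Agent.XV.Card.sign_of h30 (Pool.Agent.XV.Card.dvd5 h30) 1 hk (by
      push_cast at hq hr ⊢
      linear_combination hq + 6 * hr)
    push_cast at this ⊢
    linear_combination this
  · intro hd
    have hd' := hd
    unfold Jd at hd'
    have h1n : 1 < pe δ N := by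
      rcases Nat.lt_or_ge 1 (pe δ N) with h | h
      · exact h
      · exfalso
        have e1 : pe δ N = 1 := by omega
        have e2 : N = ∅ := by
          by_contra hne
          obtain ⟨p, hp⟩ := Finset.nonempty_iff_ne_empty.2 hne
          have h5 : md δ p ∣ pe δ N := Finset.dvd_prod_of_mem (md δ) hp
          rw [e1, Nat.dvd_one] at h5
          have h6 := (Card.md_dvd hδ (hN p hp).1).1
          rw [h5, Nat.dvd_one] at h6
          exact (hN p hp).1.one_lt.ne' h6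
        rw [e2] at hd'
        have h7 := hd'.1
        unfold sg ch at h7
        rw [prod_empty] at h7
        norm_num at h7
    have h30 : ¬ 3 ∣ pe δ N := by omega
    have hj : ch δ N ((3 : ℕ) : ℤ) = -1 := by
      have e := Card.ch_three hδ hN
      rw [Nat.cast_ofNat, e, hd'.1, jacobiSym.mod_left]
      have : ((pe δ N : ℤ) % (3 : ℕ)) = 1 := by omega
      rw [this]
      norm_num
    have hr := Card.relation h2 hδ hN hd'.1 h1n (Or.inl rfl)
      ((Nat.coprime_comm.1 ((Nat.Prime.coprime_iff_not_dvd (by norm_num)).2 (by omega))))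
      hj fun T hT0 hT1 => ((h3 δ hδ N hN T hT0 hT1).2 hd)
    obtain ⟨k, hk⟩ := Card.HH_int (χ := ch δ N) hpos
    have hq := congrArg (fun z : ℤ => (z : ℚ)) ((h1 δ hδ N hN).2 hd)
    rw [hsum]
    have := Pool.Agent.XV.Card.sign_of h30 (Pool.Agent.XV.Card.dvd3 h30) 2 hk (by
      push_cast at hq hr ⊢
      linear_combination hq + 12 * hr)
    push_cast at this ⊢
    linear_combination this

end Pool.Agent.XW
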