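import Pool.Agent.XV.Card
import Pool.Agent.XW.Defs

/-!
# XW-13: characters and sums of the sawtooth function
-/

set_option autoImplicit false

open Finset

namespace Pool.Agent.XW.Card

open Pool.Agent.Y687
open Pool.Agent.Z700 (un)
open Pool.Agent.XV.Card (sum_permG sum_unQ)

/-- a primitive quadratic character modulo `n` -/
structure Cha (n : ℕ) (χ : ℤ → ℤ) : Prop where
  pos : 0 < n
  one : χ 1 = 1
  mul : ∀ x y, χ (x * y) = χ x * χ y
  per : ∀ x y, (n : ℤ) ∣ x - y → χ x = χ y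
  zero : ∀ k : ℕ, ¬ Nat.Coprime k n → χ k = 0
  sq : ∀ k : ℕ, Nat.Coprime k n → χ k * χ k = 1
  flip : ∀ l : ℕ, l.Prime → l ∣ n → ∃ v : ℕ, Nat.Coprime v n ∧ v ≡ 1 [MOD n / l] ∧ χ v = -1

/-- the character sum of the sawtooth function -/
def HH (n : ℕ) (χ : ℤ → ℤ) : ℚ := ∑ u ∈ range n, (χ (u : ℤ) : ℚ) * saw n u

variable {n : ℕ} {χ : ℤ → ℤ}

theorem sqQ (h : Cha n χ) {k : ℕ} (hc : Nat.Coprime k n) : (χ (k : ℤ) : ℚ) * χ (k : ℤ) = 1 := by
  exact_mod_cast h.sq k hc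

theorem char_saw_nat (h : Cha n χ) (k : ℕ) :
    ∑ u ∈ range n, (χ (u : ℤ) : ℚ) * saw n (k * u) = χ (k : ℤ) * HH n χ := by
  by_cases hc : Nat.Coprime k n
  · have h1 := sum_permG h.pos hc (fun x => (χ x : ℚ) * saw n x) (fun x y hxy => by
      rw [h.per x y hxy, saw_congr hxy])
    have h2 : ∀ u ∈ range n, (χ (u : ℤ) : ℚ) * saw n (k * u) =
        χ (k : ℤ) * ((χ ((k : ℤ) * u) : ℚ) * saw n (k * u)) := by
      intro u _
      rw [h.mul]
      push_cast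
      have h3 := sqQ h hc
      linear_combination (-(χ (u : ℤ) : ℚ) * saw n (k * u)) * h3
    rw [sum_congr rfl h2, ← mul_sum, h1]
    rfl
  · rw [h.zero k hc]
    obtain ⟨l, hl, h1, h2⟩ := Nat.Prime.not_coprime_iff_dvd.1 hc
    obtain ⟨v, hv1, hv2, hv3⟩ := h.flip l hl h2
    have h3 := sum_permG h.pos hv1 (fun x => (χ x : ℚ) * saw n (k * x)) (fun x y hxy => by
      rw [h.per x y hxy, saw_congr (m := k * x) (n := k * y)
        (by rw [← mul_sub]; exact Dvd.dvd.mul_left hxy _)])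
    have h4 : ∀ u ∈ range n, (χ ((v : ℤ) * u) : ℚ) * saw n (k * ((v : ℤ) * u)) =
        -((χ (u : ℤ) : ℚ) * saw n (k * u)) := by
      intro u _
      rw [h.mul, hv3]
      have h5 : saw n (k * ((v : ℤ) * u)) = saw n (k * u) := by
        refine saw_congr ?_
        have h6 : ((n / l : ℕ) : ℤ) ∣ (v : ℤ) - 1 := by
          have := (Nat.modEq_iff_dvd.1 hv2.symm)
          exact_mod_cast this
        obtain ⟨c, hc'⟩ := h6
        obtain ⟨k', hk'⟩ := h1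
        have h7 : (n : ℤ) = l * (n / l : ℕ) := by exact_mod_cast (Nat.mul_div_cancel' h2).symm
        refine ⟨k' * c * u, ?_⟩
        have h8 : (v : ℤ) = 1 + ((n / l : ℕ) : ℤ) * c := by linarith
        rw [h7, h8, hk']
        push_cast
        ring
      rw [h5]
      push_cast
      ring
    rw [sum_congr rfl h4, sum_neg_distrib] at h3
    have h9 : ∑ u ∈ range n, (χ (u : ℤ) : ℚ) * saw n (k * u) = 0 := by linarith
    rw [h9]
    simp

theorem char_saw (h : Cha n χ) (k : ℤ) :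
    ∑ u ∈ range n, (χ (u : ℤ) : ℚ) * saw n (k * u) = χ k * HH n χ := by
  have hn0 : (n : ℤ) ≠ 0 := by exact_mod_cast h.pos.ne'
  obtain ⟨k', hk'⟩ : ∃ k' : ℕ, (k' : ℤ) = k % n :=
    ⟨(k % n).toNat, Int.toNat_of_nonneg (Int.emod_nonneg _ hn0)⟩
  have hd : (n : ℤ) ∣ k - k' := by
    rw [hk']
    exact Int.dvd_self_sub_emod
  rw [h.per _ _ hd, ← char_saw_nat h k']
  refine sum_congr rfl fun u _ => ?_
  congr 1
  refine saw_congr ?_
  rw [← sub_mul]
  exact Dvd.dvd.mul_right hd _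

theorem char_ded (h : Cha n χ) (d : ℤ) :
    ∑ u ∈ range n, (χ (u : ℤ) : ℚ) * ded (d * u) n = χ d * HH n χ ^ 2 := by
  unfold ded
  simp_rw [mul_sum]
  rw [sum_comm]
  have h1 : ∀ i ∈ range n, ∑ u ∈ range n, (χ (u : ℤ) : ℚ) *
      (saw n i * saw n (d * u * i)) = (χ d * HH n χ) * ((χ (i : ℤ) : ℚ) * saw n i) := by
    intro i _
    have h2 := char_saw h (d * i)
    have h3 : ∀ u ∈ range n, (χ (u : ℤ) : ℚ) * (saw n i * saw n (d * u * i)) =
        saw n i * ((χ (u : ℤ) : ℚ) * saw n (d * i * u)) := by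
      intro u _
      rw [show d * (u : ℤ) * i = d * i * u by ring]
      ring
    rw [sum_congr rfl h3, ← mul_sum, h2, h.mul]
    push_cast
    ring
  rw [sum_congr rfl h1, ← mul_sum]
  unfold HH
  ring

theorem sum_un (h : Cha n χ) (f : ℕ → ℚ) :
    ∑ u ∈ un n, (χ (u : ℤ) : ℚ) * f u = ∑ u ∈ range n, (χ (u : ℤ) : ℚ) * f u := by
  unfold un
  rw [sum_filter]
  refine sum_congr rfl fun u _ => ?_
  split_ifs with h1
  · rfl
  · rw [h.zero u h1]
    simp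

theorem chi_inv (h : Cha n χ) [NeZero n] (u : (ZMod n)ˣ) :
    χ (((((u⁻¹ : (ZMod n)ˣ) : ZMod n).val : ℕ) : ℤ)) = χ ((((u : ZMod n).val : ℕ) : ℤ)) := by
  have h1 : (n : ℤ) ∣ (((u : ZMod n).val : ℕ) : ℤ) * ((((u⁻¹ : (ZMod n)ˣ) : ZMod n).val : ℕ) : ℤ) - 1 := by
    rw [← ZMod.intCast_zmod_eq_zero_iff_dvd]
    push_cast
    rw [ZMod.natCast_zmod_val, ZMod.natCast_zmod_val, ← Units.val_mul, mul_inv_cancel, Units.val_one,
      sub_self]
  have h2 := h.per _ _ h1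
  rw [h.mul, h.one] at h2
  have h3 := h.sq _ (ZMod.val_coe_unit_coprime u)
  have h4 : χ (((u : ZMod n).val : ℕ) : ℤ) * (χ (((u : ZMod n).val : ℕ) : ℤ) *
      χ ((((u⁻¹ : (ZMod n)ˣ) : ZMod n).val : ℕ) : ℤ)) = χ (((u : ZMod n).val : ℕ) : ℤ) := by
    rw [h2, mul_one]
  rw [← mul_assoc, h3, one_mul] at h4
  exact h4

theorem char_inv (h : Cha n χ) (m : ℤ) :
    ∑ u ∈ un n, (χ (u : ℤ) : ℚ) * saw n (m * (((u : ZMod n)⁻¹).val : ℤ)) = χ m * HH n χ := by
  have : NeZero n := ⟨h.pos.ne'⟩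
  rw [sum_unQ (fun u => (χ (u : ℤ) : ℚ) * saw n (m * (((u : ZMod n)⁻¹).val : ℤ)))]
  have h1 : ∀ u : (ZMod n)ˣ, (χ (((u : ZMod n).val : ℕ) : ℤ) : ℚ) *
      saw n (m * ((((((u : ZMod n).val : ℕ) : ZMod n))⁻¹).val : ℤ)) =
      (fun w : (ZMod n)ˣ => (χ (((w : ZMod n).val : ℕ) : ℤ) : ℚ) *
        saw n (m * (((w : ZMod n).val : ℕ) : ℤ))) u⁻¹ := by
    intro u
    simp only
    rw [ZMod.natCast_zmod_val, ZMod.inv_coe_unit, chi_inv h]
  rw [Finset.sum_congr rfl fun u _ => h1 u]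
  have h5 := Equiv.sum_comp (Equiv.inv (ZMod n)ˣ) (fun w : (ZMod n)ˣ =>
    (χ (((w : ZMod n).val : ℕ) : ℤ) : ℚ) * saw n (m * (((w : ZMod n).val : ℕ) : ℤ)))
  simp only [Equiv.inv_apply] at h5
  rw [h5]
  rw [← sum_unQ (fun u => (χ (u : ℤ) : ℚ) * saw n (m * (u : ℤ))),
    sum_un h (fun u => saw n (m * (u : ℤ))), char_saw h]

/-- twice the product is an integer -/
theorem HH_int (hn : 0 < n) : ∃ k : ℤ, 2 * n * HH n χ = k := by
  have hn0 : (n : ℚ) ≠ 0 := by positivity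
  refine ⟨∑ u ∈ range n, χ (u : ℤ) * (if (n : ℤ) ∣ u then 0 else 2 * (u : ℤ) - (n : ℤ)), ?_⟩
  unfold HH
  rw [mul_sum]
  push_cast
  refine sum_congr rfl fun u hu => ?_
  have hu := mem_range.1 hu
  unfold Pool.Agent.Y687.saw
  by_cases hd : (n : ℤ) ∣ (u : ℤ)
  · rw [if_pos hd, if_pos hd]
    simp
  · rw [if_neg hd, if_neg hd, Int.emod_eq_of_lt (by positivity) (by exact_mod_cast hu)]
    push_cast
    field_simp

/-! ### Chinese remainder theorem for sums -/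

theorem sum_crt_prod (G : ℕ → ℕ → ℤ) (m : ℕ → ℕ) (P : Finset ℕ) (hm : ∀ p ∈ P, 0 < m p)
    (hc : ∀ p ∈ P, ∀ q ∈ P, p ≠ q → Nat.Coprime (m p) (m q)) :
    ∑ u ∈ range (∏ p ∈ P, m p), ∏ p ∈ P, G p (u % m p) = ∏ p ∈ P, ∑ u ∈ range (m p), G p u := by
  classical
  induction P using Finset.induction_on with
  | empty => simp
  | insert p P hp ih =>
    have hpp := hm p (mem_insert_self _ _)
    have hP' : ∀ q ∈ P, 0 < m q := fun q hq => hm q (mem_insert_of_mem hq)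
    have hpos : 0 < ∏ q ∈ P, m q := Finset.prod_pos fun q hq => hP' q hq
    have hcop : Nat.Coprime (m p) (∏ q ∈ P, m q) := by
      refine Nat.Coprime.prod_right fun q hq => ?_
      refine hc p (mem_insert_self _ _) q (mem_insert_of_mem hq) ?_
      rintro rfl
      exact hp hq
    rw [Finset.prod_insert hp, Finset.prod_insert hp, ← ih hP' (fun a ha b hb =>
      hc a (mem_insert_of_mem ha) b (mem_insert_of_mem hb)), ← Pool.Agent.XV.Card.sum_crt hcop hpp hpos]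
    refine Finset.sum_congr rfl fun u _ => ?_
    rw [Finset.prod_insert hp]
    congr 1
    refine Finset.prod_congr rfl fun q hq => ?_
    rw [Nat.mod_mod_of_dvd u (Finset.dvd_prod_of_mem _ hq)]

end Pool.Agent.XW.Card
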