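import Pool.Agent.XW.CardA

/-!
# XW-13: the characters `ch δ N`
-/

set_option autoImplicit false

open Finset

namespace Pool.Agent.XW.Card

open Pool.Agent.Z700 (un)
open Pool.Agent.XV.Card (jac_congr jacz jacsq sum_jac)

theorem c2_mul (δ x y : ℤ) : c2 δ (x * y) = c2 δ x * c2 δ y := by
  unfold c2
  split_ifs
  · rw [Int.cast_mul, map_mul]
  · rw [Int.cast_mul, map_mul]
  · rw [Int.cast_mul, map_mul]

theorem c2_per {δ : ℤ} (hδ : Dt δ) {x y : ℤ} (h : (δ.natAbs : ℤ) ∣ x - y) : c2 δ x = c2 δ y := by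
  have key : ∀ m : ℕ, (m : ℤ) ∣ x - y → (x : ZMod m) = (y : ZMod m) := by
    intro m hm
    have := (ZMod.intCast_zmod_eq_zero_iff_dvd (x - y) m).2 hm
    rw [Int.cast_sub] at this
    exact sub_eq_zero.1 this
  unfold c2
  rcases hδ with rfl | rfl | rfl
  · rw [if_pos rfl, if_pos rfl, key 4 h]
  · rw [if_neg (by norm_num), if_pos rfl, if_neg (by norm_num), if_pos rfl, key 8 h]
  · rw [if_neg (by norm_num), if_neg (by norm_num), if_neg (by norm_num), if_neg (by norm_num), key 8 h]

theorem c2_even {δ : ℤ} (hδ : Dt δ) {x : ℤ} (h : 2 ∣ x) : c2 δ x = 0 := by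
  unfold c2
  rcases hδ with rfl | rfl | rfl
  · rw [if_pos rfl, ZMod.χ₄_int_eq_if_mod_four, if_pos (by omega)]
  · rw [if_neg (by norm_num), if_pos rfl, ZMod.χ₈_int_eq_if_mod_eight, if_pos (by omega)]
  · rw [if_neg (by norm_num), if_neg (by norm_num), ZMod.χ₈'_int_eq_if_mod_eight, if_pos (by omega)]

theorem c2_odd {δ : ℤ} (hδ : Dt δ) {x : ℤ} (h : ¬ 2 ∣ x) : c2 δ x * c2 δ x = 1 := by
  unfold c2
  rcases hδ with rfl | rfl | rfl
  · rw [if_pos rfl, ZMod.χ₄_int_eq_if_mod_four, if_neg (by omega)]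
    split_ifs <;> norm_num
  · rw [if_neg (by norm_num), if_pos rfl, ZMod.χ₈_int_eq_if_mod_eight, if_neg (by omega)]
    split_ifs <;> norm_num
  · rw [if_neg (by norm_num), if_neg (by norm_num), ZMod.χ₈'_int_eq_if_mod_eight, if_neg (by omega)]
    split_ifs <;> norm_num

theorem c2_one (δ : ℤ) : c2 δ 1 = 1 := by
  unfold c2
  split_ifs <;> simp

theorem c2_half {δ : ℤ} (hδ : Dt δ) {x : ℤ} : c2 δ (x + δ.natAbs / 2) = - c2 δ x := by
  by_cases hx : 2 ∣ x
  · rw [c2_even hδ hx, c2_even hδ (by rcases hδ with rfl | rfl | rfl <;> norm_num <;> omega)]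
    rfl
  · unfold c2
    rcases hδ with rfl | rfl | rfl
    · rw [if_pos rfl, if_pos rfl, ZMod.χ₄_int_eq_if_mod_four, ZMod.χ₄_int_eq_if_mod_four]
      norm_num
      have : x % 4 = 1 ∨ x % 4 = 3 := by omega
      rcases this with h | h
      · rw [if_neg (by omega), if_neg (by omega), if_neg (by omega), if_pos (by omega)]
      · rw [if_neg (by omega), if_pos (by omega), if_neg (by omega), if_neg (by omega)]
        norm_num
    · rw [if_neg (by norm_num), if_pos rfl, if_neg (by norm_num), if_pos rfl,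
        ZMod.χ₈_int_eq_if_mod_eight, ZMod.χ₈_int_eq_if_mod_eight]
      norm_num
      have : x % 8 = 1 ∨ x % 8 = 3 ∨ x % 8 = 5 ∨ x % 8 = 7 := by omega
      rcases this with h | h | h | h
      · rw [if_neg (by omega), if_neg (by omega), if_neg (by omega), if_pos (by omega)]
      · rw [if_neg (by omega), if_pos (by omega), if_neg (by omega), if_neg (by omega)]
        norm_num
      · rw [if_neg (by omega), if_pos (by omega), if_neg (by omega), if_neg (by omega)]
        norm_num
      · rw [if_neg (by omega), if_neg (by omega), if_neg (by omega), if_pos (by omega)]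
    · rw [if_neg (by norm_num), if_neg (by norm_num), if_neg (by norm_num), if_neg (by norm_num),
        ZMod.χ₈'_int_eq_if_mod_eight, ZMod.χ₈'_int_eq_if_mod_eight]
      norm_num
      have : x % 8 = 1 ∨ x % 8 = 3 ∨ x % 8 = 5 ∨ x % 8 = 7 := by omega
      rcases this with h | h | h | h
      · rw [if_neg (by omega), if_neg (by omega), if_neg (by omega), if_pos (by omega)]
      · rw [if_neg (by omega), if_neg (by omega), if_neg (by omega), if_pos (by omega)]
      · rw [if_neg (by omega), if_pos (by omega), if_neg (by omega), if_neg (by omega)]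
        norm_num
      · rw [if_neg (by omega), if_pos (by omega), if_neg (by omega), if_neg (by omega)]
        norm_num

/-! ### the symbols -/

theorem md_pos {δ : ℤ} (hδ : Dt δ) {p : ℕ} (hp : p.Prime) : 0 < md δ p := by
  unfold md
  split_ifs
  · rcases hδ with rfl | rfl | rfl <;> norm_num
  · exact hp.pos

theorem md_dvd {δ : ℤ} (hδ : Dt δ) {p : ℕ} (hp : p.Prime) : p ∣ md δ p ∧ md δ p ∣ p ^ 3 := by
  unfold md
  split_ifs with h
  · subst h
    rcases hδ with rfl | rfl | rfl <;> norm_num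
  · exact ⟨dvd_rfl, dvd_pow_self _ (by norm_num)⟩

theorem md_cop {δ : ℤ} (hδ : Dt δ) {p q : ℕ} (hp : p.Prime) (hq : q.Prime) (hpq : p ≠ q) :
    Nat.Coprime (md δ p) (md δ q) :=
  Nat.Coprime.of_dvd (md_dvd hδ hp).2 (md_dvd hδ hq).2
    (Nat.Coprime.pow 3 3 ((Nat.coprime_primes hp hq).2 hpq))

theorem md_cop_iff {δ : ℤ} (hδ : Dt δ) {p : ℕ} (hp : p.Prime) (k : ℕ) :
    Nat.Coprime k (md δ p) ↔ ¬ p ∣ k := by
  rw [Nat.coprime_comm]
  constructor
  · intro h
    have h1 := Nat.Coprime.coprime_dvd_left (md_dvd hδ hp).1 h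
    exact (Nat.Prime.coprime_iff_not_dvd hp).1 h1
  · intro h
    have h1 := (Nat.Prime.coprime_iff_not_dvd hp).2 h
    exact Nat.Coprime.coprime_dvd_left (md_dvd hδ hp).2 (Nat.Coprime.pow_left 3 h1)

theorem sy_mul (δ : ℤ) (p : ℕ) (x y : ℤ) : sy δ p (x * y) = sy δ p x * sy δ p y := by
  unfold sy
  split_ifs
  · exact c2_mul δ x y
  · exact jacobiSym.mul_left _ _ _

theorem sy_one (δ : ℤ) (p : ℕ) : sy δ p 1 = 1 := by
  unfold sy
  split_ifs
  · exact c2_one δ
  · exact jacobiSym.one_left _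

theorem sy_per {δ : ℤ} (hδ : Dt δ) {p : ℕ} {x y : ℤ} (h : (md δ p : ℤ) ∣ x - y) :
    sy δ p x = sy δ p y := by
  unfold sy
  unfold md at h
  split_ifs with h2
  · rw [if_pos h2] at h
    exact c2_per hδ h
  · rw [if_neg h2] at h
    exact jac_congr h

theorem sy_zero {δ : ℤ} (hδ : Dt δ) {p : ℕ} (hp : p.Prime) {x : ℤ} (h : (p : ℤ) ∣ x) :
    sy δ p x = 0 := by
  unfold sy
  split_ifs with h2
  · subst h2
    exact c2_even hδ (by exact_mod_cast h)
  · exact jacz hp h

theorem sy_sq {δ : ℤ} (hδ : Dt δ) {p : ℕ} (hp : p.Prime) {x : ℤ} (h : ¬ (p : ℤ) ∣ x) :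
    sy δ p x * sy δ p x = 1 := by
  unfold sy
  split_ifs with h2
  · subst h2
    exact c2_odd hδ (by exact_mod_cast h)
  · exact jacsq hp h

theorem sy_flip {δ : ℤ} (hδ : Dt δ) {p : ℕ} (hp : p.Prime) :
    ∃ t : ℕ, Nat.Coprime t (md δ p) ∧ t ≡ 1 [MOD md δ p / p] ∧ sy δ p t = -1 := by
  by_cases h2 : p = 2
  · subst h2
    refine ⟨1 + δ.natAbs / 2, ?_, ?_, ?_⟩
    · rw [md_cop_iff hδ hp]
      rcases hδ with rfl | rfl | rfl <;> norm_num
    · unfold md
      rw [if_pos rfl]
      rcases hδ with rfl | rfl | rfl <;> decide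
    · unfold sy
      rw [if_pos rfl]
      have e : ((1 + δ.natAbs / 2 : ℕ) : ℤ) = 1 + (δ.natAbs : ℤ) / 2 := by
        rw [Nat.cast_add, Int.natCast_div]
        rfl
      rw [e, c2_half hδ, c2_one]
  · obtain ⟨t, ht, hj⟩ := Pool.Agent.XV.Card.exists_nonres' hp h2
    refine ⟨t, ?_, ?_, ?_⟩
    · unfold md
      rwa [if_neg h2]
    · unfold md
      rw [if_neg h2, Nat.div_self hp.pos]
      exact Nat.modEq_one
    · unfold sy
      rwa [if_neg h2]

/-! ### the characters -/

variable {δ : ℤ} {N : Finset ℕ}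

theorem pe_pos (hδ : Dt δ) (hN : Pe N) : 0 < pe δ N :=
  Finset.prod_pos fun p hp => md_pos hδ (hN p hp).1

theorem cop_pe (hδ : Dt δ) (hN : Pe N) (k : ℕ) : Nat.Coprime k (pe δ N) ↔ ∀ p ∈ N, ¬ p ∣ k := by
  unfold pe
  rw [Nat.coprime_prod_right_iff]
  exact forall₂_congr fun p hp => md_cop_iff hδ (hN p hp).1 k

theorem cha (hδ : Dt δ) (hN : Pe N) : Cha (pe δ N) (ch δ N) where
  pos := pe_pos hδ hN
  one := Finset.prod_eq_one fun p _ => sy_one δ p
  mul := fun x y => by
    unfold ch
    rw [← Finset.prod_mul_distrib]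
    exact Finset.prod_congr rfl fun p _ => sy_mul δ p x y
  per := fun x y h => Finset.prod_congr rfl fun p hp => sy_per hδ
    ((Int.natCast_dvd_natCast.2 (Finset.dvd_prod_of_mem (md δ) hp)).trans h)
  zero := fun k hk => by
    rw [cop_pe hδ hN] at hk
    push Not at hk
    obtain ⟨p, hp, hpk⟩ := hk
    exact Finset.prod_eq_zero hp (sy_zero hδ (hN p hp).1 (by exact_mod_cast hpk))
  sq := fun k hk => by
    rw [cop_pe hδ hN] at hk
    unfold ch
    rw [← Finset.prod_mul_distrib]
    exact Finset.prod_eq_one fun p hp => sy_sq hδ (hN p hp).1 (by exact_mod_cast hk p hp)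
  flip := fun l hl hd => by
    have hlN : l ∈ N := by
      by_contra hcon
      have h1 : Nat.Coprime l (pe δ N) := by
        rw [cop_pe hδ hN]
        intro p hp hpl
        rcases (Nat.dvd_prime hl).1 hpl with h | h
        · exact (hN p hp).1.one_lt.ne' h
        · exact hcon (h ▸ hp)
      exact (Nat.Prime.coprime_iff_not_dvd hl).1 h1 hd
    obtain ⟨t, ht1, ht2, ht3⟩ := sy_flip hδ hl
    have hcop : Nat.Coprime (md δ l) (∏ q ∈ N.erase l, md δ q) := by
      refine Nat.Coprime.prod_right fun q hq => ?_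
      rw [mem_erase] at hq
      exact md_cop hδ hl (hN q hq.2).1 (Ne.symm hq.1)
    have hpe : pe δ N = md δ l * ∏ q ∈ N.erase l, md δ q := (Finset.mul_prod_erase N (md δ) hlN).symm
    obtain ⟨v, hv1, hv2⟩ := Nat.chineseRemainder hcop t 1
    have hv3 : ∀ q ∈ N.erase l, v ≡ 1 [MOD md δ q] := fun q hq =>
      hv2.of_dvd (Finset.dvd_prod_of_mem _ hq)
    refine ⟨v, ?_, ?_, ?_⟩
    · rw [hpe]
      refine Nat.Coprime.mul_right ?_ ?_
      · rw [Nat.coprime_iff_gcd_eq_one, hv1.gcd_eq]
        exact ht1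
      · rw [Nat.coprime_iff_gcd_eq_one, hv2.gcd_eq]
        simp
    · have h1 : pe δ N / l = (md δ l / l) * ∏ q ∈ N.erase l, md δ q := by
        rw [hpe, Nat.div_mul_right_comm (md_dvd hδ hl).1]
      rw [h1]
      refine (Nat.modEq_and_modEq_iff_modEq_mul ?_).1 ⟨?_, hv2⟩
      · exact Nat.Coprime.coprime_dvd_left (Nat.div_dvd_of_dvd (md_dvd hδ hl).1) hcop
      · exact (hv1.of_dvd (Nat.div_dvd_of_dvd (md_dvd hδ hl).1)).trans ht2
    · unfold ch
      rw [← Finset.mul_prod_erase N _ hlN]
      have e1 : sy δ l v = -1 := by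
        rw [← ht3]
        refine sy_per hδ ?_
        exact (Nat.modEq_iff_dvd.1 hv1.symm)
      have e2 : ∏ q ∈ N.erase l, sy δ q v = 1 := by
        refine Finset.prod_eq_one fun q hq => ?_
        rw [← sy_one δ q]
        refine sy_per hδ ?_
        have := (Nat.modEq_iff_dvd.1 (hv3 q hq).symm)
        exact_mod_cast this
      rw [e1, e2]
      norm_num

theorem ch_five (hδ : Dt δ) (hN : Pe N) : ch δ N 5 = jacobiSym (pe δ N) 5 := by
  unfold ch pe
  rw [Nat.cast_prod]
  have key : ∀ M ⊆ N, ∏ p ∈ M, sy δ p 5 = jacobiSym (∏ p ∈ M, (md δ p : ℤ)) 5 := by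
    intro M
    classical
    induction M using Finset.induction_on with
    | empty => intro _; simp
    | insert p M hp ih =>
      intro hM
      rw [prod_insert hp, prod_insert hp, ih ((subset_insert _ _).trans hM), jacobiSym.mul_left]
      congr 1
      have hpN := hN p (hM (mem_insert_self _ _))
      unfold sy md
      split_ifs with h2
      · unfold c2
        rcases hδ with rfl | rfl | rfl
        · rw [if_pos rfl, ZMod.χ₄_int_eq_if_mod_four]
          norm_num
        · rw [if_neg (by norm_num), if_pos rfl, ZMod.χ₈_int_eq_if_mod_eight]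
          norm_num
        · rw [if_neg (by norm_num), if_neg (by norm_num), ZMod.χ₈'_int_eq_if_mod_eight]
          norm_num
      · have ho : Odd p := hpN.1.odd_of_ne_two h2
        exact_mod_cast jacobiSym.quadratic_reciprocity_one_mod_four (a := 5) (b := p) (by norm_num) ho
  exact key N subset_rfl

theorem ch_three (hδ : Dt δ) (hN : Pe N) : ch δ N 3 = jacobiSym (pe δ N) 3 * sg δ N := by
  unfold sg ch pe
  rw [Nat.cast_prod]
  have key : ∀ M ⊆ N, ∏ p ∈ M, sy δ p 3 = jacobiSym (∏ p ∈ M, (md δ p : ℤ)) 3 * ∏ p ∈ M, sy δ p (-1) := by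
    intro M
    classical
    induction M using Finset.induction_on with
    | empty => intro _; simp
    | insert p M hp ih =>
      intro hM
      rw [prod_insert hp, prod_insert hp, prod_insert hp, ih ((subset_insert _ _).trans hM),
        jacobiSym.mul_left]
      have hpN := hN p (hM (mem_insert_self _ _))
      have e : sy δ p 3 = jacobiSym (md δ p) 3 * sy δ p (-1) := by
        unfold sy md
        split_ifs with h2
        · unfold c2
          rcases hδ with rfl | rfl | rfl
          · rw [if_pos rfl, if_pos rfl, ZMod.χ₄_int_eq_if_mod_four, ZMod.χ₄_int_eq_if_mod_four]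
            norm_num
          · rw [if_neg (by norm_num), if_pos rfl, if_neg (by norm_num), if_pos rfl,
              ZMod.χ₈_int_eq_if_mod_eight, ZMod.χ₈_int_eq_if_mod_eight]
            norm_num
          · rw [if_neg (by norm_num), if_neg (by norm_num), if_neg (by norm_num),
              if_neg (by norm_num), ZMod.χ₈'_int_eq_if_mod_eight, ZMod.χ₈'_int_eq_if_mod_eight]
            norm_num
        · have ho : Odd p := hpN.1.odd_of_ne_two h2
          have h4 : p % 4 = 1 ∨ p % 4 = 3 := by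
            have := Nat.odd_iff.1 ho
            omega
          rcases h4 with h4 | h4
          · have h1 := jacobiSym.quadratic_reciprocity_one_mod_four (a := p) (b := 3) h4 (by decide)
            rw [jacobiSym.at_neg_one ho, ZMod.χ₄_nat_one_mod_four h4, mul_one]
            exact_mod_cast h1.symm
          · have h1 := jacobiSym.quadratic_reciprocity_three_mod_four (a := 3) (b := p) (by norm_num) h4
            rw [jacobiSym.at_neg_one ho, ZMod.χ₄_nat_three_mod_four h4, mul_neg_one]
            exact_mod_cast h1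
      rw [e]
      ring
  exact key N subset_rfl

end Pool.Agent.XW.Card
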