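import Pool.Agent.XW.Defs
import Pool.Agent.XV.Cnt5

/-! `S_CNT5` of the project XW: the parity of the numbers of the vectors of `L 5` with given
characters.  For `2 ∉ N` this is the statement of the project XV; for `2 ∈ N` (then `δ = -8`) the
reflection in `(1, 3, 0)` has no fixed point. -/

set_option autoImplicit false

namespace Pool.Agent.XW.Cnt5H

open Finset
open Pool.Agent.Z700 (V3 pr)
open Pool.Agent.NH1 (lz rd)
open Pool.Agent.XV (bl vec LN ph Ph S_PHI S_REF Pq Kb)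
open Pool.Agent.XV.Cnt5H

lemma md_ne {δ : ℤ} {p : ℕ} (hp : p ≠ 2) : md δ p = p := by
  unfold md
  rw [if_neg hp]

lemma pe_ne {δ : ℤ} {N : Finset ℕ} (h : 2 ∉ N) : pe δ N = pr N := by
  unfold pe pr
  refine prod_congr rfl fun p hp => md_ne ?_
  rintro rfl
  exact h hp

lemma gm_ne {δ : ℤ} {q : ℕ} {N : Finset ℕ} {p : ℕ} (hp : p ≠ 2) (v : V3) :
    gm δ q N p v = ph q p (rd p v) := by
  unfold gm
  rw [if_neg hp]

lemma Kb_of_Jb {δ : ℤ} {p : ℕ} (hp : p.Prime) (h2 : p ≠ 2) (h : Jb δ {p}) : Kb p := by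
  unfold Jb sg ch pe at h
  rw [prod_singleton, prod_singleton, md_ne h2] at h
  obtain ⟨h1, h3, h5⟩ := h
  have hodd : Odd p := hp.odd_of_ne_two h2
  have h4 : p % 4 = 3 := by
    by_contra hc
    have h14 : p % 4 = 1 := by
      rcases hodd with ⟨k, hk⟩
      omega
    unfold sy at h1
    rw [if_neg h2, jacobiSym.at_neg_one hodd, ZMod.χ₄_nat_one_mod_four h14] at h1
    exact absurd h1 (by norm_num)
  unfold Kb
  omega

lemma delta_of_Jb {δ : ℤ} (hδ : Dt δ) (h : Jb δ {2}) : δ = -8 := by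
  unfold Jb sg ch pe at h
  rw [prod_singleton, prod_singleton] at h
  obtain ⟨h1, h3, h5⟩ := h
  rcases hδ with rfl | rfl | rfl
  · exfalso
    unfold md at h3
    rw [if_pos rfl] at h3
    exact absurd h3 (by decide)
  · exfalso
    unfold sy c2 at h1
    rw [if_pos rfl, if_neg (by norm_num), if_pos rfl] at h1
    exact absurd h1 (by decide)
  · rfl

lemma pr_odd {N : Finset ℕ} (h : ∀ p ∈ N, Odd p) : Odd (pr N) := by
  unfold pr
  exact prod_induction _ Odd (fun a b ha hb => ha.mul hb) odd_one h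

lemma rf_om {v : V3} {β : ℤ} (hv : LN 5 β v) (M : ℕ) : om 5 M (rf v) = om 5 M v := by
  obtain ⟨c, hc, hr⟩ := rf_spec hv
  have e : el 5 (rf v) = el 5 v - 10 * c := by
    rw [hr]
    unfold el
    rw [if_pos rfl, if_pos rfl]
    simp only [Matrix.cons_val_one, Matrix.cons_val_zero, Matrix.cons_val]
    linarith
  unfold om
  have h : ((5 : ℕ) : ℤ) ∣ el 5 (rf v) - (if 5 = 5 ∧ M % 5 = 2 then 2 else 1) ↔
      ((5 : ℕ) : ℤ) ∣ el 5 v - (if 5 = 5 ∧ M % 5 = 2 then 2 else 1) := by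
    rw [e]
    split_ifs <;> push_cast <;> omega
  by_cases h1 : ((5 : ℕ) : ℤ) ∣ el 5 v - (if 5 = 5 ∧ M % 5 = 2 then 2 else 1)
  · rw [if_pos h1, if_pos (h.mpr h1)]
  · rw [if_neg h1, if_neg fun h2 => h1 (h.mp h2)]

/-- there are no solutions -/
lemma no_sol {m : ℕ} (hm : Odd m) (x k : ℤ) : 3 * x ^ 2 + 20 * k ^ 2 ≠ ((8 * m : ℕ) : ℤ) := by
  intro h
  obtain ⟨j, hj⟩ := hm
  rw [hj] at h
  push_cast at h
  rcases Int.even_or_odd' x with ⟨a, ha | ha⟩
  · rw [ha] at h
    have h1 : 3 * a ^ 2 + 5 * k ^ 2 = 2 * (2 * j + 1) := by nlinarith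
    rcases Int.even_or_odd' a with ⟨b, hb | hb⟩ <;> rcases Int.even_or_odd' k with ⟨c, hc | hc⟩
    · rw [hb, hc] at h1
      ring_nf at h1
      omega
    · rw [hb, hc] at h1
      ring_nf at h1
      omega
    · rw [hb, hc] at h1
      ring_nf at h1
      omega
    · rw [hb, hc] at h1
      ring_nf at h1
      omega
  · rw [ha] at h
    ring_nf at h
    omega

end Pool.Agent.XW.Cnt5H

namespace Pool.Agent.XW

open Finset
open Pool.Agent.Z700 (V3 pr)
open Pool.Agent.NH1 (lz rd)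
open Pool.Agent.XV (bl vec LN ph Ph S_PHI S_REF Pq Kb)
open Pool.Agent.XV.Cnt5H Cnt5H

theorem t_CNT5 (h1 : S_PHI) (h2 : S_REF) : S_CNT5 := by
  classical
  intro δ hδ N hN hJ hc β hβ γ γ' hγ hγ'
  by_cases h2N : 2 ∈ N
  · -- no fixed point
    have hδ8 := delta_of_Jb hδ (hJ 2 h2N)
    have hPq : ∀ p ∈ N.erase 2, p.Prime ∧ p ≠ 2 ∧ p ≠ 3 ∧ p ≠ 5 := fun p hp =>
      ⟨(hN p (mem_of_mem_erase hp)).1, ne_of_mem_erase hp, (hN p (mem_of_mem_erase hp)).2⟩
    have hKb : ∀ p ∈ N.erase 2, Kb p := fun p hp =>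
      Kb_of_Jb (hPq p hp).1 (hPq p hp).2.1 (hJ p (mem_of_mem_erase hp))
    have hpe : pe δ N = 8 * pr (N.erase 2) := by
      unfold pe
      rw [← mul_prod_erase N _ h2N]
      have e1 : md δ 2 = 8 := by
        unfold md
        rw [if_pos rfl, hδ8]
        rfl
      rw [e1]
      congr 1
      exact prod_congr rfl fun p hp => md_ne (ne_of_mem_erase hp)
    have hodd : Odd (pr (N.erase 2)) :=
      pr_odd fun p hp => (hPq p hp).1.odd_of_ne_two (hPq p hp).2.1
    have key : ∀ g : ℕ → ℤ, AC δ 5 N β g % 2 = 0 := by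
      intro g
      unfold AC
      rw [card_mod_two _ rf]
      · have he : (((vec 5 (pe δ N : ℤ)).filter fun v => LN 5 β v ∧
            ∀ p ∈ N, gm δ 5 N p v = g p).filter fun v => rf v = v) = ∅ := by
          rw [filter_eq_empty_iff]
          intro v hv hr
          rw [mem_filter] at hv
          obtain ⟨hv, -, -⟩ := hv
          have h3 := congrFun hr 1
          simp only [rf, Matrix.cons_val_one, Matrix.cons_val_zero] at h3
          have h4 : v 2 = -2 * v 1 := by linarith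
          rw [mem_vec5, hpe, eq_pv h4, bl_pv] at hv
          exact no_sol hodd (v 0 - v 1) (v 1) (by rw [← hv]; ring)
        rw [he, card_empty]
      · intro v hv
        rw [mem_filter] at hv ⊢
        obtain ⟨hv, hl, hd⟩ := hv
        have hph : ∀ p ∈ N.erase 2, ph 5 p (rd p (rf v)) = ph 5 p (rd p v) := fun p hp =>
          rf_ph h1 h2 (hPq p hp).1 (hPq p hp).2 (hKb p hp) hl
        refine ⟨?_, rf_LN hl, fun p hp => ?_⟩
        · rw [mem_vec5] at hv ⊢
          rw [rf_bl hl, hv]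
        · rw [← hd p hp]
          by_cases hp2 : p = 2
          · unfold gm
            rw [if_pos hp2, if_pos hp2, rf_om hl]
            congr 1
            unfold Ph
            exact prod_congr rfl hph
          · rw [gm_ne hp2, gm_ne hp2]
            exact hph p (mem_erase.mpr ⟨hp2, hp⟩)
      · intro v hv
        exact rf_rf (mem_filter.mp hv).2.1
    rw [key γ, key γ']
  · -- the project XV
    have hne : ∀ p ∈ N, p ≠ 2 := fun p hp h => h2N (h ▸ hp)
    have hPq : Pq N := fun p hp => ⟨(hN p hp).1, hne p hp, (hN p hp).2⟩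
    have hKb : ∀ p ∈ N, Kb p := fun p hp => Kb_of_Jb (hN p hp).1 (hne p hp) (hJ p hp)
    have hAC : ∀ g : ℕ → ℤ, AC δ 5 N β g = Pool.Agent.XV.AC 5 N β g := by
      intro g
      unfold AC Pool.Agent.XV.AC
      rw [pe_ne h2N]
      congr 1
      refine filter_congr fun v _ => ?_
      refine and_congr Iff.rfl (forall₂_congr fun p hp => ?_)
      rw [gm_ne (hne p hp)]
    rw [hAC, hAC]
    rw [pe_ne h2N] at hβ
    exact Pool.Agent.XV.t_CNT5 h1 h2 N hPq hKb hc β hβ γ γ' hγ hγ'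

end Pool.Agent.XW
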