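import Pool.Agent.XW.Odd
import Pool.Agent.XV.Dia

/-!
# Project XW: the twisted sums are squares (port of `Pool.Agent.XV.Dia`)
-/

set_option autoImplicit false

namespace Pool.Agent.XW

open Finset
open Pool.Agent.Z700 (V3 pr un hh)
open Pool.Agent.NH1 (rd)
open Pool.Agent.NH2 (wp ev)
open Pool.Agent.XV (bl vec LN rl ph Ph Coc UV cpa cpl EM SyM S_PHI S_REF)
open Pool.Agent.XW.Od

namespace DIA

lemma wq_val (q : ℕ) (N : Finset ℕ) (M p T : ℕ) :
    wq q N M p T = 0 ∨ wq q N M p T = 1 ∨ wq q N M p T = -1 := by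
  unfold wq
  by_cases h2 : p = 2
  · rw [if_pos h2]
    rcases XV.DIA.prod_wp_pm (P := N.erase 2) (N := M) (T := T) with h | h | h <;> rw [h] <;>
      by_cases hq : q ∣ T
    · left; simp
    · left; simp
    · right; left; rw [if_pos hq]; norm_num
    · right; right; rw [if_neg hq]; norm_num
    · right; right; rw [if_pos hq]; norm_num
    · right; left; rw [if_neg hq]; norm_num
  · rw [if_neg h2]
    exact XV.DIA.wp_val p M T

lemma prod_wq_pm {q : ℕ} {N P : Finset ℕ} {M T : ℕ} : (∏ p ∈ P, wq q N M p T) = 0 ∨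
    (∏ p ∈ P, wq q N M p T) = 1 ∨ (∏ p ∈ P, wq q N M p T) = -1 := by
  classical
  induction P using Finset.induction_on with
  | empty => right; left; simp
  | insert p P hp ih =>
    rw [Finset.prod_insert hp]
    rcases wq_val q N M p T with h | h | h <;> rcases ih with h' | h' | h' <;> rw [h, h'] <;> norm_num

/-- the weights of complementary sets are opposite -/
lemma opp {q : ℕ} {N P Z : Finset ℕ} (hd : Disjoint P Z) {u v n T : ℕ}
    (hv : ∀ D, fc n D v ≠ 0)
    (hw : 0 < T → Odd ((n - T).factorization u) →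
      ∏ l ∈ (T * (n - T)).primeFactors.erase u, fc n (T * (n - T)) l ≠ 0 →
      ∏ p ∈ P ∪ Z, wq q N n p T = -1) :
    (∏ p ∈ P, wq q N n p T) * loc u v n T = -((∏ p ∈ Z, wq q N n p T) * loc u v n T) := by
  by_cases hl : loc u v n T = 0
  · rw [hl]; simp
  · have h5 : ∏ p ∈ P ∪ Z, wq q N n p T = -1 := by
      unfold loc at hl
      by_cases ho : Odd ((n - T).factorization u)
      · rw [if_pos ho] at hl
        have hT : 0 < T := by
          rcases Nat.eq_zero_or_pos T with h0 | h0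
          · exfalso
            apply hl
            rw [h0]
            simp
          · exact h0
        refine hw hT ho ?_
        have h6 := right_ne_zero_of_mul hl
        by_cases hvm : v ∈ (T * (n - T)).primeFactors.erase u
        · rw [← Finset.mul_prod_erase _ _ hvm]
          exact mul_ne_zero (hv _) h6
        · rw [Finset.erase_eq_of_notMem hvm] at h6
          exact h6
      · rw [if_neg ho] at hl
        exact absurd rfl hl
    rw [Finset.prod_union hd] at h5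
    have h6 : (∏ p ∈ P, wq q N n p T) = -(∏ p ∈ Z, wq q N n p T) := by
      rcases prod_wq_pm (q := q) (N := N) (P := P) (M := n) (T := T) with a | a | a <;>
        rcases prod_wq_pm (q := q) (N := N) (P := Z) (M := n) (T := T) with b | b | b <;>
        rw [a, b] at h5 ⊢ <;> omega
    rw [h6]
    ring

lemma WW_zero (δ : ℤ) (u v : ℕ) (X Z : Finset ℕ) : WW δ u v X Z 0 = 0 := by
  unfold WW
  simp

lemma loc_zero (u v N : ℕ) : loc u v N 0 = 0 := by
  unfold loc
  split_ifs <;> simp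

lemma fc_even_ne {n D l : ℕ} (h : ¬ l ∣ n) (hn : ¬ Odd n) (hj : jacobiSym (-(n : ℤ)) l = 1) :
    fc n D l ≠ 0 := by
  unfold fc
  rw [if_neg h, if_neg hn, hj]
  simp only [one_pow, sum_const, card_range, nsmul_eq_mul, mul_one]
  exact Nat.cast_ne_zero.2 (Nat.succ_ne_zero (D.factorization l))

variable {δ : ℤ}

lemma fc3 (hδ : Dt δ) {N : Finset ℕ} (hN : Pe N) (h : Jb δ N) (D : ℕ) : fc (pe δ N) D 3 ≠ 0 := by
  have h3 : ¬ 3 ∣ pe δ N := by unfold Jb at h; omega
  by_cases h2 : 2 ∈ N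
  · refine fc_even_ne h3 (fun ho => (pe_odd_iff hδ hN).1 ho h2) ?_
    have e : (-(pe δ N : ℤ)) % (3 : ℕ) = 1 := by unfold Jb at h; push_cast; omega
    rw [jacobiSym.mod_left, e]
    norm_num
  · rw [fc_odd (pe_odd' hN h2), pe_odd h2]
    rw [pe_odd h2] at h3
    exact XV.DIA.fc_ne h3 (XV.DIA.jac3 ((Jb_odd hN h2).1 h))

lemma fc5 (hδ : Dt δ) {N : Finset ℕ} (hN : Pe N) (h : Jd δ N) (D : ℕ) : fc (pe δ N) D 5 ≠ 0 := by
  have h5 : ¬ 5 ∣ pe δ N := by unfold Jd at h; omega
  by_cases h2 : 2 ∈ N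
  · refine fc_even_ne h5 (fun ho => (pe_odd_iff hδ hN).1 ho h2) ?_
    have e : (-(pe δ N : ℤ)) % (5 : ℕ) = 1 ∨ (-(pe δ N : ℤ)) % (5 : ℕ) = 4 := by
      unfold Jd at h; push_cast; omega
    rw [jacobiSym.mod_left]
    rcases e with e | e <;> rw [e] <;> norm_num
  · rw [fc_odd (pe_odd' hN h2), pe_odd h2]
    rw [pe_odd h2] at h5
    exact XV.DIA.fc_ne h5 (XV.DIA.jac5 ((Jd_odd hN h2).1 h))

end DIA

open DIA

theorem t_DIA (c1 : S_C1) (c2 : S_C2) (sq : S_SQ) (wpn : S_WPN) : S_DIA := by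
  classical
  intro δ hδ P Z hPZ hd hZ
  have hPe : Pe P := Pe.left hPZ
  have hZe : Pe Z := Pe.right hPZ
  have hprU : pe δ (P ∪ Z) = pe δ P * pe δ Z := pe_union hd
  have hsgU : sg δ (P ∪ Z) = sg δ P * sg δ Z := sg_union hd
  have hdiff1 : (P ∪ Z) \ P = Z := by
    rw [Finset.union_sdiff_left]
    exact Finset.sdiff_eq_self_of_disjoint hd.symm
  have hdiff2 : (P ∪ Z) \ Z = P := by
    rw [Finset.union_sdiff_right]
    exact Finset.sdiff_eq_self_of_disjoint hd
  have hwp := wpn δ hδ (P ∪ Z) hPZ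
  constructor
  · intro hK β hβ
    have hneg : sg δ (P ∪ Z) = -1 := hK.1
    obtain ⟨SR, hSR⟩ : ∃ SR : Finset ℕ → ℤ, ∀ R, SR R =
      ∑ T ∈ (range (pe δ (P ∪ Z))).filter (fun T => 3 ∣ T),
        (∏ p ∈ R, wq 5 (P ∪ Z) (pe δ (P ∪ Z)) p T) * loc 5 3 (pe δ (P ∪ Z)) T :=
      ⟨_, fun _ => rfl⟩
    have hWt : Wt δ P Z = - 2 * sg δ P * SR P := by
      have h1 := (c1 δ hδ P Z hPZ hd hZ hneg).1
      rw [h1, hSR, ← hprU]
      have e1 : ∑ T ∈ (range (pe δ (P ∪ Z))).filter (fun T => 3 ∣ T), WW δ 5 3 P Z T =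
          - sg δ P * ∑ T ∈ (range (pe δ (P ∪ Z))).filter (fun T => 3 ∣ T),
            (∏ p ∈ P, wq 5 (P ∪ Z) (pe δ (P ∪ Z)) p T) * loc 5 3 (pe δ (P ∪ Z)) T := by
        rw [Finset.mul_sum]
        refine Finset.sum_congr rfl fun T hT => ?_
        rw [Finset.mem_filter, Finset.mem_range] at hT
        rcases Nat.eq_zero_or_pos T with h0 | h0
        · rw [h0, WW_zero, loc_zero]; ring
        · rw [(c2 δ hδ P Z hPZ hd T h0 hT.1).1 hK]
          ring
      rw [e1]
      ring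
    have hopp : SR Z = - SR P := by
      rw [hSR, hSR, ← Finset.sum_neg_distrib]
      refine Finset.sum_congr rfl fun T hT => ?_
      rw [Finset.mem_filter, Finset.mem_range] at hT
      have h6 := opp (q := 5) (N := P ∪ Z) hd (u := 5) (v := 3) (n := pe δ (P ∪ Z)) (T := T)
        (fun D => fc3 hδ hPZ hK D)
        (fun hT0 ho hne => ((hwp T hT0 hT.1).1 hK hne).1 ho)
      rw [h6]
      ring
    have hsq := (sq δ hδ (P ∪ Z) hPZ).1 hK β hβ
    simp only [← hSR] at hsq
    refine ⟨fun hP => ?_, fun hP ha => ?_, fun hP hc => ?_⟩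
    · have h7 := hsq ∅ (Finset.empty_subset _) (Or.inl rfl)
      have hPZe : P ∪ Z = Z := by rw [hP, Finset.empty_union]
      have hpr1 : sg δ P = 1 := by rw [hP]; exact sg_empty
      rw [if_pos rfl, hPZe] at h7
      rw [hWt, hpr1, hP, h7]
      ring
    · have h7 := hsq P Finset.subset_union_left (Or.inr (Or.inl ha))
      rw [if_neg hP.ne_empty, add_zero] at h7
      rw [hWt, ha.1, h7]
      ring
    · have hdZ : Jd δ Z := (Jc_union hδ hPe hZe hd hc).2.2.2.1 hK
      have h7 := hsq Z Finset.subset_union_right (Or.inr (Or.inr hdZ))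
      rw [if_neg hZ.ne_empty, add_zero] at h7
      rw [hWt, hc.1, h7, hopp]
      ring
  · intro hK β hβ
    have hneg : sg δ (P ∪ Z) = -1 := hK.1
    obtain ⟨SR, hSR⟩ : ∃ SR : Finset ℕ → ℤ, ∀ R, SR R =
      ∑ T ∈ (range (pe δ (P ∪ Z))).filter (fun T => 5 ∣ T),
        (∏ p ∈ R, wq 3 (P ∪ Z) (pe δ (P ∪ Z)) p T) * loc 3 5 (pe δ (P ∪ Z)) T :=
      ⟨_, fun _ => rfl⟩
    have hWt : Wt δ P Z = 2 * SR P := by
      have h1 := (c1 δ hδ P Z hPZ hd hZ hneg).2
      rw [h1, hSR, ← hprU]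
      have e1 : ∑ T ∈ (range (pe δ (P ∪ Z))).filter (fun T => 5 ∣ T), WW δ 3 5 P Z T =
          - sg δ P * ∑ T ∈ (range (pe δ (P ∪ Z))).filter (fun T => 5 ∣ T),
            (∏ p ∈ P, wq 3 (P ∪ Z) (pe δ (P ∪ Z)) p T) * loc 3 5 (pe δ (P ∪ Z)) T := by
        rw [Finset.mul_sum]
        refine Finset.sum_congr rfl fun T hT => ?_
        rw [Finset.mem_filter, Finset.mem_range] at hT
        rcases Nat.eq_zero_or_pos T with h0 | h0
        · rw [h0, WW_zero, loc_zero]; ring
        · rw [(c2 δ hδ P Z hPZ hd T h0 hT.1).2 hK]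
          ring
      have e2 : sg δ P * sg δ Z = -1 := by rw [← hsgU, hneg]
      rw [e1]
      calc 2 * sg δ Z * (-sg δ P *
            ∑ T ∈ (range (pe δ (P ∪ Z))).filter (fun T => 5 ∣ T),
              (∏ p ∈ P, wq 3 (P ∪ Z) (pe δ (P ∪ Z)) p T) * loc 3 5 (pe δ (P ∪ Z)) T)
          = -2 * (sg δ P * sg δ Z) *
            ∑ T ∈ (range (pe δ (P ∪ Z))).filter (fun T => 5 ∣ T),
              (∏ p ∈ P, wq 3 (P ∪ Z) (pe δ (P ∪ Z)) p T) * loc 3 5 (pe δ (P ∪ Z)) T := by
            ring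
        _ = _ := by rw [e2]; ring
    have hopp : SR Z = - SR P := by
      rw [hSR, hSR, ← Finset.sum_neg_distrib]
      refine Finset.sum_congr rfl fun T hT => ?_
      rw [Finset.mem_filter, Finset.mem_range] at hT
      have h6 := opp (q := 3) (N := P ∪ Z) hd (u := 3) (v := 5) (n := pe δ (P ∪ Z)) (T := T)
        (fun D => fc5 hδ hPZ hK D)
        (fun hT0 ho hne => ((hwp T hT0 hT.1).2 hK hne).1 ho)
      rw [h6]
      ring
    have hsq := (sq δ hδ (P ∪ Z) hPZ).2 hK β hβ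
    simp only [← hSR] at hsq
    refine ⟨fun hP => ?_, fun hP hc => ?_, fun hP ha => ?_⟩
    · have hPZe : P ∪ Z = Z := by rw [hP, Finset.empty_union]
      have h7 := hsq Z Finset.subset_union_right (Or.inr (by rw [← hPZe]; exact hK))
      rw [if_pos hPZe.symm, hdiff2, hPZe] at h7
      rw [hWt]
      linarith
    · have h7 := hsq P Finset.subset_union_left (Or.inl hc)
      have hne : ¬ P = P ∪ Z := by
        intro h
        have h8 : Z ⊆ P := by rw [h]; exact Finset.subset_union_right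
        obtain ⟨z, hz⟩ := hZ
        exact Finset.disjoint_left.1 hd (h8 hz) hz
      rw [if_neg hne, hdiff1, hopp] at h7
      rw [hWt]
      linarith
    · have hdZ : Jd δ Z := (Ja_union hδ hPe hZe hd ha).2.2.2.1 hK
      have h7 := hsq Z Finset.subset_union_right (Or.inr hdZ)
      have hne : ¬ Z = P ∪ Z := by
        intro h
        have h8 : P ⊆ Z := by rw [h]; exact Finset.subset_union_left
        obtain ⟨z, hz⟩ := hP
        exact Finset.disjoint_left.1 hd hz (h8 hz)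
      rw [if_neg hne, hdiff2] at h7
      rw [hWt]
      linarith

end Pool.Agent.XW
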