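import Pool.Agent.XV.E
import Pool.Agent.XW.Odd
import Pool.Agent.XW.CardB

/-!
# Project XW, job XW-15: the final formulas
-/

set_option autoImplicit false

namespace Pool.Agent.XW

open Finset
open Pool.Agent.Z700 (V3 un)
open Pool.Agent.Y687 (saw ded psi)
open Pool.Agent.XV (EM SyM S_FE S_CM S_UODQ vec uod_of)

noncomputable section

namespace EF

open Pool.Agent.XW.Od (Pe.left Pe.right pe_pos pe_cop15 sg_pm)

variable {δ : ℤ}

theorem cop_un (hδ : Dt δ) {P : Finset ℕ} (hP : Pe P) {u : ℕ} (hu : u ∈ un (pe δ P)) :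
    IsCoprime (15 * (u : ℤ)) ((pe δ P : ℕ) : ℤ) := by
  unfold Pool.Agent.Z700.un at hu
  rw [mem_filter] at hu
  have h1 : Nat.Coprime (15 * u) (pe δ P) := Nat.Coprime.mul_left (pe_cop15 hδ hP).symm hu.2
  exact_mod_cast (Nat.isCoprime_iff_coprime.2 h1)

theorem char_psi {n : ℕ} {χ : ℤ → ℤ} (h : Card.Cha n χ) (d : ℤ) :
    ∑ u ∈ un n, (χ (u : ℤ) : ℚ) * psi (d * u) n = 12 * (χ d * Card.HH n χ ^ 2) := by
  rw [Card.sum_un h (fun u => psi (d * u) n), ← Card.char_ded h d, mul_sum]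
  refine sum_congr rfl fun u _ => ?_
  unfold Pool.Agent.Y687.psi
  have h1 : ((n : ℤ).sign : ℚ) = 1 := by
    rw [Int.sign_natCast_of_ne_zero h.pos.ne']
    norm_num
  rw [h1, Int.natAbs_natCast]
  ring

theorem char_saw {n : ℕ} {χ : ℤ → ℤ} (h : Card.Cha n χ) :
    ∑ u ∈ un n, (χ (u : ℤ) : ℚ) * saw n u = Card.HH n χ :=
  Card.sum_un h (fun u => saw n u)

/-- the sum of the Dedekind symbols -/
theorem char_EM {n : ℕ} {χ : ℤ → ℤ} (h : Card.Cha n χ) :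
    ∑ u ∈ un n, (χ (u : ℤ) : ℚ) * EM u n =
      (1 / 8) * (1 - 7 * χ 3 + 7 * χ 5 - χ 15) * Card.HH n χ ^ 2 := by
  have h1 := char_psi h 1
  have h3 := char_psi h 3
  have h5 := char_psi h 5
  have h15 := char_psi h 15
  have e : ∑ u ∈ un n, (χ (u : ℤ) : ℚ) * EM u n =
      (1 / 96) * (∑ u ∈ un n, (χ (u : ℤ) : ℚ) * psi (1 * u) n
        - 7 * ∑ u ∈ un n, (χ (u : ℤ) : ℚ) * psi (3 * u) n
        + 7 * ∑ u ∈ un n, (χ (u : ℤ) : ℚ) * psi (5 * u) n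
        - ∑ u ∈ un n, (χ (u : ℤ) : ℚ) * psi (15 * u) n) := by
    rw [mul_sum, mul_sum, ← sum_sub_distrib, ← sum_add_distrib, ← sum_sub_distrib, mul_sum]
    refine sum_congr rfl fun u _ => ?_
    unfold EM
    rw [one_mul]
    ring
  rw [e, h1, h3, h5, h15, h.one]
  push_cast
  ring

theorem Fx_empty (_hδ : Dt δ) (x M : ℤ) : Fx δ ∅ x M = Pool.Agent.XV.Fx ∅ x M :=
  Od.Fx_odd (fun p hp => absurd hp (by simp)) (by simp) x M

/-- the relation with the Dedekind symbol -/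
theorem rel0 (hδ : Dt δ) (fe : S_FE) {s : ℚ → ℤ} {a : ℕ → ℤ} (hs : SyM s a) {Z : Finset ℕ}
    (hZ : Pe Z) :
    4 * (s (1 / 4) : ℚ) * ((Wt δ ∅ Z : ℚ) -
      ∑ u ∈ un (pe δ Z), (ch δ Z (u : ℤ) : ℚ) * EM u (pe δ Z)) =
      -(SS s δ Z : ℚ) := by
  unfold SS Wt
  push_cast
  rw [← sum_sub_distrib, mul_sum, ← sum_neg_distrib]
  refine sum_congr rfl fun u hu => ?_
  have h := fe s a hs u (pe δ Z) (by exact_mod_cast pe_pos hδ hZ) (cop_un hδ hZ hu)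
  rw [← Fx_empty hδ] at h
  push_cast at h
  linear_combination (ch δ Z (u : ℤ) : ℚ) * h

/-- the relation with the symbol -/
theorem rel1 (hδ : Dt δ) (uod : S_UODQ) (parb : S_PARB) (coc : S_COC) (pari : S_PARI) (cm : S_CM)
    {s : ℚ → ℤ} {a : ℕ → ℤ} (hs : SyM s a) {P Z : Finset ℕ} (hP : Pe P) (hPn : P.Nonempty)
    (hP4 : sg δ P = 1) (hZ : Pe Z) :
    Wt δ P Z * s (1 / 4) = SS s δ Z * Fx δ P 1 4 := by
  obtain ⟨c1, c2, c3⟩ := cm s a hs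
  have hod : ∀ x M : ℤ, Fx δ P (-x) M = -Fx δ P x M := by
    intro x M
    rw [pari δ hδ P hP x M, hP4]
    ring
  unfold SS Wt
  rw [sum_mul, sum_mul]
  refine sum_congr rfl fun u hu => ?_
  have e3 : s (((5 : ℤ) : ℚ) / ((16 : ℤ) : ℚ)) = 0 := by
    rw [← c3]
    norm_num
  have h := uod_of uod (Fx δ P) (fun x M => s ((x : ℚ) / M)) (coc δ hδ P hP) c1 hod c2
    (parb δ hδ P hP hPn hP4) e3 u (pe δ Z) (by exact_mod_cast pe_pos hδ hZ) (cop_un hδ hZ hu)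
  have e1 : s (((1 : ℤ) : ℚ) / ((4 : ℤ) : ℚ)) = s (1 / 4) := by norm_num
  rw [e1] at h
  push_cast at h
  linear_combination ch δ Z (u : ℤ) * h

theorem ne_of_class {Z : Finset ℕ} (h : Jb δ Z ∨ Jd δ Z) : Z.Nonempty := by
  rw [nonempty_iff_ne_empty]
  rintro rfl
  have h1 : sg δ (∅ : Finset ℕ) = 1 := rfl
  unfold Jb Jd at h
  rw [h1] at h
  rcases h with h | h
  · exact absurd h.1 (by norm_num)
  · exact absurd h.1 (by norm_num)

theorem jm3 (n r : ℕ) (h : n % 3 = r % 3) : jacobiSym n 3 = jacobiSym r 3 :=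
  jacobiSym.mod_left' (by exact_mod_cast h)

theorem jm5 (n r : ℕ) (h : n % 5 = r % 5) : jacobiSym n 5 = jacobiSym r 5 :=
  jacobiSym.mod_left' (by exact_mod_cast h)

theorem jb (hδ : Dt δ) {Z : Finset ℕ} (hZ : Pe Z) (h : Jb δ Z) :
    ch δ Z 3 = 1 ∧ ch δ Z 5 = -1 ∧ ch δ Z 15 = -1 := by
  obtain ⟨h1, h2, h3⟩ := h
  have e3 : ch δ Z 3 = 1 := by
    rw [Card.ch_three hδ hZ, h1, jm3 (pe δ Z) 2 (by omega)]
    norm_num
  have e5 : ch δ Z 5 = -1 := by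
    rw [Card.ch_five hδ hZ]
    rcases h3 with h | h
    · rw [jm5 (pe δ Z) 2 (by omega)]
      norm_num
    · rw [jm5 (pe δ Z) 3 (by omega)]
      norm_num
  refine ⟨e3, e5, ?_⟩
  have : (15 : ℤ) = 3 * 5 := by norm_num
  rw [this, Od.ch_mul, e3, e5]
  norm_num

theorem jd (hδ : Dt δ) {Z : Finset ℕ} (hZ : Pe Z) (h : Jd δ Z) :
    ch δ Z 3 = -1 ∧ ch δ Z 5 = 1 ∧ ch δ Z 15 = -1 := by
  obtain ⟨h1, h2, h3⟩ := h
  have e3 : ch δ Z 3 = -1 := by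
    rw [Card.ch_three hδ hZ, h1, jm3 (pe δ Z) 1 (by omega)]
    norm_num
  have e5 : ch δ Z 5 = 1 := by
    rw [Card.ch_five hδ hZ]
    rcases h3 with h | h
    · rw [jm5 (pe δ Z) 1 (by omega)]
      norm_num
    · rw [jm5 (pe δ Z) 4 (by omega)]
      norm_num
  refine ⟨e3, e5, ?_⟩
  have : (15 : ℤ) = 3 * 5 := by norm_num
  rw [this, Od.ch_mul, e3, e5]
  norm_num

end EF

open EF

/-- E56: the values of the class `b` and of the class `d` -/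
theorem t_E56 (dia : S_DIA) (fe : S_FE) (cls : S_CLS) (_cm : S_CM) : S_E56 := by
  intro s a hs δ hδ Z hZ
  have hC := Card.cha hδ hZ
  have hr := rel0 hδ fe hs hZ
  rw [char_EM hC] at hr
  have hZ' : Pe (∅ ∪ Z) := by rwa [empty_union]
  refine ⟨fun hb β hβ => ?_, fun hd β hβ => ?_⟩
  · have hne := ne_of_class (Or.inl hb)
    have h1 := ((dia δ hδ ∅ Z hZ' (disjoint_empty_left _) hne).1 (by rwa [empty_union]) β
      (by rwa [empty_union])).1 rfl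
    rw [(jb hδ hZ hb).1, (jb hδ hZ hb).2.1, (jb hδ hZ hb).2.2] at hr
    have h2 := (cls δ hδ Z hZ).1 hb
    have h3 := char_saw hC
    rw [h3] at h2
    have h1' : 72 * (Wt δ ∅ Z : ℚ) = -((S5 δ Z ∅ β : ℚ) ^ 2 +
        3 * ((vec 5 (pe δ Z : ℤ)).card : ℚ) ^ 2) := by exact_mod_cast h1
    rw [h2] at h1'
    have key : ((S5 δ Z ∅ β : ℚ)) ^ 2 * (s (1 / 4) : ℚ) = 18 * (SS s δ Z : ℚ) := by
      push_cast at hr
      linear_combination (s (1 / 4) : ℚ) * h1' - 18 * hr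
    exact_mod_cast key
  · have hne := ne_of_class (Or.inr hd)
    have h1 := ((dia δ hδ ∅ Z hZ' (disjoint_empty_left _) hne).2 (by rwa [empty_union]) β
      (by rwa [empty_union])).1 rfl
    rw [(jd hδ hZ hd).1, (jd hδ hZ hd).2.1, (jd hδ hZ hd).2.2] at hr
    have h2 := (cls δ hδ Z hZ).2 hd
    have h3 := char_saw hC
    rw [h3] at h2
    have h1' : 72 * (Wt δ ∅ Z : ℚ) = ((vec 3 (pe δ Z : ℤ)).card : ℚ) ^ 2 -
        36 * (A δ 3 Z Z β : ℚ) ^ 2 := by exact_mod_cast h1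
    rw [h2] at h1'
    have key : 2 * ((A δ 3 Z Z β : ℚ)) ^ 2 * (s (1 / 4) : ℚ) = (SS s δ Z : ℚ) := by
      push_cast at hr
      linear_combination ((s (1 / 4) : ℚ) / 18) * h1' - hr
    exact_mod_cast key

/-- E14: the formulas for two sets -/
theorem t_E14 (dia : S_DIA) (e56 : S_E56) (uod : S_UODQ) (parb : S_PARB) (coc : S_COC)
    (pari : S_PARI) (cm : S_CM) (sy : ∃ (s : ℚ → ℤ) (a : ℕ → ℤ), SyM s a ∧ s (1 / 4) ≠ 0) :
    S_E14 := by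
  intro δ hδ P Z hPZ hd hPn hZn
  obtain ⟨s, a, hs, hs4⟩ := sy
  have hP := Od.Pe.left hPZ
  have hZ := Od.Pe.right hPZ
  have hdia := dia δ hδ P Z hPZ hd hZn
  obtain ⟨e5, e3⟩ := e56 s a hs δ hδ Z hZ
  have hJ := Od.Jmul hδ hP hZ hd
  have hJ' := Od.Jmul hδ hZ hP hd.symm
  refine ⟨fun ha hb β β' hβ hβ' => ?_, fun hc hb β β' hβ hβ' => ?_,
    fun ha hd' β β' hβ hβ' => ?_, fun hc hd' β β' hβ hβ' => ?_⟩
  · have h1 := (hdia.1 (hJ.2.1 ha hb) β hβ).2.1 hPn ha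
    have h2 := rel1 hδ uod parb coc pari cm hs hP hPn ha.1 hZ
    have h3 := e5 hb β' hβ'
    refine mul_right_cancel₀ hs4 ?_
    linear_combination s (1 / 4) * h1 - 72 * h2 + 4 * Fx δ P 1 4 * h3
  · have hbc : Jd δ (P ∪ Z) := by
      rw [union_comm]
      exact hJ'.2.2.2.2.2.1 hb hc
    have h1 := (hdia.2 hbc β hβ).2.1 hPn hc
    have h2 := rel1 hδ uod parb coc pari cm hs hP hPn hc.1 hZ
    have h3 := e5 hb β' hβ'
    refine mul_right_cancel₀ hs4 ?_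
    linear_combination (-9 * s (1 / 4)) * h1 + 18 * h2 - Fx δ P 1 4 * h3
  · have h1 := (hdia.2 (hJ.2.2.2.1 ha hd') β hβ).2.2 hPn ha
    have h2 := rel1 hδ uod parb coc pari cm hs hP hPn ha.1 hZ
    have h3 := e3 hd' β' hβ'
    refine mul_right_cancel₀ hs4 ?_
    linear_combination s (1 / 4) * h1 - 2 * h2 + 2 * Fx δ P 1 4 * h3
  · have h1 := (hdia.1 (hJ.2.2.2.2.2.2.2.2.1 hc hd') β hβ).2.2 hPn hc
    have h2 := rel1 hδ uod parb coc pari cm hs hP hPn hc.1 hZ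
    have h3 := e3 hd' β' hβ'
    refine mul_right_cancel₀ hs4 ?_
    linear_combination (-s (1 / 4)) * h1 + 72 * h2 - 72 * Fx δ P 1 4 * h3

end

end Pool.Agent.XW
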