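import Pool.Agent.XW.Odd
import Pool.Agent.XV.Main

/-!
# XW-09: the structure theorem

Port of the structure theorem of the project XV.  The only exceptional set is `{2}` with `δ = -4`
(the field `ℚ(i)`): its value `A 3` is a unit and not divisible by `2`.
-/

set_option autoImplicit false

namespace Pool.Agent.XW.Mn

open Finset
open Pool.Agent.Z700 (V3 pr un hh)
open Pool.Agent.NH1 (rd)
open Pool.Agent.XV (bl vec LN ph Ph S_PHI ph_spec)
open Pool.Agent.XV.Mn (dvd_of_sq sq_dvd prod_sign card_split sdiff_ne odd_cop gm_pm prod_gm GX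
  GX_sub GX_ne GX_ne' GX_n GX_one one_missing sdiff_erase' bl_rd)

variable {δ : ℤ}

/-! ### classes -/

theorem sub_l {N Q : Finset ℕ} (h : Pe N) (hQ : Q ⊆ N) : Pe Q := Od.Pe.mono h hQ

theorem sub_r {N Q : Finset ℕ} (h : Pe N) : Pe (N \ Q) := Od.Pe.mono h sdiff_subset

theorem q_ab (hδ : Dt δ) {N Q : Finset ℕ} (hN : Pe N) (hQ : Q ⊆ N) (hx : Ja δ Q) (h : Jb δ N) :
    Jb δ (N \ Q) := by
  have e : Q ∪ (N \ Q) = N := union_sdiff_of_subset hQ
  have := (Od.Ja_union hδ (sub_l hN hQ) (sub_r hN) disjoint_sdiff hx).2.1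
  rw [e] at this
  exact this.1 h

theorem q_db (hδ : Dt δ) {N Q : Finset ℕ} (hN : Pe N) (hQ : Q ⊆ N) (hx : Jd δ Q) (h : Jb δ N) :
    Jc δ (N \ Q) := by
  have e : Q ∪ (N \ Q) = N := union_sdiff_of_subset hQ
  have := (Od.Jd_union hδ (sub_l hN hQ) (sub_r hN) disjoint_sdiff hx).2.2.1
  rw [e] at this
  exact this.1 h

theorem q_cd (hδ : Dt δ) {N Q : Finset ℕ} (hN : Pe N) (hQ : Q ⊆ N) (hx : Jc δ Q) (h : Jd δ N) :
    Jb δ (N \ Q) := by
  have e : Q ∪ (N \ Q) = N := union_sdiff_of_subset hQ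
  have := (Od.Jc_union hδ (sub_l hN hQ) (sub_r hN) disjoint_sdiff hx).2.1
  rw [e] at this
  exact this.1 h

theorem q_dd (hδ : Dt δ) {N Q : Finset ℕ} (hN : Pe N) (hQ : Q ⊆ N) (hx : Jd δ Q) (h : Jd δ N) :
    Ja δ (N \ Q) := by
  have e : Q ∪ (N \ Q) = N := union_sdiff_of_subset hQ
  have := (Od.Jd_union hδ (sub_l hN hQ) (sub_r hN) disjoint_sdiff hx).1
  rw [e] at this
  exact this.1 h

/-- the class after adding a prime of the class `b` -/
theorem ins (hδ : Dt δ) {X : Finset ℕ} {z : ℕ} (hX : Pe X) (hz : Pe {z}) (h : z ∉ X)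
    (hb : Jb δ {z}) : (Jb δ (insert z X) ↔ Ja δ X) ∧ (Ja δ (insert z X) ↔ Jb δ X) ∧
      (Jd δ (insert z X) ↔ Jc δ X) ∧ (Jc δ (insert z X) ↔ Jd δ X) := by
  rw [insert_eq]
  exact Od.Jb_union hδ hz hX (disjoint_singleton_left.2 h) hb

theorem nab {X : Finset ℕ} (h : Ja δ X) (h' : Jb δ X) : False := (Od.cls_excl.1 h).1 h'
theorem nac {X : Finset ℕ} (h : Ja δ X) (h' : Jc δ X) : False := (Od.cls_excl.1 h).2.1 h'
theorem nad {X : Finset ℕ} (h : Ja δ X) (h' : Jd δ X) : False := (Od.cls_excl.1 h).2.2 h'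
theorem nbc {X : Finset ℕ} (h : Jb δ X) (h' : Jc δ X) : False := (Od.cls_excl.2.1 h).2.1 h'
theorem nbd {X : Finset ℕ} (h : Jb δ X) (h' : Jd δ X) : False := (Od.cls_excl.2.1 h).2.2 h'

theorem ex_b {N : Finset ℕ} (h : Jb δ N) : ∃ β : ℤ, (3 : ℤ) ∣ β ^ 2 + pe δ N := by
  obtain ⟨-, h, -⟩ := h
  exact ⟨1, by omega⟩

theorem ex_d {N : Finset ℕ} (h : Jd δ N) : ∃ β : ℤ, (5 : ℤ) ∣ β ^ 2 + pe δ N := by
  obtain ⟨-, -, h⟩ := h
  rcases h with h | h
  · exact ⟨2, by omega⟩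
  · exact ⟨1, by omega⟩

theorem ne_of_b {Q : Finset ℕ} (h : Jb δ Q) : Q.Nonempty := by
  rw [Finset.nonempty_iff_ne_empty]
  rintro rfl
  exact nab Od.Ja_empty h

theorem ne_of_c {Q : Finset ℕ} (h : Jc δ Q) : Q.Nonempty := by
  rw [Finset.nonempty_iff_ne_empty]
  rintro rfl
  exact nac Od.Ja_empty h

theorem ne_of_d {Q : Finset ℕ} (h : Jd δ Q) : Q.Nonempty := by
  rw [Finset.nonempty_iff_ne_empty]
  rintro rfl
  exact nad Od.Ja_empty h

/-! ### the characters are signs -/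

theorem sq_not_dvd (hδ : Dt δ) {N : Finset ℕ} (hN : Pe N) {p : ℕ} (hp : p ∈ N) (h2 : p ≠ 2) :
    ¬ ((p : ℤ) ^ 2 ∣ (pe δ N : ℤ)) := by
  intro h
  have h1 : p ^ 2 ∣ pe δ N := by exact_mod_cast h
  have h3 := ((hN p hp).1.pow_dvd_iff_le_factorization (Od.pe_ne hδ hN)).1 h1
  rw [Od.pe_fac_odd hδ hN hp h2] at h3
  omega

theorem ph_pm (hδ : Dt δ) (hph : S_PHI) {q : ℕ} (hq : q = 3 ∨ q = 5) {N : Finset ℕ} (hN : Pe N)
    {v : V3} (hv : v ∈ vec q (pe δ N : ℤ)) {p : ℕ} (hp : p ∈ N) (hp2 : p ≠ 2) :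
    ph q p (rd p v) = 1 ∨ ph q p (rd p v) = -1 := by
  obtain ⟨hpp, hp3, hp5⟩ := hN p hp
  have hpq : p ≠ q := by rcases hq with rfl | rfl <;> assumption
  have hs := ph_spec hph hq hpp hp2 hpq
  unfold vec at hv
  have hv1 := (mem_filter.1 hv).2
  have hdvd : p ∣ pe δ N := (Od.prime_dvd_pe hδ hN hpp).2 hp
  apply hs.pm
  · rw [bl_rd, hv1]
    have := (ZMod.natCast_eq_zero_iff (pe δ N) p).2 hdvd
    exact_mod_cast this
  · intro h0
    have h1 : ∀ i, (p : ℤ) ∣ v i := fun i => by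
      have := congrFun h0 i
      unfold rd at this
      exact (ZMod.intCast_zmod_eq_zero_iff_dvd (v i) p).1 this
    choose w hw using h1
    have hvw : v = fun i => (p : ℤ) * w i := funext hw
    apply sq_not_dvd hδ hN hp hp2
    rw [← hv1]
    refine ⟨bl q w w, ?_⟩
    rw [hvw]
    unfold bl
    split_ifs <;> ring

theorem mul_pm {x y : ℤ} (hx : x = 1 ∨ x = -1) (hy : y = 1 ∨ y = -1) : x * y = 1 ∨ x * y = -1 := by
  rcases hx with rfl | rfl <;> rcases hy with rfl | rfl <;> simp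

theorem g_pm (hδ : Dt δ) (hph : S_PHI) {q : ℕ} (hq : q = 3 ∨ q = 5) {N : Finset ℕ} (hN : Pe N)
    {v : V3} (hv : v ∈ vec q (pe δ N : ℤ)) {p : ℕ} (hp : p ∈ N) :
    gm δ q N p v = 1 ∨ gm δ q N p v = -1 := by
  unfold gm
  split_ifs with h2
  · refine mul_pm ?_ ?_
    · unfold om
      split_ifs <;> simp
    · unfold Ph
      refine prod_induction _ (fun x : ℤ => x = 1 ∨ x = -1) (fun _ _ => mul_pm) (Or.inl rfl)
        fun l hl => ?_
      obtain ⟨h3, h4⟩ := mem_erase.1 hl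
      exact ph_pm hδ hph hq hN hv h4 h3
  · exact ph_pm hδ hph hq hN hv hp h2

/-! ### Fourier transform -/

theorem four (hδ : Dt δ) (hph : S_PHI) {q : ℕ} (hq : q = 3 ∨ q = 5) {N : Finset ℕ} (hN : Pe N)
    (β : ℤ) {γ : ℕ → ℤ} (hγ : ∀ p ∈ N, γ p = 1 ∨ γ p = -1) :
    ∑ P ∈ N.powerset, (∏ p ∈ P, γ p) * A δ q N P β = 2 ^ N.card * AC δ q N β γ := by
  classical
  have h1 : ∀ P ∈ N.powerset, (∏ p ∈ P, γ p) * A δ q N P β =
      ∑ v ∈ (vec q (pe δ N : ℤ)).filter (LN q β), ∏ p ∈ P, (γ p * gm δ q N p v) := by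
    intro P _
    unfold A Pt
    rw [Finset.mul_sum]
    exact Finset.sum_congr rfl fun v _ => (Finset.prod_mul_distrib).symm
  rw [Finset.sum_congr rfl h1, Finset.sum_comm]
  have h2 : ∀ v ∈ (vec q (pe δ N : ℤ)).filter (LN q β),
      ∑ P ∈ N.powerset, ∏ p ∈ P, (γ p * gm δ q N p v) =
        if ∀ p ∈ N, gm δ q N p v = γ p then 2 ^ N.card else 0 := by
    intro v hv
    rw [← Finset.prod_one_add]
    exact prod_sign hγ fun p hp => g_pm hδ hph hq hN (mem_filter.1 hv).1 hp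
  rw [Finset.sum_congr rfl h2, ← Finset.sum_filter, Finset.sum_const, nsmul_eq_mul, mul_comm]
  have h3 : (((vec q (pe δ N : ℤ)).filter (LN q β)).filter
      fun v => ∀ p ∈ N, gm δ q N p v = γ p).card = AC δ q N β γ := by
    unfold AC
    refine congrArg Finset.card (Finset.ext fun v => ?_)
    simp only [mem_filter, and_assoc]
  rw [h3]

theorem pair (hδ : Dt δ) (hph : S_PHI) {q : ℕ} (hq : q = 3 ∨ q = 5) {N : Finset ℕ} (hN : Pe N)
    (β : ℤ) (i j : ℕ) : 2 * ∑ P ∈ GX N i j, A δ q N P β =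
      2 ^ N.card * ((AC δ q N β (fun _ => 1) : ℤ) - AC δ q N β (XV.Mn.gm i j)) := by
  have h1 := four hδ hph hq hN β (γ := fun _ => 1) (fun p _ => Or.inl rfl)
  have h2 := four hδ hph hq hN β (γ := XV.Mn.gm i j) (fun p _ => gm_pm i j p)
  rw [mul_sub, ← h1, ← h2, ← Finset.sum_sub_distrib]
  unfold GX
  rw [Finset.sum_filter, Finset.mul_sum]
  refine Finset.sum_congr rfl fun P _ => ?_
  rw [prod_gm, Finset.prod_const_one]
  by_cases hi : i ∈ P <;> by_cases hj : j ∈ P <;> simp [hi, hj] <;> ring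

theorem total (hδ : Dt δ) (hph : S_PHI) {q : ℕ} (hq : q = 3 ∨ q = 5) {N : Finset ℕ} (hN : Pe N)
    (β : ℤ) : ∑ P ∈ N.powerset, A δ q N P β = 2 ^ N.card * AC δ q N β (fun _ => 1) := by
  rw [← four hδ hph hq hN β (γ := fun _ => 1) (fun p _ => Or.inl rfl)]
  refine Finset.sum_congr rfl fun P _ => ?_
  rw [Finset.prod_const_one, one_mul]

theorem S5_ne {P : Finset ℕ} (h : P.Nonempty) (N : Finset ℕ) (β : ℤ) :
    S5 δ N P β = 4 * A δ 5 N P β := by
  unfold S5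
  rw [if_neg (Finset.nonempty_iff_ne_empty.1 h), sub_zero]

/-- R5J -/
theorem pair5 (hδ : Dt δ) (hph : S_PHI) {N : Finset ℕ} (hN : Pe N) (β : ℤ) (i j : ℕ) :
    ∑ P ∈ GX N i j, S5 δ N P β =
      2 ^ (N.card + 1) * ((AC δ 5 N β (fun _ => 1) : ℤ) - AC δ 5 N β (XV.Mn.gm i j)) := by
  have h1 := pair hδ hph (Or.inr rfl) hN β i j
  have h2 : ∑ P ∈ GX N i j, S5 δ N P β = 2 * (2 * ∑ P ∈ GX N i j, A δ 5 N P β) := by
    rw [Finset.mul_sum, Finset.mul_sum]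
    refine Finset.sum_congr rfl fun P hP => ?_
    rw [S5_ne (GX_ne hP)]
    ring
  rw [h2, h1]
  ring

/-- R5 -/
theorem total5 (hδ : Dt δ) (hph : S_PHI) {N : Finset ℕ} (hN : Pe N) (β : ℤ) :
    ∑ P ∈ N.powerset, S5 δ N P β =
      2 ^ (N.card + 2) * AC δ 5 N β (fun _ => 1) - (vec 5 (pe δ N : ℤ)).card := by
  have h1 := total hδ hph (Or.inr rfl) hN β
  unfold S5
  rw [Finset.sum_sub_distrib, ← Finset.mul_sum, h1, Finset.sum_ite_eq',
    if_pos (Finset.empty_mem_powerset N)]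
  ring

/-! ### divisibility of the terms -/

/-- class `a` in class `b` -/
theorem t_a (hδ : Dt δ) (hE : S_E14) {N Q : Finset ℕ} (hN : Pe N) (hQ : Q ⊆ N) (h0 : Q.Nonempty)
    (ha : Ja δ Q) (hb : Jb δ (N \ Q)) {k l : ℕ} (hF : (4 : ℤ) ^ k ∣ Fx δ Q 1 4)
    (hB : ∀ β : ℤ, (3 : ℤ) ∣ β ^ 2 + pe δ (N \ Q) → (2 : ℤ) ^ l ∣ S5 δ (N \ Q) ∅ β)
    {β : ℤ} (hβ : (3 : ℤ) ∣ β ^ 2 + pe δ N) : (2 : ℤ) ^ (k + l + 1) ∣ S5 δ N Q β := by
  obtain ⟨β', hβ'⟩ := ex_b hb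
  have hu : Q ∪ (N \ Q) = N := Finset.union_sdiff_of_subset hQ
  have h1 := (hE δ hδ Q (N \ Q) (by rw [hu]; exact hN) Finset.disjoint_sdiff h0 (ne_of_b hb)).1
    ha hb β β' (by rw [hu]; exact hβ) hβ'
  rw [hu] at h1
  apply dvd_of_sq
  rw [h1]
  obtain ⟨x, hx⟩ := hF
  obtain ⟨y, hy⟩ := sq_dvd (hB β' hβ')
  rw [hx, hy]
  exact ⟨-(x * y), by ring⟩

/-- class `d` in class `b` -/
theorem t_d5 (hδ : Dt δ) (hE : S_E14) {N Q : Finset ℕ} (hN : Pe N) (hQ : Q ⊆ N)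
    (hd : Jd δ Q) (hc : Jc δ (N \ Q)) {k l : ℕ} (hF : (4 : ℤ) ^ k ∣ Fx δ (N \ Q) 1 4)
    (hD : ∀ β : ℤ, (5 : ℤ) ∣ β ^ 2 + pe δ Q → (2 : ℤ) ^ l ∣ A δ 3 Q Q β)
    {β : ℤ} (hβ : (3 : ℤ) ∣ β ^ 2 + pe δ N) : (2 : ℤ) ^ (k + l + 2) ∣ S5 δ N Q β := by
  obtain ⟨β', hβ'⟩ := ex_d hd
  have hu : (N \ Q) ∪ Q = N := Finset.sdiff_union_of_subset hQ
  have h1 := (hE δ hδ (N \ Q) Q (by rw [hu]; exact hN) Finset.sdiff_disjoint (ne_of_c hc)
    (ne_of_d hd)).2.2.2 hc hd β β' (by rw [hu]; exact hβ) hβ'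
  rw [hu] at h1
  apply dvd_of_sq
  rw [h1]
  obtain ⟨x, hx⟩ := hF
  obtain ⟨y, hy⟩ := sq_dvd (hD β' hβ')
  rw [hx, hy]
  exact ⟨9 * (x * y), by ring⟩

/-- class `c` in class `d` -/
theorem t_c (hδ : Dt δ) (hE : S_E14) {N Q : Finset ℕ} (hN : Pe N) (hQ : Q ⊆ N)
    (hc : Jc δ Q) (hb : Jb δ (N \ Q)) {k l : ℕ} (hF : (4 : ℤ) ^ k ∣ Fx δ Q 1 4)
    (hB : ∀ β : ℤ, (3 : ℤ) ∣ β ^ 2 + pe δ (N \ Q) → (2 : ℤ) ^ l ∣ S5 δ (N \ Q) ∅ β)
    {β : ℤ} (hβ : (5 : ℤ) ∣ β ^ 2 + pe δ N) : (2 : ℤ) ^ (k + l) ∣ A δ 3 N Q β := by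
  obtain ⟨β', hβ'⟩ := ex_b hb
  have hu : Q ∪ (N \ Q) = N := Finset.union_sdiff_of_subset hQ
  have h1 := (hE δ hδ Q (N \ Q) (by rw [hu]; exact hN) Finset.disjoint_sdiff (ne_of_c hc)
    (ne_of_b hb)).2.1 hc hb β β' (by rw [hu]; exact hβ) hβ'
  rw [hu] at h1
  have h2 : (4 : ℤ) ^ (k + l) ∣ (3 * A δ 3 N Q β) ^ 2 := by
    rw [mul_pow, show (3 : ℤ) ^ 2 = 9 by norm_num, h1]
    obtain ⟨x, hx⟩ := hF
    obtain ⟨y, hy⟩ := sq_dvd (hB β' hβ')
    rw [hx, hy]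
    exact ⟨x * y, by ring⟩
  have h3 := dvd_of_sq h2
  have h4 : IsCoprime ((2 : ℤ) ^ (k + l)) 3 := IsCoprime.pow_left ⟨-1, 1, by norm_num⟩
  exact h4.dvd_of_dvd_mul_left h3

/-- class `d` in class `d` -/
theorem t_d3 (hδ : Dt δ) (hE : S_E14) {N Q : Finset ℕ} (hN : Pe N) (hQ : Q ⊆ N)
    (h0 : (N \ Q).Nonempty)
    (hd : Jd δ Q) (ha : Ja δ (N \ Q)) {k l : ℕ} (hF : (4 : ℤ) ^ k ∣ Fx δ (N \ Q) 1 4)
    (hD : ∀ β : ℤ, (5 : ℤ) ∣ β ^ 2 + pe δ Q → (2 : ℤ) ^ l ∣ A δ 3 Q Q β)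
    {β : ℤ} (hβ : (5 : ℤ) ∣ β ^ 2 + pe δ N) : (2 : ℤ) ^ (k + l + 1) ∣ A δ 3 N Q β := by
  obtain ⟨β', hβ'⟩ := ex_d hd
  have hu : (N \ Q) ∪ Q = N := Finset.sdiff_union_of_subset hQ
  have h1 := (hE δ hδ (N \ Q) Q (by rw [hu]; exact hN) Finset.sdiff_disjoint h0
    (ne_of_d hd)).2.2.1 ha hd β β' (by rw [hu]; exact hβ) hβ'
  rw [hu] at h1
  apply dvd_of_sq
  rw [h1]
  obtain ⟨x, hx⟩ := hF
  obtain ⟨y, hy⟩ := sq_dvd (hD β' hβ')
  rw [hx, hy]
  exact ⟨-(x * y), by ring⟩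

/-! ### the claims -/

/-- the claim for `Fx` -/
def CF (δ : ℤ) (n : ℕ) : Prop := ∀ P : Finset ℕ, Pe P → P.card = n → P.Nonempty →
  (Ja δ P ∨ Jc δ P) → (4 : ℤ) ^ n ∣ Fx δ P 1 4

/-- the claim for the class `b` -/
def CB (δ : ℤ) (n : ℕ) : Prop := ∀ N : Finset ℕ, Pe N → N.card = n → Jb δ N → ∀ β : ℤ,
  (3 : ℤ) ∣ β ^ 2 + pe δ N → (2 : ℤ) ^ (n + 1) ∣ S5 δ N ∅ β + (vec 5 (pe δ N : ℤ)).card

/-- the claim for the class `d` -/
def CD (δ : ℤ) (n : ℕ) : Prop := ∀ N : Finset ℕ, Pe N → N.card = n → Jd δ N → ¬ Xi δ N → ∀ β : ℤ,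
  (5 : ℤ) ∣ β ^ 2 + pe δ N → (2 : ℤ) ^ n ∣ A δ 3 N N β

theorem CB.dvd (hδ : Dt δ) (v5 : S_V5) {n : ℕ} (h : CB δ n) {N : Finset ℕ} (hN : Pe N)
    (hn : N.card = n) (hb : Jb δ N) (β : ℤ) (hβ : (3 : ℤ) ∣ β ^ 2 + pe δ N) :
    (2 : ℤ) ^ n ∣ S5 δ N ∅ β := by
  obtain ⟨k, hk⟩ := h N hN hn hb β hβ
  obtain ⟨T, hT, -⟩ := v5 δ hδ N hN hb
  rw [hn] at hT
  rw [hT] at hk
  refine ⟨2 * k - T, ?_⟩
  rw [mul_sub, ← mul_assoc, ← pow_succ, ← hk]
  ring

/-- the weak form, which holds for `ℚ(i)` too -/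
theorem CD.weak {n : ℕ} (h : CD δ n) {N : Finset ℕ} (hN : Pe N) (hn : N.card = n) (hd : Jd δ N)
    (β : ℤ) (hβ : (5 : ℤ) ∣ β ^ 2 + pe δ N) : (2 : ℤ) ^ (n - 1) ∣ A δ 3 N N β := by
  by_cases hx : Xi δ N
  · have h1 : n = 1 := by rw [← hn, hx.2, card_singleton]
    rw [h1]
    norm_num
  · exact (pow_dvd_pow _ (Nat.sub_le n 1)).trans (h N hN hn hd hx β hβ)

/-- good sets in class `b`: all terms of the right size are divisible -/
theorem good5 (hδ : Dt δ) (hE : S_E14) (h5 : S_VAN5) {N Q : Finset ℕ} (hN : Pe N)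
    (hb : Jb δ N) {β : ℤ} (hβ : (3 : ℤ) ∣ β ^ 2 + pe δ N) (hQ : Q ⊆ N) (h0 : Q.Nonempty)
    (hFa : Ja δ Q → (4 : ℤ) ^ Q.card ∣ Fx δ Q 1 4)
    (hFc : Jc δ (N \ Q) → (4 : ℤ) ^ (N \ Q).card ∣ Fx δ (N \ Q) 1 4)
    (hB : Jb δ (N \ Q) → ∀ β : ℤ, (3 : ℤ) ∣ β ^ 2 + pe δ (N \ Q) →
      (2 : ℤ) ^ (N \ Q).card ∣ S5 δ (N \ Q) ∅ β)
    (hD : Jd δ Q → ∀ β : ℤ, (5 : ℤ) ∣ β ^ 2 + pe δ Q → (2 : ℤ) ^ (Q.card - 1) ∣ A δ 3 Q Q β) :
    (2 : ℤ) ^ (N.card + 1) ∣ S5 δ N Q β := by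
  have hc := card_split hQ
  have hp := card_pos.2 h0
  by_cases ha : Ja δ Q
  · have hb' : Jb δ (N \ Q) := q_ab hδ hN hQ ha hb
    have := t_a hδ hE hN hQ h0 ha hb' (hFa ha) (hB hb') hβ
    rwa [hc] at this
  · by_cases hd : Jd δ Q
    · have hc' : Jc δ (N \ Q) := q_db hδ hN hQ hd hb
      have := t_d5 hδ hE hN hQ hd hc' (hFc hc') (hD hd) hβ
      rwa [show (N \ Q).card + (Q.card - 1) + 2 = N.card + 1 by omega] at this
    · rw [S5_ne h0, h5 δ hδ N hN hb β hβ Q hQ h0 ha hd, mul_zero]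
      exact dvd_zero _

/-- good sets in class `d` -/
theorem good3 (hδ : Dt δ) (hE : S_E14) (h3 : S_VAN3) {N Q : Finset ℕ} (hN : Pe N)
    (hd : Jd δ N) {β : ℤ} (hβ : (5 : ℤ) ∣ β ^ 2 + pe δ N) (hQ : Q ⊆ N) (h0 : Q.Nonempty)
    (h1 : (N \ Q).Nonempty)
    (hFc : Jc δ Q → (4 : ℤ) ^ Q.card ∣ Fx δ Q 1 4)
    (hB : Jb δ (N \ Q) → ∀ β : ℤ, (3 : ℤ) ∣ β ^ 2 + pe δ (N \ Q) →
      (2 : ℤ) ^ (N \ Q).card ∣ S5 δ (N \ Q) ∅ β)
    (hAD : Jd δ Q → Ja δ (N \ Q) → ∃ k l : ℕ, N.card ≤ k + l + 1 ∧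
      (4 : ℤ) ^ k ∣ Fx δ (N \ Q) 1 4 ∧
      ∀ β : ℤ, (5 : ℤ) ∣ β ^ 2 + pe δ Q → (2 : ℤ) ^ l ∣ A δ 3 Q Q β) :
    (2 : ℤ) ^ N.card ∣ A δ 3 N Q β := by
  have hc := card_split hQ
  by_cases hcc : Jc δ Q
  · have hb' : Jb δ (N \ Q) := q_cd hδ hN hQ hcc hd
    have := t_c hδ hE hN hQ hcc hb' (hFc hcc) (hB hb') hβ
    rwa [hc] at this
  · by_cases hdd : Jd δ Q
    · have ha' : Ja δ (N \ Q) := q_dd hδ hN hQ hdd hd
      obtain ⟨k, l, hkl, hF, hD⟩ := hAD hdd ha'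
      exact (pow_dvd_pow _ hkl).trans (t_d3 hδ hE hN hQ h1 hdd ha' hF hD hβ)
    · rw [h3 δ hδ N hN hd β hβ Q hQ h0 hcc hdd]
      exact dvd_zero _

/-- step for the class `b` -/
theorem step_B (hδ : Dt δ) (hE : S_E14) (h5 : S_VAN5) (v5 : S_V5) (hph : S_PHI) {n : ℕ}
    (ih : ∀ k < n, CF δ k ∧ CB δ k ∧ CD δ k) : CB δ n := by
  intro N hN hn hb β hβ
  have h1 := total5 hδ hph hN β
  rw [← Finset.add_sum_erase _ _ (Finset.empty_mem_powerset N)] at h1
  have h2 : (2 : ℤ) ^ (n + 1) ∣ ∑ P ∈ N.powerset.erase ∅, S5 δ N P β := by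
    refine Finset.dvd_sum fun Q hQ => ?_
    rw [mem_erase, mem_powerset] at hQ
    have h0 : Q.Nonempty := Finset.nonempty_iff_ne_empty.2 hQ.1
    have hc := card_split hQ.2
    have hq0 := Finset.card_pos.2 h0
    by_cases hQN : Q = N
    · subst hQN
      have ha : ¬ Ja δ Q := fun h => nab h hb
      have hd : ¬ Jd δ Q := fun h => nbd hb h
      rw [S5_ne h0, h5 δ hδ Q hN hb β hβ Q hQ.2 h0 ha hd, mul_zero]
      exact dvd_zero _
    · have h1' := sdiff_ne hQ.2 hQN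
      have hq1 := Finset.card_pos.2 h1'
      rw [← hn]
      exact good5 hδ hE h5 hN hb hβ hQ.2 h0
        (fun ha => (ih Q.card (by omega)).1 Q (sub_l hN hQ.2) rfl h0 (Or.inl ha))
        (fun hc' => (ih (N \ Q).card (by omega)).1 (N \ Q) (sub_r hN) rfl h1' (Or.inr hc'))
        (fun hb' => (ih (N \ Q).card (by omega)).2.1.dvd hδ v5 (sub_r hN) rfl hb')
        (fun hd => (ih Q.card (by omega)).2.2.weak (sub_l hN hQ.2) rfl hd)
  obtain ⟨k, hk⟩ := h2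
  rw [hk, hn] at h1
  refine ⟨2 * AC δ 5 N β (fun _ => 1) - k, ?_⟩
  have : S5 δ N ∅ β + (vec 5 (pe δ N : ℤ)).card =
      2 ^ (n + 2) * AC δ 5 N β (fun _ => 1) - 2 ^ (n + 1) * k := by linarith
  rw [this]
  ring

/-- step for the class `d` -/
theorem step_D (hδ : Dt δ) (hE : S_E14) (h3 : S_VAN3) (v5 : S_V5) (v3 : S_V3) (q3 : S_EQ3)
    (hph : S_PHI) {n : ℕ} (ih : ∀ k < n, CF δ k ∧ CB δ k ∧ CD δ k) : CD δ n := by
  intro N hN hn hd hx β hβ
  have h1 := total hδ hph (Or.inl rfl) hN β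
  have hN0 : N.Nonempty := ne_of_d hd
  have hmem : N ∈ N.powerset.erase ∅ := by
    rw [mem_erase, mem_powerset]
    exact ⟨Finset.nonempty_iff_ne_empty.1 hN0, Finset.Subset.refl _⟩
  rw [← Finset.add_sum_erase _ _ (Finset.empty_mem_powerset N),
    ← Finset.add_sum_erase _ _ hmem] at h1
  have h2 : (2 : ℤ) ^ n ∣ ∑ P ∈ (N.powerset.erase ∅).erase N, A δ 3 N P β := by
    refine Finset.dvd_sum fun Q hQ => ?_
    rw [mem_erase, mem_erase, mem_powerset] at hQ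
    have h0 : Q.Nonempty := Finset.nonempty_iff_ne_empty.2 hQ.2.1
    have hc := card_split hQ.2.2
    have hq0 := Finset.card_pos.2 h0
    have h1' := sdiff_ne hQ.2.2 hQ.1
    have hq1 := Finset.card_pos.2 h1'
    rw [← hn]
    exact good3 hδ hE h3 hN hd hβ hQ.2.2 h0 h1'
      (fun hc' => (ih Q.card (by omega)).1 Q (sub_l hN hQ.2.2) rfl h0 (Or.inr hc'))
      (fun hb' => (ih (N \ Q).card (by omega)).2.1.dvd hδ v5 (sub_r hN) rfl hb')
      (fun hd' ha' => ⟨(N \ Q).card, Q.card - 1, by omega,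
        (ih (N \ Q).card (by omega)).1 (N \ Q) (sub_r hN) rfl h1' (Or.inl ha'),
        (ih Q.card (by omega)).2.2.weak (sub_l hN hQ.2.2) rfl hd'⟩)
  obtain ⟨k, hk⟩ := h2
  obtain ⟨T, hT⟩ := v3 δ hδ N hN hd hx
  have h6 := q3 δ hδ N hN hd β hβ
  have h7 : A δ 3 N ∅ β = 2 ^ n * T := by
    rw [hn] at hT
    have : 6 * A δ 3 N ∅ β = 6 * (2 ^ n * T) := by rw [← h6, hT]; ring
    linarith
  rw [hk, hn, h7] at h1
  refine ⟨AC δ 3 N β (fun _ => 1) - T - k, ?_⟩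
  linear_combination h1

/-- the value at a prime of the class `b` -/
theorem z_val (hδ : Dt δ) (v5 : S_V5) {n : ℕ} (hn : n = 1) (h : CB δ n) {z : ℕ} (hz : Pe {z})
    (hz2 : z ≠ 2) (hb : Jb δ {z})
    (β : ℤ) (hβ : (3 : ℤ) ∣ β ^ 2 + pe δ {z}) : ∃ u : ℤ, Odd u ∧ S5 δ {z} ∅ β = 2 * u := by
  subst hn
  obtain ⟨k, hk⟩ := h {z} hz (Finset.card_singleton z) hb β hβ
  obtain ⟨T, hT, hodd⟩ := v5 δ hδ {z} hz hb
  have hKr : Kr δ {z} := by
    intro D hD _
    have he : ({z} : Finset ℕ).erase 2 = {z} := by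
      rw [erase_eq_of_notMem]
      rw [mem_singleton]
      exact fun e => hz2 e.symm
    rw [he, ite_self]
    exact Finset.subset_singleton_iff.1 hD
  have hTo := hodd.2 hKr
  rw [Finset.card_singleton, pow_one] at hT
  rw [hT] at hk
  norm_num at hk
  refine ⟨2 * k - T, ?_, by linarith⟩
  obtain ⟨m, hm⟩ := hTo
  exact ⟨k - m - 1, by rw [hm]; ring⟩

/-- Dirichlet -/
theorem ex_z (δ : ℤ) (P : Finset ℕ) : ∃ z, z ∉ P ∧ Pe {z} ∧ z ≠ 2 ∧ Jb δ {z} := by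
  obtain ⟨z, h1, h2, h3⟩ := XV.Mn.ex_z P
  have hz := h2 z (mem_singleton_self z)
  have h4 : 2 ∉ ({z} : Finset ℕ) := by
    rw [mem_singleton]
    exact fun e => hz.2.1 e.symm
  have h5 := Od.Pe_of_Pq h2
  refine ⟨z, h1, h5, hz.2.1, (Od.Jb_odd h5 h4).2 ?_⟩
  rw [XV.Mn.pr_single]
  exact h3

/-- the end for the class `a` -/
theorem fin_a (hδ : Dt δ) (hE : S_E14) {P : Finset ℕ} {z : ℕ} (hP : P.Nonempty) (hz : z ∉ P)
    (hN : Pe (insert z P)) (ha : Ja δ P) (hb : Jb δ {z}) {u β β' : ℤ} (hu : Odd u)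
    (hβ : (3 : ℤ) ∣ β ^ 2 + pe δ (insert z P)) (hβ' : (3 : ℤ) ∣ β' ^ 2 + pe δ {z})
    (h2 : S5 δ {z} ∅ β' = 2 * u) {m : ℕ}
    (hS : (2 : ℤ) ^ (m + 2) ∣ S5 δ (insert z P) P β) : (4 : ℤ) ^ m ∣ Fx δ P 1 4 := by
  have hu' : P ∪ {z} = insert z P := by
    rw [Finset.union_comm]
    rfl
  have h1 := (hE δ hδ P {z} (by rw [hu']; exact hN) (Finset.disjoint_singleton_right.2 hz) hP
    (Finset.singleton_nonempty z)).1 ha hb β β'
    (by rw [hu']; exact hβ) hβ'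
  rw [hu', h2] at h1
  obtain ⟨y, hy⟩ := sq_dvd hS
  rw [hy] at h1
  have h3 : Fx δ P 1 4 * u ^ 2 = 4 ^ m * (-y) := by
    rw [pow_add] at h1
    norm_num at h1
    linarith
  exact (odd_cop hu).dvd_of_dvd_mul_right ⟨-y, h3⟩

/-- the end for the class `c` -/
theorem fin_c (hδ : Dt δ) (hE : S_E14) {P : Finset ℕ} {z : ℕ} (hP : P.Nonempty) (hz : z ∉ P)
    (hN : Pe (insert z P)) (hc : Jc δ P) (hb : Jb δ {z}) {u β β' : ℤ} (hu : Odd u)
    (hβ : (5 : ℤ) ∣ β ^ 2 + pe δ (insert z P)) (hβ' : (3 : ℤ) ∣ β' ^ 2 + pe δ {z})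
    (h2 : S5 δ {z} ∅ β' = 2 * u) {m : ℕ}
    (hS : (2 : ℤ) ^ (m + 1) ∣ A δ 3 (insert z P) P β) : (4 : ℤ) ^ m ∣ Fx δ P 1 4 := by
  have hu' : P ∪ {z} = insert z P := by
    rw [Finset.union_comm]
    rfl
  have h1 := (hE δ hδ P {z} (by rw [hu']; exact hN) (Finset.disjoint_singleton_right.2 hz) hP
    (Finset.singleton_nonempty z)).2.1 hc hb β β'
    (by rw [hu']; exact hβ) hβ'
  rw [hu', h2] at h1
  obtain ⟨y, hy⟩ := sq_dvd hS
  rw [hy] at h1
  have h3 : Fx δ P 1 4 * u ^ 2 = 4 ^ m * (9 * y) := by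
    rw [pow_add] at h1
    norm_num at h1
    linarith
  exact (odd_cop hu).dvd_of_dvd_mul_right ⟨9 * y, h3⟩

/-! ### the induction step -/

/-- the relation for two elements, weak form -/
theorem weak_pair (hδ : Dt δ) (hE : S_E14) (h5 : S_VAN5) (v5 : S_V5) (hph : S_PHI) {n : ℕ}
    (hn2 : 2 ≤ n) (ih : ∀ k < n, CF δ k ∧ CB δ k ∧ CD δ k) {N : Finset ℕ} (hN : Pe N)
    (hc : N.card = n + 1) (hb : Jb δ N) {β : ℤ} (hβ : (3 : ℤ) ∣ β ^ 2 + pe δ N) {i j : ℕ}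
    (hi : i ∈ N) (hj : j ∈ N) (hij : i ≠ j) :
    (2 : ℤ) ^ (n + 2) ∣ (S5 δ N (N.erase i) β + S5 δ N {i} β) +
      (S5 δ N (N.erase j) β + S5 δ N {j} β) := by
  have h1 := pair5 hδ hph hN β i j
  set T : Finset (Finset ℕ) := {N.erase i, N.erase j, {i}, {j}} with hT
  have ci : (N.erase i).card = n := by rw [card_erase_of_mem hi]; omega
  have cj : (N.erase j).card = n := by rw [card_erase_of_mem hj]; omega
  have hTsub : T ⊆ GX N i j := by
    intro Q hQ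
    rw [hT] at hQ
    simp only [mem_insert, mem_singleton] at hQ
    unfold GX
    rw [mem_filter, mem_powerset]
    rcases hQ with rfl | rfl | rfl | rfl
    · refine ⟨erase_subset _ _, ?_⟩
      simp only [mem_erase]
      tauto
    · refine ⟨erase_subset _ _, ?_⟩
      simp only [mem_erase]
      tauto
    · refine ⟨Finset.singleton_subset_iff.2 hi, ?_⟩
      simp only [mem_singleton]
      tauto
    · refine ⟨Finset.singleton_subset_iff.2 hj, ?_⟩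
      simp only [mem_singleton]
      tauto
  have hrest : (2 : ℤ) ^ (n + 2) ∣ ∑ Q ∈ GX N i j \ T, S5 δ N Q β := by
    refine Finset.dvd_sum fun Q hQ => ?_
    rw [mem_sdiff] at hQ
    have hQs := GX_sub hQ.1
    have h0 := GX_ne hQ.1
    have h0' := sdiff_ne hQs (GX_ne' hi hj hQ.1)
    have hcs := card_split hQs
    have hq0 := Finset.card_pos.2 h0
    have hq1 := Finset.card_pos.2 h0'
    have hne1 : Q.card ≠ n := by
      intro h
      apply hQ.2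
      rw [hT]
      rcases GX_n hi hj hc hQ.1 h with h | h <;> rw [h] <;> simp
    have hne2 : Q.card ≠ 1 := by
      intro h
      apply hQ.2
      rw [hT]
      rcases GX_one hQ.1 h with h | h <;> rw [h] <;> simp
    have hg := good5 hδ hE h5 hN hb hβ hQs h0
      (fun ha => (ih Q.card (by omega)).1 Q (sub_l hN hQs) rfl h0 (Or.inl ha))
      (fun hc' => (ih (N \ Q).card (by omega)).1 (N \ Q) (sub_r hN) rfl h0' (Or.inr hc'))
      (fun hb' => (ih (N \ Q).card (by omega)).2.1.dvd hδ v5 (sub_r hN) rfl hb')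
      (fun hd => (ih Q.card (by omega)).2.2.weak (sub_l hN hQs) rfl hd)
    rwa [hc] at hg
  have hsum := Finset.sum_sdiff (f := fun Q => S5 δ N Q β) hTsub
  have hTs : ∑ Q ∈ T, S5 δ N Q β = S5 δ N (N.erase i) β + (S5 δ N (N.erase j) β +
      (S5 δ N {i} β + S5 δ N {j} β)) := by
    have d1 : N.erase i ≠ N.erase j := by
      intro e
      have : i ∈ N.erase j := mem_erase.2 ⟨hij, hi⟩
      rw [← e] at this
      exact (mem_erase.1 this).1 rfl
    have d2 : ∀ k : ℕ, N.erase i ≠ {k} := fun k e => by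
      have := congrArg Finset.card e
      rw [ci, card_singleton] at this
      omega
    have d3 : ∀ k : ℕ, N.erase j ≠ {k} := fun k e => by
      have := congrArg Finset.card e
      rw [cj, card_singleton] at this
      omega
    have d4 : ({i} : Finset ℕ) ≠ {j} := fun e => hij (Finset.singleton_injective e)
    rw [hT, Finset.sum_insert, Finset.sum_insert, Finset.sum_insert, Finset.sum_singleton]
    · simp only [mem_singleton]; exact d4
    · simp only [mem_insert, mem_singleton, not_or]; exact ⟨d3 i, d3 j⟩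
    · simp only [mem_insert, mem_singleton, not_or]; exact ⟨d1, d2 i, d2 j⟩
  have h2 : (2 : ℤ) ^ (n + 2) ∣ ∑ Q ∈ GX N i j, S5 δ N Q β := by
    rw [h1, hc]
    exact Dvd.intro _ rfl
  rw [← hsum, dvd_add_right hrest, hTs] at h2
  have e : (S5 δ N (N.erase i) β + S5 δ N {i} β) +
      (S5 δ N (N.erase j) β + S5 δ N {j} β) = S5 δ N (N.erase i) β +
      (S5 δ N (N.erase j) β + (S5 δ N {i} β + S5 δ N {j} β)) := by ring
  rw [e]
  exact h2

theorem Pe_insert {P : Finset ℕ} {z : ℕ} (hP : Pe P) (hz : Pe {z}) : Pe (insert z P) := by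
  intro p hp
  rcases mem_insert.1 hp with h | h
  · exact hz p (mem_singleton.2 h)
  · exact hP p h

/-- the weak bound for the class `a` -/
theorem weak_a (hδ : Dt δ) (hE : S_E14) (h5 : S_VAN5) (v5 : S_V5) (hph : S_PHI) {n : ℕ}
    (ih : ∀ k < n, CF δ k ∧ CB δ k ∧ CD δ k) {P : Finset ℕ} (hP : Pe P)
    (hn : P.card = n) (h0 : P.Nonempty) (ha : Ja δ P) : (4 : ℤ) ^ (n - 1) ∣ Fx δ P 1 4 := by
  have hn0 : 0 < n := hn ▸ Finset.card_pos.2 h0
  rcases Nat.lt_or_ge n 2 with h | hn2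
  · rw [show n - 1 = 0 by omega, pow_zero]
    exact one_dvd _
  obtain ⟨z, hzP, hz, hz2, hzb⟩ := ex_z δ P
  have hN := Pe_insert hP hz
  have hb : Jb δ (insert z P) := (ins hδ hP hz hzP hzb).1.2 ha
  have hc : (insert z P).card = n + 1 := by rw [card_insert_of_notMem hzP, hn]
  obtain ⟨β, hβ⟩ := ex_b hb
  obtain ⟨β', hβ'⟩ := ex_b hzb
  have hB1 : CB δ 1 := (ih 1 (by omega)).2.1
  obtain ⟨u, hu, hS⟩ := z_val hδ v5 rfl hB1 hz hz2 hzb β' hβ'
  have hcard2 : 1 < P.card := by omega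
  obtain ⟨i, hi, j, hj, hij⟩ := Finset.one_lt_card.1 hcard2
  have hzi : z ≠ i := fun e => hzP (e ▸ hi)
  have hzj : z ≠ j := fun e => hzP (e ▸ hj)
  have mz : z ∈ insert z P := mem_insert_self z P
  have mi : i ∈ insert z P := mem_insert_of_mem hi
  have mj : j ∈ insert z P := mem_insert_of_mem hj
  have r1 := weak_pair hδ hE h5 v5 hph hn2 ih hN hc hb hβ mz mi hzi
  have r2 := weak_pair hδ hE h5 v5 hph hn2 ih hN hc hb hβ mz mj hzj
  have r3 := weak_pair hδ hE h5 v5 hph hn2 ih hN hc hb hβ mi mj hij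
  have hez : (insert z P).erase z = P := erase_insert hzP
  have hz0 : S5 δ (insert z P) {z} β = 0 := by
    rw [S5_ne (Finset.singleton_nonempty z), h5 δ hδ _ hN hb β hβ {z}
      (Finset.singleton_subset_iff.2 mz) (Finset.singleton_nonempty z)
      (fun h => nab h hzb) (fun h => nbd hzb h), mul_zero]
  rw [hez, hz0, add_zero] at r1 r2
  have r4 : (2 : ℤ) ^ (n + 1 + 1) ∣ 2 * S5 δ (insert z P) P β := by
    have := dvd_sub (dvd_add r1 r2) r3
    have e : S5 δ (insert z P) P β + (S5 δ (insert z P) ((insert z P).erase i) β +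
        S5 δ (insert z P) {i} β) + (S5 δ (insert z P) P β +
        (S5 δ (insert z P) ((insert z P).erase j) β + S5 δ (insert z P) {j} β)) -
        (S5 δ (insert z P) ((insert z P).erase i) β + S5 δ (insert z P) {i} β +
        (S5 δ (insert z P) ((insert z P).erase j) β + S5 δ (insert z P) {j} β)) =
        2 * S5 δ (insert z P) P β := by ring
    rw [e] at this
    exact this
  rw [pow_succ' (2 : ℤ) (n + 1)] at r4
  have r5 : (2 : ℤ) ^ (n + 1) ∣ S5 δ (insert z P) P β :=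
    (mul_dvd_mul_iff_left (by norm_num)).1 r4
  exact fin_a hδ hE h0 hzP hN ha hzb hu hβ hβ' hS (by rwa [show n - 1 + 2 = n + 1 by omega])

theorem prod_b (hδ : Dt δ) {P : Finset ℕ} (hP : Pe P) (h : ∀ p ∈ P, Jb δ {p}) :
    (Even P.card → Ja δ P) ∧ (Odd P.card → Jb δ P) := by
  induction P using Finset.induction_on with
  | empty =>
    refine ⟨fun _ => Od.Ja_empty, fun h => ?_⟩
    simp at h
  | insert z P hz ih =>
    have hP' : Pe P := fun p hp => hP p (mem_insert_of_mem hp)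
    have hz' : Pe {z} := fun p hp => by
      rw [mem_singleton.1 hp]
      exact hP z (mem_insert_self z P)
    obtain ⟨h1, h2⟩ := ih hP' fun p hp => h p (mem_insert_of_mem hp)
    have hb := h z (mem_insert_self z P)
    have hins := ins hδ hP' hz' hz hb
    rw [card_insert_of_notMem hz]
    constructor
    · intro he
      refine hins.2.1.2 (h2 ?_)
      rw [Nat.even_add_one, Nat.not_even_iff_odd] at he
      exact he
    · intro ho
      refine hins.1.2 (h1 ?_)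
      rw [Nat.odd_add_one, Nat.not_odd_iff_even] at ho
      exact ho

/-- a set of primes of the class `b` is of the class `a` or `b` -/
theorem all_b (hδ : Dt δ) {P : Finset ℕ} (hP : Pe P) (h : ∀ p ∈ P, Jb δ {p}) :
    Ja δ P ∨ Jb δ P := by
  have := prod_b hδ hP h
  rcases Nat.even_or_odd P.card with h' | h'
  · exact Or.inl (this.1 h')
  · exact Or.inr (this.2 h')

/-- the sharp bound for the class `a`, all primes of the class `b` -/
theorem sharp_ab (hδ : Dt δ) (hE : S_E14) (h5 : S_VAN5) (v5 : S_V5) (c5 : S_CNT5)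
    (hph : S_PHI)
    {n : ℕ} (ih : ∀ k < n, CF δ k ∧ CB δ k ∧ CD δ k) (hB : CB δ n) {P : Finset ℕ} (hP : Pe P)
    (hn : P.card = n) (h0 : P.Nonempty) (ha : Ja δ P) (hall : ∀ p ∈ P, Jb δ {p}) :
    (4 : ℤ) ^ n ∣ Fx δ P 1 4 := by
  have hn0 : 0 < n := hn ▸ Finset.card_pos.2 h0
  obtain ⟨z, hzP, hz, hz2, hzb⟩ := ex_z δ P
  have hN := Pe_insert hP hz
  have hb : Jb δ (insert z P) := (ins hδ hP hz hzP hzb).1.2 ha
  have hc : (insert z P).card = n + 1 := by rw [card_insert_of_notMem hzP, hn]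
  obtain ⟨β, hβ⟩ := ex_b hb
  obtain ⟨β', hβ'⟩ := ex_b hzb
  have hB1 : CB δ 1 := by
    rcases Nat.lt_or_ge 1 n with h | h
    · exact (ih 1 h).2.1
    · rwa [show n = 1 by omega] at hB
  obtain ⟨u, hu, hS⟩ := z_val hδ v5 rfl hB1 hz hz2 hzb β' hβ'
  have mz : z ∈ insert z P := mem_insert_self z P
  have hez : (insert z P).erase z = P := erase_insert hzP
  have hallN : ∀ p ∈ insert z P, Jb δ {p} := by
    intro p hp
    rcases mem_insert.1 hp with h | h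
    · rw [h]; exact hzb
    · exact hall p h
  have hev : Even n := by
    by_contra hodd
    rw [Nat.not_even_iff_odd] at hodd
    exact nab ha ((prod_b hδ hP hall).2 (by rw [hn]; exact hodd))
  have hn2 : 1 < P.card := by
    obtain ⟨m, hm⟩ := hev
    omega
  obtain ⟨i, hi, j, hj, hij⟩ := Finset.one_lt_card.1 hn2
  have mi : i ∈ insert z P := mem_insert_of_mem hi
  have mj : j ∈ insert z P := mem_insert_of_mem hj
  -- all sets are good, except those of class `a` and of size `n`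
  have good : ∀ Q ⊆ insert z P, Q.Nonempty → Q ≠ insert z P → (Ja δ Q → Q.card < n) →
      (2 : ℤ) ^ (n + 2) ∣ S5 δ (insert z P) Q β := by
    intro Q hQs hq hQN hsmall
    have hq' := sdiff_ne hQs hQN
    have hcs := card_split hQs
    have hq0 := Finset.card_pos.2 hq
    have hq1 := Finset.card_pos.2 hq'
    have hQb := all_b hδ (sub_l hN hQs) fun p hp => hallN p (hQs hp)
    have hQb' := all_b hδ (sub_r (Q := Q) hN) fun p hp => hallN p (sdiff_subset hp)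
    rw [show n + 2 = (insert z P).card + 1 by omega]
    refine good5 hδ hE h5 hN hb hβ hQs hq (fun ha' => ?_) (fun hc' => ?_) (fun hb' => ?_)
      (fun hd' => ?_)
    · exact (ih Q.card (hsmall ha')).1 Q (sub_l hN hQs) rfl hq (Or.inl ha')
    · rcases hQb' with h | h
      · exact (nac h hc').elim
      · exact (nbc h hc').elim
    · rcases Nat.lt_or_ge (insert z P \ Q).card n with h | h
      · exact (ih _ h).2.1.dvd hδ v5 (sub_r hN) rfl hb'
      · have he : (insert z P \ Q).card = n := by omega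
        rw [he]
        exact hB.dvd hδ v5 (sub_r hN) he hb'
    · rcases hQb with h | h
      · exact (nad h hd').elim
      · exact (nbd h hd').elim
  have hoddN : Odd (insert z P).card := by
    rw [hc]
    exact hev.add_one
  have hpar : ∀ i j : ℕ, (2 : ℤ) ^ (n + 3) ∣ ∑ Q ∈ GX (insert z P) i j,
      S5 δ (insert z P) Q β := by
    intro i j
    rw [pair5 hδ hph hN β i j, hc]
    have h1 := c5 δ hδ _ hN hallN hoddN β hβ (fun _ => 1) (XV.Mn.gm i j) (fun _ _ => Or.inl rfl)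
      (fun p _ => gm_pm i j p)
    have h2 : (2 : ℤ) ∣ (AC δ 5 (insert z P) β (fun _ => 1) : ℤ) -
        AC δ 5 (insert z P) β (XV.Mn.gm i j) := by omega
    obtain ⟨w, hw⟩ := h2
    exact ⟨w, by rw [hw]; ring⟩
  set KK := (insert z P).powerset.filter fun Q => (i ∈ Q ↔ j ∈ Q) ∧ ¬ (z ∈ Q ↔ i ∈ Q) with hKK
  have hid : ∑ Q ∈ GX (insert z P) z i, S5 δ (insert z P) Q β +
      ∑ Q ∈ GX (insert z P) z j, S5 δ (insert z P) Q β =
      2 * ∑ Q ∈ KK, S5 δ (insert z P) Q β +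
      ∑ Q ∈ GX (insert z P) i j, S5 δ (insert z P) Q β := by
    rw [hKK]
    unfold GX
    rw [Finset.sum_filter, Finset.sum_filter, Finset.sum_filter, Finset.sum_filter,
      Finset.mul_sum, ← Finset.sum_add_distrib, ← Finset.sum_add_distrib]
    refine Finset.sum_congr rfl fun Q _ => ?_
    by_cases c1 : z ∈ Q <;> by_cases c2 : i ∈ Q <;> by_cases c3 : j ∈ Q <;>
      simp [c1, c2, c3] <;> ring
  have h2 : (2 : ℤ) ^ (n + 2 + 1) ∣ 2 * ∑ Q ∈ KK, S5 δ (insert z P) Q β := by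
    have := dvd_sub (dvd_add (hpar z i) (hpar z j)) (hpar i j)
    rw [hid, add_sub_cancel_right] at this
    exact this
  rw [pow_succ' (2 : ℤ) (n + 2)] at h2
  have h3' : (2 : ℤ) ^ (n + 2) ∣ ∑ Q ∈ KK, S5 δ (insert z P) Q β :=
    (mul_dvd_mul_iff_left (by norm_num)).1 h2
  have hmem : P ∈ KK := by
    rw [hKK, mem_filter, mem_powerset]
    exact ⟨subset_insert z P, ⟨fun _ => hj, fun _ => hi⟩, fun h => hzP (h.2 hi)⟩
  rw [← Finset.add_sum_erase _ _ hmem] at h3'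
  have hfin : (2 : ℤ) ^ (n + 2) ∣ S5 δ (insert z P) P β := by
    refine (dvd_add_left (Finset.dvd_sum fun Q hQ => ?_)).1 h3'
    rw [mem_erase, hKK, mem_filter, mem_powerset] at hQ
    obtain ⟨hQP, hQs, hQ1, hQ2⟩ := hQ
    refine good Q hQs ?_ ?_ ?_
    · rw [Finset.nonempty_iff_ne_empty]
      rintro rfl
      simp at hQ2
    · rintro rfl
      exact hQ2 ⟨fun _ => mi, fun _ => mz⟩
    · intro _
      have hcs := card_split hQs
      have hne : Q ≠ insert z P := by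
        rintro rfl
        exact hQ2 ⟨fun _ => mi, fun _ => mz⟩
      have hq1 := Finset.card_pos.2 (sdiff_ne hQs hne)
      by_contra hlt
      obtain ⟨k, hk, rfl⟩ := one_missing hc hQs (by omega)
      have hkz : k ≠ z := by
        rintro rfl
        exact hQP hez
      simp only [mem_erase] at hQ1 hQ2
      have hzi : z ≠ i := fun e => hzP (e ▸ hi)
      by_cases hki : k = i
      · subst hki
        have : ¬ (j ≠ k ∧ j ∈ insert z P) := fun h => (hQ1.2 h).1 rfl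
        exact this ⟨hij.symm, mj⟩
      · exact hQ2 ⟨fun _ => ⟨fun e => hki e.symm, mi⟩, fun _ => ⟨fun e => hkz e.symm, mz⟩⟩
  exact fin_a hδ hE h0 hzP hN ha hzb hu hβ hβ' hS hfin

/-- the sharp bound for the class `c` -/
theorem sharp_c (hδ : Dt δ) (hE : S_E14) (h5 : S_VAN5) (h3 : S_VAN3) (v5 : S_V5) (e3 : S_EV3)
    (c5 : S_CNT5) (hph : S_PHI)
    {n : ℕ} (ih : ∀ k < n, CF δ k ∧ CB δ k ∧ CD δ k) (hB : CB δ n) (hD : CD δ n) {P : Finset ℕ}
    (hP : Pe P) (hn : P.card = n) (hcl : Jc δ P) : (4 : ℤ) ^ n ∣ Fx δ P 1 4 := by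
  have h0 := ne_of_c hcl
  have hn0 : 0 < n := hn ▸ Finset.card_pos.2 h0
  obtain ⟨z, hzP, hz, hz2, hzb⟩ := ex_z δ P
  have hN := Pe_insert hP hz
  have hd : Jd δ (insert z P) := (ins hδ hP hz hzP hzb).2.2.1.2 hcl
  have hc : (insert z P).card = n + 1 := by rw [card_insert_of_notMem hzP, hn]
  obtain ⟨β, hβ⟩ := ex_d hd
  obtain ⟨β', hβ'⟩ := ex_b hzb
  have hB1 : CB δ 1 := by
    rcases Nat.lt_or_ge 1 n with h | h
    · exact (ih 1 h).2.1
    · rwa [show n = 1 by omega] at hB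
  obtain ⟨u, hu, hS⟩ := z_val hδ v5 rfl hB1 hz hz2 hzb β' hβ'
  have hex : ∃ j ∈ P, ¬ Jb δ {j} ∧ ((δ = -4 ∧ j = 2) → ∀ p ∈ P.erase 2, Jb δ {p}) := by
    by_cases hcase : ∃ j ∈ P, ¬ Jb δ {j} ∧ ¬ (δ = -4 ∧ j = 2)
    · obtain ⟨j, hj, h1, h2⟩ := hcase
      exact ⟨j, hj, h1, fun h => (h2 h).elim⟩
    · push Not at hcase
      by_contra hcon
      push Not at hcon
      have hall : ∀ j ∈ P, Jb δ {j} := by
        intro j hj
        by_contra hjb
        obtain ⟨-, p, hp, hpb⟩ := hcon j hj hjb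
        exact (mem_erase.1 hp).1 (hcase p (mem_of_mem_erase hp) hpb).2
      rcases all_b hδ hP hall with h | h
      · exact nac h hcl
      · exact nbc h hcl
  obtain ⟨j, hj, hjb, hj2⟩ := hex
  have mz : z ∈ insert z P := mem_insert_self z P
  have mj : j ∈ insert z P := mem_insert_of_mem hj
  have hez : (insert z P).erase z = P := erase_insert hzP
  have hmem : P ∈ GX (insert z P) z j := by
    unfold GX
    rw [mem_filter, mem_powerset]
    exact ⟨subset_insert z P, fun h => hzP (h.2 hj)⟩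
  have hxi : ¬ Xi δ (insert z P) := fun h => by
    have := h.2 ▸ mz
    exact hz2 (mem_singleton.1 this)
  have h1 := pair hδ hph (Or.inl rfl) hN β z j
  obtain ⟨x, hx⟩ := e3 δ hδ _ hN hd hxi β hβ (fun _ => 1)
  obtain ⟨y, hy⟩ := e3 δ hδ _ hN hd hxi β hβ (XV.Mn.gm z j)
  rw [hx, hy, hc, ← Finset.add_sum_erase _ _ hmem] at h1
  have h2 : (2 : ℤ) ^ (n + 1) ∣ ∑ Q ∈ (GX (insert z P) z j).erase P,
      A δ 3 (insert z P) Q β := by
    refine Finset.dvd_sum fun Q hQ => ?_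
    rw [mem_erase] at hQ
    have hQs := GX_sub hQ.2
    have hq := GX_ne hQ.2
    have hq' := sdiff_ne hQs (GX_ne' mz mj hQ.2)
    have hcs := card_split hQs
    have hq0 := Finset.card_pos.2 hq
    have hq1 := Finset.card_pos.2 hq'
    rw [← hc]
    refine good3 hδ hE h3 hN hd hβ hQs hq hq' (fun hc' => ?_) (fun hb' => ?_)
      (fun hd' ha' => ?_)
    · rcases Nat.lt_or_ge Q.card n with h | h
      · exact (ih Q.card h).1 Q (sub_l hN hQs) rfl hq (Or.inr hc')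
      · exfalso
        rcases GX_n mz mj hc hQ.2 (by omega) with h | h
        · rw [hez] at h
          exact hQ.1 h
        · have hb' : Jb δ (insert z P \ Q) := q_cd hδ hN hQs hc' hd
          rw [h, sdiff_erase' mj] at hb'
          exact hjb hb'
    · rcases Nat.lt_or_ge (insert z P \ Q).card n with h | h
      · exact (ih _ h).2.1.dvd hδ v5 (sub_r hN) rfl hb'
      · have he : (insert z P \ Q).card = n := by omega
        rw [he]
        exact hB.dvd hδ v5 (sub_r hN) he hb'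
    · by_cases hX : Xi δ Q
      · -- the exceptional set
        have hQ2 : Q = {2} := hX.2
        have hj2' : j = 2 := by
          rcases GX_one hQ.2 (by rw [hQ2, card_singleton]) with h | h
          · rw [hQ2] at h
            exact (hz2 (singleton_injective h).symm).elim
          · rw [hQ2] at h
            exact (singleton_injective h).symm
        have hall := hj2 ⟨hX.1, hj2'⟩
        have hallN : ∀ p ∈ insert z P \ Q, Jb δ {p} := by
          intro p hp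
          rw [hQ2, mem_sdiff, mem_singleton, mem_insert] at hp
          rcases hp.1 with h | h
          · rw [h]; exact hzb
          · exact hall p (mem_erase.2 ⟨hp.2, h⟩)
        have hQc : Q.card = 1 := by rw [hQ2, card_singleton]
        have he : (insert z P \ Q).card = n := by omega
        refine ⟨n, 0, by omega, ?_, fun β _ => ?_⟩
        · exact sharp_ab hδ hE h5 v5 c5 hph ih hB (sub_r hN) he hq' ha' hallN
        · rw [pow_zero]
          exact one_dvd _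
      · refine ⟨(insert z P \ Q).card - 1, Q.card, by omega, ?_, ?_⟩
        · rcases Nat.lt_or_ge (insert z P \ Q).card n with h | h
          · exact (pow_dvd_pow _ (by omega)).trans ((ih _ h).1 _ (sub_r hN) rfl hq' (Or.inl ha'))
          · have he : (insert z P \ Q).card = n := by omega
            have := weak_a hδ hE h5 v5 hph ih (sub_r hN) he hq' ha'
            rwa [he]
        · rcases Nat.lt_or_ge Q.card n with h | h
          · exact (ih _ h).2.2 Q (sub_l hN hQs) rfl hd' hX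
          · have he : Q.card = n := by omega
            rw [he]
            exact hD Q (sub_l hN hQs) he hd' hX
  obtain ⟨k, hk⟩ := h2
  rw [hk] at h1
  have h4 : (2 : ℤ) ^ (n + 1) ∣ A δ 3 (insert z P) P β := by
    refine ⟨x - y - k, ?_⟩
    push_cast at h1
    linarith
  exact fin_c hδ hE h0 hzP hN hcl hzb hu hβ hβ' hS h4

/-- the sharp bound for the class `a` -/
theorem sharp_a (hδ : Dt δ) (hE : S_E14) (h5 : S_VAN5) (h3 : S_VAN3) (v5 : S_V5) (e3 : S_EV3)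
    (c5 : S_CNT5) (hph : S_PHI)
    {n : ℕ} (ih : ∀ k < n, CF δ k ∧ CB δ k ∧ CD δ k) (hB : CB δ n) (hD : CD δ n) {P : Finset ℕ}
    (hP : Pe P) (hn : P.card = n) (h0 : P.Nonempty) (ha : Ja δ P) : (4 : ℤ) ^ n ∣ Fx δ P 1 4 := by
  by_cases hall : ∀ p ∈ P, Jb δ {p}
  · exact sharp_ab hδ hE h5 v5 c5 hph ih hB hP hn h0 ha hall
  have hn0 : 0 < n := hn ▸ Finset.card_pos.2 h0
  obtain ⟨z, hzP, hz, hz2, hzb⟩ := ex_z δ P
  have hN := Pe_insert hP hz
  have hb : Jb δ (insert z P) := (ins hδ hP hz hzP hzb).1.2 ha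
  have hc : (insert z P).card = n + 1 := by rw [card_insert_of_notMem hzP, hn]
  obtain ⟨β, hβ⟩ := ex_b hb
  obtain ⟨β', hβ'⟩ := ex_b hzb
  have hB1 : CB δ 1 := by
    rcases Nat.lt_or_ge 1 n with h | h
    · exact (ih 1 h).2.1
    · rwa [show n = 1 by omega] at hB
  obtain ⟨u, hu, hS⟩ := z_val hδ v5 rfl hB1 hz hz2 hzb β' hβ'
  have mz : z ∈ insert z P := mem_insert_self z P
  have hez : (insert z P).erase z = P := erase_insert hzP
  -- all sets are good, except those of class `a` and of size `n`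
  have good : ∀ Q ⊆ insert z P, Q.Nonempty → Q ≠ insert z P → (Ja δ Q → Q.card < n) →
      (2 : ℤ) ^ (n + 2) ∣ S5 δ (insert z P) Q β := by
    intro Q hQs hq hQN hsmall
    have hq' := sdiff_ne hQs hQN
    have hcs := card_split hQs
    have hq0 := Finset.card_pos.2 hq
    have hq1 := Finset.card_pos.2 hq'
    rw [show n + 2 = (insert z P).card + 1 by omega]
    refine good5 hδ hE h5 hN hb hβ hQs hq (fun ha' => ?_) (fun hc' => ?_) (fun hb' => ?_)
      (fun hd' => ?_)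
    · exact (ih Q.card (hsmall ha')).1 Q (sub_l hN hQs) rfl hq (Or.inl ha')
    · rcases Nat.lt_or_ge (insert z P \ Q).card n with h | h
      · exact (ih _ h).1 _ (sub_r hN) rfl hq' (Or.inr hc')
      · have he : (insert z P \ Q).card = n := by omega
        rw [he]
        exact sharp_c hδ hE h5 h3 v5 e3 c5 hph ih hB hD (sub_r hN) he hc'
    · rcases Nat.lt_or_ge (insert z P \ Q).card n with h | h
      · exact (ih _ h).2.1.dvd hδ v5 (sub_r hN) rfl hb'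
      · have he : (insert z P \ Q).card = n := by omega
        rw [he]
        exact hB.dvd hδ v5 (sub_r hN) he hb'
    · rcases Nat.lt_or_ge Q.card n with h | h
      · exact (ih _ h).2.2.weak (sub_l hN hQs) rfl hd'
      · have he : Q.card = n := by omega
        rw [he]
        exact hD.weak (sub_l hN hQs) he hd'
  have hfin : (2 : ℤ) ^ (n + 2) ∣ S5 δ (insert z P) P β := by
    push Not at hall
    obtain ⟨j, hj, hjb⟩ := hall
    have mj : j ∈ insert z P := mem_insert_of_mem hj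
    have hmem : P ∈ GX (insert z P) z j := by
      unfold GX
      rw [mem_filter, mem_powerset]
      exact ⟨subset_insert z P, fun h => hzP (h.2 hj)⟩
    have h1 := pair5 hδ hph hN β z j
    have h2 : (2 : ℤ) ^ (n + 2) ∣ ∑ Q ∈ GX (insert z P) z j, S5 δ (insert z P) Q β := by
      rw [h1, hc]
      exact Dvd.intro _ rfl
    rw [← Finset.add_sum_erase _ _ hmem] at h2
    refine (dvd_add_left (Finset.dvd_sum fun Q hQ => ?_)).1 h2
    rw [mem_erase] at hQ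
    have hQs := GX_sub hQ.2
    have hQN := GX_ne' mz mj hQ.2
    refine good Q hQs (GX_ne hQ.2) hQN fun ha' => ?_
    have hcs := card_split hQs
    have hq1 := Finset.card_pos.2 (sdiff_ne hQs hQN)
    by_contra hlt
    rcases GX_n mz mj hc hQ.2 (by omega) with h | h
    · rw [hez] at h
      exact hQ.1 h
    · have hb' : Jb δ (insert z P \ Q) := q_ab hδ hN hQs ha' hb
      rw [h, sdiff_erase' mj] at hb'
      exact hjb hb'
  exact fin_a hδ hE h0 hzP hN ha hzb hu hβ hβ' hS hfin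

theorem all_claims (hδ : Dt δ) (hE : S_E14) (h5 : S_VAN5) (h3 : S_VAN3) (v5 : S_V5) (v3 : S_V3)
    (q3 : S_EQ3) (e3 : S_EV3) (c5 : S_CNT5) (hph : S_PHI) (n : ℕ) : CF δ n ∧ CB δ n ∧ CD δ n := by
  induction n using Nat.strong_induction_on with
  | _ n ih =>
    have hB := step_B hδ hE h5 v5 hph ih
    have hD := step_D hδ hE h3 v5 v3 q3 hph ih
    refine ⟨fun P hP hn h0 hcl => ?_, hB, hD⟩
    rcases hcl with h | h
    · exact sharp_a hδ hE h5 h3 v5 e3 c5 hph ih hB hD hP hn h0 h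
    · exact sharp_c hδ hE h5 h3 v5 e3 c5 hph ih hB hD hP hn h

end Pool.Agent.XW.Mn

namespace Pool.Agent.XW

open Finset
open Pool.Agent.XV (vec S_PHI)

/-- **XW-09**: the structure theorem from the relations -/
theorem t_MAIN (hE : S_E14) (h5 : S_VAN5) (h3 : S_VAN3) (v5 : S_V5) (v3 : S_V3) (q3 : S_EQ3)
    (e3 : S_EV3) (c5 : S_CNT5) (hph : S_PHI) : S_MAIN := by
  intro δ hδ N hN
  obtain ⟨hF, hB, hD⟩ := Mn.all_claims hδ hE h5 h3 v5 v3 q3 e3 c5 hph N.card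
  refine ⟨fun hb β hβ => ?_, fun hd hx β hβ => hD N hN rfl hd hx β hβ,
    fun h0 hcl => hF N hN rfl h0 hcl⟩
  obtain ⟨T, hT, -⟩ := v5 δ hδ N hN hb
  obtain ⟨k, hk⟩ := hB N hN rfl hb β hβ
  refine ⟨T, k - T, hT, ?_⟩
  rw [hT] at hk
  rw [pow_succ] at hk
  linear_combination hk

end Pool.Agent.XW
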