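import Pool.Agent.XW.PCD

/-!
# XW-10c: the odd local factors
-/

set_option autoImplicit false

namespace Pool.Agent.XW.PCcod

open Finset
open Pool.Agent.Z700 (hh)
open Pool.Agent.Y155.Z7 (J_sq C EQ C_prod C_local)

theorem fact_scale {l a D : ℕ} (ha : ¬ l ∣ a) (hD : D ≠ 0) :
    (a * D).factorization l = D.factorization l := by
  have ha0 : a ≠ 0 := fun h => ha (h ▸ dvd_zero l)
  rw [Nat.factorization_mul ha0 hD, Finsupp.add_apply, Nat.factorization_eq_zero_of_not_dvd ha,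
    zero_add]

theorem hh_scale {l q m D : ℕ} (hp : l.Prime) (hl2 : l ≠ 2) (hq : ¬ l ∣ q) (hlm : l ∣ m)
    (hD : D ≠ 0) : hh (q ^ 2 * m) (q ^ 2 * D) l = hh (4 * m) D l := by
  have hqq : ¬ l ∣ q ^ 2 := fun h => hq (hp.dvd_of_dvd_pow h)
  have h22 : ¬ l ∣ 2 := fun h => hl2 ((Nat.prime_dvd_prime_iff_eq hp Nat.prime_two).1 h)
  have e1 := fact_scale (D := D) hqq hD
  have e2 : q ^ 2 * D / l ^ D.factorization l = q ^ 2 * (D / l ^ D.factorization l) :=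
    Nat.mul_div_assoc _ (Nat.ordProj_dvd D l)
  have e3 : q ^ 2 * m / l = q ^ 2 * (m / l) := Nat.mul_div_assoc _ hlm
  have e4 : 4 * m / l = 4 * (m / l) := Nat.mul_div_assoc _ hlm
  unfold hh
  rw [e1, e2, e3, e4]
  split_ifs
  · rw [← J_sq l hp (-((D / l ^ D.factorization l : ℕ) : ℤ)) q hq]
    congr 1
    push_cast
    ring
  · have f1 := J_sq l hp (-((m / l * (D / l ^ D.factorization l) : ℕ) : ℤ)) (q ^ 2) hqq
    have f2 := J_sq l hp (-((m / l * (D / l ^ D.factorization l) : ℕ) : ℤ)) 2 h22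
    rw [← f2] at f1
    have g1 : (-((q ^ 2 * (m / l) * (q ^ 2 * (D / l ^ D.factorization l)) : ℕ) : ℤ)) =
        -((m / l * (D / l ^ D.factorization l) : ℕ) : ℤ) * ((q ^ 2 : ℕ) : ℤ) ^ 2 := by
      push_cast
      ring
    have g2 : (-((4 * (m / l) * (D / l ^ D.factorization l) : ℕ) : ℤ)) =
        -((m / l * (D / l ^ D.factorization l) : ℕ) : ℤ) * ((2 : ℕ) : ℤ) ^ 2 := by
      push_cast
      ring
    rw [g1, g2]
    exact f1

theorem C_scale {l q : ℕ} (hp : l.Prime) (hq : ¬ l ∣ q) (e : ℕ) (b : ℤ) (D' β γ : ℕ) :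
    C (q * e) (q * b) D' β γ l = C e b D' β γ l := by
  have : Fact l.Prime := ⟨hp⟩
  have h0 : ((q : ℕ) : ZMod l) ≠ 0 := fun h => hq ((ZMod.natCast_eq_zero_iff _ _).1 h)
  unfold C
  refine Nat.card_congr (Equiv.subtypeEquivRight fun x => ?_)
  unfold EQ
  have e1 : ((q * e : ℕ) : ZMod l) * x.1 - ((q * b : ℤ) : ZMod l) =
      ((q : ℕ) : ZMod l) * ((e : ZMod l) * x.1 - (b : ZMod l)) := by
    push_cast
    ring
  rw [e1, mul_eq_zero]
  constructor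
  · rintro ⟨h, h'⟩
    exact ⟨h.resolve_left h0, h'⟩
  · rintro ⟨h, h'⟩
    exact ⟨Or.inr h, h'⟩

theorem C_loc {l q m D e β D2 g : ℕ} {m2 b : ℤ} (hp : l.Prime) (hl2 : l ≠ 2) (hq : ¬ l ∣ q)
    (hlm : l ∣ m) (hl3 : ¬ l ^ 2 ∣ m) (hD0 : 0 < D) (hq0 : 0 < q) (hD : (D : ℤ) = m * m2 - b ^ 2)
    (hDe : D = q * e ^ 2 * D2) (hβ : D2 * g = β ^ 2 + m) :
    (C e b (q * D2) (q * β) (q * g) l : ℤ) = if l ∣ D then 1 + hh (4 * m) D l else 1 := by
  have hqq : ¬ l ∣ q ^ 2 := fun h => hq (hp.dvd_of_dvd_pow h)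
  rw [← C_scale hp hq e b]
  have key := C_local (n1 := q ^ 2 * m) (n2 := m2) (b := q * b) (D := q ^ 2 * D)
    (e := q * e) (D' := q * D2) (β := q * β) (γ := q * g) (l := l) hp hl2
    (Dvd.dvd.mul_left hlm _) (fun h => hl3 ?_) (by positivity) ?_ ?_ ?_
  · rw [key, hh_scale hp hl2 hq hlm hD0.ne']
    have : l ∣ q ^ 2 * D ↔ l ∣ D :=
      ⟨fun h => (hp.dvd_mul.1 h).resolve_left hqq, fun h => Dvd.dvd.mul_left h _⟩
    by_cases hd : l ∣ D
    · rw [if_pos hd, if_pos (this.2 hd)]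
    · rw [if_neg hd, if_neg (fun h => hd (this.1 h))]
  · have hc : Nat.Coprime (l ^ 2) (q ^ 2) :=
      Nat.Coprime.pow_left 2 ((Nat.Prime.coprime_iff_not_dvd hp).2 hqq)
    exact hc.dvd_of_dvd_mul_left h
  · push_cast
    linear_combination ((q : ℤ) ^ 2) * hD
  · rw [hDe]
    ring
  · have h1 : (q * β) ^ 2 + q ^ 2 * m = q ^ 2 * (β ^ 2 + m) := by ring
    rw [h1, ← hβ]
    ring

end Pool.Agent.XW.PCcod

namespace Pool.Agent.XW

open Finset
open Pool.Agent.Z700 (hh)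
open Pool.Agent.Y155.Z7 (C C_prod)

theorem t_COD : S_COD := by
  intro q m m2 b D hC hD hDD e β D2 g hDe hβ
  have hmd := hC.md
  have hm0 : 0 < m := by omega
  have hq : q.Prime := by rcases hC.cl with ⟨rfl, _⟩ | ⟨rfl, _⟩ <;> norm_num
  have hqm : ¬ q ∣ m := by
    rcases hC.cl with ⟨rfl, h⟩ | ⟨rfl, h⟩ <;> omega
  have hmo : mo m ∣ m := by
    unfold mo
    split_ifs with h
    · exact Nat.div_dvd_of_dvd (Nat.dvd_of_mod_eq_zero h)
    · exact dvd_rfl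
  have hodd : mo m % 2 = 1 := by
    unfold mo
    split_ifs with h <;> omega
  have hs : Squarefree (mo m) := hC.sq.squarefree_of_dvd hmo
  have hD2 : 0 < D2 := by
    rcases Nat.eq_zero_or_pos D2 with h | h
    · rw [h, mul_zero] at hDe
      omega
    · exact h
  rw [C_prod _ _ _ _ _ (Nat.mul_pos hq.pos hD2) hs, Nat.cast_prod]
  refine Finset.prod_congr rfl fun l hl => ?_
  have hl1 := Nat.prime_of_mem_primeFactors hl
  have hl2 := Nat.dvd_of_mem_primeFactors hl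
  have hlm := hl2.trans hmo
  have hlq : ¬ l ∣ q := by
    intro h
    rw [(Nat.prime_dvd_prime_iff_eq hl1 hq).1 h] at hlm
    exact hqm hlm
  have hl22 : l ≠ 2 := by
    rintro rfl
    omega
  have hl3 : ¬ l ^ 2 ∣ m := by
    intro h
    rw [pow_two] at h
    exact hl1.one_lt.ne' (Nat.isUnit_iff.1 (hC.sq l h))
  exact PCcod.C_loc (m2 := m2) hl1 hl22 hlq hlm hl3 hD hq.pos hDD hDe hβ

end Pool.Agent.XW
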