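import Pool.Agent.XW.PCStm
import Pool.Agent.Y155.Z7.XC

/-!
# Project XW-10: the number of pairs of vectors with given Gram matrix, even discriminants: statements

The first norm is `4 m`, `m` squarefree, `m = 1, 2` modulo `4`.  The pairs `(v, w)` of vectors of `L q` with
Gram matrix `(4 m, 2 b; 2 b, m2)`, `D = m m2 - b²`, are parametrized by the tuples `(e, β, μ, ν)`.
-/

set_option autoImplicit false

namespace Pool.Agent.XW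

open Finset
open Pool.Agent.Z700 (hh)
open Pool.Agent.XV (cpg rot)
open Pool.Agent.Y155.Z7 (C)

noncomputable section

/-- the condition on `m` (the norm is `4 m`) -/
structure Cm (q m : ℕ) : Prop where
  sq : Squarefree m
  md : m % 4 = 1 ∨ m % 4 = 2
  cl : (q = 5 ∧ (m % 5 = 2 ∨ m % 5 = 3)) ∨ (q = 3 ∧ m % 3 = 1)

/-- the binary form -/
def phi (g β D2 μ ν : ℤ) : ℤ := g * μ ^ 2 - 2 * β * (μ * ν) + D2 * ν ^ 2

/-- the odd part of `m` -/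
def mo (m : ℕ) : ℕ := if m % 2 = 0 then m / 2 else m

/-- the part at two of `2 m` -/
def k2 (m : ℕ) : ℕ := if m % 2 = 0 then 4 else 2

/-- the conditions for `(μ, ν)` -/
def Pf (q m : ℕ) (b : ℤ) (e β D2 g μ ν : ℕ) : Prop :=
  (2 * m : ℤ) ∣ e * μ - b ∧ m ∣ μ ^ 2 + q * D2 ∧ m ∣ q * β + μ * ν ∧ m ∣ q * g + ν ^ 2 ∧
    (4 * m ^ 2 : ℤ) ∣ phi g β D2 μ ν + q * m

/-- the conditions for `(μ, ν)` at two -/
def P2 (q m : ℕ) (b : ℤ) (e β D2 g μ ν : ℕ) : Prop :=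
  (k2 m : ℤ) ∣ e * μ - b ∧ k2 m / 2 ∣ μ ^ 2 + q * D2 ∧ k2 m / 2 ∣ q * β + μ * ν ∧
    k2 m / 2 ∣ q * g + ν ^ 2 ∧ (k2 m ^ 2 : ℤ) ∣ phi g β D2 μ ν + q * m

/-- the pairs `(e, β)` -/
def TR (q m D : ℕ) : Finset (ℕ × ℕ) :=
  ((range (D + 1)).filter fun e => 0 < e ∧ q * e ^ 2 ∣ D).biUnion fun e =>
    ((range (D / (q * e ^ 2))).filter fun β => D / (q * e ^ 2) ∣ β ^ 2 + m).image fun β => (e, β)

open Classical in
/-- the number of the `(μ, ν)` -/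
def NF (q m : ℕ) (b : ℤ) (e β D2 g : ℕ) : ℕ :=
  ((range (2 * m) ×ˢ range (2 * m)).filter fun x => Pf q m b e β D2 g x.1 x.2).card

open Classical in
/-- the number of the `(μ, ν)` at two -/
def ZZ (q m : ℕ) (b : ℤ) (e β D2 g : ℕ) : ℕ :=
  ((range (k2 m) ×ˢ range (k2 m)).filter fun x => P2 q m b e β D2 g x.1 x.2).card

/-- XW-10a, PCC4: the parametrization -/
def S_PCC4 : Prop := ∀ (q m : ℕ) (m2 b : ℤ) (D : ℕ), Cm q m → 0 < D → (D : ℤ) = m * m2 - b ^ 2 →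
  cpg q (4 * m) (2 * b) m2 = rot q * ∑ t ∈ TR q m D,
    NF q m b t.1 t.2 (D / (q * t.1 ^ 2)) ((t.2 ^ 2 + m) / (D / (q * t.1 ^ 2)))

/-- XW-10b, CRT: the odd part and the part at two -/
def S_CRT : Prop := ∀ (q m : ℕ) (b : ℤ), Cm q m → ∀ e β D2 g : ℕ, 0 < D2 → D2 * g = β ^ 2 + m →
  NF q m b e β D2 g = C e b (q * D2) (q * β) (q * g) (mo m) * ZZ q m b e β D2 g

/-- XW-10c, COD: the odd part -/
def S_COD : Prop := ∀ (q m : ℕ) (m2 b : ℤ) (D : ℕ), Cm q m → 0 < D → (D : ℤ) = m * m2 - b ^ 2 →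
  ∀ e β D2 g : ℕ, D = q * e ^ 2 * D2 → D2 * g = β ^ 2 + m →
  (C e b (q * D2) (q * β) (q * g) (mo m) : ℤ) =
    ∏ l ∈ (mo m).primeFactors, if l ∣ D then 1 + hh (4 * m) D l else 1

/-- XW-10d, TR: the number of the pairs `(e, β)` -/
def S_TR : Prop := ∀ q m D : ℕ, Cm q m → 0 < D → ((TR q m D).card : ℤ) =
  if Odd (D.factorization q) then
    ∏ l ∈ (D.primeFactors.erase q).filter (fun l => ¬ l ∣ 4 * m), fc (4 * m) D l else 0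

/-- XW-10e, REC: the character at two of the binary form -/
def S_REC : Prop := ∀ q m : ℕ, Cm q m → ∀ β D2 g : ℕ, D2 * g = β ^ 2 + m → ∀ μ ν : ℕ,
  mo m ∣ μ ^ 2 + q * D2 → mo m ∣ q * β + μ * ν → mo m ∣ q * g + ν ^ 2 →
  ∀ s t : ℤ, Odd (phi g β D2 s t) → ∃ x y : ℤ, (8 : ℤ) ∣ q * phi g β D2 s t + x ^ 2 + m * y ^ 2

/-- XW-10f, ZZ: the part at two -/
def S_ZZ : Prop := ∀ (q m : ℕ) (m2 b : ℤ) (D : ℕ), Cm q m → 0 < D → (4 : ℤ) ∣ m2 →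
  (D : ℤ) = m * m2 - b ^ 2 → ∀ e β D2 g : ℕ, D = q * e ^ 2 * D2 → D2 * g = β ^ 2 + m →
  (∀ s t : ℤ, Odd (phi g β D2 s t) → ∃ x y : ℤ, (8 : ℤ) ∣ q * phi g β D2 s t + x ^ 2 + m * y ^ 2) →
  ZZ q m b e β D2 g = if 2 ∣ D then 2 else 1

end

end Pool.Agent.XW
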