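import Mathlib
import Pool.Agent.XW.PCD

/-!
# Project XW-10b: Chinese remainder theorem, the odd part and the part at two
-/

set_option autoImplicit false

namespace Pool.Agent.XW

open Finset
open Pool.Agent.Y155.Z7 (C C_eq)

noncomputable section

namespace CRT

/-- Chinese remainder theorem for pairs. -/
theorem card_split (a c : ℕ) (ha : a ≠ 0) (hc : c ≠ 0) (hac : Nat.Coprime a c)
    (P P1 P2 : ℕ × ℕ → Prop) [DecidablePred P] [DecidablePred P1] [DecidablePred P2]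
    (h : ∀ x, P x ↔ P1 x ∧ P2 x)
    (h1 : ∀ x, P1 x ↔ P1 (x.1 % a, x.2 % a)) (h2 : ∀ x, P2 x ↔ P2 (x.1 % c, x.2 % c)) :
    ((range (a * c) ×ˢ range (a * c)).filter P).card =
      ((range a ×ˢ range a).filter P1).card * ((range c ×ˢ range c).filter P2).card := by
  rw [← card_product]
  refine card_bij (fun x _ => ((x.1 % a, x.2 % a), (x.1 % c, x.2 % c))) ?_ ?_ ?_
  · intro x hx
    rw [mem_filter] at hx
    rw [mem_product, mem_filter, mem_filter, mem_product, mem_product]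
    refine ⟨⟨⟨mem_range.2 (Nat.mod_lt _ (Nat.pos_of_ne_zero ha)),
      mem_range.2 (Nat.mod_lt _ (Nat.pos_of_ne_zero ha))⟩, (h1 x).1 ((h x).1 hx.2).1⟩,
      ⟨mem_range.2 (Nat.mod_lt _ (Nat.pos_of_ne_zero hc)),
      mem_range.2 (Nat.mod_lt _ (Nat.pos_of_ne_zero hc))⟩, (h2 x).1 ((h x).1 hx.2).2⟩
  · intro x hx y hy hxy
    rw [mem_filter, mem_product, mem_range, mem_range] at hx hy
    rw [Prod.mk.injEq, Prod.mk.injEq, Prod.mk.injEq] at hxy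
    obtain ⟨⟨e1, e2⟩, e3, e4⟩ := hxy
    have k1 : x.1 ≡ y.1 [MOD a * c] := (Nat.modEq_and_modEq_iff_modEq_mul hac).1 ⟨e1, e3⟩
    have k2 : x.2 ≡ y.2 [MOD a * c] := (Nat.modEq_and_modEq_iff_modEq_mul hac).1 ⟨e2, e4⟩
    exact Prod.ext (Nat.ModEq.eq_of_lt_of_lt k1 hx.1.1 hy.1.1)
      (Nat.ModEq.eq_of_lt_of_lt k2 hx.1.2 hy.1.2)
  · rintro ⟨u, v⟩ huv
    rw [mem_product, mem_filter, mem_filter, mem_product, mem_product, mem_range, mem_range,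
      mem_range, mem_range] at huv
    obtain ⟨⟨⟨u1, u2⟩, hu⟩, ⟨v1, v2⟩, hv⟩ := huv
    obtain ⟨s, hs1, hs2⟩ := Nat.chineseRemainder hac u.1 v.1
    obtain ⟨t, ht1, ht2⟩ := Nat.chineseRemainder hac u.2 v.2
    have hpos : 0 < a * c := Nat.mul_pos (Nat.pos_of_ne_zero ha) (Nat.pos_of_ne_zero hc)
    have m1 : ∀ z : ℕ, z % (a * c) % a = z % a := fun z => Nat.mod_mod_of_dvd z ⟨c, rfl⟩
    have m2 : ∀ z : ℕ, z % (a * c) % c = z % c := fun z =>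
      Nat.mod_mod_of_dvd z ⟨a, Nat.mul_comm a c⟩
    have e1 : s % (a * c) % a = u.1 := by
      rw [m1]
      exact Eq.trans (show s % a = u.1 % a from hs1) (Nat.mod_eq_of_lt u1)
    have e2 : t % (a * c) % a = u.2 := by
      rw [m1]
      exact Eq.trans (show t % a = u.2 % a from ht1) (Nat.mod_eq_of_lt u2)
    have e3 : s % (a * c) % c = v.1 := by
      rw [m2]
      exact Eq.trans (show s % c = v.1 % c from hs2) (Nat.mod_eq_of_lt v1)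
    have e4 : t % (a * c) % c = v.2 := by
      rw [m2]
      exact Eq.trans (show t % c = v.2 % c from ht2) (Nat.mod_eq_of_lt v2)
    refine ⟨(s % (a * c), t % (a * c)), ?_, ?_⟩
    · rw [mem_filter, mem_product, mem_range, mem_range]
      refine ⟨⟨Nat.mod_lt _ hpos, Nat.mod_lt _ hpos⟩, (h _).2 ⟨(h1 _).2 ?_, (h2 _).2 ?_⟩⟩
      · rw [e1, e2]
        exact hu
      · rw [e3, e4]
        exact hv
    · rw [e1, e2, e3, e4]

/-- the odd conditions -/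
def P1 (e : ℕ) (b : ℤ) (D' β γ a : ℕ) (x : ℕ × ℕ) : Prop :=
  (a : ℤ) ∣ e * x.1 - b ∧ a ∣ x.1 ^ 2 + D' ∧ a ∣ β + x.1 * x.2 ∧ a ∣ γ + x.2 ^ 2

theorem P1_of {e : ℕ} {b : ℤ} {D' β γ a : ℕ} {x y : ℕ × ℕ} (h1 : x.1 ≡ y.1 [MOD a])
    (h2 : x.2 ≡ y.2 [MOD a]) (h : P1 e b D' β γ a x) : P1 e b D' β γ a y := by
  obtain ⟨k1, k2, k3, k4⟩ := h
  refine ⟨?_, ?_, ?_, ?_⟩
  · have e1 : (a : ℤ) ∣ (y.1 : ℤ) - x.1 := (Nat.modEq_iff_dvd).1 h1
    have e2 : (e : ℤ) * y.1 - b = (e * x.1 - b) + e * ((y.1 : ℤ) - x.1) := by ring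
    rw [e2]
    exact dvd_add k1 (Dvd.dvd.mul_left e1 _)
  · exact (Nat.ModEq.dvd_iff ((h1.pow 2).add_right D') (dvd_refl a)).1 k2
  · exact (Nat.ModEq.dvd_iff ((h1.mul h2).add_left β) (dvd_refl a)).1 k3
  · exact (Nat.ModEq.dvd_iff ((h2.pow 2).add_left γ) (dvd_refl a)).1 k4

theorem P1_mod {e : ℕ} {b : ℤ} {D' β γ a : ℕ} (x : ℕ × ℕ) :
    P1 e b D' β γ a x ↔ P1 e b D' β γ a (x.1 % a, x.2 % a) :=
  ⟨P1_of (Nat.mod_modEq _ _).symm (Nat.mod_modEq _ _).symm,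
    P1_of (Nat.mod_modEq _ _) (Nat.mod_modEq _ _)⟩

theorem P2_even {q m : ℕ} {b : ℤ} {e β D2 g μ ν : ℕ} (hm : m % 2 = 0) :
    P2 q m b e β D2 g μ ν ↔ ((4 : ℤ) ∣ e * μ - b ∧ 2 ∣ μ ^ 2 + q * D2 ∧ 2 ∣ q * β + μ * ν ∧
      2 ∣ q * g + ν ^ 2 ∧ (16 : ℤ) ∣ phi g β D2 μ ν + q * m) := by
  have h1 : k2 m = 4 := if_pos hm
  unfold P2
  rw [h1]
  norm_num

theorem P2_odd {q m : ℕ} {b : ℤ} {e β D2 g μ ν : ℕ} (hm : m % 2 = 1) :
    P2 q m b e β D2 g μ ν ↔ ((2 : ℤ) ∣ e * μ - b ∧ (4 : ℤ) ∣ phi g β D2 μ ν + q * m) := by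
  have h1 : k2 m = 2 := if_neg (by omega)
  unfold P2
  rw [h1]
  norm_num

theorem P2_of {q m : ℕ} {b : ℤ} {e β D2 g : ℕ} (hq : q % 2 = 1) {x y : ℕ × ℕ}
    (h1 : x.1 ≡ y.1 [MOD k2 m]) (h2 : x.2 ≡ y.2 [MOD k2 m])
    (h : P2 q m b e β D2 g x.1 x.2) : P2 q m b e β D2 g y.1 y.2 := by
  rcases Nat.mod_two_eq_zero_or_one m with hm | hm
  · have hk : k2 m = 4 := if_pos hm
    rw [hk] at h1 h2
    rw [P2_even hm] at h ⊢
    obtain ⟨k, hk⟩ := (Nat.modEq_iff_dvd).1 h1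
    obtain ⟨l, hl⟩ := (Nat.modEq_iff_dvd).1 h2
    obtain ⟨⟨t1, k1⟩, k2, k3, k4, ⟨t5, k5⟩⟩ := h
    push_cast at hk hl
    have h1' : x.1 ≡ y.1 [MOD 2] := h1.of_dvd ⟨2, rfl⟩
    have h2' : x.2 ≡ y.2 [MOD 2] := h2.of_dvd ⟨2, rfl⟩
    refine ⟨⟨t1 + e * k, by linear_combination k1 + (e : ℤ) * hk⟩,
      (Nat.ModEq.dvd_iff ((h1'.pow 2).add_right _) (dvd_refl 2)).1 k2,
      (Nat.ModEq.dvd_iff ((h1'.mul h2').add_left _) (dvd_refl 2)).1 k3,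
      (Nat.ModEq.dvd_iff ((h2'.pow 2).add_left _) (dvd_refl 2)).1 k4, ?_⟩
    obtain ⟨r2, j2⟩ := k2
    obtain ⟨r3, j3⟩ := k3
    obtain ⟨r4, j4⟩ := k4
    obtain ⟨q', hq'⟩ : ∃ q', q = 2 * q' + 1 := ⟨q / 2, by omega⟩
    have j2' : (x.1 : ℤ) ^ 2 + q * D2 = 2 * r2 := by exact_mod_cast j2
    have j3' : (q : ℤ) * β + x.1 * x.2 = 2 * r3 := by exact_mod_cast j3
    have j4' : (q : ℤ) * g + (x.2 : ℤ) ^ 2 = 2 * r4 := by exact_mod_cast j4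
    have hqz : (q : ℤ) = 2 * q' + 1 := by exact_mod_cast hq'

    obtain ⟨w1, hw1⟩ : (2 : ℤ) ∣ g * x.1 - β * x.2 := by
      refine ⟨(r4 : ℤ) * x.1 - r3 * x.2 - q' * g * x.1 + q' * β * x.2, ?_⟩
      rw [hqz] at j3' j4'
      linear_combination (x.1 : ℤ) * j4' - (x.2 : ℤ) * j3'
    obtain ⟨w2, hw2⟩ : (2 : ℤ) ∣ D2 * x.2 - β * x.1 := by
      refine ⟨(r2 : ℤ) * x.2 - r3 * x.1 - q' * D2 * x.2 + q' * β * x.1, ?_⟩
      rw [hqz] at j3' j2'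
      linear_combination (x.2 : ℤ) * j2' - (x.1 : ℤ) * j3'
    refine ⟨t5 + k * w1 + l * w2 + g * k ^ 2 - 2 * β * k * l + D2 * l ^ 2, ?_⟩
    have hx : (y.1 : ℤ) = x.1 + 4 * k := by linear_combination hk
    have hy : (y.2 : ℤ) = x.2 + 4 * l := by linear_combination hl
    unfold phi at k5 ⊢
    rw [hx, hy]
    linear_combination k5 + 8 * k * hw1 + 8 * l * hw2
  · have hk : k2 m = 2 := if_neg (by omega)
    rw [hk] at h1 h2
    rw [P2_odd hm] at h ⊢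
    obtain ⟨k, hk⟩ := (Nat.modEq_iff_dvd).1 h1
    obtain ⟨l, hl⟩ := (Nat.modEq_iff_dvd).1 h2
    obtain ⟨⟨t1, k1⟩, ⟨t5, k5⟩⟩ := h
    push_cast at hk hl
    refine ⟨⟨t1 + e * k, by linear_combination k1 + (e : ℤ) * hk⟩, ?_⟩
    have hx : (y.1 : ℤ) = x.1 + 2 * k := by linear_combination hk
    have hy : (y.2 : ℤ) = x.2 + 2 * l := by linear_combination hl
    refine ⟨t5 + g * (k * x.1 + k ^ 2) - β * (l * x.1 + k * x.2 + 2 * k * l) +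
      D2 * (l * x.2 + l ^ 2), ?_⟩
    unfold phi at k5 ⊢
    rw [hx, hy]
    linear_combination k5

theorem P2_mod {q m : ℕ} {b : ℤ} {e β D2 g : ℕ} (hq : q % 2 = 1) (x : ℕ × ℕ) :
    P2 q m b e β D2 g x.1 x.2 ↔ P2 q m b e β D2 g (x.1 % k2 m) (x.2 % k2 m) :=
  ⟨P2_of (y := (x.1 % k2 m, x.2 % k2 m)) hq (Nat.mod_modEq _ _).symm (Nat.mod_modEq _ _).symm,
    P2_of (x := (x.1 % k2 m, x.2 % k2 m)) hq (Nat.mod_modEq _ _) (Nat.mod_modEq _ _)⟩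

theorem mo_k2 (m : ℕ) : mo m * k2 m = 2 * m := by
  unfold mo k2
  split_ifs with h <;> omega

theorem mo_half (m : ℕ) : m = mo m * (k2 m / 2) := by
  unfold mo k2
  split_ifs with h <;> omega

theorem cop {m : ℕ} (hm : m % 4 = 1 ∨ m % 4 = 2) : Nat.Coprime (mo m) (k2 m) := by
  have h1 : mo m % 2 = 1 := by
    unfold mo
    split_ifs with h <;> omega
  have h2 : Nat.Coprime (mo m) 2 := (Nat.coprime_two_right).2 (Nat.odd_iff.2 h1)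
  unfold k2
  split_ifs with h
  · exact Nat.Coprime.pow_right 2 h2
  · exact h2

theorem a_dvd (m : ℕ) : mo m ∣ m := ⟨_, mo_half m⟩

theorem cop_q {q m : ℕ} (h : Cm q m) : IsCoprime (q : ℤ) (mo m : ℤ) := by
  rw [Nat.isCoprime_iff_coprime]
  have h1 : Nat.Prime q := by
    rcases h.cl with ⟨h2, -⟩ | ⟨h2, -⟩ <;> rw [h2] <;> norm_num
  rw [Nat.Prime.coprime_iff_not_dvd h1]
  intro h2
  have h3 : q ∣ m := h2.trans (a_dvd m)
  rcases h.cl with ⟨h4, h5⟩ | ⟨h4, h5⟩ <;> rw [h4] at h3 <;> omega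

theorem Pf_iff {q m : ℕ} {b : ℤ} (hC : Cm q m) {e β D2 g : ℕ} (hg : D2 * g = β ^ 2 + m)
    (x : ℕ × ℕ) : Pf q m b e β D2 g x.1 x.2 ↔
      P1 e b (q * D2) (q * β) (q * g) (mo m) x ∧ P2 q m b e β D2 g x.1 x.2 := by
  have hcop := cop hC.md
  have hcz : IsCoprime (mo m : ℤ) (k2 m : ℤ) := Nat.isCoprime_iff_coprime.2 hcop
  have hc2 : Nat.Coprime (mo m) (k2 m / 2) := by
    apply Nat.Coprime.coprime_dvd_right _ hcop
    unfold k2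
    split_ifs
    · exact ⟨2, rfl⟩
    · exact ⟨2, rfl⟩
  have e2m : (2 * m : ℤ) = mo m * k2 m := by exact_mod_cast (mo_k2 m).symm
  have e4m : (4 * m ^ 2 : ℤ) = (mo m : ℤ) ^ 2 * (k2 m : ℤ) ^ 2 := by
    linear_combination (2 * (m : ℤ) + mo m * k2 m) * e2m
  have hm : ∀ X : ℕ, m ∣ X ↔ mo m ∣ X ∧ k2 m / 2 ∣ X := by
    intro X
    constructor
    · intro h
      rw [mo_half m] at h
      exact ⟨(Dvd.intro _ rfl).trans h, (Dvd.intro_left _ rfl).trans h⟩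
    · rintro ⟨h1, h2⟩
      rw [mo_half m]
      exact hc2.mul_dvd_of_dvd_of_dvd h1 h2
  unfold Pf P1 P2
  constructor
  · rintro ⟨h1, h2, h3, h4, h5⟩
    rw [e2m] at h1
    rw [e4m] at h5
    exact ⟨⟨(Dvd.intro _ rfl).trans h1, ((hm _).1 h2).1, ((hm _).1 h3).1, ((hm _).1 h4).1⟩,
      (Dvd.intro_left _ rfl).trans h1, ((hm _).1 h2).2, ((hm _).1 h3).2, ((hm _).1 h4).2,
      (Dvd.intro_left _ rfl).trans h5⟩
  · rintro ⟨⟨a1, a2, a3, a4⟩, b1, b2, b3, b4, b5⟩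
    refine ⟨?_, (hm _).2 ⟨a2, b2⟩, (hm _).2 ⟨a3, b3⟩, (hm _).2 ⟨a4, b4⟩, ?_⟩
    · rw [e2m]
      exact hcz.mul_dvd a1 b1
    · rw [e4m]
      refine (hcz.pow (m := 2) (n := 2)).mul_dvd ?_ b5
      have a2' : (mo m : ℤ) ∣ (x.1 : ℤ) ^ 2 + q * D2 := by exact_mod_cast a2
      have a3' : (mo m : ℤ) ∣ (q : ℤ) * β + x.1 * x.2 := by exact_mod_cast a3
      have a4' : (mo m : ℤ) ∣ (q : ℤ) * g + (x.2 : ℤ) ^ 2 := by exact_mod_cast a4
      have hgz : (D2 : ℤ) * g = (β : ℤ) ^ 2 + m := by exact_mod_cast hg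
      have h6 : (q : ℤ) * (phi g β D2 x.1 x.2 + q * m) =
          ((x.1 : ℤ) ^ 2 + q * D2) * ((q : ℤ) * g + (x.2 : ℤ) ^ 2) -
          ((q : ℤ) * β + x.1 * x.2) ^ 2 := by
        unfold phi
        linear_combination (-(q : ℤ) ^ 2) * hgz
      have h7 : (mo m : ℤ) ^ 2 ∣ (q : ℤ) * (phi g β D2 x.1 x.2 + q * m) := by
        rw [h6]
        apply dvd_sub
        · rw [pow_two]
          exact mul_dvd_mul a2' a4'
        · exact pow_dvd_pow_of_dvd a3' 2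
      exact ((cop_q hC).pow_right (n := 2)).symm.dvd_of_dvd_mul_left h7

end CRT

open CRT

theorem t_CRT : S_CRT := by
  intro q m b hC e β D2 g _ hg
  have hm : 0 < m := by
    rcases hC.md with h | h <;> omega
  have ha : mo m ≠ 0 := by
    intro h
    have h1 := mo_k2 m
    rw [h, zero_mul] at h1
    omega
  have hk : k2 m ≠ 0 := by
    intro h
    have h1 := mo_k2 m
    rw [h, mul_zero] at h1
    omega
  have hq : q % 2 = 1 := by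
    rcases hC.cl with ⟨h2, -⟩ | ⟨h2, -⟩ <;> rw [h2]
  classical
  rw [C_eq _ _ _ _ _ _ (Nat.pos_of_ne_zero ha)]
  unfold NF ZZ
  have h1 := card_split (mo m) (k2 m) ha hk (cop hC.md) (fun x => Pf q m b e β D2 g x.1 x.2)
    (P1 e b (q * D2) (q * β) (q * g) (mo m)) (fun x => P2 q m b e β D2 g x.1 x.2)
    (fun x => Pf_iff hC hg x) P1_mod (P2_mod hq)
  rw [mo_k2] at h1
  have e1 : ((range (mo m) ×ˢ range (mo m)).filter fun p : ℕ × ℕ =>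
      (mo m : ℤ) ∣ e * p.1 - b ∧ mo m ∣ p.1 ^ 2 + q * D2 ∧ mo m ∣ q * β + p.1 * p.2 ∧
        mo m ∣ q * g + p.2 ^ 2).card =
      ((range (mo m) ×ˢ range (mo m)).filter
        (P1 e b (q * D2) (q * β) (q * g) (mo m))).card := by
    congr 1
    ext p
    rw [mem_filter, mem_filter]
    rfl
  rw [e1]
  exact h1

end

end Pool.Agent.XW
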