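import Pool.Agent.XW.PCD

/-!
# Project XW-10e: the character at two of the binary form (quadratic reciprocity)

`f = phi g β D2` is a primitive positive definite form of discriminant `-4 m`; it represents a number
`r` prime to `2 m`; `-m` is a square modulo `r` and `-q r` is a square modulo the odd part of `m`, and
quadratic reciprocity gives the class of `q r` modulo `8`; the other odd values differ by values of
`x² + m y²`.
-/

set_option autoImplicit false

namespace Pool.Agent.XW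

open Finset

namespace Rcp

/-! ### quadratic reciprocity -/

theorem rec_odd {q m R : ℕ} (hm : m % 4 = 1) (hR : R % 2 = 1)
    (hcl : (q = 5 ∧ (m % 5 = 2 ∨ m % 5 = 3)) ∨ (q = 3 ∧ m % 3 = 1))
    (h1 : jacobiSym (-(m : ℤ)) R = 1) (h2 : jacobiSym (-((q : ℤ) * R)) m = 1) :
    (q * R) % 4 = 3 := by
  have hRo : Odd R := Nat.odd_iff.2 hR
  have hmo : Odd m := Nat.odd_iff.2 (by omega)
  have e1 : jacobiSym (-1) R * jacobiSym m R = 1 := by
    rw [← jacobiSym.mul_left, neg_one_mul]; exact h1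
  have e2 : jacobiSym (-1) m * (jacobiSym q m * jacobiSym R m) = 1 := by
    rw [← jacobiSym.mul_left, ← jacobiSym.mul_left, neg_one_mul]; exact h2
  have e3 : jacobiSym (m : ℤ) R = jacobiSym (R : ℤ) m :=
    jacobiSym.quadratic_reciprocity_one_mod_four hm hRo
  have e4 : jacobiSym (-1) m = 1 := by
    rw [jacobiSym.at_neg_one hmo]
    exact ZMod.χ₄_nat_one_mod_four hm
  have hq : Odd q := by rcases hcl with ⟨rfl, -⟩ | ⟨rfl, -⟩ <;> decide
  have e5 : jacobiSym (q : ℤ) m = jacobiSym (m : ℤ) q :=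
    (jacobiSym.quadratic_reciprocity_one_mod_four hm hq).symm
  have e6 : jacobiSym (m : ℤ) q = if q = 5 then -1 else 1 := by
    rcases hcl with ⟨rfl, h | h⟩ | ⟨rfl, h⟩
    · rw [jacobiSym.mod_left, show ((m : ℤ) % ((5 : ℕ) : ℤ)) = 2 by omega]
      norm_num
    · rw [jacobiSym.mod_left, show ((m : ℤ) % ((5 : ℕ) : ℤ)) = 3 by omega]
      norm_num
    · rw [jacobiSym.mod_left, show ((m : ℤ) % ((3 : ℕ) : ℤ)) = 1 by omega]
      norm_num
  rw [e4, one_mul, e5, e6] at e2
  rw [e3] at e1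
  have e7 : jacobiSym (-1) R = ZMod.χ₄ R := jacobiSym.at_neg_one hRo
  rw [ZMod.χ₄_nat_eq_if_mod_four] at e7
  have hR4 : R % 4 = 1 ∨ R % 4 = 3 := by omega
  rcases hcl with ⟨rfl, -⟩ | ⟨rfl, -⟩
  · rcases hR4 with h | h
    · rw [if_neg (by omega), if_pos h] at e7
      rw [e7] at e1
      rw [if_pos rfl] at e2
      omega
    · omega
  · rcases hR4 with h | h
    · omega
    · rw [if_neg (by omega), if_neg (by omega)] at e7
      rw [e7] at e1
      rw [if_neg (by norm_num)] at e2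
      omega

theorem rec_even {q m R : ℕ} (hm : m % 2 = 1) (hR : R % 2 = 1)
    (hcl : (q = 5 ∧ ((2 * m) % 5 = 2 ∨ (2 * m) % 5 = 3)) ∨ (q = 3 ∧ (2 * m) % 3 = 1))
    (h1 : jacobiSym (-(2 * (m : ℤ))) R = 1) (h2 : jacobiSym (-((q : ℤ) * R)) m = 1) :
    (q * R) % 8 = 7 ∨ (m % 4 = 1 ∧ (q * R) % 8 = 5) ∨ (m % 4 = 3 ∧ (q * R) % 8 = 1) := by
  have hRo : Odd R := Nat.odd_iff.2 hR
  have hmo : Odd m := Nat.odd_iff.2 (by omega)
  have e1 : jacobiSym (-2) R * jacobiSym m R = 1 := by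
    rw [← jacobiSym.mul_left, neg_mul]; exact h1
  have e2 : jacobiSym (-1) m * (jacobiSym q m * jacobiSym R m) = 1 := by
    rw [← jacobiSym.mul_left, ← jacobiSym.mul_left, neg_one_mul]; exact h2
  have e6 : jacobiSym (m : ℤ) q = if q = 5 then 1 else -1 := by
    rcases hcl with ⟨rfl, h | h⟩ | ⟨rfl, h⟩
    · rw [jacobiSym.mod_left, show ((m : ℤ) % ((5 : ℕ) : ℤ)) = 1 by omega]
      norm_num
    · rw [jacobiSym.mod_left, show ((m : ℤ) % ((5 : ℕ) : ℤ)) = 4 by omega]
      norm_num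
    · rw [jacobiSym.mod_left, show ((m : ℤ) % ((3 : ℕ) : ℤ)) = 2 by omega]
      norm_num
  have hq : Odd q := by rcases hcl with ⟨rfl, -⟩ | ⟨rfl, -⟩ <;> decide
  have e7 : jacobiSym (-2) R = ZMod.χ₈' R := jacobiSym.at_neg_two hRo
  rw [ZMod.χ₈'_nat_eq_if_mod_eight] at e7
  have hm4 : m % 4 = 1 ∨ m % 4 = 3 := by omega
  have hR8 : R % 8 = 1 ∨ R % 8 = 3 ∨ R % 8 = 5 ∨ R % 8 = 7 := by omega
  rcases hm4 with h4 | h4
  · have e3 : jacobiSym (m : ℤ) R = jacobiSym (R : ℤ) m :=
      jacobiSym.quadratic_reciprocity_one_mod_four h4 hRo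
    have e4 : jacobiSym (-1) m = 1 := by
      rw [jacobiSym.at_neg_one hmo]
      exact ZMod.χ₄_nat_one_mod_four h4
    have e5 : jacobiSym (q : ℤ) m = jacobiSym (m : ℤ) q :=
      (jacobiSym.quadratic_reciprocity_one_mod_four h4 hq).symm
    rw [e4, one_mul, e5, e6] at e2
    rw [e3] at e1
    rcases hcl with ⟨rfl, -⟩ | ⟨rfl, -⟩
    · rw [if_pos rfl] at e2
      rcases hR8 with h | h | h | h
      · omega
      · omega
      · rw [if_neg (by omega), if_neg (by omega)] at e7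
        rw [e7] at e1
        omega
      · rw [if_neg (by omega), if_neg (by omega)] at e7
        rw [e7] at e1
        omega
    · rw [if_neg (by norm_num)] at e2
      rcases hR8 with h | h | h | h
      · rw [if_neg (by omega), if_pos (by omega)] at e7
        rw [e7] at e1
        omega
      · rw [if_neg (by omega), if_pos (by omega)] at e7
        rw [e7] at e1
        omega
      · omega
      · omega
  · have e4 : jacobiSym (-1) m = -1 := by
      rw [jacobiSym.at_neg_one hmo]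
      exact ZMod.χ₄_nat_three_mod_four h4
    have e5 : jacobiSym (q : ℤ) m = 1 := by
      rcases hcl with ⟨rfl, -⟩ | ⟨rfl, -⟩
      · rw [jacobiSym.quadratic_reciprocity_one_mod_four (a := 5) (by norm_num) hmo, e6]
        simp
      · rw [jacobiSym.quadratic_reciprocity_three_mod_four (a := 3) (by norm_num) h4, e6]
        simp
    rw [e4, e5, one_mul] at e2
    have hR4 : R % 4 = 1 ∨ R % 4 = 3 := by omega
    have key : R % 8 = 3 ∨ R % 8 = 5 := by
      rcases hR4 with h | h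
      · have e3 : jacobiSym (m : ℤ) R = jacobiSym (R : ℤ) m :=
          (jacobiSym.quadratic_reciprocity_one_mod_four h hmo).symm
        rw [e3] at e1
        rcases hR8 with h8 | h8 | h8 | h8
        · rw [if_neg (by omega), if_pos (by omega)] at e7
          rw [e7] at e1
          omega
        · omega
        · omega
        · omega
      · have e3 : jacobiSym (m : ℤ) R = -jacobiSym (R : ℤ) m :=
          jacobiSym.quadratic_reciprocity_three_mod_four h4 h
        rw [e3] at e1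
        rcases hR8 with h8 | h8 | h8 | h8
        · omega
        · omega
        · omega
        · rw [if_neg (by omega), if_neg (by omega)] at e7
          rw [e7] at e1
          omega
    rcases hcl with ⟨rfl, -⟩ | ⟨rfl, -⟩ <;> omega

end Rcp

open Rcp in
/-- **XW-10e**: the character at two of the binary form. -/
theorem t_REC : S_REC := by
  intro q m hC β D2 g hg μ ν h1 h2 h3 s t hodd
  obtain ⟨hsq, hmd, hcl⟩ := hC
  have hm0 : 0 < m := by omega
  have hgZ : (D2 : ℤ) * g = β ^ 2 + m := by exact_mod_cast hg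
  have hg0 : 0 < g := by
    rcases Nat.eq_zero_or_pos g with h | h
    · rw [h, mul_zero] at hg; omega
    · exact h
  have hmo : mo m % 2 = 1 := by
    unfold mo
    split_ifs with h <;> omega
  have hmom : mo m ∣ m := by
    unfold mo
    split_ifs with h
    · exact Nat.div_dvd_of_dvd (Nat.dvd_of_mod_eq_zero h)
    · exact dvd_rfl
  have hmosq : Squarefree (mo m) := hsq.squarefree_of_dvd hmom
  have hqm : Nat.Coprime q (mo m) := by
    refine Nat.Coprime.coprime_dvd_right hmom ?_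
    rcases hcl with ⟨rfl, h⟩ | ⟨rfl, h⟩
    · rw [Nat.Prime.coprime_iff_not_dvd Nat.prime_five]; omega
    · rw [Nat.Prime.coprime_iff_not_dvd Nat.prime_three]; omega
  -- the auxiliary value
  obtain ⟨k, hk⟩ : ∃ k, k = 2 * mo m := ⟨_, rfl⟩
  have hksq : Squarefree k := by
    rw [hk, Nat.squarefree_mul_iff]
    exact ⟨Nat.coprime_two_left.2 (Nat.odd_iff.2 hmo), Nat.prime_two.squarefree, hmosq⟩
  have hk0 : 0 < k := by omega
  obtain ⟨s0, hs0⟩ : ∃ s0, s0 = Nat.gcd k g := ⟨_, rfl⟩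
  obtain ⟨t0, ht0⟩ : ∃ t0, k = s0 * t0 := by rw [hs0]; exact Nat.gcd_dvd_left k g
  have ht00 : 0 < t0 := by
    rcases Nat.eq_zero_or_pos t0 with h | h
    · rw [h, mul_zero] at ht0; omega
    · exact h
  have hcop : Nat.Coprime s0 t0 := Nat.coprime_of_squarefree_mul (ht0 ▸ hksq)
  obtain ⟨r, hr⟩ : ∃ r : ℤ, r = phi g β D2 s0 t0 := ⟨_, rfl⟩
  have hr' : r = g * s0 ^ 2 - 2 * β * (s0 * t0) + D2 * t0 ^ 2 := hr
  have hrpos : 0 < r := by
    have e1 : (g : ℤ) * r = (g * s0 - β * t0) ^ 2 + m * t0 ^ 2 := by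
      rw [hr']; linear_combination (t0 : ℤ) ^ 2 * hgZ
    have e2 : 0 < (g : ℤ) * r := by
      rw [e1]
      have : 0 < (m : ℤ) * t0 ^ 2 := by positivity
      positivity
    exact (mul_pos_iff_of_pos_left (by exact_mod_cast hg0)).1 e2
  obtain ⟨R, hR⟩ : ∃ R : ℕ, (R : ℤ) = r := ⟨r.toNat, Int.toNat_of_nonneg hrpos.le⟩
  -- it is prime to `2 m`
  have hRk : Nat.Coprime R k := by
    refine Nat.Coprime.symm (Nat.Coprime.symm (Nat.coprime_of_dvd fun l hl hlR hlk => ?_))
    have hlr : (l : ℤ) ∣ r := by rw [← hR]; exact_mod_cast hlR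
    have hlp : Prime (l : ℤ) := Nat.prime_iff_prime_int.1 hl
    by_cases hls : l ∣ s0
    · have hlt : ¬ l ∣ t0 := fun h => by
        have := Nat.dvd_gcd hls h
        rw [hcop] at this
        exact hl.one_lt.ne' (Nat.dvd_one.1 this)
      have hlg : l ∣ g := hls.trans (hs0 ▸ Nat.gcd_dvd_right k g)
      have hlsZ : (l : ℤ) ∣ s0 := by exact_mod_cast hls
      have h5 : (l : ℤ) ∣ D2 * t0 ^ 2 := by
        have e : (D2 : ℤ) * t0 ^ 2 = r - s0 * (g * s0 - 2 * β * t0) := by rw [hr']; ring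
        rw [e]
        exact dvd_sub hlr (hlsZ.mul_right _)
      have h6 : l ∣ D2 := by
        rcases hlp.dvd_or_dvd h5 with h | h
        · exact_mod_cast h
        · exact absurd (by exact_mod_cast hlp.dvd_of_dvd_pow h) hlt
      have h7 : l * l ∣ β ^ 2 + m := by rw [← hg]; exact mul_dvd_mul h6 hlg
      rcases hl.eq_two_or_odd with h8 | h8
      · subst h8
        obtain ⟨c, hc⟩ := h7
        have h9 : β ^ 2 % 4 = 0 ∨ β ^ 2 % 4 = 1 := by
          have : β % 4 = 0 ∨ β % 4 = 1 ∨ β % 4 = 2 ∨ β % 4 = 3 := by omega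
          rcases this with h | h | h | h <;> rw [Nat.pow_mod, h] <;> norm_num
        omega
      · have hlm : l ∣ m := by
          refine Dvd.dvd.trans ?_ hmom
          rw [hk] at hlk
          rcases (Nat.Prime.dvd_mul hl).1 hlk with h | h
          · have := (Nat.prime_dvd_prime_iff_eq hl Nat.prime_two).1 h
            omega
          · exact h
        have hlβ : l ∣ β := by
          have : l ∣ β ^ 2 := (Nat.dvd_add_left hlm).1 ((Dvd.intro _ rfl).trans h7)
          exact hl.dvd_of_dvd_pow this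
        have h9 : l * l ∣ m := by
          have : l * l ∣ β ^ 2 := by rw [pow_two]; exact mul_dvd_mul hlβ hlβ
          exact (Nat.dvd_add_right this).1 h7
        exact hl.one_lt.ne' (Nat.isUnit_iff.1 (hsq l h9))
    · have hlt : l ∣ t0 := by
        rw [ht0] at hlk
        exact ((Nat.Prime.dvd_mul hl).1 hlk).resolve_left hls
      have hltZ : (l : ℤ) ∣ t0 := by exact_mod_cast hlt
      have h5 : (l : ℤ) ∣ g * s0 ^ 2 := by
        have e : (g : ℤ) * s0 ^ 2 = r - t0 * (D2 * t0 - 2 * β * s0) := by rw [hr']; ring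
        rw [e]
        exact dvd_sub hlr (hltZ.mul_right _)
      rcases hlp.dvd_or_dvd h5 with h | h
      · apply hls
        rw [hs0]
        exact Nat.dvd_gcd hlk (by exact_mod_cast h)
      · exact hls (by exact_mod_cast hlp.dvd_of_dvd_pow h)
  have hR2 : R % 2 = 1 := by
    have : Nat.Coprime R 2 := Nat.Coprime.coprime_dvd_right (hk ▸ Dvd.intro _ rfl) hRk
    exact Nat.odd_iff.1 (Nat.coprime_two_right.1 this)
  have hRm : Nat.Coprime R (mo m) :=
    Nat.Coprime.coprime_dvd_right (hk ▸ Dvd.intro_left _ rfl) hRk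
  have hRm2 : Nat.Coprime R m := by
    have h5 : m ∣ 2 * mo m := by
      unfold mo
      split_ifs with h
      · rw [Nat.mul_div_cancel' (Nat.dvd_of_mod_eq_zero h)]
      · exact Dvd.intro_left _ rfl
    exact Nat.Coprime.coprime_dvd_right h5 (hk ▸ hRk)
  -- `-m` is a square modulo `r`
  have j1 : jacobiSym (-(m : ℤ)) R = 1 := by
    obtain ⟨u, v, huv⟩ : ∃ u v : ℤ, (s0 : ℤ) * u + t0 * v = 1 := by
      have := Nat.gcd_eq_gcd_ab s0 t0
      rw [hcop] at this
      exact ⟨_, _, by exact_mod_cast this.symm⟩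
    obtain ⟨B, hB⟩ : ∃ B : ℤ, B = -(g * s0 * v) - β * (s0 * u - v * t0) + D2 * t0 * u :=
      ⟨_, rfl⟩
    have e1 : r * (g * v ^ 2 + 2 * β * (v * u) + D2 * u ^ 2) = B ^ 2 + m := by
      rw [hr', hB]
      linear_combination ((s0 : ℤ) * u + t0 * v) ^ 2 * hgZ + (m : ℤ) * (s0 * u + t0 * v + 1) * huv
    have e2 : (-(m : ℤ)) % R = (B ^ 2) % R := by
      refine Int.modEq_iff_dvd.2 ⟨g * v ^ 2 + 2 * β * (v * u) + D2 * u ^ 2, ?_⟩
      rw [hR]
      linear_combination -e1
    rw [jacobiSym.mod_left' e2]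
    apply jacobiSym.sq_one'
    have d1 : (Int.gcd B R : ℤ) ∣ B := Int.gcd_dvd_left ..
    have d2 : (Int.gcd B R : ℤ) ∣ R := Int.gcd_dvd_right ..
    have d3 : (Int.gcd B R : ℤ) ∣ m := by
      have e : (m : ℤ) = r * (g * v ^ 2 + 2 * β * (v * u) + D2 * u ^ 2) - B * B := by
        linear_combination -e1
      rw [e]
      exact dvd_sub (Dvd.dvd.mul_right (hR ▸ d2) _) (d1.mul_right _)
    have d4 : Int.gcd B R ∣ Nat.gcd R m :=
      Nat.dvd_gcd (by exact_mod_cast d2) (by exact_mod_cast d3)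
    rw [hRm2] at d4
    exact Nat.dvd_one.1 d4
  -- `-q r` is a square modulo `m`
  have j2 : jacobiSym (-((q : ℤ) * R)) (mo m) = 1 := by
    obtain ⟨c1, hc1⟩ : (mo m : ℤ) ∣ μ ^ 2 + q * D2 := by exact_mod_cast h1
    obtain ⟨c2, hc2⟩ : (mo m : ℤ) ∣ q * β + μ * ν := by exact_mod_cast h2
    obtain ⟨c3, hc3⟩ : (mo m : ℤ) ∣ q * g + ν ^ 2 := by exact_mod_cast h3
    obtain ⟨A, hA⟩ : ∃ A : ℤ, A = t0 * μ - s0 * ν := ⟨_, rfl⟩
    have e1 : A ^ 2 + q * r = mo m * (t0 ^ 2 * c1 - 2 * (s0 * t0) * c2 + s0 ^ 2 * c3) := by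
      rw [hA, hr']
      linear_combination (t0 : ℤ) ^ 2 * hc1 - 2 * (s0 * t0 : ℤ) * hc2 + (s0 : ℤ) ^ 2 * hc3
    have e2 : (-((q : ℤ) * R)) % (mo m) = (A ^ 2) % (mo m) := by
      refine Int.modEq_iff_dvd.2 ⟨t0 ^ 2 * c1 - 2 * (s0 * t0) * c2 + s0 ^ 2 * c3, ?_⟩
      rw [hR]
      linear_combination e1
    rw [jacobiSym.mod_left' e2]
    apply jacobiSym.sq_one'
    have d1 : (Int.gcd A (mo m) : ℤ) ∣ A := Int.gcd_dvd_left ..
    have d2 : (Int.gcd A (mo m) : ℤ) ∣ mo m := Int.gcd_dvd_right ..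
    have d3 : (Int.gcd A (mo m) : ℤ) ∣ (q * R : ℕ) := by
      have e : ((q * R : ℕ) : ℤ) = mo m * (t0 ^ 2 * c1 - 2 * (s0 * t0) * c2 + s0 ^ 2 * c3) -
          A * A := by
        push_cast
        rw [hR]
        linear_combination e1
      rw [e]
      exact dvd_sub (d2.mul_right _) (d1.mul_right _)
    have d4 : Int.gcd A (mo m) ∣ Nat.gcd (q * R) (mo m) :=
      Nat.dvd_gcd (by exact_mod_cast d3) (by exact_mod_cast d2)
    have d5 : Nat.Coprime (q * R) (mo m) := Nat.Coprime.mul_left hqm hRm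
    rw [d5] at d4
    exact Nat.dvd_one.1 d4
  -- the class of `q r` modulo `8`
  obtain ⟨x, y, hxy⟩ : ∃ x y : ℤ, (8 : ℤ) ∣ q * r + x ^ 2 + m * y ^ 2 := by
    rw [← hR]
    rcases hmd with hm | hm
    · have hmm : mo m = m := by unfold mo; rw [if_neg (by omega)]
      rw [hmm] at j2
      have h5 := rec_odd hm hR2 hcl j1 j2
      have h6 : (q * R) % 8 = 3 ∨ (q * R) % 8 = 7 := by omega
      rcases h6 with h6 | h6
      · refine ⟨1, 2, ?_⟩
        have : ((q * R : ℕ) : ℤ) % 8 = 3 := by omega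
        push_cast at this
        omega
      · refine ⟨1, 0, ?_⟩
        have : ((q * R : ℕ) : ℤ) % 8 = 7 := by omega
        push_cast at this
        omega
    · have hmm : m = 2 * mo m := by unfold mo; rw [if_pos (by omega)]; omega
      obtain ⟨m', hm'⟩ : ∃ m', m' = mo m := ⟨_, rfl⟩
      rw [← hm'] at hmm j2 hmo
      have j1' : jacobiSym (-(2 * (m' : ℤ))) R = 1 := by
        rw [hmm] at j1
        push_cast at j1
        exact j1
      have h5 := rec_even hmo hR2 (by rw [← hmm]; exact hcl) j1' j2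
      rcases h5 with h6 | ⟨h5, h6⟩ | ⟨h5, h6⟩
      · refine ⟨1, 0, ?_⟩
        have : ((q * R : ℕ) : ℤ) % 8 = 7 := by omega
        push_cast at this
        omega
      · refine ⟨1, 1, ?_⟩
        have : ((q * R : ℕ) : ℤ) % 8 = 5 := by omega
        push_cast at this
        omega
      · refine ⟨1, 1, ?_⟩
        have : ((q * R : ℕ) : ℤ) % 8 = 1 := by omega
        push_cast at this
        omega
  -- all odd values
  obtain ⟨X, hX⟩ : ∃ X : ℤ, X = g * s0 * s - β * (s0 * t + s * t0) + D2 * t0 * t := ⟨_, rfl⟩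
  obtain ⟨Y, hY⟩ : ∃ Y : ℤ, Y = s0 * t - s * t0 := ⟨_, rfl⟩
  have hF : r * phi g β D2 s t = X ^ 2 + m * Y ^ 2 := by
    rw [hr', hX, hY]
    unfold phi
    linear_combination (s0 * t - s * t0 : ℤ) ^ 2 * hgZ
  have hr8 : (8 : ℤ) ∣ r ^ 2 - 1 := by
    have : r % 2 = 1 := by omega
    have h5 : r % 8 = 1 ∨ r % 8 = 3 ∨ r % 8 = 5 ∨ r % 8 = 7 := by omega
    apply Int.dvd_of_emod_eq_zero
    rcases h5 with h | h | h | h <;> rw [Int.sub_emod, pow_two, Int.mul_emod, h] <;> norm_num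
  obtain ⟨a, ha⟩ := hr8
  obtain ⟨b, hb⟩ := hxy
  refine ⟨x * X - m * y * Y, x * Y + y * X, ?_⟩
  refine ⟨b * (X ^ 2 + m * Y ^ 2) - a * (q * phi g β D2 s t), ?_⟩
  linear_combination (X ^ 2 + m * Y ^ 2) * hb - (q * phi g β D2 s t) * ha + (q * r : ℤ) * hF

end Pool.Agent.XW
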