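import Pool.Agent.XW.PCD
import Pool.Agent.XV.PCX

/-!
# Project XW-10d: the number of the pairs `(e, β)`
-/

set_option autoImplicit false

namespace Pool.Agent.XW

open Finset ArithmeticFunction
open Pool.Agent.Z700 (hh)
open Pool.Agent.Y155.Z7 (R S R_eq R_one S_prod S_unram S_ram S_pow S_zero S_one S_step)

namespace PCtr

theorem card_TR {q m D : ℕ} (hD : 0 < D) (hq : 0 < q) :
    (TR q m D).card = if q ∣ D then S m (D / q) else 0 := by
  unfold TR
  rw [Finset.card_biUnion]
  · split_ifs with h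
    · unfold Pool.Agent.Y155.Z7.S
      have hD1 : 0 < D / q := Nat.div_pos (Nat.le_of_dvd hD h) hq
      have hset : ((range (D + 1)).filter fun e => 0 < e ∧ q * e ^ 2 ∣ D) =
          (range (D / q + 1)).filter fun e => 0 < e ∧ e ^ 2 ∣ D / q := by
        ext e
        rw [Finset.mem_filter, Finset.mem_filter, Finset.mem_range, Finset.mem_range]
        have h1 : q * e ^ 2 ∣ D ↔ e ^ 2 ∣ D / q := (Nat.dvd_div_iff_mul_dvd h).symm
        constructor
        · rintro ⟨_, h3, h4⟩
          refine ⟨?_, h3, h1.1 h4⟩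
          have := Nat.le_of_dvd hD1 (h1.1 h4)
          nlinarith
        · rintro ⟨h2, h3, h4⟩
          exact ⟨h2.trans_le (Nat.succ_le_succ (Nat.div_le_self D q)), h3, h1.2 h4⟩
      rw [hset]
      refine Finset.sum_congr rfl fun e he => ?_
      have he := Finset.mem_filter.1 he
      rw [Finset.card_image_of_injective _ fun x y h => (Prod.ext_iff.1 h).2, ← Nat.div_div_eq_div_mul]
      exact (R_eq m _ (Nat.div_pos (Nat.le_of_dvd hD1 he.2.2) (pow_pos he.2.1 2))).symm
    · refine Finset.sum_eq_zero fun e he => ?_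
      have he := Finset.mem_filter.1 he
      exact absurd ((dvd_mul_right q _).trans he.2.2) h
  · intro e _ e' _ hee
    rw [Function.onFun, Finset.disjoint_left]
    intro t ht ht'
    obtain ⟨β, _, rfl⟩ := Finset.mem_image.1 ht
    obtain ⟨β', _, h⟩ := Finset.mem_image.1 ht'
    exact hee (Prod.ext_iff.1 h).1.symm

theorem R_two {m : ℕ} (hm : m % 4 = 1) : R m 2 = 1 := by
  rw [R_eq m 2 (by norm_num)]
  have h : ((range 2).filter fun x => 2 ∣ x ^ 2 + m) = {1} := by
    ext x
    rw [Finset.mem_filter, Finset.mem_range, Finset.mem_singleton]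
    constructor
    · rintro ⟨h1, h2⟩
      have : x = 0 ∨ x = 1 := by omega
      rcases this with rfl | rfl
      · rw [zero_pow two_ne_zero, zero_add] at h2
        omega
      · rfl
    · rintro rfl
      exact ⟨by norm_num, by rw [one_pow]; omega⟩
  rw [h, Finset.card_singleton]

theorem R_four {m : ℕ} (hm : m % 4 = 1) (k : ℕ) : R m (2 ^ (k + 2)) = 0 := by
  rw [R_eq m _ (pow_pos (by norm_num) _), Finset.card_eq_zero, Finset.filter_eq_empty_iff]
  intro x _ h
  have h4 : 4 ∣ x ^ 2 + m := (Dvd.intro_left (2 ^ k) (by rw [pow_add]; norm_num)).trans h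
  have h5 : x ^ 2 % 4 = 0 ∨ x ^ 2 % 4 = 1 := by
    have h6 : x % 4 = 0 ∨ x % 4 = 1 ∨ x % 4 = 2 ∨ x % 4 = 3 := by omega
    rw [Nat.pow_mod]
    rcases h6 with h | h | h | h <;> rw [h] <;> norm_num
  omega

theorem S_two {m : ℕ} (hm : m % 4 = 1) (V : ℕ) : S m (2 ^ V) = 1 := by
  have h0 : 0 < m := by omega
  induction V using Nat.twoStepInduction with
  | zero => exact S_zero m h0 2 Nat.prime_two
  | one => exact (S_one m h0 2 Nat.prime_two).trans (R_two hm)
  | more V ih _ => rw [S_step m h0 2 Nat.prime_two, ih, R_four hm]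

theorem sym_four {m l : ℕ} (hl : l.Prime) (hl2 : l ≠ 2) :
    jacobiSym (-((4 * m : ℕ) : ℤ)) l = jacobiSym (-(m : ℤ)) l := by
  have e : (-((4 * m : ℕ) : ℤ)) = 2 ^ 2 * (-(m : ℤ)) := by
    push_cast
    ring
  rw [e, jacobiSym.mul_left, jacobiSym.sq_one', one_mul]
  have h : Nat.Coprime 2 l := (Nat.coprime_primes Nat.prime_two hl).2 hl2.symm
  exact_mod_cast h

end PCtr

open PCtr in
/-- **XW-10d**: the number of the pairs `(e, β)` -/
theorem t_TR : S_TR := by
  intro q m D hC hD
  have hq : q.Prime := by rcases hC.cl with ⟨rfl, _⟩ | ⟨rfl, _⟩ <;> norm_num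
  have hq2 : q ≠ 2 := by rcases hC.cl with ⟨rfl, _⟩ | ⟨rfl, _⟩ <;> norm_num
  have hm0 : 0 < m := by
    rcases hC.md with h | h <;> omega
  have hqm : ¬ q ∣ m := by
    rcases hC.cl with ⟨rfl, h⟩ | ⟨rfl, h⟩ <;> omega
  have hjq : jacobiSym (-(m : ℤ)) q = -1 := by
    rcases hC.cl with ⟨rfl, h⟩ | ⟨rfl, h⟩
    · rw [jacobiSym.mod_left]
      rcases h with h | h
      · rw [show (-(m : ℤ)) % ((5 : ℕ) : ℤ) = 3 by push_cast; omega]
        decide +kernel
      · rw [show (-(m : ℤ)) % ((5 : ℕ) : ℤ) = 2 by push_cast; omega]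
        decide +kernel
    · rw [jacobiSym.mod_left, show (-(m : ℤ)) % ((3 : ℕ) : ℤ) = 2 by push_cast; omega]
      decide +kernel
  have hsqf : ∀ l : ℕ, l.Prime → ¬ l ^ 2 ∣ m := by
    intro l hp h
    rw [pow_two] at h
    exact hp.one_lt.ne' (Nat.isUnit_iff.1 (hC.sq l h))
  rw [card_TR hD hq.pos]
  by_cases hqD : q ∣ D
  · rw [if_pos hqD]
    have hD1 : 0 < D / q := Nat.div_pos (Nat.le_of_dvd hD hqD) hq.pos
    have hfac : ∀ l, (D / q).factorization l = D.factorization l - q.factorization l := by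
      intro l
      rw [Nat.factorization_div hqD]
      rfl
    have hmemq : q ∈ D.primeFactors := Nat.mem_primeFactors.2 ⟨hq, hqD, hD.ne'⟩
    have h5 : S m (D / q) = ∏ l ∈ D.primeFactors, S m (l ^ (D / q).factorization l) := by
      rw [S_prod m hm0 _ hD1]
      refine Finset.prod_subset ?_ ?_
      · exact Nat.primeFactors_mono (Nat.div_dvd_of_dvd hqD) hD.ne'
      · intro l hl hl'
        have hlp := Nat.prime_of_mem_primeFactors hl
        have h0 : (D / q).factorization l = 0 := by
          refine Nat.factorization_eq_zero_of_not_dvd fun h => hl' ?_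
          exact Nat.mem_primeFactors.2 ⟨hlp, h, hD1.ne'⟩
        rw [h0, S_zero m hm0 l hlp]
    have hv : 0 < D.factorization q := hq.factorization_pos_of_dvd hD.ne' hqD
    have h6 : ((S m (q ^ (D / q).factorization q) : ℕ) : ℤ) =
        if Odd (D.factorization q) then 1 else 0 := by
      rw [hfac, hq.factorization_self, S_unram m hm0 q hq hq2 hqm, hjq,
        Nat.sub_add_cancel hv, Pool.Agent.XV.PCX.geom]
    have h7 : ∀ l ∈ D.primeFactors.erase q, ((S m (l ^ (D / q).factorization l) : ℕ) : ℤ) =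
        if ¬ l ∣ 4 * m then fc (4 * m) D l else 1 := by
      intro l hl
      have hl0 := Finset.mem_erase.1 hl
      have hlp := Nat.prime_of_mem_primeFactors hl0.2
      have hv0 : q.factorization l = 0 := by
        refine Nat.factorization_eq_zero_of_not_dvd fun h => ?_
        exact hl0.1 ((Nat.prime_dvd_prime_iff_eq hlp hq).1 h)
      rw [hfac, hv0, Nat.sub_zero]
      by_cases h4 : l ∣ 4 * m
      · rw [if_neg (not_not.2 h4)]
        by_cases hlm : l ∣ m
        · rw [S_ram m hm0 l hlp hlm (hsqf l hlp), Nat.cast_one]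
        · have hl4 : l ∣ 4 := (hlp.dvd_mul.1 h4).resolve_right hlm
          have hl2 : l = 2 := by
            have h2 : l ∣ 2 ^ 2 := by norm_num; exact hl4
            exact (Nat.prime_dvd_prime_iff_eq hlp Nat.prime_two).1 (hlp.dvd_of_dvd_pow h2)
          subst hl2
          have hm4 : m % 4 = 1 := by
            rcases hC.md with h | h <;> omega
          rw [S_two hm4, Nat.cast_one]
      · rw [if_pos h4]
        have hl2 : l ≠ 2 := by
          rintro rfl
          exact h4 (Dvd.intro (2 * m) (by ring))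
        have hlm : ¬ l ∣ m := fun h => h4 (h.mul_left 4)
        have hodd : ¬ Odd (4 * m) := by
          rw [Nat.not_odd_iff_even]
          exact ⟨2 * m, by ring⟩
        unfold fc
        rw [if_neg h4, if_neg hodd, S_unram m hm0 l hlp hl2 hlm, sym_four hlp hl2]
    rw [h5, ← Finset.mul_prod_erase _ _ hmemq, Nat.cast_mul, h6, Nat.cast_prod,
      Finset.prod_congr rfl h7, ← Finset.prod_filter]
    split_ifs
    · rw [one_mul]
    · rw [zero_mul]
  · rw [if_neg hqD, if_neg]
    · norm_num
    · rw [Nat.factorization_eq_zero_of_not_dvd hqD]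
      decide

end Pool.Agent.XW
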