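import Pool.Agent.XW.PCD

/-!
# Project XW-10f: the part at two, a finite computation (helper68)
-/

set_option autoImplicit false

namespace Pool.Agent.XW

namespace ZZ68

open Finset

def okf (M q m f : ℕ) : Bool :=
  (f % 2 == 0) || (List.range 4).any fun x => (List.range 4).any fun y =>
    (q * f + x * x + m * (y * y)) % M == 0

def tt (k q m b e β D2 g μ ν : ℕ) : Bool :=
  ((e * μ + (k - 1) * b) % k == 0) && ((μ * μ + q * D2) % (k / 2) == 0) &&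
    ((q * β + μ * ν) % (k / 2) == 0) && ((q * g + ν * ν) % (k / 2) == 0) &&
    ((g * (μ * μ) + (k * k - 2) * (β * (μ * ν)) + D2 * (ν * ν) + q * m) % (k * k) == 0)

def cnt (k q m b e β D2 g : ℕ) : ℕ :=
  ((List.range k).map fun μ =>
    ((List.range k).map fun ν => if tt k q m b e β D2 g μ ν then 1 else 0).sum).sum

def chkA : Bool :=
  [3, 5].all fun q => (List.range 4).all fun g => (List.range 4).all fun D2 =>
    (List.range 4).all fun β =>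
      (!((D2 * g) % 4 == (β * β + 1) % 4)) || (!(okf 4 q 1 g)) || (!(okf 4 q 1 D2)) ||
        (List.range 4).all fun e => (List.range 4).all fun b =>
          (!((q * (e * e) * D2 + b * b) % 4 == 0)) ||
            (cnt 2 q 1 b e β D2 g == (if (q * (e * e) * D2) % 2 == 0 then 2 else 1))

def chkB : Bool :=
  [3, 5].all fun q => [2, 6, 10, 14].all fun m => (List.range 16).all fun g =>
    (List.range 16).all fun D2 => (List.range 8).all fun β =>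
      (!((D2 * g) % 16 == (β * β + m) % 16)) || (!(okf 8 q m g)) || (!(okf 8 q m D2)) ||
        (List.range 4).all fun e => (List.range 4).all fun b =>
          (!((q * (e * e) * D2 + b * b) % 8 == 0)) ||
            (cnt 4 q m b e β D2 g == (if (q * (e * e) * D2) % 2 == 0 then 2 else 1))

theorem hA : chkA = true := by decide +kernel

theorem hB : chkB = true := by decide +kernel

theorem useA {q g D2 β e b : ℕ} (hq : q = 3 ∨ q = 5) (hg : g < 4) (hD : D2 < 4) (hβ : β < 4)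
    (he : e < 4) (hb : b < 4) (h1 : (D2 * g) % 4 = (β * β + 1) % 4) (h2 : okf 4 q 1 g = true)
    (h3 : okf 4 q 1 D2 = true) (h4 : (q * (e * e) * D2 + b * b) % 4 = 0) :
    cnt 2 q 1 b e β D2 g = if (q * (e * e) * D2) % 2 = 0 then 2 else 1 := by
  have h := hA
  unfold chkA at h
  rw [List.all_eq_true] at h
  have k1 := h q (by simp only [List.mem_cons, List.not_mem_nil, or_false]; exact hq)
  rw [List.all_eq_true] at k1
  have k2 := k1 g (List.mem_range.2 hg)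
  rw [List.all_eq_true] at k2
  have k3 := k2 D2 (List.mem_range.2 hD)
  rw [List.all_eq_true] at k3
  have k4 := k3 β (List.mem_range.2 hβ)
  rw [h1, h2, h3, beq_self_eq_true] at k4
  simp only [Bool.not_true, Bool.false_or] at k4
  rw [List.all_eq_true] at k4
  have k5 := k4 e (List.mem_range.2 he)
  rw [List.all_eq_true] at k5
  have k6 := k5 b (List.mem_range.2 hb)
  rw [h4, beq_self_eq_true] at k6
  simp only [Bool.not_true, Bool.false_or, beq_iff_eq] at k6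
  exact k6

theorem useB {q m g D2 β e b : ℕ} (hq : q = 3 ∨ q = 5) (hm : m = 2 ∨ m = 6 ∨ m = 10 ∨ m = 14)
    (hg : g < 16) (hD : D2 < 16) (hβ : β < 8)
    (he : e < 4) (hb : b < 4) (h1 : (D2 * g) % 16 = (β * β + m) % 16) (h2 : okf 8 q m g = true)
    (h3 : okf 8 q m D2 = true) (h4 : (q * (e * e) * D2 + b * b) % 8 = 0) :
    cnt 4 q m b e β D2 g = if (q * (e * e) * D2) % 2 = 0 then 2 else 1 := by
  have h := hB
  unfold chkB at h
  rw [List.all_eq_true] at h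
  have k1 := h q (by simp only [List.mem_cons, List.not_mem_nil, or_false]; exact hq)
  rw [List.all_eq_true] at k1
  have k1' := k1 m (by simp only [List.mem_cons, List.not_mem_nil, or_false]; exact hm)
  rw [List.all_eq_true] at k1'
  have k2 := k1' g (List.mem_range.2 hg)
  rw [List.all_eq_true] at k2
  have k3 := k2 D2 (List.mem_range.2 hD)
  rw [List.all_eq_true] at k3
  have k4 := k3 β (List.mem_range.2 hβ)
  rw [h1, h2, h3, beq_self_eq_true] at k4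
  simp only [Bool.not_true, Bool.false_or] at k4
  rw [List.all_eq_true] at k4
  have k5 := k4 e (List.mem_range.2 he)
  rw [List.all_eq_true] at k5
  have k6 := k5 b (List.mem_range.2 hb)
  rw [h4, beq_self_eq_true] at k6
  simp only [Bool.not_true, Bool.false_or, beq_iff_eq] at k6
  exact k6

theorem zz_cnt {k q m m0 b0 e0 β0 D0 g0 : ℕ} {b : ℤ} {e β D2 g : ℕ} (hk : k2 m = k)
    (h : ∀ μ ν : ℕ, P2 q m b e β D2 g μ ν ↔ tt k q m0 b0 e0 β0 D0 g0 μ ν = true) :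
    ZZ q m b e β D2 g = cnt k q m0 b0 e0 β0 D0 g0 := by
  classical
  unfold ZZ
  rw [Finset.card_filter, hk, Finset.sum_product]
  have e1 : cnt k q m0 b0 e0 β0 D0 g0 = ∑ μ ∈ range k, ∑ ν ∈ range k,
      if tt k q m0 b0 e0 β0 D0 g0 μ ν = true then 1 else 0 := rfl
  rw [e1]
  refine Finset.sum_congr rfl fun μ _ => Finset.sum_congr rfl fun ν _ => ?_
  simp only [h]

/-- natural representatives -/
theorem rep (M : ℕ) (hM : 0 < M) (b : ℤ) : ∃ B : ℕ, B < M ∧ ∃ k : ℤ, b = M * k + B := by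
  refine ⟨(b % M).toNat, ?_, b / M, ?_⟩
  · have h1 := Int.emod_lt_of_pos b (by exact_mod_cast hM : (0 : ℤ) < M)
    have h2 := Int.emod_nonneg b (by exact_mod_cast hM.ne' : (M : ℤ) ≠ 0)
    omega
  · have h2 := Int.emod_nonneg b (by exact_mod_cast hM.ne' : (M : ℤ) ≠ 0)
    rw [Int.toNat_of_nonneg h2]
    exact (Int.mul_ediv_add_emod b M).symm

theorem dv {M w : ℕ} {z : ℤ} (h : (M : ℤ) ∣ z - w) : (M : ℤ) ∣ z ↔ w % M = 0 := by
  have h1 : (M : ℤ) ∣ z ↔ (M : ℤ) ∣ (w : ℤ) := (Int.dvd_iff_dvd_of_dvd_sub h)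
  rw [h1, Int.natCast_dvd_natCast, Nat.dvd_iff_mod_eq_zero]

theorem dvn {M w z : ℕ} (h : (M : ℤ) ∣ (z : ℤ) - w) : M ∣ z ↔ w % M = 0 := by
  rw [← dv h, Int.natCast_dvd_natCast]

theorem okf_of {M q m f m0 f0 : ℕ} {x y : ℤ} (hM : M ∣ 8) (h : (8 : ℤ) ∣ q * f + x ^ 2 + m * y ^ 2)
    (hm : (M : ℤ) ∣ (m : ℤ) - m0) (hf : (M : ℤ) ∣ (f : ℤ) - f0) : okf M q m0 f0 = true := by
  obtain ⟨X, hX, k, hk⟩ := rep 4 (by norm_num) x
  obtain ⟨Y, hY, l, hl⟩ := rep 4 (by norm_num) y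
  unfold okf
  rw [Bool.or_eq_true]
  right
  rw [List.any_eq_true]
  refine ⟨X, List.mem_range.2 hX, ?_⟩
  rw [List.any_eq_true]
  refine ⟨Y, List.mem_range.2 hY, ?_⟩
  rw [beq_iff_eq]
  have hM' : (M : ℤ) ∣ 8 := by exact_mod_cast hM
  refine (dv (z := q * f + x ^ 2 + m * y ^ 2) ?_).1 (hM'.trans h)
  have e1 : (q * f + x ^ 2 + m * y ^ 2 : ℤ) - ((q * f0 + X * X + m0 * (Y * Y) : ℕ) : ℤ) =
      q * (f - f0) + 8 * (2 * k ^ 2 + k * X) + m * (8 * (2 * l ^ 2 + l * Y)) +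
        (m - m0) * (Y * Y) := by
    rw [hk, hl]
    push_cast
    ring
  rw [e1]
  refine dvd_add (dvd_add (dvd_add (Dvd.dvd.mul_left hf _) (Dvd.dvd.mul_right hM' _)) ?_)
    (Dvd.dvd.mul_right hm _)
  exact Dvd.dvd.mul_left (Dvd.dvd.mul_right hM' _) _

theorem P2_iff {k q m m0 b0 e0 β0 D0 g0 : ℕ} {b : ℤ} {e β D2 g : ℕ} (hk : k2 m = k)
    (hk' : k = 2 ∨ k = 4) (h1 : (k : ℤ) ∣ (e : ℤ) - e0) (h2 : (k : ℤ) ∣ b - b0)
    (h3 : (k * k : ℤ) ∣ (g : ℤ) - g0) (h4 : (k * k : ℤ) ∣ (D2 : ℤ) - D0)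
    (h5 : (k * k : ℤ) ∣ 2 * ((β : ℤ) - β0)) (h6 : (2 : ℤ) ∣ (β : ℤ) - β0)
    (h7 : (k * k : ℤ) ∣ (m : ℤ) - m0) (μ ν : ℕ) :
    P2 q m b e β D2 g μ ν ↔ tt k q m0 b0 e0 β0 D0 g0 μ ν = true := by
  unfold P2 tt
  rw [hk]
  simp only [Bool.and_eq_true, beq_iff_eq, and_assoc]
  obtain ⟨e1, he1⟩ := h1
  obtain ⟨b1, hb1⟩ := h2
  obtain ⟨g1, hg1⟩ := h3
  obtain ⟨d1, hd1⟩ := h4
  obtain ⟨β1, hβ1⟩ := h5
  obtain ⟨β2, hβ2⟩ := h6
  obtain ⟨m1, hm1⟩ := h7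
  rcases hk' with rfl | rfl
  · refine and_congr (dv ⟨e1 * μ - b1 - b0, ?_⟩) (and_congr (dvn ?_) (and_congr (dvn ?_)
      (and_congr (dvn ?_) ?_)))
    · push_cast at he1 hb1 ⊢
      linear_combination (μ : ℤ) * he1 - hb1
    · norm_num
    · norm_num
    · norm_num
    · have e2 : (((2 : ℕ) : ℤ) ^ 2) = ((2 * 2 : ℕ) : ℤ) := by norm_num
      rw [e2]
      refine dv ⟨g1 * μ ^ 2 + d1 * ν ^ 2 - β1 * (μ * ν) - β0 * (μ * ν) + q * m1, ?_⟩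
      unfold phi
      push_cast at hg1 hd1 hβ1 hm1 ⊢
      linear_combination (μ ^ 2 : ℤ) * hg1 + (ν ^ 2 : ℤ) * hd1 - (μ * ν : ℤ) * hβ1 + (q : ℤ) * hm1
  · refine and_congr (dv ⟨e1 * μ - b1 - b0, ?_⟩) (and_congr (dvn ⟨q * 8 * d1, ?_⟩)
      (and_congr (dvn ⟨q * β2, ?_⟩) (and_congr (dvn ⟨q * 8 * g1, ?_⟩) ?_)))
    · push_cast at he1 hb1 ⊢
      linear_combination (μ : ℤ) * he1 - hb1
    · push_cast at hd1 ⊢
      norm_num
      linear_combination (q : ℤ) * hd1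
    · push_cast at hd1 ⊢
      norm_num
      linear_combination (q : ℤ) * hβ2
    · push_cast at hg1 ⊢
      norm_num
      linear_combination (q : ℤ) * hg1
    · have e2 : (((4 : ℕ) : ℤ) ^ 2) = ((4 * 4 : ℕ) : ℤ) := by norm_num
      rw [e2]
      refine dv ⟨g1 * μ ^ 2 + d1 * ν ^ 2 - β1 * (μ * ν) - β0 * (μ * ν) + q * m1, ?_⟩
      unfold phi
      push_cast at hg1 hd1 hβ1 hm1 ⊢
      linear_combination (μ ^ 2 : ℤ) * hg1 + (ν ^ 2 : ℤ) * hd1 - (μ * ν : ℤ) * hβ1 + (q : ℤ) * hm1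

end ZZ68

open ZZ68 in
/-- **ZZ** -/
theorem t_ZZ : S_ZZ := by
  intro q m m2 b D hC hD h4 hDb e β D2 g hDe hg hf
  have hq : q = 3 ∨ q = 5 := by
    rcases hC.cl with h | h
    · exact Or.inr h.1
    · exact Or.inl h.1
  obtain ⟨m2', rfl⟩ := h4
  have hgf : Odd g → ∃ x y : ℤ, (8 : ℤ) ∣ q * g + x ^ 2 + m * y ^ 2 := by
    intro ho
    have h1 := hf 1 0 (by
      unfold phi
      simpa using ho)
    unfold phi at h1
    simpa using h1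
  have hDf : Odd D2 → ∃ x y : ℤ, (8 : ℤ) ∣ q * D2 + x ^ 2 + m * y ^ 2 := by
    intro ho
    have h1 := hf 0 1 (by
      unfold phi
      simpa using ho)
    unfold phi at h1
    simpa using h1
  have hok : ∀ {M m0 f f0 : ℕ}, M ∣ 8 → (M : ℤ) ∣ (m : ℤ) - m0 → (M : ℤ) ∣ (f : ℤ) - f0 →
      f0 % 2 = f % 2 → (Odd f → ∃ x y : ℤ, (8 : ℤ) ∣ q * f + x ^ 2 + m * y ^ 2) →
      okf M q m0 f0 = true := by
    intro M m0 f f0 hM h1 h2 h3 h4
    by_cases ho : f % 2 = 0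
    · unfold okf
      rw [Bool.or_eq_true]
      left
      rw [beq_iff_eq]
      omega
    · obtain ⟨x, y, hxy⟩ := h4 (Nat.odd_iff.2 (by omega))
      exact okf_of hM hxy h1 h2
  obtain ⟨b0, hb0, kb, hkb⟩ := rep 4 (by norm_num) b
  have hgZ : (D2 : ℤ) * g = β ^ 2 + m := by exact_mod_cast hg
  have hDZ : (q * e ^ 2 * D2 : ℤ) = m * (4 * m2') - b ^ 2 := by
    rw [← hDb, hDe]
    push_cast
    ring
  have he4 : (e : ℤ) = 4 * ((e / 4 : ℕ) : ℤ) + ((e % 4 : ℕ) : ℤ) := by omega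
  rcases hC.md with hm | hm
  · have hk : k2 m = 2 := by
      unfold k2
      rw [if_neg (by omega)]
    have hg4 : (g : ℤ) = 4 * ((g / 4 : ℕ) : ℤ) + ((g % 4 : ℕ) : ℤ) := by omega
    have hd4 : (D2 : ℤ) = 4 * ((D2 / 4 : ℕ) : ℤ) + ((D2 % 4 : ℕ) : ℤ) := by omega
    have hβ4 : (β : ℤ) = 4 * ((β / 4 : ℕ) : ℤ) + ((β % 4 : ℕ) : ℤ) := by omega
    have hm4 : (m : ℤ) = 4 * ((m / 4 : ℕ) : ℤ) + 1 := by omega
    obtain ⟨g0, hg0⟩ : ∃ g0, g0 = g % 4 := ⟨_, rfl⟩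
    obtain ⟨d0, hd0⟩ : ∃ d0, d0 = D2 % 4 := ⟨_, rfl⟩
    obtain ⟨β0, hβ0⟩ : ∃ β0, β0 = β % 4 := ⟨_, rfl⟩
    obtain ⟨e0, he0⟩ : ∃ e0, e0 = e % 4 := ⟨_, rfl⟩
    have h1 := zz_cnt hk (P2_iff (q := q) (m0 := 1) (b0 := b0) (e0 := e0) (β0 := β0) (D0 := d0)
      (g0 := g0) (b := b) (e := e) (β := β) (D2 := D2) (g := g) hk (Or.inl rfl) (by omega)
      (by omega) (by omega) (by omega) (by omega) (by omega) (by omega))
    have h2 : (d0 * g0) % 4 = (β0 * β0 + 1) % 4 := by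
      rw [hd0, hg0, hβ0, ← Nat.mul_mod, hg, Nat.add_mod (β % 4 * (β % 4)), ← Nat.mul_mod,
        Nat.add_mod, hm, sq]
    have h3 : (q * (e0 * e0) * d0 + b0 * b0) % 4 = 0 := by
      refine (dv (M := 4) (z := q * e ^ 2 * D2 + b ^ 2) ?_).1 ⟨m * m2', by
        push_cast
        linear_combination hDZ⟩
      rw [hkb]
      have e1 : (e : ℤ) = 4 * ((e / 4 : ℕ) : ℤ) + (e0 : ℤ) := by rw [he0]; exact he4
      have e2 : (D2 : ℤ) = 4 * ((D2 / 4 : ℕ) : ℤ) + (d0 : ℤ) := by rw [hd0]; exact hd4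
      rw [e1, e2]
      exact ⟨q * (4 * ((e / 4 : ℕ) : ℤ) ^ 2 + 2 * ((e / 4 : ℕ) : ℤ) * e0) *
        (4 * ((D2 / 4 : ℕ) : ℤ) + (d0 : ℤ)) + q * e0 ^ 2 * ((D2 / 4 : ℕ) : ℤ) +
        4 * kb ^ 2 + 2 * kb * b0, by
        push_cast
        ring⟩
    have h4 := useA (e := e0) (b := b0) (β := β0) hq (by omega : g0 < 4) (by omega : d0 < 4)
      (by omega) (by omega) hb0 h2
      (hok (m0 := 1) (f := g) (by norm_num) (by omega) (by omega) (by omega) hgf)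
      (hok (m0 := 1) (f := D2) (by norm_num) (by omega) (by omega) (by omega) hDf) h3
    rw [h1, h4]
    have h5 : (q * (e0 * e0) * d0) % 2 = 0 ↔ 2 ∣ D := by
      rw [← dvn (M := 2) (z := D)]
      rw [hDe]
      have e1 : (e : ℤ) = 4 * ((e / 4 : ℕ) : ℤ) + (e0 : ℤ) := by rw [he0]; exact he4
      have e2 : (D2 : ℤ) = 4 * ((D2 / 4 : ℕ) : ℤ) + (d0 : ℤ) := by rw [hd0]; exact hd4
      push_cast
      rw [e1, e2]
      exact ⟨q * (8 * ((e / 4 : ℕ) : ℤ) ^ 2 + 4 * ((e / 4 : ℕ) : ℤ) * e0) *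
        (4 * ((D2 / 4 : ℕ) : ℤ) + (d0 : ℤ)) + 2 * q * e0 ^ 2 * ((D2 / 4 : ℕ) : ℤ), by
        ring⟩
    simp only [h5]
  · have hk : k2 m = 4 := by
      unfold k2
      rw [if_pos (by omega)]
    have hg4 : (g : ℤ) = 16 * ((g / 16 : ℕ) : ℤ) + ((g % 16 : ℕ) : ℤ) := by omega
    have hd4 : (D2 : ℤ) = 16 * ((D2 / 16 : ℕ) : ℤ) + ((D2 % 16 : ℕ) : ℤ) := by omega
    have hβ4 : (β : ℤ) = 8 * ((β / 8 : ℕ) : ℤ) + ((β % 8 : ℕ) : ℤ) := by omega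
    have hm4 : (m : ℤ) = 16 * ((m / 16 : ℕ) : ℤ) + ((m % 16 : ℕ) : ℤ) := by omega
    obtain ⟨g0, hg0⟩ : ∃ g0, g0 = g % 16 := ⟨_, rfl⟩
    obtain ⟨d0, hd0⟩ : ∃ d0, d0 = D2 % 16 := ⟨_, rfl⟩
    obtain ⟨β0, hβ0⟩ : ∃ β0, β0 = β % 8 := ⟨_, rfl⟩
    obtain ⟨e0, he0⟩ : ∃ e0, e0 = e % 4 := ⟨_, rfl⟩
    obtain ⟨m0, hm0⟩ : ∃ m0, m0 = m % 16 := ⟨_, rfl⟩
    have h1 := zz_cnt hk (P2_iff (q := q) (m0 := m0) (b0 := b0) (e0 := e0) (β0 := β0) (D0 := d0)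
      (g0 := g0) (b := b) (e := e) (β := β) (D2 := D2) (g := g) hk (Or.inr rfl) (by omega)
      (by omega) (by omega) (by omega) (by omega) (by omega) (by omega))
    have h2 : (d0 * g0) % 16 = (β0 * β0 + m0) % 16 := by
      refine Nat.ModEq.symm (n := 16) (Nat.modEq_iff_dvd.2 ?_)
      obtain ⟨a1, f1⟩ : ∃ a1 : ℤ, (D2 : ℤ) = 16 * a1 + (d0 : ℤ) := ⟨_, by rw [hd0]; exact hd4⟩
      obtain ⟨a2, f2⟩ : ∃ a2 : ℤ, (g : ℤ) = 16 * a2 + (g0 : ℤ) := ⟨_, by rw [hg0]; exact hg4⟩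
      obtain ⟨a3, f3⟩ : ∃ a3 : ℤ, (β : ℤ) = 8 * a3 + (β0 : ℤ) := ⟨_, by rw [hβ0]; exact hβ4⟩
      obtain ⟨a4, f4⟩ : ∃ a4 : ℤ, (m : ℤ) = 16 * a4 + (m0 : ℤ) := ⟨_, by rw [hm0]; exact hm4⟩
      rw [f1, f2, f3, f4] at hgZ
      refine ⟨-(16 * a1 * a2 + a1 * g0 + d0 * a2) + 4 * a3 ^ 2 + a3 * β0 + a4, ?_⟩
      push_cast
      linear_combination hgZ
    have e1 : (e : ℤ) = 4 * ((e / 4 : ℕ) : ℤ) + (e0 : ℤ) := by rw [he0]; exact he4
    have e2 : (D2 : ℤ) = 16 * ((D2 / 16 : ℕ) : ℤ) + (d0 : ℤ) := by rw [hd0]; exact hd4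
    have hm8 : ∃ c : ℤ, (m : ℤ) = 2 * c := ⟨(m / 2 : ℕ), by omega⟩
    obtain ⟨c, hc⟩ := hm8
    have h3 : (q * (e0 * e0) * d0 + b0 * b0) % 8 = 0 := by
      refine (dv (M := 8) (z := q * e ^ 2 * D2 + b ^ 2) ?_).1 ⟨c * m2', by
        push_cast
        linear_combination hDZ + 4 * m2' * hc⟩
      rw [hkb, e1, e2]
      exact ⟨q * (2 * ((e / 4 : ℕ) : ℤ) ^ 2 + ((e / 4 : ℕ) : ℤ) * e0) *
        (16 * ((D2 / 16 : ℕ) : ℤ) + (d0 : ℤ)) + 2 * q * e0 ^ 2 * ((D2 / 16 : ℕ) : ℤ) +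
        2 * kb ^ 2 + kb * b0, by
        push_cast
        ring⟩
    have h4 := useB (e := e0) (b := b0) (β := β0) (m := m0) hq (by omega) (by omega : g0 < 16)
      (by omega : d0 < 16) (by omega) (by omega) hb0 h2
      (hok (m0 := m0) (f := g) (by norm_num) (by omega) (by omega) (by omega) hgf)
      (hok (m0 := m0) (f := D2) (by norm_num) (by omega) (by omega) (by omega) hDf) h3
    rw [h1, h4]
    have h5 : (q * (e0 * e0) * d0) % 2 = 0 ↔ 2 ∣ D := by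
      rw [← dvn (M := 2) (z := D)]
      rw [hDe]
      push_cast
      rw [e1, e2]
      exact ⟨q * (8 * ((e / 4 : ℕ) : ℤ) ^ 2 + 4 * ((e / 4 : ℕ) : ℤ) * e0) *
        (16 * ((D2 / 16 : ℕ) : ℤ) + (d0 : ℤ)) + 8 * q * e0 ^ 2 * ((D2 / 16 : ℕ) : ℤ), by
        ring⟩
    simp only [h5]

end Pool.Agent.XW
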