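import Pool.Agent.XW.PCC4
import Pool.Agent.XW.PCcrt
import Pool.Agent.XW.PCcod
import Pool.Agent.XW.PCtr
import Pool.Agent.XW.PCrec
import Pool.Agent.XW.PCzz
import Pool.Agent.XW.Odd
import Pool.Agent.XV.PC

/-!
# Project XW-10: the number of pairs of vectors with given inner product, all discriminants
-/

set_option autoImplicit false

namespace Pool.Agent.XW

open Finset
open Pool.Agent.Z700 (hh pr)
open Pool.Agent.XV (cpg cpa rot)
open Pool.Agent.Y155.Z7 (C C_eq)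

namespace PCas

theorem mo_facts {m : ℕ} (hm : Squarefree m) (h4 : m % 4 = 1 ∨ m % 4 = 2) :
    0 < mo m ∧ mo m % 2 = 1 ∧ (m = mo m ∨ m = 2 * mo m) := by
  have h0 : 0 < m := Nat.pos_of_ne_zero hm.ne_zero
  unfold mo
  split_ifs with h
  · refine ⟨by omega, by omega, Or.inr (by omega)⟩
  · exact ⟨h0, by omega, Or.inl rfl⟩

theorem prod_two {m D : ℕ} (hm : Squarefree m) (h4 : m % 4 = 1 ∨ m % 4 = 2) (hD : 0 < D) :
    ∏ l ∈ D.primeFactors.filter (fun l => l ∣ 4 * m), fc (4 * m) D l =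
      (∏ l ∈ (mo m).primeFactors, if l ∣ D then 1 + hh (4 * m) D l else 1) *
        (if 2 ∣ D then 2 else 1) := by
  obtain ⟨h1, h2, h3⟩ := mo_facts hm h4
  have hset : (D.primeFactors.filter (fun l => l ∣ 4 * m)).erase 2 =
      (mo m).primeFactors.filter (fun l => l ∣ D) := by
    ext l
    rw [Finset.mem_erase, Finset.mem_filter, Finset.mem_filter, Nat.mem_primeFactors,
      Nat.mem_primeFactors]
    constructor
    · rintro ⟨a1, ⟨a2, a3, _⟩, a4⟩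
      have hl : Nat.Coprime l 2 := (Nat.coprime_primes a2 Nat.prime_two).2 a1
      have a5 : l ∣ m := (Nat.Coprime.pow_right 2 hl).dvd_of_dvd_mul_left (show l ∣ 2 ^ 2 * m from a4)
      refine ⟨⟨a2, ?_, h1.ne'⟩, a3⟩
      rcases h3 with h3 | h3
      · rwa [← h3]
      · rw [h3] at a5
        exact hl.dvd_of_dvd_mul_left a5
    · rintro ⟨⟨a1, a2, _⟩, a3⟩
      refine ⟨?_, ⟨a1, a3, hD.ne'⟩, ?_⟩
      · rintro rfl
        omega
      · refine Dvd.dvd.mul_left ?_ 4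
        rcases h3 with h3 | h3
        · rwa [h3]
        · rw [h3]
          exact Dvd.dvd.mul_left a2 2
  have hval : ∏ l ∈ (D.primeFactors.filter (fun l => l ∣ 4 * m)).erase 2, fc (4 * m) D l =
      ∏ l ∈ (mo m).primeFactors, if l ∣ D then 1 + hh (4 * m) D l else 1 := by
    rw [← Finset.prod_filter, ← hset]
    refine Finset.prod_congr rfl fun l hl => ?_
    obtain ⟨a1, a2⟩ := Finset.mem_erase.1 hl
    unfold fc
    rw [if_pos (Finset.mem_filter.1 a2).2, if_neg a1]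
  rw [← hval]
  by_cases h : 2 ∣ D
  · have hmem : 2 ∈ D.primeFactors.filter (fun l => l ∣ 4 * m) :=
      Finset.mem_filter.2 ⟨Nat.mem_primeFactors.2 ⟨Nat.prime_two, h, hD.ne'⟩, ⟨2 * m, by ring⟩⟩
    have h5 : fc (4 * m) D 2 = 2 := by
      unfold fc
      rw [if_pos ⟨2 * m, by ring⟩, if_pos rfl]
    rw [if_pos h, ← Finset.mul_prod_erase _ _ hmem, h5, mul_comm]
  · rw [if_neg h, mul_one, Finset.erase_eq_of_notMem]
    intro h5
    exact h (Nat.dvd_of_mem_primeFactors (Finset.mem_filter.1 h5).1)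

/-- the fibres -/
theorem fib_val (hZ : S_ZZ) {q m : ℕ} {m2 b : ℤ} {D : ℕ} (hC : Cm q m) (hD0 : 0 < D)
    (h4 : (4 : ℤ) ∣ m2) (hDD : (D : ℤ) = m * m2 - b ^ 2) (t : ℕ × ℕ) (ht : t ∈ TR q m D) :
    (NF q m b t.1 t.2 (D / (q * t.1 ^ 2)) ((t.2 ^ 2 + m) / (D / (q * t.1 ^ 2))) : ℤ) =
      ∏ l ∈ D.primeFactors.filter (fun l => l ∣ 4 * m), fc (4 * m) D l := by
  classical
  obtain ⟨g1, g2, g3, g4, g5⟩ := (PCC4.mem_TR q m D t).1 ht
  obtain ⟨h1, h2, h3⟩ := mo_facts hC.sq hC.md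
  have k1 : D = q * t.1 ^ 2 * (D / (q * t.1 ^ 2)) := (Nat.mul_div_cancel' g3).symm
  have k2 := Nat.mul_div_cancel' g5
  have k3 : 0 < D / (q * t.1 ^ 2) := by omega
  generalize D / (q * t.1 ^ 2) = D2 at *
  generalize (t.2 ^ 2 + m) / D2 = g at *
  have e1 := t_CRT q m b hC t.1 t.2 D2 g k3 k2
  have e2 := t_COD q m m2 b D hC hD0 hDD t.1 t.2 D2 g k1 k2
  rw [prod_two hC.sq hC.md hD0, ← e2, e1]
  push_cast
  by_cases h0 : C t.1 b (q * D2) (q * t.2) (q * g) (mo m) = 0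
  · rw [h0]
    simp
  · have h5 := h0
    rw [C_eq _ _ _ _ _ _ h1] at h5
    obtain ⟨x, hx⟩ := Finset.card_pos.1 (Nat.pos_of_ne_zero h5)
    obtain ⟨_, _, a2, a3, a4⟩ := Finset.mem_filter.1 hx
    have hr := t_REC q m hC t.2 D2 g k2 x.1 x.2 a2 a3 a4
    rw [hZ q m m2 b D hC hD0 h4 hDD t.1 t.2 D2 g k1 k2 hr]
    push_cast
    rfl

/-- the number of pairs -/
theorem main4 (hZ : S_ZZ) {q m : ℕ} {m2 b : ℤ} {D : ℕ} (hC : Cm q m) (hD0 : 0 < D)
    (h4 : (4 : ℤ) ∣ m2) (hDD : (D : ℤ) = m * m2 - b ^ 2) :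
    (cpg q (4 * m) (2 * b) m2 : ℤ) = if Odd (D.factorization q) then
      (rot q : ℤ) * ∏ l ∈ D.primeFactors.erase q, fc (4 * m) D l else 0 := by
  have hq4 : ¬ q ∣ 4 * m := by
    rcases hC.cl with ⟨rfl, h⟩ | ⟨rfl, h⟩ <;> omega
  rw [t_PCC4 XV.t_PCT q m m2 b D hC hD0 hDD]
  push_cast
  rw [Finset.sum_congr rfl (fun t ht => fib_val hZ hC hD0 h4 hDD t ht), Finset.sum_const,
    nsmul_eq_mul, t_TR q m D hC hD0]
  have h1 : ∏ l ∈ D.primeFactors.erase q, fc (4 * m) D l =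
      (∏ l ∈ (D.primeFactors.erase q).filter (fun l => ¬ l ∣ 4 * m), fc (4 * m) D l) *
        ∏ l ∈ D.primeFactors.filter (fun l => l ∣ 4 * m), fc (4 * m) D l := by
    have h2 : D.primeFactors.filter (fun l => l ∣ 4 * m) =
        (D.primeFactors.erase q).filter (fun l => l ∣ 4 * m) := by
      ext l
      rw [Finset.mem_filter, Finset.mem_filter, Finset.mem_erase]
      constructor
      · rintro ⟨a1, a2⟩
        exact ⟨⟨fun e => hq4 (e ▸ a2), a1⟩, a2⟩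
      · rintro ⟨⟨_, a1⟩, a2⟩
        exact ⟨a1, a2⟩
    rw [h2, mul_comm (∏ l ∈ (D.primeFactors.erase q).filter (fun l => ¬ l ∣ 4 * m), fc (4 * m) D l)]
    exact (Finset.prod_filter_mul_prod_filter_not _ _ _).symm
  split_ifs
  · rw [h1]
  · simp

/-- the discriminant in terms of `m` -/
theorem pe_four {δ : ℤ} (hδ : Dt δ) {N : Finset ℕ} (hN : Pe N) (h2 : 2 ∈ N) (hs : sg δ N = -1) :
    ∃ m : ℕ, pe δ N = 4 * m ∧ Squarefree m ∧ (m % 4 = 1 ∨ m % 4 = 2) := by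
  have hE : Pe (N.erase 2) := Od.Pe.mono hN (erase_subset _ _)
  have hn2 : 2 ∉ N.erase 2 := by simp
  have ho := Od.pr_mod2 hE hn2
  have hsq : Squarefree (pr (N.erase 2)) := by
    unfold pr
    exact Finset.squarefree_prod_of_pairwise_isCoprime (fun p hp p' hp' hne =>
      Nat.coprime_iff_isRelPrime.1 ((Nat.coprime_primes (hE p hp).1 (hE p' hp').1).2 hne))
      (fun p hp => (hE p hp).1.squarefree)
  have hsq2 : Squarefree (2 * pr (N.erase 2)) := by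
    rw [Nat.squarefree_mul ((Nat.coprime_two_left).2 (Nat.odd_iff.2 ho))]
    exact ⟨Nat.prime_two.squarefree, hsq⟩
  have hpe := Od.pe_two (δ := δ) h2
  have hsg := Od.sg_two (δ := δ) hN h2
  rcases hδ with rfl | rfl | rfl
  · refine ⟨pr (N.erase 2), hpe, hsq, Or.inl ?_⟩
    rw [hs, Od.c2_neg_one (Or.inl rfl), if_pos (by norm_num)] at hsg
    have h3 : jacobiSym (-1) (pr (N.erase 2)) = 1 := by linarith
    exact (Od.js_neg_one ho).1.1 h3
  · refine ⟨2 * pr (N.erase 2), ?_, hsq2, Or.inr (by omega)⟩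
    rw [hpe, Od.na_8]
    ring
  · refine ⟨2 * pr (N.erase 2), ?_, hsq2, Or.inr (by omega)⟩
    rw [hpe, Od.na_m8]
    ring

theorem half {m : ℕ} {m2 b : ℤ} {D : ℕ} (h : 4 * (D : ℤ) = (4 * m : ℕ) * m2 - b ^ 2) :
    ∃ b' : ℤ, b = 2 * b' ∧ (D : ℤ) = m * m2 - b' ^ 2 := by
  have h1 : (2 : ℤ) ∣ b ^ 2 := ⟨2 * (m * m2 - D), by push_cast at h; linarith⟩
  obtain ⟨b', rfl⟩ := Int.prime_two.dvd_of_dvd_pow h1
  refine ⟨b', rfl, ?_⟩
  push_cast at h
  linarith

end PCas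

open PCas in
theorem pcg4_of (hZ : S_ZZ) : S_PCG4 := by
  intro δ hδ N hN h2 m2 b D hD0 h4 hDD
  refine ⟨fun hJ => ?_, fun hJ => ?_⟩
  · obtain ⟨m, hm, hsq, hmod⟩ := pe_four hδ hN h2 hJ.1
    have hC : Cm 5 m := ⟨hsq, hmod, Or.inl ⟨rfl, by have := hJ.2.2; rw [hm] at this; omega⟩⟩
    rw [hm] at hDD ⊢
    obtain ⟨b', rfl, hb⟩ := half hDD
    have key := main4 hZ hC hD0 h4 hb
    have e : (((4 * m : ℕ) : ℤ)) = 4 * (m : ℤ) := by push_cast; ring
    rw [e, key]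
    have h5 : (rot 5 : ℤ) = 6 := by
      unfold rot
      rw [if_pos rfl]
      norm_num
    rw [h5]
  · obtain ⟨m, hm, hsq, hmod⟩ := pe_four hδ hN h2 hJ.1
    have hC : Cm 3 m := ⟨hsq, hmod, Or.inr ⟨rfl, by have := hJ.2.1; rw [hm] at this; omega⟩⟩
    rw [hm] at hDD ⊢
    obtain ⟨b', rfl, hb⟩ := half hDD
    have key := main4 hZ hC hD0 h4 hb
    have e : (((4 * m : ℕ) : ℤ)) = 4 * (m : ℤ) := by push_cast; ring
    rw [e, key]
    have h5 : (rot 3 : ℤ) = 12 := by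
      unfold rot
      rw [if_neg (by norm_num)]
      norm_num
    rw [h5]

theorem pc_of (h : S_PCG4) : S_PC := by
  intro δ hδ N hN T hT0 hT
  by_cases h2 : 2 ∈ N
  · have h0 : 0 < T * (pe δ N - T) := Nat.mul_pos hT0 (by omega)
    have h1 : 4 * ((T * (pe δ N - T) : ℕ) : ℤ) =
        (pe δ N : ℤ) * (pe δ N : ℤ) - ((pe δ N : ℤ) - 2 * T) ^ 2 := by
      rw [Nat.cast_mul, Nat.cast_sub hT.le]
      ring
    have h4 : (4 : ℤ) ∣ (pe δ N : ℤ) := by
      rw [Od.pe_two h2]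
      push_cast
      rcases hδ with rfl | rfl | rfl
      · exact Dvd.intro _ rfl
      · exact Dvd.dvd.mul_right (by norm_num) _
      · exact Dvd.dvd.mul_right (by norm_num) _
    have h5 := h δ hδ N hN h2 (pe δ N) ((pe δ N : ℤ) - 2 * T) _ h0 h4 h1
    exact h5
  · have hb : pe δ N = pr N := Od.pe_odd h2
    have ho : Odd (pr N) := Nat.odd_iff.2 (Od.pr_mod2 hN h2)
    have hsq : Squarefree (pr N) := by
      unfold pr
      exact Finset.squarefree_prod_of_pairwise_isCoprime (fun p hp p' hp' hne =>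
        Nat.coprime_iff_isRelPrime.1 ((Nat.coprime_primes (hN p hp).1 (hN p' hp').1).2 hne))
        (fun p hp => (hN p hp).1.squarefree)
    have key := XV.t_PC (pr N) hsq T hT0 (by rw [← hb]; exact hT)
    rw [Od.Jb_odd hN h2, Od.Jd_odd hN h2, hb, Od.pf_odd ho, Od.pf_odd ho]
    exact key

/-- **XW-10**: the number of pairs of vectors with a given Gram matrix -/
theorem t_PCG4 : S_PCG4 := pcg4_of t_ZZ

/-- **XW-10**: the number of pairs of vectors with given inner product -/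
theorem t_PC : S_PC := pc_of t_PCG4

end Pool.Agent.XW
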