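import Pool.Agent.XW.Defs
import Pool.Agent.XV.PCStm

/-!
# Project XW: the number of pairs of vectors with given Gram matrix, even discriminants (XW-10)
-/

set_option autoImplicit false

namespace Pool.Agent.XW

open Pool.Agent.XV (cpg)

/-- PCG4: the number of pairs of vectors with a given Gram matrix, even discriminants, the second norm
divisible by `4` -/
def S_PCG4 : Prop := ∀ δ : ℤ, Dt δ → ∀ N : Finset ℕ, Pe N → 2 ∈ N → ∀ (m b : ℤ) (D : ℕ), 0 < D →
  (4 : ℤ) ∣ m → 4 * (D : ℤ) = pe δ N * m - b ^ 2 →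
  (Jb δ N → (cpg 5 (pe δ N) b m : ℤ) = if Odd (D.factorization 5) then
    6 * ∏ l ∈ D.primeFactors.erase 5, fc (pe δ N) D l else 0) ∧
  (Jd δ N → (cpg 3 (pe δ N) b m : ℤ) = if Odd (D.factorization 3) then
    12 * ∏ l ∈ D.primeFactors.erase 3, fc (pe δ N) D l else 0)

end Pool.Agent.XW
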