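import Pool.Agent.XV.PS
import Pool.Agent.XW.Odd
import Pool.Agent.XW.PCStm

/-!
# Project XW: the number of pairs of vectors with a common line

For `2 ∉ N` this is the statement of the project XV; for `2 ∈ N` the computation of the project XV is
repeated with the pairs whose second vector has a norm divisible by `4`.
-/

set_option autoImplicit false

namespace Pool.Agent.XW.PSC

open Finset
open Pool.Agent.Z700 (V3 pr un hh)
open Pool.Agent.XV (vec bl cpl cpa cpg)
open Pool.Agent.XV.PSB
open Pool.Agent.XV.PSC (cpc cpl_neg cpl_zero cpl_add cpc_eq cpc_zero fact_sq fact_sq_r jac_sq pf_sq)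

variable {q r : ℕ} [hrp : Fact r.Prime] {C Ci : V3 → V3}

/-! ### the local factors for even `N` -/

theorem fc_r {N D : ℕ} {β : ℤ} (h2 : ¬ Odd N) (hN : ¬ r ∣ N) (hβ : (r : ℤ) ∣ β ^ 2 + N) :
    fc N D r = (D.factorization r : ℤ) + 1 := by
  have hb : ¬ (r : ℤ) ∣ β := fun h => by
    have h1 : (r : ℤ) ∣ β ^ 2 := Dvd.dvd.pow h two_ne_zero
    have h3 := (dvd_add_right h1).1 hβ
    exact hN (by exact_mod_cast h3)
  have hj : jacobiSym (-(N : ℤ)) r = 1 := by
    have e1 : jacobiSym (-(N : ℤ)) r = jacobiSym (β ^ 2) r := by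
      refine jacobiSym.mod_left' (Int.ModEq.symm (Int.modEq_iff_dvd.2 ?_)).symm
      have e2 : β ^ 2 - -(N : ℤ) = β ^ 2 + N := by ring
      rw [e2]
      exact hβ
    rw [e1]
    apply jacobiSym.sq_one'
    rw [Int.gcd_comm, Int.gcd_eq_natAbs, Int.natAbs_natCast]
    exact (Nat.Prime.coprime_iff_not_dvd hrp.out).2 fun h => hb (Int.natCast_dvd.2 h)
  unfold fc
  rw [if_neg hN, if_neg h2, hj]
  simp

theorem fc_sq {N D' l : ℕ} (hD' : 0 < D') (hl : l.Prime) (hlr : l ≠ r) :
    fc N (r ^ 2 * D') l = fc N D' l := by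
  unfold fc hh
  rw [fact_sq hD' hl hlr]
  have h1 : r ^ 2 * D' / l ^ D'.factorization l = r ^ 2 * (D' / l ^ D'.factorization l) :=
    Nat.mul_div_assoc _ (Nat.ordProj_dvd D' l)
  rw [h1]
  have h2 : (-((r ^ 2 * (D' / l ^ D'.factorization l) : ℕ) : ℤ)) =
      (r : ℤ) ^ 2 * (-((D' / l ^ D'.factorization l : ℕ) : ℤ)) := by
    push_cast
    ring
  have h3 : (-((N / l * (r ^ 2 * (D' / l ^ D'.factorization l)) : ℕ) : ℤ)) =
      (r : ℤ) ^ 2 * (-((N / l * (D' / l ^ D'.factorization l) : ℕ) : ℤ)) := by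
    push_cast
    ring
  rw [h2, h3, jac_sq _ hl hlr, jac_sq _ hl hlr]

theorem prod_split {q N D : ℕ} (hqr : r ≠ q) (hD : 0 < D)
    (hj : fc N D r = (D.factorization r : ℤ) + 1) : ∏ l ∈ D.primeFactors.erase q, fc N D l =
      ((D.factorization r : ℤ) + 1) * ∏ l ∈ (D.primeFactors.erase q).erase r, fc N D l := by
  by_cases h : r ∈ D.primeFactors.erase q
  · rw [← Finset.mul_prod_erase _ _ h, hj]
  · rw [Finset.erase_eq_of_notMem h]
    have h2 : D.factorization r = 0 := by
      apply Nat.factorization_eq_zero_of_not_dvd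
      intro h3
      apply h
      rw [Finset.mem_erase, Nat.mem_primeFactors]
      exact ⟨hqr, hrp.out, h3, hD.ne'⟩
    rw [h2]
    simp

/-! ### the main computation -/

theorem main (h : Tr q r C Ci) (hr2 : r ≠ 2) (hqr : r ≠ q) (hq : q.Prime) {N T : ℕ} {β : ℤ} {c : ℤ}
    (hβ : (r : ℤ) ∣ β ^ 2 + N) (hN : ¬ r ∣ N) (h4 : 4 ∣ N) (hT : 0 < T) (hTN : T < N)
    (H : ∀ m b : ℤ, ∀ D : ℕ, 0 < D → (4 : ℤ) ∣ m → 4 * (D : ℤ) = N * m - b ^ 2 →
      (cpg q N b m : ℤ) =
      if Odd (D.factorization q) then c * ∏ l ∈ D.primeFactors.erase q, fc N D l else 0) :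
    (cpl q N T β : ℤ) = if Odd ((T * (N - T)).factorization q) then
      c * (T.factorization r : ℤ) * ∏ l ∈ ((T * (N - T)).primeFactors.erase q).erase r,
        fc N (T * (N - T)) l else 0 := by
  have hN2 : ¬ Odd N := by
    rw [Nat.not_odd_iff_even]
    exact ⟨N / 2, by omega⟩
  have two_ne : (2 : ZMod r) ≠ 0 := by
    intro h0
    have h1 : ((2 : ℕ) : ZMod r) = 0 := by exact_mod_cast h0
    rw [ZMod.natCast_eq_zero_iff] at h1
    exact hr2 ((Nat.prime_dvd_prime_iff_eq hrp.out Nat.prime_two).1 h1)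
  by_cases hrT : r ∣ T
  · have hNT : ¬ r ∣ N - T := by
      intro h1
      apply hN
      have := Nat.dvd_add h1 hrT
      rwa [Nat.sub_add_cancel hTN.le] at this
    have hD : 0 < T * (N - T) := Nat.mul_pos hT (Nat.sub_pos_of_lt hTN)
    have h4' : 4 * ((T * (N - T) : ℕ) : ℤ) = (N : ℤ) * N - ((N : ℤ) - 2 * T) ^ 2 := by
      rw [Nat.cast_mul, Nat.cast_sub hTN.le]
      ring
    have h4N : (4 : ℤ) ∣ (N : ℤ) := by exact_mod_cast h4
    have hfr : (T * (N - T)).factorization r = T.factorization r := by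
      rw [Nat.factorization_mul hT.ne' (Nat.sub_pos_of_lt hTN).ne']
      simp [Nat.factorization_eq_zero_of_not_dvd hNT]
    have k1 := cpl_add h two_ne hβ hN hrT
    rw [cpl_neg q N T β h.vecm] at k1
    have k2 := H _ _ _ hD h4N h4'
    rw [← XV.cpa_eq, prod_split hqr hD (fc_r hN2 hN hβ), hfr] at k2
    have k3 : (cpc q r N T : ℤ) = if Odd ((T * (N - T)).factorization q) then
        c * (((T.factorization r : ℤ) - 1) * ∏ l ∈ ((T * (N - T)).primeFactors.erase q).erase r,
          fc N (T * (N - T)) l) else 0 := by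
      by_cases h2 : r ^ 2 ∣ T
      · obtain ⟨S, hS⟩ := h2
        have hS0 : 0 < S := by
          rcases Nat.eq_zero_or_pos S with h0 | h0
          · rw [h0] at hS
            omega
          · exact h0
        have hD' : 0 < S * (N - T) := Nat.mul_pos hS0 (Nat.sub_pos_of_lt hTN)
        have e1 : T * (N - T) = r ^ 2 * (S * (N - T)) := by
          rw [← mul_assoc, ← hS]
        have e2 : 4 * ((S * (N - T) : ℕ) : ℤ) = (N : ℤ) * (4 * S) - (-2 * r * S) ^ 2 := by
          rw [Nat.cast_mul, Nat.cast_sub hTN.le]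
          have : (T : ℤ) = r ^ 2 * S := by exact_mod_cast hS
          rw [this]
          ring
        have e3 := H _ _ _ hD' ⟨(S : ℤ), rfl⟩ e2
        have e4 : cpc q r N T = cpg q N (-2 * r * S) (4 * S) := by
          apply cpc_eq h
          · have : (T : ℤ) = r ^ 2 * S := by exact_mod_cast hS
            rw [this]
            ring
          · have : (T : ℤ) = r ^ 2 * S := by exact_mod_cast hS
            rw [this]
            ring
        rw [e4, e3, prod_split hqr hD' (fc_r hN2 hN hβ)]
        have e5 : (S * (N - T)).factorization q = (T * (N - T)).factorization q := by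
          rw [e1, fact_sq hD' hq hqr.symm]
        have e6 : ((S * (N - T)).factorization r : ℤ) + 1 = (T.factorization r : ℤ) - 1 := by
          have := fact_sq_r (r := r) hD'
          rw [← e1, hfr] at this
          rw [this]
          push_cast
          ring
        have e7 : ∏ l ∈ ((S * (N - T)).primeFactors.erase q).erase r, fc N (S * (N - T)) l =
            ∏ l ∈ ((T * (N - T)).primeFactors.erase q).erase r, fc N (T * (N - T)) l := by
          rw [e1, pf_sq hD']
          refine Finset.prod_congr rfl fun l hl => ?_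
          rw [Finset.mem_erase, Finset.mem_erase] at hl
          exact (fc_sq hD' (Nat.prime_of_mem_primeFactors hl.2.2) hl.1).symm
        rw [e5, e6, e7]
      · rw [cpc_zero h hr2 h2]
        have e1 : T.factorization r = 1 := by
          have h3 : 1 ≤ T.factorization r := by
            rw [← Nat.Prime.dvd_iff_one_le_factorization hrp.out hT.ne']
            exact hrT
          have h4 : ¬ 2 ≤ T.factorization r := by
            rw [← Nat.Prime.pow_dvd_iff_le_factorization hrp.out hT.ne']
            exact h2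
          omega
        rw [e1]
        simp
    have k4 : 2 * (cpl q N T β : ℤ) = (cpa q N T : ℤ) + (cpc q r N T : ℤ) := by
      rw [← Nat.cast_add, ← k1]
      push_cast
      ring
    have k5 : 2 * (cpl q N T β : ℤ) = 2 * if Odd ((T * (N - T)).factorization q) then
        c * (T.factorization r : ℤ) * ∏ l ∈ ((T * (N - T)).primeFactors.erase q).erase r,
          fc N (T * (N - T)) l else 0 := by
      rw [k4, k2, k3]
      split_ifs
      · ring
      · ring
    exact mul_left_cancel₀ two_ne_zero k5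
  · rw [cpl_zero h two_ne hβ hN hrT, Nat.factorization_eq_zero_of_not_dvd hrT]
    simp

omit hrp in
theorem sqf {N : Finset ℕ} (h : ∀ p ∈ N, p.Prime) : Squarefree (pr N) := by
  unfold Pool.Agent.Z700.pr
  induction N using Finset.induction_on with
  | empty => simp
  | insert p N hp ih =>
    rw [prod_insert hp]
    have h1 := ih fun p' hp' => h p' (mem_insert_of_mem hp')
    have h2 := h p (mem_insert_self p N)
    refine (Nat.squarefree_mul ?_).2 ⟨h2.squarefree, h1⟩
    refine Nat.Coprime.prod_right fun p' hp' => ?_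
    refine (Nat.coprime_primes h2 (h p' (mem_insert_of_mem hp'))).2 ?_
    rintro rfl
    exact hp hp'

end Pool.Agent.XW.PSC

namespace Pool.Agent.XW

open Finset

/-- PS, from the count for odd discriminants and the count of pairs for even discriminants -/
theorem t_PS_of (h : XV.S_PS) (h4 : S_PCG4) : S_PS := by
  intro δ hδ N hN β T hT hTn
  by_cases h2 : 2 ∈ N
  · have : Fact (Nat.Prime 3) := ⟨by norm_num⟩
    have : Fact (Nat.Prime 5) := ⟨by norm_num⟩
    have p3 : ¬ 3 ∣ pe δ N := by
      rw [Od.prime_dvd_pe hδ hN Nat.prime_three]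
      exact fun h => (hN 3 h).2.1 rfl
    have p5 : ¬ 5 ∣ pe δ N := by
      rw [Od.prime_dvd_pe hδ hN Nat.prime_five]
      exact fun h => (hN 5 h).2.2 rfl
    refine ⟨fun hk hβ => ?_, fun hk hβ => ?_⟩
    · exact PSC.main (r := 3) XV.PSB.tr5 (by norm_num) (by norm_num) (by norm_num)
        (by exact_mod_cast hβ) p3 (Od.pe_four hδ h2) hT hTn fun m b D hD hm hDD =>
          (h4 δ hδ N hN h2 m b D hD hm hDD).1 hk
    · exact PSC.main (r := 5) XV.PSB.tr3 (by norm_num) (by norm_num) (by norm_num)
        (by exact_mod_cast hβ) p5 (Od.pe_four hδ h2) hT hTn fun m b D hD hm hDD =>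
          (h4 δ hδ N hN h2 m b D hD hm hDD).2 hk
  · have hs : Squarefree (Z700.pr N) := PSC.sqf fun p hp => (hN p hp).1
    have ho : Odd (Z700.pr N) := Nat.odd_iff.2 (Od.pr_mod2 hN h2)
    rw [Od.Jb_odd hN h2, Od.Jd_odd hN h2, Od.pe_odd h2]
    rw [Od.pe_odd h2] at hTn
    simp only [Od.fc_odd ho]
    exact h _ hs β T hT hTn

/-- PS, from the counts of pairs for odd and even discriminants -/
theorem t_PS (h : XV.S_PCG) (h4 : S_PCG4) : S_PS := t_PS_of (XV.t_PS h) h4

end Pool.Agent.XW
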