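import Pool.Agent.XW.Coc
import Pool.Agent.NH2.Parb

/-!
# Project XW: the value of the counting function at a parabolic element (helper6, port of helper80's file)
-/

set_option autoImplicit false

namespace Pool.Agent.XW

open Finset
open Pool.Agent.NH2 (ev)
open Pool.Agent.NH2.Parb (fin_pair ev01)

noncomputable section

namespace Parb

open CocA

/-! ### the character sum -/

theorem ch_mul (δ : ℤ) (X : Finset ℕ) (a b : ℤ) : ch δ X (a * b) = ch δ X a * ch δ X b := by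
  unfold ch
  rw [← Finset.prod_mul_distrib]
  exact Finset.prod_congr rfl fun p _ => sy_mul δ p a b

theorem ch_congr {δ : ℤ} {X : Finset ℕ} (hX : PX δ X) {a b : ℤ} (h : (pe δ X : ℤ) ∣ a - b) :
    ch δ X a = ch δ X b :=
  Finset.prod_congr rfl fun _ hp => sy_congr hX.1 ((dvd_pe δ hp).trans h)

theorem not_dvd_one {p : ℕ} (hp : p.Prime) : ¬ (p : ℤ) ∣ 1 := by
  intro h2
  have h3 := hp.two_le
  have h4 := Int.le_of_dvd (by norm_num) h2
  omega

theorem sy_one {δ : ℤ} (hδ : Dt δ) {p : ℕ} (hp : p.Prime) : sy δ p 1 = 1 := by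
  have h1 := sy_sq hδ hp (not_dvd_one hp)
  rwa [one_pow] at h1

/-- a value `-1` of the symbol at `p` -/
theorem exists_sy {δ : ℤ} (hδ : Dt δ) {p : ℕ} (hp : p.Prime) : ∃ r : ℤ, sy δ p r = -1 := by
  by_cases h2 : p = 2
  · subst h2
    unfold sy
    rcases hδ with rfl | rfl | rfl
    · exact ⟨3, by decide⟩
    · exact ⟨3, by decide⟩
    · exact ⟨5, by decide⟩
  · have : Fact p.Prime := ⟨hp⟩
    obtain ⟨r, hr⟩ : ∃ r : ZMod p, ¬ IsSquare r :=
      FiniteField.exists_nonsquare (F := ZMod p) (by rw [ZMod.ringChar_zmod_n]; exact h2)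
    refine ⟨(r.val : ℤ), ?_⟩
    unfold sy
    rw [if_neg h2, ← jacobiSym.legendreSym.to_jacobiSym, legendreSym.eq_neg_one_iff]
    have h1 : (((r.val : ℕ) : ℤ) : ZMod p) = r := by
      rw [Int.cast_natCast, ZMod.natCast_zmod_val]
    rw [h1]
    exact hr

theorem md_pow {δ : ℤ} (hδ : Dt δ) (p : ℕ) : md δ p ∣ p ^ 3 := by
  unfold md
  split_ifs with h
  · rw [h]
    rcases hδ with h5 | h5 | h5 <;> rw [h5] <;> decide
  · exact dvd_pow_self p (by norm_num)

theorem exists_neg {δ : ℤ} {X : Finset ℕ} (hX : PX δ X) (hne : X.Nonempty) :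
    ∃ u : ℤ, ch δ X u = -1 := by
  classical
  obtain ⟨p, hp⟩ := hne
  have hp1 := (hX.2 p hp).1
  obtain ⟨r, hr⟩ := exists_sy hX.1 hp1
  have hcop : IsCoprime (md δ p : ℤ) (pe δ (X.erase p) : ℤ) := by
    unfold pe
    push_cast
    refine IsCoprime.prod_right fun q hq => ?_
    rw [Finset.mem_erase] at hq
    have hq1 := (hX.2 q hq.2).1
    rw [Nat.isCoprime_iff_coprime]
    exact Nat.Coprime.coprime_dvd_left (md_pow hX.1 p)
      (Nat.Coprime.coprime_dvd_right (md_pow hX.1 q)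
        (((Nat.coprime_primes hp1 hq1).2 (Ne.symm hq.1)).pow 3 3))
  obtain ⟨s, t, hst⟩ := hcop
  refine ⟨r * (t * (pe δ (X.erase p) : ℤ)) + s * (md δ p : ℤ), ?_⟩
  set u : ℤ := r * (t * (pe δ (X.erase p) : ℤ)) + s * (md δ p : ℤ) with hu
  have h1 : sy δ p u = -1 := by
    rw [← hr]
    refine sy_congr hX.1 ⟨s - r * s, ?_⟩
    rw [hu]
    linear_combination r * hst
  have h2 : ∀ q ∈ X.erase p, sy δ q u = 1 := by
    intro q hq
    rw [← sy_one hX.1 (hX.2 q (Finset.mem_of_mem_erase hq)).1]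
    refine sy_congr hX.1 ((dvd_pe δ hq).trans ⟨r * t - t, ?_⟩)
    rw [hu]
    linear_combination hst
  unfold ch
  rw [← Finset.mul_prod_erase X _ hp, h1, Finset.prod_eq_one h2, mul_one]

theorem sum_ch {δ : ℤ} {X : Finset ℕ} (hX : PX δ X) (hne : X.Nonempty) (r : ℕ) :
    ∑ c ∈ range (pe δ X), ch δ X (5 * (c : ℤ) + r) = 0 := by
  obtain ⟨u, hu⟩ := exists_neg hX hne
  have hm0 : pe δ X ≠ 0 := (pe_pos hX).ne'
  set m := pe δ X with hm
  have : NeZero m := ⟨hm0⟩
  set f : ZMod m → ℤ := fun x => ch δ X (x.val : ℤ) with hf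
  have hfi : ∀ a : ℤ, f ((a : ℤ) : ZMod m) = ch δ X a := by
    intro a
    rw [hf]
    simp only
    refine ch_congr hX ?_
    rw [ZMod.val_intCast, ← hm]
    exact ⟨-(a / m), by rw [Int.emod_def]; ring⟩
  have hsurj : ∀ x : ZMod m, ∃ a : ℤ, (a : ZMod m) = x := fun x => ZMod.intCast_surjective x
  have hmul : ∀ x : ZMod m, f ((u : ZMod m) * x) = - f x := by
    intro x
    obtain ⟨a, rfl⟩ := hsurj x
    rw [← Int.cast_mul, hfi, hfi, ch_mul, hu]
    ring
  have hcopu : IsUnit (u : ZMod m) := by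
    have h2 : IsCoprime u (m : ℤ) := by
      rw [hm]
      unfold pe
      push_cast
      refine IsCoprime.prod_right fun q hq => ?_
      have hq1 := (hX.2 q hq).1
      have h3 : ¬ (q : ℤ) ∣ u := by
        intro h4
        have h5 : ch δ X u = 0 := Finset.prod_eq_zero hq (sy_zero hX.1 hq1 h4)
        rw [hu] at h5
        norm_num at h5
      have h4 : IsCoprime u (q : ℤ) := (((pZ hq1).coprime_iff_not_dvd).2 h3).symm
      have h5 : ((md δ q : ℕ) : ℤ) ∣ (q : ℤ) ^ 3 := by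
        exact_mod_cast md_pow hX.1 q
      exact h4.pow_right.of_isCoprime_of_dvd_right h5
    obtain ⟨s, t, hst⟩ := h2
    refine IsUnit.of_mul_eq_one (s : ZMod m) ?_
    have := congrArg (fun z : ℤ => (z : ZMod m)) hst
    push_cast at this
    rw [ZMod.natCast_self, mul_zero, add_zero] at this
    rw [mul_comm]; exact this
  have hcop2 : IsUnit (5 : ZMod m) := by
    have h1 : Nat.Coprime 5 m := by
      rw [Nat.Prime.coprime_iff_not_dvd (by norm_num)]
      intro h2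
      exact five_pe hX (by exact_mod_cast h2)
    have := (ZMod.isUnit_iff_coprime 5 m).2 h1
    simpa using this
  have hsum : ∑ x : ZMod m, f x = 0 := by
    have hb : Function.Bijective (fun x : ZMod m => (u : ZMod m) * x) :=
      Finite.injective_iff_bijective.1 hcopu.mul_right_injective
    have h1 : ∑ x : ZMod m, f ((u : ZMod m) * x) = ∑ x : ZMod m, f x := hb.sum_comp f
    rw [Finset.sum_congr rfl (fun x _ => hmul x), Finset.sum_neg_distrib] at h1
    linarith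
  have hb2 : Function.Bijective (fun x : ZMod m => (5 : ZMod m) * x + r) := by
    apply Finite.injective_iff_bijective.1
    intro x y hxy
    simp only at hxy
    exact hcop2.mul_right_injective (add_right_cancel hxy)
  have h2 : ∑ x : ZMod m, f ((5 : ZMod m) * x + r) = 0 := by
    rw [hb2.sum_comp f, hsum]
  rw [← h2]
  refine Finset.sum_nbij' (fun c => (c : ZMod m)) (fun x => x.val) ?_ ?_ ?_ ?_ ?_
  · intro c _
    exact Finset.mem_univ _
  · intro x _
    rw [Finset.mem_range]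
    exact ZMod.val_lt x
  · intro c hc
    rw [Finset.mem_range] at hc
    exact ZMod.val_cast_of_lt hc
  · intro x _
    exact ZMod.natCast_zmod_val x
  · intro c _
    have := hfi (5 * (c : ℤ) + r)
    push_cast at this
    rw [this]

/-! ### the signs -/

theorem hγ : (-14 : ℤ) * 16 - 5 * (-45) = 1 := by norm_num

theorem hγ' : (15 : ℤ) ∣ -45 := ⟨-3, by norm_num⟩

theorem ev516 {δ : ℤ} {X : Finset ℕ} (hX : PX δ X) {q : ℤ × ℤ × ℤ} (hq : Fm δ X 11 q) :
    ev q 5 16 ≠ 0 := by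
  have h1 := C_ne hX (Fm_act hγ hγ' hq)
  rw [← ev01, ev_act] at h1
  norm_num at h1
  exact h1

/-! ### finiteness -/

theorem T_supp {δ : ℤ} {X : Finset ℕ} {x M y N : ℤ} {q : ℤ × ℤ × ℤ} (h : T δ X x M y N q ≠ 0)
    (h1 : Fm δ X 11 q → ev q x M ≠ 0) (h2 : Fm δ X 11 q → ev q y N ≠ 0) :
    q.2.1 ^ 2 - 4 * q.1 * q.2.2 = (pe δ X : ℤ) ^ 2 ∧ ev q x M * ev q y N < 0 := by
  unfold T at h
  by_cases hq : Fm δ X 11 q
  · rw [if_pos hq] at h
    refine ⟨hq.1, ?_⟩
    have h3 := h1 hq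
    have h4 := h2 hq
    have h5 : Int.sign (ev q x M) ≠ Int.sign (ev q y N) := by
      intro h6
      rw [h6, sub_self, mul_zero] at h
      exact h rfl
    rcases lt_or_gt_of_ne h3 with h6 | h6 <;> rcases lt_or_gt_of_ne h4 with h7 | h7
    · exact absurd (by rw [Int.sign_eq_neg_one_of_neg h6, Int.sign_eq_neg_one_of_neg h7]) h5
    · exact mul_neg_of_neg_of_pos h6 h7
    · exact mul_neg_of_pos_of_neg h6 h7
    · exact absurd (by rw [Int.sign_eq_one_of_pos h6, Int.sign_eq_one_of_pos h7]) h5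
  · rw [if_neg hq] at h
    exact absurd rfl h

/-! ### the forms with a root at `1 / 3` -/

open Classical in
/-- the part of the sum with a root at `1 / 3` -/
def U (δ : ℤ) (X : Finset ℕ) (q : ℤ × ℤ × ℤ) : ℤ := if ev q 1 3 = 0 then T δ X 0 1 5 16 q else 0

open Classical in
/-- the part of the sum without a root at `1 / 3` -/
def V (δ : ℤ) (X : Finset ℕ) (q : ℤ × ℤ × ℤ) : ℤ := if ev q 1 3 = 0 then 0 else T δ X 0 1 1 3 q

/-- the forms with a root at `1 / 3` -/
def g (m C : ℤ) : ℤ × ℤ × ℤ := (3 * m + 9 * C, -m - 6 * C, C)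

theorem T_UV {δ : ℤ} {X : Finset ℕ} (hX : PX δ X) (q : ℤ × ℤ × ℤ) :
    T δ X 0 1 5 16 q = V δ X q + (- V δ X (eqv (-14) 5 (-45) 16 hγ q) + U δ X q) := by
  have h0 : (eqv (-14) 5 (-45) 16 hγ q) = act (-14) 5 (-45) 16 q := rfl
  have h1 : ev (act (-14) 5 (-45) 16 q) 1 3 = ev q 1 3 := by
    rw [ev_act]; norm_num
  have h2 := T_act hX hγ hγ' 0 1 1 3 q
  norm_num at h2
  unfold U V
  rw [h0, h1]
  by_cases h : ev q 1 3 = 0
  · rw [if_pos h, if_pos h, if_pos h]
    ring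
  · rw [if_neg h, if_neg h, if_neg h, ← h2, T_add δ X 0 1 1 3 5 16 q]
    have h3 : T δ X 1 3 5 16 q = - T δ X 5 16 1 3 q := by
      unfold T
      split_ifs
      · ring
      · ring
    rw [h3]
    ring

theorem fin_V {δ : ℤ} {X : Finset ℕ} (hX : PX δ X) : (Function.support (V δ X)).Finite := by
  refine (fin_pair ((pe δ X : ℤ) ^ 2) 0 1 1 3 (by norm_num)).subset ?_
  intro q hq
  have hq' : V δ X q ≠ 0 := hq
  unfold V at hq'
  by_cases h : ev q 1 3 = 0
  · rw [if_pos h] at hq'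
    exact absurd rfl hq'
  · rw [if_neg h] at hq'
    exact T_supp hq' (fun h1 => by rw [ev01]; exact C_ne hX h1) (fun _ => h)

theorem fin_0516 {δ : ℤ} {X : Finset ℕ} (hX : PX δ X) :
    (Function.support (T δ X 0 1 5 16)).Finite := by
  refine (fin_pair ((pe δ X : ℤ) ^ 2) 0 1 5 16 (by norm_num)).subset ?_
  intro q hq
  exact T_supp hq (fun h1 => by rw [ev01]; exact C_ne hX h1) (fun h1 => ev516 hX h1)

theorem fin_0110 {δ : ℤ} {X : Finset ℕ} (hX : PX δ X) :
    (Function.support (T δ X 0 1 1 0)).Finite := fin_T hX (NV_zero hX)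

theorem fin_U {δ : ℤ} {X : Finset ℕ} (hX : PX δ X) : (Function.support (U δ X)).Finite := by
  refine (fin_0516 hX).subset ?_
  intro q hq
  have hq' : U δ X q ≠ 0 := hq
  unfold U at hq'
  by_cases h : ev q 1 3 = 0
  · rwa [if_pos h] at hq'
  · rw [if_neg h] at hq'
    exact absurd rfl hq'

theorem Fm_g {δ : ℤ} {X : Finset ℕ} {C : ℤ} (hC : (C + 2 * pe δ X) % 5 = 0) :
    Fm δ X 11 (g (pe δ X) C) := by
  unfold g
  refine ⟨?_, ?_, ?_⟩
  · simp only
    ring
  · simp only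
    omega
  · simp only
    omega

theorem g_of {δ : ℤ} {X : Finset ℕ} (hX : PX δ X) {q : ℤ × ℤ × ℤ} (hq : Fm δ X 11 q)
    (h : ev q 1 3 = 0) : q = g (pe δ X) q.2.2 ∧ (q.2.2 + 2 * pe δ X) % 5 = 0 := by
  obtain ⟨A, B, C⟩ := q
  have i2 := three_pe hX
  obtain ⟨h1, h2, h3⟩ := hq
  unfold ev at h
  simp only at h h1 h2 h3
  have h4 : (B + 6 * C - pe δ X) * (B + 6 * C + pe δ X) = 0 := by
    linear_combination h1 + 4 * C * h
  unfold g
  rcases mul_eq_zero.1 h4 with h5 | h5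
  · omega
  · simp only [Prod.mk.injEq]
    refine ⟨⟨?_, ?_, ?_⟩, ?_⟩ <;> first | trivial | omega

theorem cx_g {δ : ℤ} {X : Finset ℕ} (hX : PX δ X) (C : ℤ) :
    cx δ X (g (pe δ X) C) = ch δ X C := by
  rw [cx_eq]
  unfold ch
  apply Finset.prod_congr rfl
  intro p hp
  obtain ⟨h1, h2, h3⟩ := hX.2 p hp
  have h77 : ¬ (p : ℤ) ∣ 3 := by
    intro h4
    have : p ∣ 3 := by exact_mod_cast h4
    exact h2 ((Nat.prime_dvd_prime_iff_eq h1 (by norm_num)).1 this)
  unfold cp1 g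
  simp only
  split_ifs with h
  · rfl
  · have e1 : sy δ p (3 * (pe δ X : ℤ) + 9 * C) = sy δ p (3 ^ 2 * C) := by
      refine sy_congr hX.1 ?_
      have : 3 * (pe δ X : ℤ) + 9 * C - 3 ^ 2 * C = 3 * pe δ X := by ring
      rw [this]
      exact (dvd_pe δ hp).mul_left _
    rw [e1, sy_mul, sy_sq hX.1 h1 h77, one_mul]

theorem ev_g (m C : ℤ) : ev (g m C) 5 16 = C - 5 * m := by
  unfold ev g
  ring

theorem ev_g0 (m C : ℤ) : ev (g m C) 0 1 = C := by
  unfold ev g
  ring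

theorem ev_g3 (m C : ℤ) : ev (g m C) 1 3 = 0 := by
  unfold ev g
  ring

theorem sum_U {δ : ℤ} {X : Finset ℕ} (hX : PX δ X) (hne : X.Nonempty) : ∑ᶠ q, U δ X q = 0 := by
  classical
  have i5 := five_pe hX
  obtain ⟨r, hr⟩ : ∃ r : ℕ, r = (3 * pe δ X) % 5 := ⟨_, rfl⟩
  have hr0 : 0 < r := by
    have h0 : pe δ X % 5 = 1 ∨ pe δ X % 5 = 2 ∨ pe δ X % 5 = 3 ∨ pe δ X % 5 = 4 := by omega
    rcases h0 with h0 | h0 | h0 | h0 <;> omega
  have hs : Function.support (U δ X) ⊆
      (((range (pe δ X)).image (fun c : ℕ => g (pe δ X) (5 * (c : ℤ) + r)) :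
        Finset (ℤ × ℤ × ℤ)) : Set (ℤ × ℤ × ℤ)) := by
    intro q hq
    have hq' : U δ X q ≠ 0 := hq
    unfold U at hq'
    by_cases h : ev q 1 3 = 0
    · rw [if_pos h] at hq'
      have hF : Fm δ X 11 q := by
        by_contra h1
        unfold T at hq'
        rw [if_neg h1] at hq'
        exact hq' rfl
      obtain ⟨h1, h2⟩ := g_of hX hF h
      have h3 := (T_supp hq' (fun h1 => by rw [ev01]; exact C_ne hX h1)
        (fun h1 => ev516 hX h1)).2
      rw [h1, ev_g, ev_g0] at h3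
      have h4 : 0 < q.2.2 ∧ q.2.2 < 5 * pe δ X := by
        rcases mul_neg_iff.1 h3 with ⟨h5, h6⟩ | ⟨h5, h6⟩ <;> constructor <;> omega
      rw [Finset.coe_image]
      refine ⟨(q.2.2 / 5).toNat, ?_, ?_⟩
      · rw [Finset.mem_coe, Finset.mem_range]
        omega
      · have h5 : 5 * (((q.2.2 / 5).toNat : ℕ) : ℤ) + r = q.2.2 := by omega
        simp only
        rw [h5, ← h1]
    · rw [if_neg h] at hq'
      exact absurd rfl hq'
  rw [finsum_eq_sum_of_support_subset _ hs, Finset.sum_image]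
  · have h1 : ∀ c ∈ range (pe δ X), U δ X (g (pe δ X) (5 * (c : ℤ) + r)) =
        2 * ch δ X (5 * (c : ℤ) + r) := by
      intro c hc
      rw [Finset.mem_range] at hc
      unfold U T
      rw [if_pos (ev_g3 _ _), if_pos (Fm_g (by omega)), cx_g hX, ev_g, ev_g0,
        Int.sign_eq_one_of_pos (by omega), Int.sign_eq_neg_one_of_neg (by omega)]
      ring
    rw [Finset.sum_congr rfl h1, ← Finset.mul_sum, sum_ch hX hne r, mul_zero]
  · intro a _ b _ hab
    have h1 := congrArg (fun q : ℤ × ℤ × ℤ => q.2.2) hab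
    unfold g at h1
    simp only at h1
    omega

theorem sum_0516 {δ : ℤ} {X : Finset ℕ} (hX : PX δ X) (hne : X.Nonempty) :
    ∑ᶠ q, T δ X 0 1 5 16 q = 0 := by
  have hf1 : (Function.support fun q => V δ X (eqv (-14) 5 (-45) 16 hγ q)).Finite :=
    (fin_V hX).preimage ((eqv (-14) 5 (-45) 16 hγ).injective.injOn)
  have hf2 : (Function.support fun q => -V δ X (eqv (-14) 5 (-45) 16 hγ q)).Finite := by
    refine hf1.subset ?_
    intro q hq
    exact neg_ne_zero.1 hq
  have hf3 : (Function.support fun q => (-V δ X (eqv (-14) 5 (-45) 16 hγ q) + U δ X q)).Finite :=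
    (hf2.union (fin_U hX)).subset (Function.support_add _ _)
  rw [finsum_congr (fun q => T_UV hX q), finsum_add_distrib (fin_V hX) hf3,
    finsum_add_distrib hf2 (fin_U hX), finsum_neg_distrib,
    finsum_comp_equiv (eqv (-14) 5 (-45) 16 hγ) (f := V δ X), sum_U hX hne]
  ring

end Parb

open Parb CocA in
theorem t_PARB : S_PARB := by
  intro δ hδ X hX' hne hm
  have hX : PX δ X := ⟨hδ, hX'⟩
  have h1 : Fx δ X 0 1 = 0 := by
    have h2 := t_PARI δ hδ X hX' 0 1
    rw [hm, neg_zero] at h2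
    linarith
  have nv2 : NV δ X 5 16 := fun q hq => ev516 hX hq
  have h2 := G_eq hX (NV_zero hX)
  have h3 := G_eq hX nv2
  have h4 : G δ X 0 1 = G δ X 5 16 + ∑ᶠ q, T δ X 0 1 5 16 q := by
    unfold G
    rw [← finsum_add_distrib (fin_T hX nv2) (fin_0516 hX)]
    refine finsum_congr (fun q => ?_)
    rw [T_add δ X 0 1 5 16 1 0 q]
    ring
  rw [sum_0516 hX hne, h2, h3, h1] at h4
  linarith

end

end Pool.Agent.XW
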