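import Pool.Agent.XV.Sq
import Pool.Agent.XW.Odd

/-!
# XW-12: the squares of the sums over the vectors, all discriminants
-/

set_option autoImplicit false

namespace Pool.Agent.XW.SqE

open Finset
open Pool.Agent.Z700 (V3 pr hh)
open Pool.Agent.NH1 (lz rd)
open Pool.Agent.NH2 (wp)
open Pool.Agent.XV (bl vec LN rl ph Ph cpa cpl S_PHI S_REF OnL Com d3 ph_spec)
open Pool.Agent.XV.SqW (lz_mul lz_pm bl5 bl3 bl_cast mem_vec bl_pos bl_def bl_sub_sub bl_add_add
  n5 n3 E5 E3 onl5 onl3 ln5 ln3 Lns rd_eta rl5 rl3 lns5 lns3 com_iff ph_rot sm_ne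
  r5a1 r5b1 r5c1 r3_1 r3_2 r3_3 r3_4 r3_5)

variable {δ : ℤ}

/-! ### parity -/

/-- the parity of the inner product -/
theorem bl_par {q : ℕ} (hq : q = 3 ∨ q = 5) {v w : V3} {n : ℤ} (hv : bl q v v = n)
    (hw : bl q w w = n) : (2 : ℤ) ∣ n - bl q v w := by
  have sqd : ∀ x : ℤ, (2 : ℤ) ∣ x * x - x := by
    intro x
    have h := Int.even_mul_pred_self x
    rw [show x * x - x = x * (x - 1) by ring]
    exact h.two_dvd
  have cas : ∀ x y : ℤ, (2 : ℤ) ∣ x - y → (2 : ℤ) ∣ x - x * y := by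
    intro x y h
    have h1 := sqd x
    have h2 : x - x * y = x * (x - y) - (x * x - x) := by ring
    rw [h2]
    exact dvd_sub (h.mul_left _) h1
  rcases hq with rfl | rfl
  · rw [bl3] at hv hw ⊢
    have h1 : (2 : ℤ) ∣ v 0 - w 0 := by
      have a := sqd (v 0)
      have b := sqd (w 0)
      omega
    have h2 := cas _ _ h1
    have h3 := sqd (v 0)
    omega
  · rw [bl5] at hv hw ⊢
    obtain ⟨s, hs⟩ : ∃ s, s = v 0 + v 1 + v 2 := ⟨_, rfl⟩
    obtain ⟨t, ht⟩ : ∃ t, t = w 0 + w 1 + w 2 := ⟨_, rfl⟩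
    have e1 : n = s * s + 2 * (v 0 * v 0 + 3 * (v 1 * v 1) + 3 * (v 2 * v 2) -
        (v 0 * v 1 + v 1 * v 0) + (v 1 * v 2 + v 2 * v 1)) := by
      rw [hs, ← hv]; ring
    have e2 : n = t * t + 2 * (w 0 * w 0 + 3 * (w 1 * w 1) + 3 * (w 2 * w 2) -
        (w 0 * w 1 + w 1 * w 0) + (w 1 * w 2 + w 2 * w 1)) := by
      rw [ht, ← hw]; ring
    have e3 : 3 * (v 0 * w 0) + 7 * (v 1 * w 1) + 7 * (v 2 * w 2) - (v 0 * w 1 + v 1 * w 0) +
        (v 0 * w 2 + v 2 * w 0) + 3 * (v 1 * w 2 + v 2 * w 1) = s * t +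
        2 * (v 0 * w 0 + 3 * (v 1 * w 1) + 3 * (v 2 * w 2) - (v 0 * w 1 + v 1 * w 0) +
          (v 1 * w 2 + v 2 * w 1)) := by
      rw [hs, ht]; ring
    rw [e3]
    have h1 : (2 : ℤ) ∣ s - t := by
      have a := sqd s
      have b := sqd t
      omega
    have h2 := cas _ _ h1
    have h3 := sqd s
    omega

/-! ### the characters -/

theorem pe_sq (hδ : Dt δ) {N : Finset ℕ} (hN : Pe N) {p : ℕ} (hp : p ∈ N) (h2 : p ≠ 2) :
    (p : ℤ) ∣ (pe δ N : ℤ) ∧ ¬ (p : ℤ) ^ 2 ∣ (pe δ N : ℤ) := by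
  have hpp := (hN p hp).1
  constructor
  · exact_mod_cast (Od.prime_dvd_pe hδ hN hpp).2 hp
  · intro h
    have h1 : p ^ 2 ∣ pe δ N := by exact_mod_cast h
    have h3 := (hpp.pow_dvd_iff_le_factorization (Od.pe_ne hδ hN)).1 h1
    rw [Od.pe_fac_odd hδ hN hp h2] at h3
    omega

theorem pe_neq {q : ℕ} (hq : q = 3 ∨ q = 5) {N : Finset ℕ} (hN : Pe N) {p : ℕ} (hp : p ∈ N) :
    p ≠ q := by
  obtain ⟨-, h3, h5⟩ := hN p hp
  rcases hq with rfl | rfl <;> assumption

theorem ph_sq (hδ : Dt δ) (h : S_PHI) {q : ℕ} (hq : q = 3 ∨ q = 5) {N : Finset ℕ} (hN : Pe N)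
    {p : ℕ} (hp : p ∈ N) (hp2 : p ≠ 2) {v : V3} (hv : bl q v v = (pe δ N : ℤ)) :
    ph q p (rd p v) * ph q p (rd p v) = 1 := by
  have hpp := (hN p hp).1
  obtain ⟨d1, d2⟩ := pe_sq hδ hN hp hp2
  have hf := ph_spec h hq hpp hp2 (pe_neq hq hN hp)
  have rv : bl q (rd p v) (rd p v) = 0 := by
    rw [bl_cast, hv, ZMod.intCast_zmod_eq_zero_iff_dvd]
    exact d1
  have rne : rd p v ≠ 0 := by
    intro h0
    apply d2
    have h3 : ∀ i, (p : ℤ) ∣ v i := fun i =>
      (ZMod.intCast_zmod_eq_zero_iff_dvd _ p).1 (congrFun h0 i)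
    obtain ⟨a, ha⟩ := h3 0
    obtain ⟨b, hb⟩ := h3 1
    obtain ⟨d, hd⟩ := h3 2
    rw [← hv]
    refine ⟨bl q ![a, b, d] ![a, b, d], ?_⟩
    unfold bl
    rw [ha, hb, hd]
    split_ifs <;> simp <;> ring
  rcases hf.pm _ rv rne with h | h <;> rw [h] <;> norm_num

theorem om_sq (q M : ℕ) (v : V3) : om q M v * om q M v = 1 := by
  unfold om
  split_ifs <;> norm_num

theorem gm_sq (hδ : Dt δ) (h : S_PHI) {q : ℕ} (hq : q = 3 ∨ q = 5) {N : Finset ℕ} (hN : Pe N)
    {p : ℕ} (hp : p ∈ N) {v : V3} (hv : bl q v v = (pe δ N : ℤ)) :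
    gm δ q N p v * gm δ q N p v = 1 := by
  unfold gm
  split_ifs with h2
  · have h3 : Ph q (N.erase 2) v * Ph q (N.erase 2) v = 1 := by
      unfold Ph
      rw [← prod_mul_distrib]
      refine prod_eq_one fun l hl => ?_
      rw [mem_erase] at hl
      exact ph_sq hδ h hq hN hl.2 hl.1 hv
    linear_combination h3 + (Ph q (N.erase 2) v * Ph q (N.erase 2) v) * om_sq q (pe δ N) v
  · exact ph_sq hδ h hq hN hp h2 hv

theorem Pt_sq (hδ : Dt δ) (h : S_PHI) {q : ℕ} (hq : q = 3 ∨ q = 5) {N : Finset ℕ} (hN : Pe N)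
    {P : Finset ℕ} (hP : P ⊆ N) {v : V3} (hv : bl q v v = (pe δ N : ℤ)) :
    Pt δ q N P v * Pt δ q N P v = 1 := by
  unfold Pt
  rw [← prod_mul_distrib]
  exact prod_eq_one fun p hp => gm_sq hδ h hq hN (hP hp) hv

/-! ### the sum of the squares -/

open Classical in
/-- the sum over the vectors of a line -/
noncomputable def al (δ : ℤ) (q : ℕ) (N P : Finset ℕ) (m : V3) (β : ℤ) : ℤ :=
  ∑ v ∈ (vec q (pe δ N)).filter (fun v => OnL q m β v), Pt δ q N P v

theorem al5 (N P : Finset ℕ) (β : ℤ) : A δ 5 N P β = al δ 5 N P (n5 0) β := by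
  classical
  unfold A al
  congr 1
  ext v
  rw [mem_filter, mem_filter, ln5]

theorem al3 (N P : Finset ℕ) (β : ℤ) : A δ 3 N P β = al δ 3 N P (n3 0) β := by
  classical
  unfold A al
  congr 1
  ext v
  rw [mem_filter, mem_filter, ln3]

section main

variable {q k : ℕ} {nn : Fin k → V3}

/-- the sum over all lines -/
theorem sum_al (hL : Lns q k nn) (hq : q = 3 ∨ q = 5) {β : ℤ} {N : Finset ℕ} (hβ : ¬ rl q ∣ β)
    (hn : rl q ∣ β ^ 2 + pe δ N) (P : Finset ℕ) :
    ∑ i, al δ q N P (nn i) β = ∑ v ∈ vec q (pe δ N : ℤ), Pt δ q N P v := by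
  classical
  unfold al
  simp only [sum_filter]
  rw [sum_comm]
  refine sum_congr rfl fun v hv => ?_
  rw [mem_vec hq] at hv
  obtain ⟨i, hi, hj⟩ := hL.uniq β v hβ (by rw [hv]; exact hn)
  rw [sum_eq_single i, if_pos hi]
  · intro j _ hji
    rw [if_neg fun h => hji (hj j h)]
  · intro h
    exact absurd (mem_univ i) h

open Classical in
theorem sum_sq1 (hL : Lns q k nn) (hq : q = 3 ∨ q = 5) {β : ℤ} {N : Finset ℕ} (hβ : ¬ rl q ∣ β)
    (hn : rl q ∣ β ^ 2 + pe δ N) (P : Finset ℕ) :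
    ∑ i, al δ q N P (nn i) β ^ 2 =
      ∑ x ∈ (vec q (pe δ N : ℤ) ×ˢ vec q (pe δ N : ℤ)).filter (fun x => Com q β x.1 x.2),
        Pt δ q N P x.1 * Pt δ q N P x.2 := by
  have e : ∀ i, al δ q N P (nn i) β ^ 2 = ∑ x ∈ vec q (pe δ N : ℤ) ×ˢ vec q (pe δ N : ℤ),
      (if OnL q (nn i) β x.1 then Pt δ q N P x.1 else 0) *
        (if OnL q (nn i) β x.2 then Pt δ q N P x.2 else 0) := by
    intro i
    unfold al
    rw [sum_filter, sq, sum_mul_sum, ← sum_product']
  rw [sum_congr rfl fun i _ => e i, sum_comm, sum_filter]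
  refine sum_congr rfl fun x hx => ?_
  rw [mem_product, mem_vec hq, mem_vec hq] at hx
  obtain ⟨i, hi, hj⟩ := hL.uniq β x.1 hβ (by rw [hx.1]; exact hn)
  have hs : ∑ j, (if OnL q (nn j) β x.1 then Pt δ q N P x.1 else 0) *
      (if OnL q (nn j) β x.2 then Pt δ q N P x.2 else 0) =
      (if OnL q (nn i) β x.1 then Pt δ q N P x.1 else 0) *
      (if OnL q (nn i) β x.2 then Pt δ q N P x.2 else 0) := by
    refine sum_eq_single i ?_ ?_
    · intro j _ hji
      rw [if_neg fun h => hji (hj j h), zero_mul]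
    · intro h
      exact absurd (mem_univ i) h
  rw [hs, if_pos hi]
  by_cases hc : Com q β x.1 x.2
  · rw [if_pos hc]
    obtain ⟨j, hj1, hj2⟩ := (com_iff hL hβ _ _).1 hc
    have : j = i := hj j hj1
    subst this
    rw [if_pos hj2]
  · rw [if_neg hc, if_neg, mul_zero]
    intro h
    exact hc ((com_iff hL hβ _ _).2 ⟨i, hi, h⟩)

/-- the inner products -/
theorem com_dot (hL : Lns q k nn) (hq : q = 3 ∨ q = 5) {β : ℤ} {n : ℕ} (hβ : ¬ rl q ∣ β)
    {x : V3 × V3} (h1 : bl q x.1 x.1 = n) (h2 : bl q x.2 x.2 = n)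
    (hc : Com q β x.1 x.2) :
    (((n : ℤ) - bl q x.1 x.2) / 2).toNat ∈ range n ∧
      bl q x.1 x.2 = (n : ℤ) - 2 * (((((n : ℤ) - bl q x.1 x.2) / 2).toNat : ℕ) : ℤ) := by
  have h3 := bl_par hq h1 h2
  have h4 := bl_pos hq (x.1 - x.2)
  have h5 := bl_pos hq (x.1 + x.2)
  rw [bl_sub_sub, h1, h2] at h4
  have h6 : bl q (x.1 + x.2) (x.1 + x.2) ≠ 0 := by
    intro h0
    have h7 := bl_def hq _ h0
    have h8 : x.2 = -x.1 := by
      rw [eq_neg_iff_add_eq_zero, add_comm]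
      exact h7
    obtain ⟨i, a, b⟩ := (com_iff hL hβ _ _).1 hc
    rw [h8] at b
    exact hL.opp i β x.1 hβ a b
  have h7 : 0 < bl q (x.1 + x.2) (x.1 + x.2) := lt_of_le_of_ne h5 (Ne.symm h6)
  rw [bl_add_add, h1, h2] at h7
  generalize bl q x.1 x.2 = d at h3 h4 h7 ⊢
  rw [mem_range]
  omega

theorem main_sq (hδ : Dt δ) (hL : Lns q k nn) (hq : q = 3 ∨ q = 5) (hPhi : S_PHI) (hW : S_WTV)
    {N : Finset ℕ} (hN : Pe N) (hb : q = 5 → Jb δ N) (hd : q = 3 → Jd δ N) {β : ℤ}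
    (hβ : ¬ rl q ∣ β) (hn : rl q ∣ β ^ 2 + pe δ N) {P : Finset ℕ} (hP : P ⊆ N) :
    ∑ i, al δ q N P (nn i) β ^ 2 = ((vec q (pe δ N : ℤ)).card : ℤ) +
      ∑ T ∈ Ioo 0 (pe δ N), (∏ p ∈ P, wq q N (pe δ N) p T) * cpl q (pe δ N) T β := by
  classical
  rw [sum_sq1 hL hq hβ hn P]
  have hn0 : 0 < pe δ N := Od.pe_pos hδ hN
  have hPsq : ∀ v, bl q v v = (pe δ N : ℤ) → Pt δ q N P v * Pt δ q N P v = 1 := fun v hv =>
    Pt_sq hδ hPhi hq hN hP hv
  have hW' : ∀ v ∈ vec q (pe δ N : ℤ), ∀ w ∈ vec q (pe δ N : ℤ), ∀ T : ℕ, T < pe δ N →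
      bl q v w = (pe δ N : ℤ) - 2 * T → Pt δ q N P v * Pt δ q N P w =
        ∏ p ∈ P, wq q N (pe δ N) p T := hW δ hδ q hq N hN hb hd P hP

  set n : ℕ := pe δ N with hnn
  have hmem : ∀ x ∈ (vec q (n : ℤ) ×ˢ vec q (n : ℤ)).filter (fun x => Com q β x.1 x.2),
      bl q x.1 x.1 = n ∧ bl q x.2 x.2 = n ∧ Com q β x.1 x.2 := by
    intro x hx
    rw [mem_filter, mem_product, mem_vec hq, mem_vec hq] at hx
    exact ⟨hx.1.1, hx.1.2, hx.2⟩
  have hmap : ∀ x ∈ (vec q (n : ℤ) ×ˢ vec q (n : ℤ)).filter (fun x => Com q β x.1 x.2),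
      (((n : ℤ) - bl q x.1 x.2) / 2).toNat ∈ range n := fun x hx =>
    (com_dot hL hq hβ (hmem x hx).1 (hmem x hx).2.1 (hmem x hx).2.2).1
  rw [← sum_fiberwise_of_maps_to hmap]
  have hr : range n = insert 0 (Ioo 0 n) := by
    ext T
    rw [mem_insert, mem_Ioo, mem_range]
    omega
  rw [hr, sum_insert (by simp)]
  congr 1
  · have e2 : ((vec q (n : ℤ)).card : ℤ) = ∑ v ∈ vec q (n : ℤ), Pt δ q N P v * Pt δ q N P v := by
      rw [sum_congr rfl fun v hv => hPsq v ((mem_vec hq).1 hv), sum_const, nsmul_eq_mul, mul_one]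
    rw [e2]
    refine sum_nbij' (fun x => x.1) (fun v => (v, v)) ?_ ?_ ?_ ?_ ?_
    · intro x hx
      rw [mem_filter] at hx
      rw [mem_vec hq]
      exact (hmem x hx.1).1
    · intro v hv
      rw [mem_vec hq] at hv
      rw [mem_filter, mem_filter, mem_product, mem_vec hq]
      refine ⟨⟨⟨hv, hv⟩, ?_⟩, ?_⟩
      · rw [com_iff hL hβ]
        obtain ⟨i, hi, -⟩ := hL.uniq β v hβ (by rw [hv]; exact hn)
        exact ⟨i, hi, hi⟩
      · simp only
        rw [hv, sub_self]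
        rfl
    · intro x hx
      rw [mem_filter] at hx
      obtain ⟨h1, h2, h3⟩ := hmem x hx.1
      have h4 := (com_dot hL hq hβ h1 h2 h3).2
      rw [hx.2] at h4
      have h5 : bl q (x.1 - x.2) (x.1 - x.2) = 0 := by
        rw [bl_sub_sub, h1, h2, h4]
        push_cast
        ring
      have h6 := bl_def hq _ h5
      exact Prod.ext rfl (sub_eq_zero.1 h6)
    · intro v _
      rfl
    · intro x hx
      rw [mem_filter] at hx
      obtain ⟨h1, h2, h3⟩ := hmem x hx.1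
      have h4 := (com_dot hL hq hβ h1 h2 h3).2
      rw [hx.2] at h4
      have h5 : bl q (x.1 - x.2) (x.1 - x.2) = 0 := by
        rw [bl_sub_sub, h1, h2, h4]
        push_cast
        ring
      have h6 := bl_def hq _ h5
      rw [sub_eq_zero.1 h6]
  · refine sum_congr rfl fun T hT => ?_
    rw [mem_Ioo] at hT
    have hset : ((vec q (n : ℤ) ×ˢ vec q (n : ℤ)).filter (fun x => Com q β x.1 x.2)).filter
        (fun x => (((n : ℤ) - bl q x.1 x.2) / 2).toNat = T) =
        (vec q (n : ℤ) ×ˢ vec q (n : ℤ)).filter fun x =>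
          bl q x.1 x.2 = (n : ℤ) - 2 * T ∧ Com q β x.1 x.2 := by
      ext x
      constructor
      · intro hx
        rw [mem_filter] at hx
        obtain ⟨h1, h2, h3⟩ := hmem x hx.1
        have h4 := (com_dot hL hq hβ h1 h2 h3).2
        rw [hx.2] at h4
        rw [mem_filter]
        exact ⟨(mem_filter.1 hx.1).1, h4, h3⟩
      · intro hx
        rw [mem_filter] at hx
        rw [mem_filter, mem_filter]
        refine ⟨⟨hx.1, hx.2.2⟩, ?_⟩
        rw [hx.2.1]
        omega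
    rw [hset]
    have hterm : ∀ x ∈ (vec q (n : ℤ) ×ˢ vec q (n : ℤ)).filter (fun x =>
        bl q x.1 x.2 = (n : ℤ) - 2 * T ∧ Com q β x.1 x.2),
        Pt δ q N P x.1 * Pt δ q N P x.2 = ∏ p ∈ P, wq q N n p T := by
      intro x hx
      rw [mem_filter, mem_product] at hx
      exact hW' x.1 hx.1.1 x.2 hx.1.2 T hT.2 hx.2.1
    rw [sum_congr rfl hterm, sum_const, nsmul_eq_mul, mul_comm]
    congr 2

end main

/-! ### the half-turns -/

theorem el5 (v : V3) : el 5 v = v 0 + 3 * v 1 + 2 * v 2 := by unfold el; rw [if_pos rfl]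

theorem el3 (v : V3) : el 3 v = v 1 - v 2 := by unfold el; rw [if_neg (by norm_num)]

/-- the residues of the norm -/
def Res (q M : ℕ) : Prop := (q = 5 ∧ (M % 5 = 2 ∨ M % 5 = 3)) ∨ (q = 3 ∧ M % 3 = 1)

theorem om_rot {q M : ℕ} (hM : Res q M) {v w : V3} (hv : bl q v v = (M : ℤ)) {ε : ℤ}
    (hε : ε = 1 ∨ ε = -1) (h : (q : ℤ) ∣ el q w - ε * el q v) : om q M w = ε * om q M v := by
  rcases hM with ⟨rfl, hM⟩ | ⟨rfl, hM⟩
  · have h1 : (5 : ℤ) ∣ 3 * (el 5 v * el 5 v) - M := by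
      rw [← hv, bl5, el5]
      exact ⟨4 * (v 1 * v 1) + v 2 * v 2 + 4 * (v 0 * v 1) + 2 * (v 0 * v 2) + 6 * (v 1 * v 2), by
        ring⟩
    unfold om
    generalize el 5 w = b at h ⊢
    generalize el 5 v = a at h h1 ⊢
    have h5 : a % 5 = 0 ∨ a % 5 = 1 ∨ a % 5 = 2 ∨ a % 5 = 3 ∨ a % 5 = 4 := by omega
    have h6 : (a * a) % 5 = ((a % 5) * (a % 5)) % 5 := Int.mul_emod a a 5
    simp only [Nat.cast_ofNat] at h ⊢
    rcases hM with hM | hM
    · have h7 : a % 5 = 2 ∨ a % 5 = 3 := by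
        rcases h5 with h5 | h5 | h5 | h5 | h5 <;> rw [h5] at h6 <;> omega
      rw [if_pos (⟨trivial, hM⟩ : True ∧ M % 5 = 2)]
      rcases hε with rfl | rfl <;> rcases h7 with h7 | h7 <;>
        split_ifs with c1 c2 <;> omega
    · have h7 : a % 5 = 1 ∨ a % 5 = 4 := by
        rcases h5 with h5 | h5 | h5 | h5 | h5 <;> rw [h5] at h6 <;> omega
      rw [if_neg (by omega : ¬ (True ∧ M % 5 = 2))]
      rcases hε with rfl | rfl <;> rcases h7 with h7 | h7 <;>
        split_ifs with c1 c2 <;> omega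
  · have h1 : (3 : ℤ) ∣ el 3 v * el 3 v - M := by
      rw [← hv, bl3, el3]
      exact ⟨-(v 0 * v 0) - v 1 * v 1 - v 2 * v 2 - 2 * (v 1 * v 2), by ring⟩
    unfold om
    generalize el 3 w = b at h ⊢
    generalize el 3 v = a at h h1 ⊢
    have h5 : a % 3 = 0 ∨ a % 3 = 1 ∨ a % 3 = 2 := by omega
    have h6 : (a * a) % 3 = ((a % 3) * (a % 3)) % 3 := Int.mul_emod a a 3
    simp only [Nat.cast_ofNat] at h ⊢
    have h7 : a % 3 = 1 ∨ a % 3 = 2 := by
      rcases h5 with h5 | h5 | h5 <;> rw [h5] at h6 <;> omega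
    rcases hε with rfl | rfl <;> rcases h7 with h7 | h7 <;>
      split_ifs with c1 c2 c3 <;> omega

/-- the sign of a half-turn -/
noncomputable def cc (N P : Finset ℕ) (m ε : ℤ) : ℤ :=
  ∏ p ∈ P, if p = 2 then ε * ∏ l ∈ N.erase 2, lz l ((m : ℤ) : ZMod l) else lz p ((m : ℤ) : ZMod p)

theorem lz_sq1 {N : Finset ℕ} (hN : Pe N) {m : ℤ} (hm : m = 3 ∨ m = 4 ∨ m = 12 ∨ m = 20) {p : ℕ}
    (hp : p ∈ N) (h2 : p ≠ 2) : lz p ((m : ℤ) : ZMod p) * lz p ((m : ℤ) : ZMod p) = 1 := by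
  obtain ⟨hpp, b, c⟩ := hN p hp
  rcases lz_pm hpp (sm_ne hm hpp h2 b c) with h | h <;> rw [h] <;> norm_num

theorem cc_sq {N P : Finset ℕ} (hN : Pe N) (hP : P ⊆ N) {m ε : ℤ}
    (hm : m = 3 ∨ m = 4 ∨ m = 12 ∨ m = 20) (hε : ε = 1 ∨ ε = -1) :
    cc N P m ε * cc N P m ε = 1 := by
  unfold cc
  rw [← prod_mul_distrib]
  refine prod_eq_one fun p hp => ?_
  split_ifs with h2
  · have h3 : (∏ l ∈ N.erase 2, lz l ((m : ℤ) : ZMod l)) *
        (∏ l ∈ N.erase 2, lz l ((m : ℤ) : ZMod l)) = 1 := by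
      rw [← prod_mul_distrib]
      refine prod_eq_one fun l hl => ?_
      rw [mem_erase] at hl
      exact lz_sq1 hN hm hl.2 hl.1
    have h4 : ε * ε = 1 := by rcases hε with rfl | rfl <;> norm_num
    linear_combination h3 + (∏ l ∈ N.erase 2, lz l ((m : ℤ) : ZMod l)) *
        (∏ l ∈ N.erase 2, lz l ((m : ℤ) : ZMod l)) * h4
  · exact lz_sq1 hN hm (hP hp) h2

theorem al_rot (hPhi : S_PHI) (hRef : S_REF) {q : ℕ} (hq : q = 3 ∨ q = 5) {N P : Finset ℕ}
    (hN : Pe N) (hP : P ⊆ N) (hM : Res q (pe δ N)) {m : ℤ} (hm : m = 3 ∨ m = 4 ∨ m = 12 ∨ m = 20)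
    {e : V3} (he : bl q e e = m) (r : V3 → V3) (hr : ∀ v, r (r v) = v)
    (hb : ∀ v, bl q (r v) (r v) = bl q v v)
    (h : ∀ v i, m * r v i = -(m * v i - 2 * bl q e v * e i)) {ε : ℤ} (hε : ε = 1 ∨ ε = -1)
    (hel : ∀ v, (q : ℤ) ∣ el q (r v) - ε * el q v) {l l' : V3} {β : ℤ}
    (h1 : ∀ v, OnL q l β v → OnL q l' β (r v)) (h2 : ∀ v, OnL q l' β v → OnL q l β (r v)) :
    al δ q N P l' β = cc N P m ε * al δ q N P l β := by
  classical
  have hph : ∀ v, ∀ p ∈ N, p ≠ 2 → ph q p (rd p (r v)) =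
      lz p ((m : ℤ) : ZMod p) * ph q p (rd p v) := by
    intro v p hp a
    obtain ⟨hpp, b, c⟩ := hN p hp
    have h3 := ph_rot hPhi hRef hq hpp a (pe_neq hq hN hp) (e := e) (v := v) (w := r v)
      (by rw [he]; exact sm_ne hm hpp a b c) (by intro i; rw [he]; exact h v i)
    rw [he] at h3
    exact h3
  have hPt : ∀ v, bl q v v = (pe δ N : ℤ) → Pt δ q N P (r v) = cc N P m ε * Pt δ q N P v := by
    intro v hv
    unfold Pt cc
    rw [← prod_mul_distrib]
    refine prod_congr rfl fun p hp => ?_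
    unfold gm
    split_ifs with h3
    · rw [om_rot hM hv hε (hel v)]
      unfold Ph
      rw [prod_congr rfl fun l hl => hph v l (mem_of_mem_erase hl) (ne_of_mem_erase hl),
        prod_mul_distrib]
      ring
    · exact hph v p (hP hp) h3
  unfold al
  rw [mul_sum]
  symm
  refine sum_nbij' r r ?_ ?_ ?_ ?_ ?_
  · intro v hv
    rw [mem_filter, mem_vec hq] at hv ⊢
    exact ⟨by rw [hb]; exact hv.1, h1 v hv.2⟩
  · intro v hv
    rw [mem_filter, mem_vec hq] at hv ⊢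
    exact ⟨by rw [hb]; exact hv.1, h2 v hv.2⟩
  · intro v _
    exact hr v
  · intro v _
    exact hr v
  · intro v hv
    rw [mem_filter, mem_vec hq] at hv
    rw [hPt v hv.1]

/-- the three other lines -/
theorem a5 (hPhi : S_PHI) (hRef : S_REF) {N P : Finset ℕ} (hN : Pe N) (hP : P ⊆ N)
    (hM : Res 5 (pe δ N)) (β : ℤ) :
    al δ 5 N P (n5 2) β = al δ 5 N P (n5 1) β ∧ al δ 5 N P (n5 3) β = al δ 5 N P (n5 1) β := by
  have hq : (5 : ℕ) = 3 ∨ (5 : ℕ) = 5 := Or.inr rfl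
  have hm : (20 : ℤ) = 3 ∨ (20 : ℤ) = 4 ∨ (20 : ℤ) = 12 ∨ (20 : ℤ) = 20 := by norm_num
  have hε : (-1 : ℤ) = 1 ∨ (-1 : ℤ) = -1 := Or.inr rfl
  have e1 : al δ 5 N P (n5 3) β = cc N P 20 (-1) * al δ 5 N P (n5 1) β := by
    refine al_rot hPhi hRef hq hN hP hM hm (e := ![1, 1, -2]) (by rw [bl5]; simp)
      (fun v => ![-v 0 - v 2, -v 1 - v 2, v 2]) ?_ ?_ ?_ hε ?_ ?_ ?_
    · intro v
      funext i
      fin_cases i <;> simp
    · intro v
      rw [bl5, bl5]
      simp
      ring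
    · intro v i
      rw [bl5]
      fin_cases i <;> simp <;> ring
    · intro v
      rw [el5, el5]
      simp
      omega
    · intro v hv
      rw [onl5] at hv ⊢
      rw [rd_eta] at hv
      have := (r5a1 _ _ _ _).1 hv
      rw [rd_eta 3 ![-v 0 - v 2, -v 1 - v 2, v 2]]
      simpa using this
    · intro v hv
      rw [onl5] at hv ⊢
      rw [rd_eta] at hv
      have := (r5a1 _ _ _ _).2 hv
      rw [rd_eta 3 ![-v 0 - v 2, -v 1 - v 2, v 2]]
      simpa using this
  have e2 : al δ 5 N P (n5 2) β = cc N P 20 (-1) * al δ 5 N P (n5 1) β := by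
    refine al_rot hPhi hRef hq hN hP hM hm (e := ![0, 1, 1]) (by rw [bl5]; simp)
      (fun v => ![-v 0, v 2, v 1]) ?_ ?_ ?_ hε ?_ ?_ ?_
    · intro v
      funext i
      fin_cases i <;> simp
    · intro v
      rw [bl5, bl5]
      simp
      ring
    · intro v i
      rw [bl5]
      fin_cases i <;> simp <;> ring
    · intro v
      rw [el5, el5]
      simp
      omega
    · intro v hv
      rw [onl5] at hv ⊢
      rw [rd_eta] at hv
      have := (r5b1 _ _ _ _).1 hv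
      rw [rd_eta 3 ![-v 0, v 2, v 1]]
      simpa using this
    · intro v hv
      rw [onl5] at hv ⊢
      rw [rd_eta] at hv
      have := (r5b1 _ _ _ _).2 hv
      rw [rd_eta 3 ![-v 0, v 2, v 1]]
      simpa using this
  have e3 : al δ 5 N P (n5 3) β = cc N P 20 (-1) * al δ 5 N P (n5 2) β := by
    refine al_rot hPhi hRef hq hN hP hM hm (e := ![1, 2, -1]) (by rw [bl5]; simp)
      (fun v => ![-v 0 + v 1, v 1, -v 1 - v 2]) ?_ ?_ ?_ hε ?_ ?_ ?_
    · intro v
      funext i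
      fin_cases i <;> simp
    · intro v
      rw [bl5, bl5]
      simp
      ring
    · intro v i
      rw [bl5]
      fin_cases i <;> simp <;> ring
    · intro v
      rw [el5, el5]
      simp
      omega
    · intro v hv
      rw [onl5] at hv ⊢
      rw [rd_eta] at hv
      have := (r5c1 _ _ _ _).1 hv
      rw [rd_eta 3 ![-v 0 + v 1, v 1, -v 1 - v 2]]
      simpa using this
    · intro v hv
      rw [onl5] at hv ⊢
      rw [rd_eta] at hv
      have := (r5c1 _ _ _ _).2 hv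
      rw [rd_eta 3 ![-v 0 + v 1, v 1, -v 1 - v 2]]
      simpa using this
  have hc := cc_sq hN hP hm hε
  constructor
  · linear_combination e2 - e1 + e3 + cc N P 20 (-1) * e2 + al δ 5 N P (n5 1) β * hc
  · linear_combination e3 + cc N P 20 (-1) * e2 + al δ 5 N P (n5 1) β * hc

/-- the six lines -/
theorem a3 (hPhi : S_PHI) (hRef : S_REF) {N P : Finset ℕ} (hN : Pe N) (hP : P ⊆ N)
    (hM : Res 3 (pe δ N)) (β : ℤ) (i : Fin 6) :
    al δ 3 N P (n3 i) β ^ 2 = al δ 3 N P (n3 0) β ^ 2 := by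
  have hq : (3 : ℕ) = 3 ∨ (3 : ℕ) = 5 := Or.inl rfl
  have h4 : (4 : ℤ) = 3 ∨ (4 : ℤ) = 4 ∨ (4 : ℤ) = 12 ∨ (4 : ℤ) = 20 := by norm_num
  have h12 : (12 : ℤ) = 3 ∨ (12 : ℤ) = 4 ∨ (12 : ℤ) = 12 ∨ (12 : ℤ) = 20 := by norm_num
  have hε : (-1 : ℤ) = 1 ∨ (-1 : ℤ) = -1 := Or.inr rfl
  have hε1 : (1 : ℤ) = 1 ∨ (1 : ℤ) = -1 := Or.inl rfl
  have fin : ∀ (m : ℤ) (_ : m = 3 ∨ m = 4 ∨ m = 12 ∨ m = 20) (ε : ℤ) (_ : ε = 1 ∨ ε = -1)
      (x y : ℤ), x = cc N P m ε * y → x ^ 2 = y ^ 2 := by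
    intro m hm ε hε x y h
    have := cc_sq hN hP hm hε
    rw [h]
    linear_combination y ^ 2 * this
  have e1 : al δ 3 N P (n3 1) β = cc N P 4 1 * al δ 3 N P (n3 0) β := by
    refine al_rot hPhi hRef hq hN hP hM h4 (e := ![0, 0, 1]) (by rw [bl3]; simp)
      (fun v => ![-v 0, -v 1, v 1 + v 2]) ?_ ?_ ?_ hε1 ?_ ?_ ?_
    · intro v
      funext i
      fin_cases i <;> simp
    · intro v
      rw [bl3, bl3]
      simp
      ring
    · intro v i
      rw [bl3]
      fin_cases i <;> simp <;> ring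
    · intro v
      rw [el3, el3]
      simp
      omega
    · intro v hv
      rw [onl3] at hv ⊢
      rw [rd_eta] at hv
      have := (r3_1 _ _ _ _).1 hv
      rw [rd_eta 5 ![-v 0, -v 1, v 1 + v 2]]
      simpa using this
    · intro v hv
      rw [onl3] at hv ⊢
      rw [rd_eta] at hv
      have := (r3_1 _ _ _ _).2 hv
      rw [rd_eta 5 ![-v 0, -v 1, v 1 + v 2]]
      simpa using this
  have e2 : al δ 3 N P (n3 2) β = cc N P 12 (-1) * al δ 3 N P (n3 0) β := by
    refine al_rot hPhi hRef hq hN hP hM h12 (e := ![0, 1, -2]) (by rw [bl3]; simp)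
      (fun v => ![-v 0, -v 1 - v 2, v 2]) ?_ ?_ ?_ hε ?_ ?_ ?_
    · intro v
      funext i
      fin_cases i <;> simp
    · intro v
      rw [bl3, bl3]
      simp
      ring
    · intro v i
      rw [bl3]
      fin_cases i <;> simp <;> ring
    · intro v
      rw [el3, el3]
      simp
      omega
    · intro v hv
      rw [onl3] at hv ⊢
      rw [rd_eta] at hv
      have := (r3_2 _ _ _ _).1 hv
      rw [rd_eta 5 ![-v 0, -v 1 - v 2, v 2]]
      simpa using this
    · intro v hv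
      rw [onl3] at hv ⊢
      rw [rd_eta] at hv
      have := (r3_2 _ _ _ _).2 hv
      rw [rd_eta 5 ![-v 0, -v 1 - v 2, v 2]]
      simpa using this
  have e3 : al δ 3 N P (n3 3) β = cc N P 4 1 * al δ 3 N P (n3 0) β := by
    refine al_rot hPhi hRef hq hN hP hM h4 (e := ![0, 1, 0]) (by rw [bl3]; simp)
      (fun v => ![-v 0, v 1 + v 2, -v 2]) ?_ ?_ ?_ hε1 ?_ ?_ ?_
    · intro v
      funext i
      fin_cases i <;> simp
    · intro v
      rw [bl3, bl3]
      simp
      ring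
    · intro v i
      rw [bl3]
      fin_cases i <;> simp <;> ring
    · intro v
      rw [el3, el3]
      simp
      omega
    · intro v hv
      rw [onl3] at hv ⊢
      rw [rd_eta] at hv
      have := (r3_3 _ _ _ _).1 hv
      rw [rd_eta 5 ![-v 0, v 1 + v 2, -v 2]]
      simpa using this
    · intro v hv
      rw [onl3] at hv ⊢
      rw [rd_eta] at hv
      have := (r3_3 _ _ _ _).2 hv
      rw [rd_eta 5 ![-v 0, v 1 + v 2, -v 2]]
      simpa using this
  have e4 : al δ 3 N P (n3 4) β = cc N P 12 (-1) * al δ 3 N P (n3 0) β := by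
    refine al_rot hPhi hRef hq hN hP hM h12 (e := ![0, 2, -1]) (by rw [bl3]; simp)
      (fun v => ![-v 0, v 1, -v 1 - v 2]) ?_ ?_ ?_ hε ?_ ?_ ?_
    · intro v
      funext i
      fin_cases i <;> simp
    · intro v
      rw [bl3, bl3]
      simp
      ring
    · intro v i
      rw [bl3]
      fin_cases i <;> simp <;> ring
    · intro v
      rw [el3, el3]
      simp
      omega
    · intro v hv
      rw [onl3] at hv ⊢
      rw [rd_eta] at hv
      have := (r3_4 _ _ _ _).1 hv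
      rw [rd_eta 5 ![-v 0, v 1, -v 1 - v 2]]
      simpa using this
    · intro v hv
      rw [onl3] at hv ⊢
      rw [rd_eta] at hv
      have := (r3_4 _ _ _ _).2 hv
      rw [rd_eta 5 ![-v 0, v 1, -v 1 - v 2]]
      simpa using this
  have e5 : al δ 3 N P (n3 5) β = cc N P 12 (-1) * al δ 3 N P (n3 0) β := by
    refine al_rot hPhi hRef hq hN hP hM h12 (e := ![0, 1, 1]) (by rw [bl3]; simp)
      (fun v => ![-v 0, v 2, v 1]) ?_ ?_ ?_ hε ?_ ?_ ?_
    · intro v
      funext i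
      fin_cases i <;> simp
    · intro v
      rw [bl3, bl3]
      simp
      ring
    · intro v i
      rw [bl3]
      fin_cases i <;> simp <;> ring
    · intro v
      rw [el3, el3]
      simp
    · intro v hv
      rw [onl3] at hv ⊢
      rw [rd_eta] at hv
      have := (r3_5 _ _ _ _).1 hv
      rw [rd_eta 5 ![-v 0, v 2, v 1]]
      simpa using this
    · intro v hv
      rw [onl3] at hv ⊢
      rw [rd_eta] at hv
      have := (r3_5 _ _ _ _).2 hv
      rw [rd_eta 5 ![-v 0, v 2, v 1]]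
      simpa using this
  fin_cases i
  · rfl
  · exact fin 4 h4 1 hε1 _ _ e1
  · exact fin 12 h12 (-1) hε _ _ e2
  · exact fin 4 h4 1 hε1 _ _ e3
  · exact fin 12 h12 (-1) hε _ _ e4
  · exact fin 12 h12 (-1) hε _ _ e5

/-! ### the local factors -/

theorem fc_ne {n D l : ℕ} (hl : ¬ l ∣ n) (hj : Odd n → jacobiSym l n = 1)
    (hj2 : ¬ Odd n → jacobiSym (-(n : ℤ)) l = 1) : fc n D l ≠ 0 := by
  unfold fc
  rw [if_neg hl]
  have e : (if Odd n then jacobiSym l n else jacobiSym (-(n : ℤ)) l) = 1 := by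
    split_ifs with h
    · exact hj h
    · exact hj2 h
  rw [e]
  simp only [one_pow, sum_const, card_range, nsmul_eq_mul, mul_one]
  positivity

theorem key {u v M T : ℕ} (hv : v.Prime) (huv : u ≠ v) (hun : ¬ u ∣ M)
    (hfv : ∀ D, fc M D v ≠ 0) (hT : 0 < T) (hTn : T < M) {wP wQ cp K : ℤ}
    (hc : cp = if Odd ((T * (M - T)).factorization u) then K * (T.factorization v : ℤ) *
      ∏ l ∈ ((T * (M - T)).primeFactors.erase u).erase v, fc M (T * (M - T)) l else 0)
    (hw : ∏ l ∈ (T * (M - T)).primeFactors.erase u, fc M (T * (M - T)) l ≠ 0 →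
      (Odd ((M - T).factorization u) → wQ * wP = -1) ∧
      (Odd (T.factorization u) → wQ * wP = 1)) :
    (wP - wQ) * cp = 2 * K * (wP * loc u v M T) := by
  set D := T * (M - T) with hD
  have hnT : M - T ≠ 0 := by omega
  have hD0 : D ≠ 0 := mul_ne_zero hT.ne' hnT
  have hf : D.factorization u = T.factorization u + (M - T).factorization u := by
    rw [hD, Nat.factorization_mul hT.ne' hnT, Finsupp.add_apply]
  have hz : T.factorization u = 0 ∨ (M - T).factorization u = 0 := by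
    by_contra hcon
    push Not at hcon
    have h1 := Nat.dvd_of_factorization_pos hcon.1
    have h2 := Nat.dvd_of_factorization_pos hcon.2
    apply hun
    have := dvd_add h2 h1
    rwa [Nat.sub_add_cancel hTn.le] at this
  by_cases ho : Odd (D.factorization u)
  · rw [if_pos ho] at hc
    set G := ∏ l ∈ (D.primeFactors.erase u).erase v, fc M D l with hG
    by_cases hzero : (T.factorization v : ℤ) * G = 0
    · have h1 : cp = 0 := by rw [hc, mul_assoc, hzero, mul_zero]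
      have h2 : loc u v M T = 0 := by
        unfold loc
        split_ifs
        · exact hzero
        · rfl
      rw [h1, h2]
      ring
    · have hvT : T.factorization v ≠ 0 := by
        intro h
        apply hzero
        rw [h]
        simp
      have hG0 : G ≠ 0 := fun h => hzero (by rw [h, mul_zero])
      have hvd := Nat.dvd_of_factorization_pos hvT
      have hmem : v ∈ D.primeFactors.erase u := by
        rw [mem_erase, Nat.mem_primeFactors]
        exact ⟨huv.symm, hv, hvd.mul_right _, hD0⟩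
      have hne : ∏ l ∈ D.primeFactors.erase u, fc M D l ≠ 0 := by
        rw [← mul_prod_erase _ _ hmem]
        exact mul_ne_zero (hfv D) hG0
      obtain ⟨w1, w2⟩ := hw hne
      by_cases h3 : Odd ((M - T).factorization u)
      · have h4 := w1 h3
        have hloc : loc u v M T = (T.factorization v : ℤ) * G := by
          unfold loc
          rw [if_pos h3]
        have h5 : wQ = -wP := by
          rcases Int.mul_eq_neg_one_iff_eq_one_or_neg_one.1 h4 with ⟨a, b⟩ | ⟨a, b⟩ <;>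
            rw [a, b]
          norm_num
        rw [hloc, hc, h5]
        ring
      · have h3' : Odd (T.factorization u) := by
          rw [hf] at ho
          rcases hz with h | h
          · rw [h, zero_add] at ho
            exact absurd ho h3
          · rw [h, add_zero] at ho
            exact ho
        have h4 := w2 h3'
        have hloc : loc u v M T = 0 := by
          unfold loc
          rw [if_neg h3]
        have h5 : wQ = wP := by
          rcases Int.mul_eq_one_iff_eq_one_or_neg_one.1 h4 with ⟨a, b⟩ | ⟨a, b⟩ <;>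
            rw [a, b]
        rw [hloc, h5]
        ring
  · rw [if_neg ho] at hc
    have h3 : ¬ Odd ((M - T).factorization u) := by
      intro h
      apply ho
      rcases hz with h1 | h1
      · rw [hf, h1, zero_add]
        exact h
      · rw [h1] at h
        exact absurd h (by decide)
    have hloc : loc u v M T = 0 := by
      unfold loc
      rw [if_neg h3]
    rw [hc, hloc]
    ring

theorem sum_loc (u v n : ℕ) (f : ℕ → ℤ) :
    ∑ T ∈ (range n).filter (fun T => v ∣ T), f T * loc u v n T =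
      ∑ T ∈ Ioo 0 n, f T * loc u v n T := by
  have h0 : ∀ T : ℕ, T.factorization v = 0 → f T * loc u v n T = 0 := by
    intro T h
    have : loc u v n T = 0 := by
      unfold loc
      rw [h]
      split_ifs <;> simp
    rw [this, mul_zero]
  rw [sum_filter]
  symm
  have hsub : Ioo 0 n ⊆ range n := by
    intro T hT
    rw [mem_Ioo] at hT
    exact mem_range.2 hT.2
  rw [← sum_subset hsub]
  · refine sum_congr rfl fun T _ => ?_
    split_ifs with h
    · rfl
    · exact h0 T (Nat.factorization_eq_zero_of_not_dvd h)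
  · intro T hT hT2
    rw [mem_range] at hT
    rw [mem_Ioo] at hT2
    have : T = 0 := by omega
    subst this
    rw [if_pos (dvd_zero v)]
    exact h0 0 (by simp)

end Pool.Agent.XW.SqE

namespace Pool.Agent.XW

open Finset
open Pool.Agent.Z700 (V3)
open Pool.Agent.XV (bl vec LN rl Ph cpa cpl S_PHI S_REF)
open Pool.Agent.XV.SqW (rl5 rl3 lns5 lns3 n5 n3)
open SqE

/-- **SQ** -/
theorem t_SQ (h1 : S_PHI) (h2 : S_REF) (v4 : S_V4) (v5 : S_VAN5) (v3 : S_VAN3) (e3 : S_EQ3)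
    (w : S_WTV) (wpn : S_WPN) (ps : S_PS) : S_SQ := by
  classical
  intro δ hδ N hN
  constructor
  · intro hK β hβ P hP hPc
    have hq : (5 : ℕ) = 3 ∨ (5 : ℕ) = 5 := Or.inr rfl
    obtain ⟨hsg, hm3, hm5⟩ := hK
    have hK : Jb δ N := ⟨hsg, hm3, hm5⟩
    have hb : (5 : ℕ) = 5 → Jb δ N := fun _ => hK
    have hd : (5 : ℕ) = 3 → Jd δ N := fun h => absurd h (by norm_num)
    have hRes : Res 5 (pe δ N) := Or.inl ⟨rfl, hm5⟩
    have h3n : ¬ 3 ∣ pe δ N := by omega
    have h5n : ¬ 5 ∣ pe δ N := by omega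
    have hfv : ∀ D, fc (pe δ N) D 3 ≠ 0 := by
      intro D
      refine fc_ne h3n ?_ ?_
      · intro hodd
        have h2N : 2 ∉ N := (Od.pe_odd_iff hδ hN).1 hodd
        have h4 : pe δ N % 4 = 3 := by
          rw [Od.pe_odd h2N]
          exact (Od.sg_odd_neg (δ := δ) hN h2N).1 hsg
        rw [jacobiSym.mod_right _ hodd]
        have h12 : pe δ N % (4 * ((3 : ℕ) : ℤ).natAbs) = 11 := by
          simp only [Int.natAbs_natCast]
          omega
        rw [h12]
        norm_num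
      · intro _
        rw [jacobiSym.mod_left]
        have h12 : (-(pe δ N : ℤ)) % ((3 : ℕ) : ℤ) = 1 := by
          push_cast
          omega
        rw [h12]
        norm_num
    have hβ3 : ¬ (3 : ℤ) ∣ β := by
      intro h
      apply h3n
      have h4 : (3 : ℤ) ∣ β ^ 2 := dvd_pow h two_ne_zero
      exact_mod_cast (dvd_add_right h4).1 hβ
    have hrl : ¬ rl 5 ∣ β := by rw [rl5]; exact hβ3
    have hrn : rl 5 ∣ β ^ 2 + pe δ N := by rw [rl5]; exact hβ
    have hP' : N \ P ⊆ N := sdiff_subset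
    have m1 := main_sq hδ lns5 hq h1 w hN hb hd hrl hrn hP
    have m2 := main_sq hδ lns5 hq h1 w hN hb hd hrl hrn hP'
    have s1 := sum_al lns5 hq hrl hrn P
    have s2 := sum_al lns5 hq hrl hrn (N \ P)
    obtain ⟨a2, a3⟩ := a5 h1 h2 hN hP hRes β
    obtain ⟨b2, b3⟩ := a5 h1 h2 hN hP' hRes β
    rw [Fin.sum_univ_four] at m1 m2 s1 s2
    rw [a2, a3] at m1 s1
    rw [b2, b3] at m2 s2
    have hpp := Od.pe_sdiff (δ := δ) hP
    have hPm : pe δ P % 3 = 1 := by
      rcases hPc with h | h | h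
      · rw [h, Od.pe_empty]
      · exact h.2.1
      · exact h.2.1
    have hQm : pe δ (N \ P) % 3 = 2 := by
      rw [hpp, Nat.mul_mod, hPm] at hm3
      omega
    have hcls : ¬ Ja δ (N \ P) ∧ ¬ Jd δ (N \ P) := by
      constructor
      · intro h
        have := h.2.1
        omega
      · intro h
        have := h.2.1
        omega
    have hne : (N \ P).Nonempty := by
      rw [nonempty_iff_ne_empty]
      intro h
      rw [h, Od.pe_empty] at hQm
      omega
    have z0 : al δ 5 N (N \ P) (n5 0) β = 0 := by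
      rw [← al5]
      exact v5 δ hδ N hN hK β hβ _ hP' hne hcls.1 hcls.2
    have z1 := v4 δ hδ 5 hq N hN hb hd _ hP' hne
    rw [z1, z0] at s2
    have z2 : al δ 5 N (N \ P) (n5 1) β = 0 := by linarith
    rw [z0, z2] at m2
    have hk : ∑ T ∈ Ioo 0 (pe δ N), ((∏ p ∈ P, wq 5 N (pe δ N) p T) -
        ∏ p ∈ N \ P, wq 5 N (pe δ N) p T) * (cpl 5 (pe δ N) T β : ℤ) =
        2 * 6 * ∑ T ∈ Ioo 0 (pe δ N), ((∏ p ∈ P, wq 5 N (pe δ N) p T) *
          loc 5 3 (pe δ N) T) := by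
      rw [mul_sum]
      refine sum_congr rfl fun T hT => ?_
      rw [mem_Ioo] at hT
      refine key Nat.prime_three (by norm_num) h5n hfv hT.1 hT.2
        ((ps δ hδ N hN β T hT.1 hT.2).1 hK hβ) ?_
      rw [prod_sdiff hP]
      exact (wpn δ hδ N hN T hT.1 hT.2).1 hK
    simp only [sub_mul, sum_sub_distrib] at hk
    rw [sum_loc]
    unfold S5
    rw [al5]
    by_cases he : P = ∅
    · rw [if_pos he, if_pos he]
      have s3 : ∑ v ∈ vec 5 (pe δ N : ℤ), Pt δ 5 N P v = ((vec 5 (pe δ N : ℤ)).card : ℤ) := by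
        rw [he]
        simp [Pt]
      rw [s3] at s1
      rw [← s1]
      linear_combination 12 * m1 - 12 * m2 + 12 * hk
    · rw [if_neg he, if_neg he]
      have s3 := v4 δ hδ 5 hq N hN hb hd _ hP (nonempty_iff_ne_empty.2 he)
      rw [s3] at s1
      have s4 : al δ 5 N P (n5 0) β = -3 * al δ 5 N P (n5 1) β := by linarith
      rw [s4] at m1 ⊢
      linear_combination 12 * m1 - 12 * m2 + 12 * hk
  · intro hK β hβ Q hQ hQc
    have hq : (3 : ℕ) = 3 ∨ (3 : ℕ) = 5 := Or.inl rfl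
    obtain ⟨hsg, hm3, hm5⟩ := hK
    have hK : Jd δ N := ⟨hsg, hm3, hm5⟩
    have hb : (3 : ℕ) = 5 → Jb δ N := fun h => absurd h (by norm_num)
    have hd : (3 : ℕ) = 3 → Jd δ N := fun _ => hK
    have hRes : Res 3 (pe δ N) := Or.inr ⟨rfl, hm3⟩
    have h3n : ¬ 3 ∣ pe δ N := by omega
    have h5n : ¬ 5 ∣ pe δ N := by omega
    have hfv : ∀ D, fc (pe δ N) D 5 ≠ 0 := by
      intro D
      refine fc_ne h5n ?_ ?_
      · intro hodd
        have h2N : 2 ∉ N := (Od.pe_odd_iff hδ hN).1 hodd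
        have h4 : pe δ N % 4 = 3 := by
          rw [Od.pe_odd h2N]
          exact (Od.sg_odd_neg (δ := δ) hN h2N).1 hsg
        rw [jacobiSym.mod_right _ hodd]
        have h12 : pe δ N % (4 * ((5 : ℕ) : ℤ).natAbs) = 11 ∨
            pe δ N % (4 * ((5 : ℕ) : ℤ).natAbs) = 19 := by
          simp only [Int.natAbs_natCast]
          omega
        rcases h12 with h12 | h12 <;> rw [h12] <;> norm_num
      · intro _
        rw [jacobiSym.mod_left]
        have h12 : (-(pe δ N : ℤ)) % ((5 : ℕ) : ℤ) = 1 ∨ (-(pe δ N : ℤ)) % ((5 : ℕ) : ℤ) = 4 := by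
          push_cast
          omega
        rcases h12 with h12 | h12 <;> rw [h12] <;> norm_num
    have hβ3 : ¬ (5 : ℤ) ∣ β := by
      intro h
      apply h5n
      have h4 : (5 : ℤ) ∣ β ^ 2 := dvd_pow h two_ne_zero
      exact_mod_cast (dvd_add_right h4).1 hβ
    have hrl : ¬ rl 3 ∣ β := by rw [rl3]; exact hβ3
    have hrn : rl 3 ∣ β ^ 2 + pe δ N := by rw [rl3]; exact hβ
    have hP : N \ Q ⊆ N := sdiff_subset
    have m1 := main_sq hδ lns3 hq h1 w hN hb hd hrl hrn hQ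
    have m2 := main_sq hδ lns3 hq h1 w hN hb hd hrl hrn hP
    rw [sum_congr rfl fun i _ => a3 h1 h2 hN hQ hRes β i, sum_const, card_univ,
      Fintype.card_fin, nsmul_eq_mul] at m1
    rw [sum_congr rfl fun i _ => a3 h1 h2 hN hP hRes β i, sum_const, card_univ,
      Fintype.card_fin, nsmul_eq_mul] at m2
    push_cast at m1 m2
    have hpp := Od.pe_sdiff (δ := δ) hQ
    have hss := Od.sg_sdiff (δ := δ) hQ
    have hk : ∑ T ∈ Ioo 0 (pe δ N), ((∏ p ∈ N \ Q, wq 3 N (pe δ N) p T) -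
        ∏ p ∈ Q, wq 3 N (pe δ N) p T) * (cpl 3 (pe δ N) T β : ℤ) =
        2 * 12 * ∑ T ∈ Ioo 0 (pe δ N), ((∏ p ∈ N \ Q, wq 3 N (pe δ N) p T) *
          loc 3 5 (pe δ N) T) := by
      rw [mul_sum]
      refine sum_congr rfl fun T hT => ?_
      rw [mem_Ioo] at hT
      refine key Nat.prime_five (by norm_num) h3n hfv hT.1 hT.2
        ((ps δ hδ N hN β T hT.1 hT.2).2 hK hβ) ?_
      rw [mul_comm (∏ p ∈ Q, wq 3 N (pe δ N) p T), prod_sdiff hQ]
      exact (wpn δ hδ N hN T hT.1 hT.2).2 hK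
    simp only [sub_mul, sum_sub_distrib] at hk
    rw [sum_loc, al3]
    by_cases he : Q = N
    · rw [if_pos he]
      have h0 : N \ Q = ∅ := by rw [he, sdiff_self]; rfl
      have h4 := e3 δ hδ N hN hK β hβ
      rw [al3] at h4
      rw [h0] at m2 hk ⊢
      rw [h4] at m1 m2 ⊢
      linear_combination 6 * m1 - 6 * m2 - 6 * hk
    · rw [if_neg he]
      have hne : (N \ Q).Nonempty := by
        rw [nonempty_iff_ne_empty]
        intro h
        exact he (subset_antisymm hQ (sdiff_eq_empty_iff_subset.1 h))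
      have hcls : ¬ Jc δ (N \ Q) ∧ ¬ Jd δ (N \ Q) := by
        rw [hpp, Nat.mul_mod] at hm3
        rw [hss] at hsg
        constructor
        · rintro ⟨c1, c2, -⟩
          rcases hQc with ⟨d1, d2, -⟩ | ⟨d1, d2, -⟩
          · rw [c1, d1] at hsg
            norm_num at hsg
          · rw [c2, d2] at hm3
            norm_num at hm3
        · rintro ⟨c1, c2, -⟩
          rcases hQc with ⟨d1, d2, -⟩ | ⟨d1, d2, -⟩
          · rw [c2, d2] at hm3
            norm_num at hm3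
          · rw [c1, d1] at hsg
            norm_num at hsg
      have z0 : al δ 3 N (N \ Q) (n3 0) β = 0 := by
        rw [← al3]
        exact v3 δ hδ N hN hK β hβ _ hP hne hcls.1 hcls.2
      rw [z0] at m2
      linear_combination 6 * m1 - 6 * m2 - 6 * hk

end Pool.Agent.XW
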