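import Pool.Agent.XV.Van
import Pool.Agent.XW.Odd

set_option autoImplicit false

/-!
# Project XW: symmetries of the line sublattices (VAN5, VAN3, EQ3, EV3)
-/

namespace Pool.Agent.XW

open Finset
open Pool.Agent.Z700 (V3 pr)
open Pool.Agent.NH1 (lz rd)
open Pool.Agent.XV (bl vec LN ph Ph Pq S_PHI S_REF Ka Kb Kc Kd ph_spec)
open Pool.Agent.XV.Van

namespace Vn

/-! ### the orientation -/

lemma el5 (v : V3) : el 5 v = v 0 + 3 * v 1 + 2 * v 2 := by unfold el; rw [if_pos rfl]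

lemma el3 (v : V3) : el 3 v = v 1 - v 2 := by unfold el; rw [if_neg (by norm_num)]

lemma om_congr {q M : ℕ} {v w : V3} (h : (q : ℤ) ∣ el q w - el q v) : om q M w = om q M v := by
  unfold om
  refine if_congr ?_ rfl rfl
  have e : el q w - (if q = 5 ∧ M % 5 = 2 then 2 else 1) = (el q w - el q v) +
      (el q v - (if q = 5 ∧ M % 5 = 2 then 2 else 1)) := by ring
  rw [e]
  exact dvd_add_right h

lemma sq5 {a : ℤ} {M : ℕ} (h : (5 : ℤ) ∣ 3 * (a * a) - M) (hM : M % 5 = 2 ∨ M % 5 = 3) :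
    (M % 5 = 2 ∧ (a % 5 = 2 ∨ a % 5 = 3)) ∨ (M % 5 = 3 ∧ (a % 5 = 1 ∨ a % 5 = 4)) := by
  obtain ⟨k, r, hk, hr⟩ : ∃ k r : ℤ, a = 5 * k + r ∧ (r = 0 ∨ r = 1 ∨ r = 2 ∨ r = 3 ∨ r = 4) :=
    ⟨a / 5, a % 5, by omega, by omega⟩
  subst hk
  have e : 3 * ((5 * k + r) * (5 * k + r)) - (M : ℤ) = 5 * (15 * k * k + 6 * k * r) + (3 * (r * r) - M) := by ring
  rw [e] at h
  have h' : (5 : ℤ) ∣ 3 * (r * r) - M := (dvd_add_right (Dvd.intro _ rfl)).1 h
  rcases hr with rfl | rfl | rfl | rfl | rfl <;> omega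

lemma om5_neg {M : ℕ} {v w : V3} (hv : bl 5 v v = M) (hM : M % 5 = 2 ∨ M % 5 = 3)
    (h : (5 : ℤ) ∣ el 5 w + el 5 v) : om 5 M w = - om 5 M v := by
  have h1 : (5 : ℤ) ∣ 3 * (el 5 v * el 5 v) - M := by
    rw [← hv, bl5, el5]
    exact ⟨4 * (v 1 * v 1) + (v 2 * v 2) + 4 * (v 0 * v 1) + 2 * (v 0 * v 2) + 6 * (v 1 * v 2), by ring⟩
  unfold om
  generalize el 5 v = a at *
  generalize el 5 w = b at *
  rcases sq5 h1 hM with ⟨k1, k2⟩ | ⟨k1, k2⟩
  · rw [if_pos (⟨rfl, k1⟩ : 5 = 5 ∧ M % 5 = 2)]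
    push_cast
    rcases k2 with k2 | k2
    · rw [if_neg (by omega), if_pos (by omega)]
    · rw [if_pos (by omega), if_neg (by omega)]; norm_num
  · rw [if_neg (show ¬ (5 = 5 ∧ M % 5 = 2) by omega)]
    push_cast
    rcases k2 with k2 | k2
    · rw [if_neg (by omega), if_pos (by omega)]
    · rw [if_pos (by omega), if_neg (by omega)]; norm_num

lemma sq3 {a : ℤ} {M : ℕ} (h : (3 : ℤ) ∣ a * a - M) (hM : M % 3 = 1) : a % 3 = 1 ∨ a % 3 = 2 := by
  obtain ⟨k, r, hk, hr⟩ : ∃ k r : ℤ, a = 3 * k + r ∧ (r = 0 ∨ r = 1 ∨ r = 2) :=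
    ⟨a / 3, a % 3, by omega, by omega⟩
  subst hk
  have e : (3 * k + r) * (3 * k + r) - (M : ℤ) = 3 * (3 * k * k + 2 * k * r) + (r * r - M) := by ring
  rw [e] at h
  have h' : (3 : ℤ) ∣ r * r - M := (dvd_add_right (Dvd.intro _ rfl)).1 h
  rcases hr with rfl | rfl | rfl <;> omega

lemma om3_neg {M : ℕ} {v w : V3} (hv : bl 3 v v = M) (hM : M % 3 = 1)
    (h : (3 : ℤ) ∣ el 3 w + el 3 v) : om 3 M w = - om 3 M v := by
  have h1 : (3 : ℤ) ∣ el 3 v * el 3 v - M := by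
    rw [← hv, bl3, el3]
    exact ⟨- (v 0 * v 0) - (v 1 * v 1) - (v 2 * v 2) - 2 * (v 1 * v 2), by ring⟩
  unfold om
  generalize el 3 v = a at *
  generalize el 3 w = b at *
  rw [if_neg (show ¬ (3 = 5 ∧ M % 5 = 2) by omega)]
  push_cast
  rcases sq3 h1 hM with k2 | k2
  · rw [if_neg (by omega), if_pos (by omega)]
  · rw [if_pos (by omega), if_neg (by omega)]; norm_num

/-! ### norms and characters -/

lemma Dt_nat {δ : ℤ} (h : Dt δ) : δ.natAbs = 4 ∨ δ.natAbs = 8 := by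
  rcases h with rfl | rfl | rfl
  · exact Or.inl rfl
  · exact Or.inr rfl
  · exact Or.inr rfl

lemma pe_sdiff {δ : ℤ} {N P : Finset ℕ} (h : P ⊆ N) : pe δ N = pe δ (N \ P) * pe δ P := by
  unfold pe
  rw [prod_sdiff h]

lemma sg_sdiff {δ : ℤ} {N P : Finset ℕ} (h : P ⊆ N) : sg δ N = sg δ (N \ P) * sg δ P := by
  unfold sg ch
  rw [prod_sdiff h]

lemma md_odd {δ : ℤ} {p : ℕ} (h : p ≠ 2) : md δ p = p := by unfold md; rw [if_neg h]

/-- the norm is squarefree at the odd primes -/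
lemma not_sq {δ : ℤ} (hδ : Dt δ) {N : Finset ℕ} (hN : Pe N) {p : ℕ} (hp : p ∈ N) (h2 : p ≠ 2) :
    ¬ (p * p) ∣ pe δ N := by
  intro hd
  have pp := (hN p hp).1
  have e : pe δ N = p * pe δ (N.erase p) := by
    unfold pe
    rw [← mul_prod_erase N _ hp, md_odd h2]
  rw [e] at hd
  have hd2 : p ∣ pe δ (N.erase p) := Nat.dvd_of_mul_dvd_mul_left pp.pos hd
  unfold pe at hd2
  obtain ⟨l, hl, hl2⟩ := (Prime.dvd_finsetProd_iff pp.prime _).1 hd2
  have hl3 := mem_erase.1 hl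
  by_cases k : l = 2
  · have : md δ l = δ.natAbs := by unfold md; rw [if_pos k]
    rw [this] at hl2
    rcases Dt_nat hδ with e | e <;> rw [e] at hl2
    · have : p ∣ 2 ^ 2 := by simpa using hl2
      exact h2 ((Nat.prime_dvd_prime_iff_eq pp Nat.prime_two).1 (pp.dvd_of_dvd_pow this))
    · have : p ∣ 2 ^ 3 := by simpa using hl2
      exact h2 ((Nat.prime_dvd_prime_iff_eq pp Nat.prime_two).1 (pp.dvd_of_dvd_pow this))
  · rw [md_odd k] at hl2
    exact hl3.1 ((Nat.prime_dvd_prime_iff_eq pp (hN l hl3.2).1).1 hl2).symm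

lemma dvd_pe {δ : ℤ} {N : Finset ℕ} {p : ℕ} (hp : p ∈ N) (h2 : p ≠ 2) : p ∣ pe δ N := by
  unfold pe
  have := dvd_prod_of_mem (md δ) hp
  rwa [md_odd h2] at this

/-- the characters of the vectors of norm `pe δ N` are signs -/
lemma ph_sq (h1 : S_PHI) {δ : ℤ} (hδ : Dt δ) {q : ℕ} (hq : q = 3 ∨ q = 5) {N : Finset ℕ} (hN : Pe N) {p : ℕ}
    (hp : p ∈ N) (h2 : p ≠ 2) {v : V3} (hv : bl q v v = (pe δ N : ℤ)) :
    ph q p (rd p v) * ph q p (rd p v) = 1 := by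
  obtain ⟨pp, k3, k5⟩ := hN p hp
  have hpq : p ≠ q := by rcases hq with rfl | rfl <;> assumption
  have h := (ph_spec h1 hq pp h2 hpq).pm (rd p v) (by
    rw [bl_cast, hv]
    push_cast
    exact (ZMod.natCast_eq_zero_iff _ _).2 (dvd_pe hp h2)) (by
    intro h0
    apply not_sq hδ hN hp h2
    have hd : ∀ i, (p : ℤ) ∣ v i := fun i =>
      (ZMod.intCast_zmod_eq_zero_iff_dvd _ _).1 (congrFun h0 i)
    obtain ⟨a0, e0⟩ := hd 0
    obtain ⟨a1, e1⟩ := hd 1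
    obtain ⟨a2, e2⟩ := hd 2
    have : ((p * p : ℕ) : ℤ) ∣ (pe δ N : ℤ) := by
      rw [← hv]
      rcases hq with rfl | rfl
      · rw [bl3, e0, e1, e2]
        exact ⟨3 * (a0 * a0) + 4 * (a1 * a1) + 4 * (a2 * a2) + 2 * (a1 * a2 + a2 * a1), by push_cast; ring⟩
      · rw [bl5, e0, e1, e2]
        exact ⟨3 * (a0 * a0) + 7 * (a1 * a1) + 7 * (a2 * a2) - (a0 * a1 + a1 * a0) + (a0 * a2 + a2 * a0) +
          3 * (a1 * a2 + a2 * a1), by push_cast; ring⟩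
    exact_mod_cast this)
  rcases h with h | h <;> rw [h] <;> norm_num

/-- the product of the characters of a set which contains `2` -/
lemma Pt_two (h1 : S_PHI) {δ : ℤ} (hδ : Dt δ) {q : ℕ} (hq : q = 3 ∨ q = 5) {N : Finset ℕ} (hN : Pe N)
    {P : Finset ℕ} (hP : P ⊆ N) (h2 : 2 ∈ P) {v : V3} (hv : bl q v v = (pe δ N : ℤ)) :
    Pt δ q N P v = om q (pe δ N) v * Ph q (N \ P) v := by
  have e1 : Pt δ q N P v = (om q (pe δ N) v * Ph q (N.erase 2) v) * Ph q (P.erase 2) v := by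
    unfold Pt
    rw [← mul_prod_erase P _ h2]
    congr 1
    unfold Ph
    refine prod_congr rfl fun p hp => ?_
    exact Od.gm_odd (mem_erase.1 hp).1 v
  have e2 : N \ P = (N.erase 2) \ (P.erase 2) := by
    ext x
    simp only [mem_sdiff, mem_erase]
    constructor
    · rintro ⟨a, b⟩
      exact ⟨⟨fun h => b (h ▸ h2), a⟩, fun h => b h.2⟩
    · rintro ⟨⟨a, b⟩, c⟩
      exact ⟨b, fun h => c ⟨a, h⟩⟩
  have e3 : Ph q (N.erase 2) v = Ph q (N \ P) v * Ph q (P.erase 2) v := by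
    rw [e2]
    unfold Ph
    rw [prod_sdiff (erase_subset_erase 2 hP)]
  have e4 : Ph q (P.erase 2) v * Ph q (P.erase 2) v = 1 := by
    unfold Ph
    rw [← prod_mul_distrib]
    exact prod_eq_one fun p hp => ph_sq h1 hδ hq hN (hP (mem_of_mem_erase hp)) (mem_erase.1 hp).1 hv
  rw [e1, e3]
  linear_combination (om q (pe δ N) v * Ph q (N \ P) v) * e4

lemma mem_q {q : ℕ} (hq : q = 3 ∨ q = 5) {n : ℤ} {v : V3} : v ∈ vec q n ↔ bl q v v = n := by
  rcases hq with rfl | rfl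
  · exact mem3
  · exact mem5

lemma A_two (h1 : S_PHI) {δ : ℤ} (hδ : Dt δ) {q : ℕ} (hq : q = 3 ∨ q = 5) {N : Finset ℕ} (hN : Pe N)
    {P : Finset ℕ} (hP : P ⊆ N) (h2 : 2 ∈ P) (β : ℤ) :
    A δ q N P β = ∑ v ∈ (vec q (pe δ N)).filter (LN q β), om q (pe δ N) v * Ph q (N \ P) v := by
  unfold A
  refine sum_congr rfl fun v hv => Pt_two h1 hδ hq hN hP h2 ?_
  rw [mem_filter] at hv
  exact (mem_q hq).1 hv.1

/-! ### classes -/

lemma cls5' {m : ℕ} (h2 : m % 2 = 1) (h3 : m % 3 ≠ 0) (h5 : m % 5 ≠ 0) :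
    Kb m ∨ Kc m ∨ jacobiSym (-3) m = 1 ∨ jacobiSym (-15) m = -1 := by
  have hm : Odd m := Nat.odd_iff.2 h2
  have e1 : jacobiSym (-3) m = jacobiSym (-3) (m % 12) := jac_mod hm
  have e2 : jacobiSym (-15) m = jacobiSym (-15) (m % 60) := jac_mod hm
  rw [e1, e2]
  unfold Kb Kc
  obtain ⟨r, hr⟩ : ∃ r, r = m % 60 := ⟨_, rfl⟩
  have e3 : m % 12 = r % 12 := by omega
  have h2' : r % 2 = 1 := by omega
  have h3' : r % 3 ≠ 0 := by omega
  have h5' : r % 5 ≠ 0 := by omega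
  have hr60 : r < 60 := by omega
  rw [e3, ← hr]
  clear e1 e2 e3 hr h2 h3 h5 hm
  interval_cases r <;> first | omega | (norm_num; done)

lemma cls3' {m : ℕ} (h2 : m % 2 = 1) (h3 : m % 3 ≠ 0) (h5 : m % 5 ≠ 0) :
    Ka m ∨ Kb m ∨ jacobiSym (-15) m = -1 ∨ jacobiSym 3 m = -1 := by
  have hm : Odd m := Nat.odd_iff.2 h2
  have e1 : jacobiSym 3 m = jacobiSym 3 (m % 12) := jac_mod hm
  have e2 : jacobiSym (-15) m = jacobiSym (-15) (m % 60) := jac_mod hm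
  rw [e1, e2]
  unfold Ka Kb
  obtain ⟨r, hr⟩ : ∃ r, r = m % 60 := ⟨_, rfl⟩
  have e3 : m % 12 = r % 12 := by omega
  have h2' : r % 2 = 1 := by omega
  have h3' : r % 3 ≠ 0 := by omega
  have h5' : r % 5 ≠ 0 := by omega
  have hr60 : r < 60 := by omega
  rw [e3, ← hr]
  clear e1 e2 e3 hr h2 h3 h5 hm
  interval_cases r <;> first | omega | (norm_num; done)

lemma mul_mod {a b n : ℕ} (m : ℕ) (h : n = a * b) : n % m = (a % m) * (b % m) % m := by
  rw [h, Nat.mul_mod]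

/-! ### the lattice `L 5` -/

lemma g1_LN {β : ℤ} {v : V3} (h : LN 5 β v) : LN 5 β (g1 v) := by
  obtain ⟨k0, k1, k2⟩ := g1_spec h
  rw [LN5] at h ⊢
  rwa [k1, k2]

lemma g1_bl {β : ℤ} {v : V3} (h : LN 5 β v) : bl 5 (g1 v) (g1 v) = bl 5 v v := by
  obtain ⟨k0, k1, k2⟩ := g1_spec h
  rw [bl5, bl5]
  rw [k1, k2]
  linear_combination (g1 v 0 - v 0) * k0

lemma g1_g1 {β : ℤ} {v : V3} (h : LN 5 β v) : g1 (g1 v) = v := by
  obtain ⟨k0, k1, k2⟩ := g1_spec h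
  obtain ⟨l0, l1, l2⟩ := g1_spec (g1_LN h)
  exact ext3 (by rw [k1, k2] at l0; linarith) (by rw [l1, k1]) (by rw [l2, k2])

lemma g1_Ph (h1 : S_PHI) (h2 : S_REF) {P : Finset ℕ} (hP : Pq P) {β : ℤ} {v : V3} (h : LN 5 β v) :
    Ph 5 P (g1 v) = jacobiSym (-3) (pr P) * Ph 5 P v := by
  obtain ⟨k0, k1, k2⟩ := g1_spec h
  have hb : bl 5 (![1, 0, 0] : V3) ![1, 0, 0] = 3 := by rw [bl5]; simp
  have hv' : bl 5 (![1, 0, 0] : V3) v = 3 * v 0 - v 1 + v 2 := by rw [bl5]; simp <;> ring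
  have h := refl h1 h2 (Or.inr rfl) hP ![1, 0, 0] v (g1 v) (by rw [hb]; exact not_dvd hP (a := 3) pd3)
    (fun i => by
      rw [hb, hv']
      fin_cases i
      · show 3 * g1 v 0 = 3 * v 0 - 2 * (3 * v 0 - v 1 + v 2) * 1
        linarith
      · show 3 * g1 v 1 = 3 * v 1 - 2 * (3 * v 0 - v 1 + v 2) * 0
        rw [k1]; ring
      · show 3 * g1 v 2 = 3 * v 2 - 2 * (3 * v 0 - v 1 + v 2) * 0
        rw [k2]; ring)
  rw [h, hb]

lemma g1_el {β : ℤ} {v : V3} (h : LN 5 β v) : (5 : ℤ) ∣ el 5 (g1 v) + el 5 v := by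
  obtain ⟨k0, k1, k2⟩ := g1_spec h
  rw [el5, el5, k1, k2]
  have e : 3 * (g1 v 0 + 3 * v 1 + 2 * v 2 + (v 0 + 3 * v 1 + 2 * v 2)) = 5 * (4 * v 1 + 2 * v 2) := by
    linear_combination k0
  omega

lemma g2_LN {β : ℤ} {v : V3} (h : LN 5 β v) : LN 5 β (g2 v) := by
  obtain ⟨k0, k1, k2⟩ := g2_spec h
  rw [LN5] at h ⊢
  rw [k1, k2]
  refine ⟨?_, h.2⟩
  obtain ⟨⟨a, ha⟩, b, hb⟩ := h
  exact ⟨-a - b - β, by linarith⟩

lemma g2_bl {β : ℤ} {v : V3} (h : LN 5 β v) : bl 5 (g2 v) (g2 v) = bl 5 v v := by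
  obtain ⟨k0, k1, k2⟩ := g2_spec h
  rw [bl5, bl5]
  rw [k1, k2]
  linear_combination (g2 v 0 + v 0 + v 2) * k0

lemma g2_g2 {β : ℤ} {v : V3} (h : LN 5 β v) : g2 (g2 v) = v := by
  obtain ⟨k0, k1, k2⟩ := g2_spec h
  obtain ⟨l0, l1, l2⟩ := g2_spec (g2_LN h)
  exact ext3 (by rw [k1, k2] at l0; linarith) (by rw [l1, k1, k2]; ring) (by rw [l2, k2])

lemma g2_Ph (h1 : S_PHI) (h2 : S_REF) {P : Finset ℕ} (hP : Pq P) {β : ℤ} {v : V3} (h : LN 5 β v) :
    Ph 5 P (g2 v) = jacobiSym (-15) (pr P) * Ph 5 P v := by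
  obtain ⟨k0, k1, k2⟩ := g2_spec h
  have hb : bl 5 (![1, 3, 0] : V3) ![1, 3, 0] = 60 := by rw [bl5]; simp
  have hv' : bl 5 (![1, 3, 0] : V3) v = 20 * v 1 + 10 * v 2 := by rw [bl5]; simp; ring
  have h := refl h1 h2 (Or.inr rfl) hP ![1, 3, 0] v (g2 v)
    (by rw [hb]; exact not_dvd hP (a := 60) (pd60 (by norm_num)))
    (fun i => by
      rw [hb, hv']
      fin_cases i
      · show 60 * g2 v 0 = 60 * v 0 - 2 * (20 * v 1 + 10 * v 2) * 1
        linarith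
      · show 60 * g2 v 1 = 60 * v 1 - 2 * (20 * v 1 + 10 * v 2) * 3
        rw [k1]; ring
      · show 60 * g2 v 2 = 60 * v 2 - 2 * (20 * v 1 + 10 * v 2) * 0
        rw [k2]; ring)
  rw [h, hb]
  have e : (-60 : ℤ) = -15 * (2 * 2) := by norm_num
  rw [e, jac_mul, jac_sq (a := 2) hP (not_dvd hP (a := 2) (pd60 (by norm_num)))]
  ring

lemma g2_el {β : ℤ} {v : V3} (h : LN 5 β v) : (5 : ℤ) ∣ el 5 (g2 v) - el 5 v := by
  obtain ⟨k0, k1, k2⟩ := g2_spec h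
  rw [el5, el5, k1, k2]
  have e : 3 * (g2 v 0 + 3 * (-v 1 - v 2) + 2 * v 2 - (v 0 + 3 * v 1 + 2 * v 2)) = 5 * (-4 * v 1 - 2 * v 2) := by
    linear_combination k0
  omega

lemma van5c (h1 : S_PHI) (h2 : S_REF) {P : Finset ℕ} (hP : Pq P) {M : ℕ} (hM : M % 5 = 2 ∨ M % 5 = 3) {β : ℤ}
    (hj : jacobiSym (-3) (pr P) = 1) :
    ∑ v ∈ (vec 5 M).filter (LN 5 β), om 5 M v * Ph 5 P v = 0 := by
  refine sum_zero _ g1 (fun v hv => ?_) (fun v hv => ?_) (fun v hv => ?_)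
  · rw [mem_filter, mem5] at hv ⊢
    exact ⟨by rw [g1_bl hv.2]; exact hv.1, g1_LN hv.2⟩
  · rw [mem_filter] at hv
    exact g1_g1 hv.2
  · rw [mem_filter, mem5] at hv
    rw [g1_Ph h1 h2 hP hv.2, hj, om5_neg hv.1 hM (g1_el hv.2)]
    ring

lemma van5d (h1 : S_PHI) (h2 : S_REF) {P : Finset ℕ} (hP : Pq P) {M : ℕ} {β : ℤ}
    (hj : jacobiSym (-15) (pr P) = -1) :
    ∑ v ∈ (vec 5 M).filter (LN 5 β), om 5 M v * Ph 5 P v = 0 := by
  refine sum_zero _ g2 (fun v hv => ?_) (fun v hv => ?_) (fun v hv => ?_)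
  · rw [mem_filter, mem5] at hv ⊢
    exact ⟨by rw [g2_bl hv.2]; exact hv.1, g2_LN hv.2⟩
  · rw [mem_filter] at hv
    exact g2_g2 hv.2
  · rw [mem_filter, mem5] at hv
    rw [g2_Ph h1 h2 hP hv.2, hj, om_congr (by exact_mod_cast g2_el hv.2)]
    ring

/-! ### the lattice `L 3` -/

lemma g3_spec {β : ℤ} {v : V3} (h : LN 3 β v) : ∃ t : ℤ, 5 * t = v 0 + 2 * v 1 + 2 * v 2 ∧ g3 v 0 = v 0 - 2 * t ∧
    g3 v 1 = v 1 - 2 * t ∧ g3 v 2 = v 2 - 2 * t := by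
  rw [LN3] at h
  have hd : (5 : ℤ) ∣ v 0 + 2 * v 1 + 2 * v 2 := by
    obtain ⟨⟨a, ha⟩, b, hb⟩ := h
    exact ⟨2 * a + 2 * b + v 0, by linarith⟩
  exact ⟨(v 0 + 2 * v 1 + 2 * v 2) / 5, Int.mul_ediv_cancel' hd, rfl, rfl, rfl⟩

lemma g3_LN {β : ℤ} {v : V3} (h : LN 3 β v) : LN 3 β (g3 v) := by
  obtain ⟨t, k, k0, k1, k2⟩ := g3_spec h
  rw [LN3] at h ⊢
  rw [k0, k1, k2]
  have e1 : v 1 - 2 * t - (v 0 - 2 * t) - β = v 1 - v 0 - β := by ring
  have e2 : v 2 - 2 * t - (v 0 - 2 * t) + β = v 2 - v 0 + β := by ring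
  rwa [e1, e2]

lemma van3c (h1 : S_PHI) (h2 : S_REF) {P : Finset ℕ} (hP : Pq P) {M : ℕ} {β : ℤ}
    (hj : jacobiSym (-15) (pr P) = -1) :
    ∑ v ∈ (vec 3 M).filter (LN 3 β), om 3 M v * Ph 3 P v = 0 := by
  refine sum_zero _ g3 (fun v hv => ?_) (fun v hv => ?_) (fun v hv => ?_)
  · rw [mem_filter, mem3] at hv ⊢
    obtain ⟨t, k, k0, k1, k2⟩ := g3_spec hv.2
    refine ⟨?_, g3_LN hv.2⟩
    have h := hv.1
    rw [bl3] at h ⊢
    rw [k0, k1, k2]
    linear_combination h + 12 * t * k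
  · rw [mem_filter] at hv
    obtain ⟨t, k, k0, k1, k2⟩ := g3_spec hv.2
    obtain ⟨t', l, l0, l1, l2⟩ := g3_spec (g3_LN hv.2)
    have e : t' = -t := by
      rw [k0, k1, k2] at l
      linarith
    exact ext3 (by rw [l0, k0, e]; ring) (by rw [l1, k1, e]; ring) (by rw [l2, k2, e]; ring)
  · rw [mem_filter] at hv
    obtain ⟨t, k, k0, k1, k2⟩ := g3_spec hv.2
    have hb : bl 3 (![1, 1, 1] : V3) ![1, 1, 1] = 15 := by rw [bl3]; simp
    have hv' : bl 3 (![1, 1, 1] : V3) v = 3 * v 0 + 6 * v 1 + 6 * v 2 := by rw [bl3]; simp <;> ring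
    have h := refl h1 h2 (Or.inl rfl) hP ![1, 1, 1] v (g3 v)
      (by rw [hb]; exact not_dvd hP (a := 15) (pd60 (by norm_num)))
      (fun i => by
        rw [hb, hv']
        fin_cases i
        · show 15 * g3 v 0 = 15 * v 0 - 2 * (3 * v 0 + 6 * v 1 + 6 * v 2) * 1
          rw [k0]; linarith
        · show 15 * g3 v 1 = 15 * v 1 - 2 * (3 * v 0 + 6 * v 1 + 6 * v 2) * 1
          rw [k1]; linarith
        · show 15 * g3 v 2 = 15 * v 2 - 2 * (3 * v 0 + 6 * v 1 + 6 * v 2) * 1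
          rw [k2]; linarith)
    have h3 : om 3 M (g3 v) = om 3 M v := om_congr (by
      rw [el3, el3, k1, k2]
      exact ⟨0, by ring⟩)
    rw [h, hb, hj, h3]
    ring

/-- the rotation changes the characters by the symbol of `3` -/
lemma rho_Ph' (h1 : S_PHI) (h2 : S_REF) {P : Finset ℕ} (hP : Pq P) (v : V3) :
    Ph 3 P (rho v) = jacobiSym 3 (pr P) * Ph 3 P v := by
  have hb : bl 3 (![0, 1, 1] : V3) ![0, 1, 1] = 12 := by rw [bl3]; simp
  have hv' : bl 3 (![0, 1, 1] : V3) v = 6 * v 1 + 6 * v 2 := by rw [bl3]; simp <;> ring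
  have e1 := refl h1 h2 (Or.inl rfl) hP ![0, 1, 1] v ![v 0, -v 2, -v 1]
      (by rw [hb]; exact not_dvd hP (a := 12) (pd60 (by norm_num)))
      (fun i => by
        rw [hb, hv']
        fin_cases i
        · show 12 * v 0 = 12 * v 0 - 2 * (6 * v 1 + 6 * v 2) * 0
          ring
        · show 12 * (-v 2) = 12 * v 1 - 2 * (6 * v 1 + 6 * v 2) * 1
          ring
        · show 12 * (-v 1) = 12 * v 2 - 2 * (6 * v 1 + 6 * v 2) * 1
          ring)
  have hb2 : bl 3 (![0, 0, 1] : V3) ![0, 0, 1] = 4 := by rw [bl3]; simp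
  have hv2 : bl 3 (![0, 0, 1] : V3) (![v 0, -v 2, -v 1] : V3) = -4 * v 1 - 2 * v 2 := by rw [bl3]; simp <;> ring
  have e2 := refl h1 h2 (Or.inl rfl) hP ![0, 0, 1] (![v 0, -v 2, -v 1] : V3) (rho v)
      (by rw [hb2]; exact not_dvd hP (a := 4) (pd60 (by norm_num)))
      (fun i => by
        rw [hb2, hv2]
        fin_cases i
        · show 4 * v 0 = 4 * v 0 - 2 * (-4 * v 1 - 2 * v 2) * 0
          ring
        · show 4 * (-v 2) = 4 * (-v 2) - 2 * (-4 * v 1 - 2 * v 2) * 0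
          ring
        · show 4 * (v 1 + v 2) = 4 * (-v 1) - 2 * (-4 * v 1 - 2 * v 2) * 1
          ring)
  rw [e2, e1, hb, hb2, ← mul_assoc, ← jac_mul]
  have e3 : (-4 : ℤ) * -12 = 3 * (4 * 4) := by norm_num
  rw [e3, jac_mul, jac_sq (a := 4) hP (not_dvd hP (a := 4) (pd60 (by norm_num)))]
  ring

lemma rho_bl (v : V3) : bl 3 (rho v) (rho v) = bl 3 v v := by
  rw [bl3, bl3]
  show 3 * (v 0 * v 0) + 4 * (-v 2 * -v 2) + 4 * ((v 1 + v 2) * (v 1 + v 2)) + 2 * (-v 2 * (v 1 + v 2) + (v 1 + v 2) * -v 2) = _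
  ring

/-- the sum over the lattice and the sum over the line, for functions which are invariant on the vectors -/
lemma six' {M : ℕ} {β : ℤ} (hn : ¬ (5 : ℤ) ∣ M) (hβ : (5 : ℤ) ∣ β ^ 2 + M) (φ : V3 → ℤ)
    (hφ : ∀ v : V3, bl 3 v v = (M : ℤ) → φ (rho v) = φ v) :
    ∑ v ∈ vec 3 M, φ v = 6 * ∑ v ∈ (vec 3 M).filter (LN 3 β), φ v := by
  have h := six hn hβ (fun v => if bl 3 v v = M then φ v else 0) (fun v => by
    show (if bl 3 (rho v) (rho v) = M then φ (rho v) else 0) = if bl 3 v v = M then φ v else 0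
    rw [rho_bl]
    by_cases h : bl 3 v v = (M : ℤ)
    · rw [if_pos h, if_pos h, hφ v h]
    · rw [if_neg h, if_neg h])
  have e1 : ∑ v ∈ vec 3 M, φ v = ∑ v ∈ vec 3 M, (if bl 3 v v = M then φ v else 0) :=
    sum_congr rfl fun v hv => by rw [if_pos (mem3.1 hv)]
  have e2 : ∑ v ∈ (vec 3 M).filter (LN 3 β), φ v = ∑ v ∈ (vec 3 M).filter (LN 3 β), (if bl 3 v v = M then φ v else 0) :=
    sum_congr rfl fun v hv => by rw [if_pos (mem3.1 (mem_filter.1 hv).1)]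
  rw [e1, e2]
  exact h

lemma Pq_sdiff {N P : Finset ℕ} (hN : Pe N) (h2 : 2 ∈ P) : Pq (N \ P) := fun p hp => by
  rw [mem_sdiff] at hp
  exact ⟨(hN p hp.1).1, fun h => hp.2 (h ▸ h2), (hN p hp.1).2⟩

lemma cls_b {δ : ℤ} {N P : Finset ℕ} (hN : Pe N) (hP : P ⊆ N) (h2 : 2 ∈ P) (hb : Jb δ N)
    (h : Kb (pr (N \ P))) : Ja δ P := by
  have hQ := Pq_sdiff (P := P) hN h2
  have h0 : 2 ∉ N \ P := fun h => (mem_sdiff.1 h).2 h2
  have hb' : Jb δ (N \ P) := (Od.Jb_odd (Od.Pe_of_Pq hQ) h0).2 h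
  obtain ⟨a1, a2, a3⟩ := hb
  obtain ⟨b1, b2, b3⟩ := hb'
  have e1 := sg_sdiff (δ := δ) hP
  have e2 := pe_sdiff (δ := δ) hP
  rw [a1, b1] at e1
  have m3 := mul_mod 3 e2
  have m5 := mul_mod 5 e2
  have r3 : pe δ P % 3 < 3 := Nat.mod_lt _ (by norm_num)
  have r5 : pe δ P % 5 < 5 := Nat.mod_lt _ (by norm_num)
  refine ⟨by linarith, ?_, ?_⟩
  · rw [a2, b2] at m3
    generalize pe δ P % 3 = x at *
    interval_cases x <;> omega
  · generalize pe δ P % 5 = x at *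
    generalize pe δ N % 5 = y at *
    generalize pe δ (N \ P) % 5 = z at *
    rcases b3 with rfl | rfl <;> interval_cases x <;> omega

lemma cls_c {δ : ℤ} {N P : Finset ℕ} (hN : Pe N) (hP : P ⊆ N) (h2 : 2 ∈ P) (hb : Jb δ N)
    (h : Kc (pr (N \ P))) : Jd δ P := by
  have hQ := Pq_sdiff (P := P) hN h2
  have h0 : 2 ∉ N \ P := fun h => (mem_sdiff.1 h).2 h2
  have hb' : Jc δ (N \ P) := (Od.Jc_odd (Od.Pe_of_Pq hQ) h0).2 h
  obtain ⟨a1, a2, a3⟩ := hb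
  obtain ⟨b1, b2, b3⟩ := hb'
  have e1 := sg_sdiff (δ := δ) hP
  have e2 := pe_sdiff (δ := δ) hP
  rw [a1, b1] at e1
  have m3 := mul_mod 3 e2
  have m5 := mul_mod 5 e2
  have r3 : pe δ P % 3 < 3 := Nat.mod_lt _ (by norm_num)
  have r5 : pe δ P % 5 < 5 := Nat.mod_lt _ (by norm_num)
  refine ⟨by linarith, ?_, ?_⟩
  · rw [a2, b2] at m3
    generalize pe δ P % 3 = x at *
    interval_cases x <;> omega
  · generalize pe δ P % 5 = x at *
    generalize pe δ N % 5 = y at *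
    generalize pe δ (N \ P) % 5 = z at *
    rcases b3 with rfl | rfl <;> interval_cases x <;> omega

lemma cls_a3 {δ : ℤ} {N P : Finset ℕ} (hN : Pe N) (hP : P ⊆ N) (h2 : 2 ∈ P) (hd : Jd δ N)
    (h : Ka (pr (N \ P))) : Jd δ P := by
  have hQ := Pq_sdiff (P := P) hN h2
  have h0 : 2 ∉ N \ P := fun h => (mem_sdiff.1 h).2 h2
  have hb' : Ja δ (N \ P) := (Od.Ja_odd (Od.Pe_of_Pq hQ) h0).2 h
  obtain ⟨a1, a2, a3⟩ := hd
  obtain ⟨b1, b2, b3⟩ := hb'
  have e1 := sg_sdiff (δ := δ) hP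
  have e2 := pe_sdiff (δ := δ) hP
  rw [a1, b1] at e1
  have m3 := mul_mod 3 e2
  have m5 := mul_mod 5 e2
  have r3 : pe δ P % 3 < 3 := Nat.mod_lt _ (by norm_num)
  have r5 : pe δ P % 5 < 5 := Nat.mod_lt _ (by norm_num)
  refine ⟨by linarith, ?_, ?_⟩
  · rw [a2, b2] at m3
    generalize pe δ P % 3 = x at *
    interval_cases x <;> omega
  · generalize pe δ P % 5 = x at *
    generalize pe δ N % 5 = y at *
    generalize pe δ (N \ P) % 5 = z at *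
    rcases b3 with rfl | rfl <;> interval_cases x <;> omega

lemma cls_b3 {δ : ℤ} {N P : Finset ℕ} (hN : Pe N) (hP : P ⊆ N) (h2 : 2 ∈ P) (hd : Jd δ N)
    (h : Kb (pr (N \ P))) : Jc δ P := by
  have hQ := Pq_sdiff (P := P) hN h2
  have h0 : 2 ∉ N \ P := fun h => (mem_sdiff.1 h).2 h2
  have hb' : Jb δ (N \ P) := (Od.Jb_odd (Od.Pe_of_Pq hQ) h0).2 h
  obtain ⟨a1, a2, a3⟩ := hd
  obtain ⟨b1, b2, b3⟩ := hb'
  have e1 := sg_sdiff (δ := δ) hP
  have e2 := pe_sdiff (δ := δ) hP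
  rw [a1, b1] at e1
  have m3 := mul_mod 3 e2
  have m5 := mul_mod 5 e2
  have r3 : pe δ P % 3 < 3 := Nat.mod_lt _ (by norm_num)
  have r5 : pe δ P % 5 < 5 := Nat.mod_lt _ (by norm_num)
  refine ⟨by linarith, ?_, ?_⟩
  · rw [a2, b2] at m3
    generalize pe δ P % 3 = x at *
    interval_cases x <;> omega
  · generalize pe δ P % 5 = x at *
    generalize pe δ N % 5 = y at *
    generalize pe δ (N \ P) % 5 = z at *
    rcases b3 with rfl | rfl <;> interval_cases x <;> omega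

lemma not_five {M : ℕ} (h : M % 5 = 1 ∨ M % 5 = 4) : ¬ (5 : ℤ) ∣ (M : ℤ) := by omega

/-- norms which are four times a square -/
lemma xi_of {δ : ℤ} (hδ : Dt δ) {N : Finset ℕ} (hN : Pe N) (h2 : 2 ∈ N) {x : ℤ}
    (h : (pe δ N : ℤ) = 4 * (x * x)) : Xi δ N := by
  have hQ := Od.Pq_erase hN
  have hodd := (pr_cop hQ).1
  have e : pe δ N = δ.natAbs * pr (N.erase 2) := by
    have h1 : pe δ N = md δ 2 * pe δ (N.erase 2) := by
      unfold pe
      rw [← mul_prod_erase N _ h2]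
    rw [h1, Od.pe_odd (by simp)]
    unfold md
    rw [if_pos rfl]
  have hx : (pe δ N : ℤ) = 4 * ((x.natAbs * x.natAbs : ℕ) : ℤ) := by
    rw [h]
    push_cast
    rw [abs_mul_abs_self]
  have hx' : pe δ N = 4 * (x.natAbs * x.natAbs) := by exact_mod_cast hx
  generalize x.natAbs = y at *
  rw [e] at hx'
  have k4 : δ.natAbs = 4 := by
    rcases Dt_nat hδ with k | k
    · exact k
    · exfalso
      rw [k] at hx'
      have e1 : 2 * pr (N.erase 2) = y * y := by linarith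
      have ev : Even y := by
        have : Even (y * y) := ⟨pr (N.erase 2), by linarith⟩
        rcases Nat.even_mul.1 this with h | h <;> exact h
      obtain ⟨z, rfl⟩ := ev
      have : pr (N.erase 2) = 2 * (z * z) := by linarith
      omega
  rw [k4] at hx'
  have e1 : pr (N.erase 2) = y * y := by linarith
  have hδ4 : δ = -4 := by
    rcases hδ with h | h | h
    · exact h
    · rw [h] at k4; exact absurd k4 (by decide)
    · rw [h] at k4; exact absurd k4 (by decide)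
  refine ⟨hδ4, ?_⟩
  by_cases hE : N.erase 2 = ∅
  · rw [← insert_erase h2, hE]
    rfl
  · exfalso
    obtain ⟨p, hp⟩ := nonempty_of_ne_empty hE
    have hp' := mem_erase.1 hp
    have pp := (hN p hp'.2).1
    have hd : p ∣ y * y := by
      rw [← e1]
      unfold pr
      exact dvd_prod_of_mem (fun x => x) hp
    have hy : p ∣ y := by
      rcases pp.dvd_mul.1 hd with h | h <;> exact h
    apply not_sq hδ hN hp'.2 hp'.1
    rw [e, e1]
    exact (mul_dvd_mul hy hy).mul_left _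

end Vn

theorem t_VAN5 (h1 : S_PHI) (h2 : S_REF) : S_VAN5 := by
  intro δ hδ N hN hb β hβ P hPN hPe ha hd
  by_cases m : 2 ∈ P
  · rw [Vn.A_two h1 hδ (Or.inr rfl) hN hPN m]
    have hQ : Pq (N \ P) := Vn.Pq_sdiff hN m
    obtain ⟨k2, k3, k5⟩ := pr_cop hQ
    rcases Vn.cls5' k2 k3 k5 with h | h | h | h
    · exact absurd (Vn.cls_b hN hPN m hb h) ha
    · exact absurd (Vn.cls_c hN hPN m hb h) hd
    · exact Vn.van5c h1 h2 hQ hb.2.2 h
    · exact Vn.van5d h1 h2 hQ h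
  · have hP : Pq P := Od.Pq_of_Pe (Od.Pe.mono hN hPN) m
    rw [Od.A_odd' m]
    obtain ⟨k2, k3, k5⟩ := pr_cop hP
    rcases cls5 k2 k3 k5 with h | h | h | h
    · exact absurd ((Od.Ja_odd (Od.Pe_of_Pq hP) m).2 h) ha
    · exact absurd ((Od.Jd_odd (Od.Pe_of_Pq hP) m).2 h) hd
    · exact van5a h1 h2 hP h
    · exact van5b h1 h2 hP h

theorem t_EQ3 : S_EQ3 := by
  intro δ hδ N hN hd β hβ
  have h := six (Vn.not_five hd.2.2) hβ (fun _ => 1) (fun _ => rfl)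
  have e1 : ((vec 3 (pe δ N : ℤ)).card : ℤ) = ∑ v ∈ vec 3 (pe δ N : ℤ), (1 : ℤ) := by simp
  have e2 : A δ 3 N ∅ β = ∑ v ∈ (vec 3 (pe δ N : ℤ)).filter (LN 3 β), (1 : ℤ) := by
    unfold A Pt
    simp
  rw [e1, e2]
  exact h

theorem t_VAN3 (h1 : S_PHI) (h2 : S_REF) (h4 : S_V4) : S_VAN3 := by
  intro δ hδ N hN hd β hβ P hPN hPe hc hd'
  have h5 := Vn.not_five hd.2.2
  have e2 := h4 δ hδ 3 (Or.inl rfl) N hN (fun h => absurd h (by norm_num)) (fun _ => hd) P hPN hPe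
  by_cases m : 2 ∈ P
  · rw [Vn.A_two h1 hδ (Or.inl rfl) hN hPN m]
    have hQ : Pq (N \ P) := Vn.Pq_sdiff hN m
    obtain ⟨k2, k3, k5⟩ := pr_cop hQ
    rcases Vn.cls3' k2 k3 k5 with h | h | h | h
    · exact absurd (Vn.cls_a3 hN hPN m hd h) hd'
    · exact absurd (Vn.cls_b3 hN hPN m hd h) hc
    · exact Vn.van3c h1 h2 hQ h
    · have e := Vn.six' h5 hβ (fun v => om 3 (pe δ N) v * Ph 3 (N \ P) v) (fun v hv => by
        show om 3 (pe δ N) (rho v) * Ph 3 (N \ P) (rho v) = om 3 (pe δ N) v * Ph 3 (N \ P) v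
        rw [Vn.rho_Ph' h1 h2 hQ, h, Vn.om3_neg hv hd.2.1 (by
          rw [Vn.el3, Vn.el3]
          show (3 : ℤ) ∣ -v 2 - (v 1 + v 2) + (v 1 - v 2)
          exact ⟨-v 2, by ring⟩)]
        ring)
      have e3 : ∑ v ∈ vec 3 (pe δ N : ℤ), om 3 (pe δ N) v * Ph 3 (N \ P) v = 0 := by
        rw [← e2]
        exact sum_congr rfl fun v hv => (Vn.Pt_two h1 hδ (Or.inl rfl) hN hPN m (mem3.1 hv)).symm
      rw [e3] at e
      omega
  · have hP : Pq P := Od.Pq_of_Pe (Od.Pe.mono hN hPN) m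
    rw [Od.A_odd' m]
    obtain ⟨k2, k3, k5⟩ := pr_cop hP
    rcases cls3 k2 k3 k5 with h | h | h | h
    · exact absurd ((Od.Jc_odd (Od.Pe_of_Pq hP) m).2 h) hc
    · exact absurd ((Od.Jd_odd (Od.Pe_of_Pq hP) m).2 h) hd'
    · exact van3a h1 h2 hP h
    · have e := six h5 hβ (fun v => Ph 3 P v) (fun v => rho_Ph h1 h2 hP h v)
      have e3 : ∑ v ∈ vec 3 (pe δ N : ℤ), Ph 3 P v = 0 := by
        rw [← e2]
        exact sum_congr rfl fun v _ => (Od.Pt_odd m v).symm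
      rw [e3] at e
      unfold XV.A
      omega

theorem t_EV3 (h1 : S_PHI) (h2 : S_REF) : S_EV3 := by
  classical
  intro δ hδ N hN hd hXi β hβ γ
  by_cases m : 2 ∉ N
  · rw [Od.AC_odd m]
    refine XV.t_EV3 h1 h2 N (Od.Pq_of_Pe hN m) ((Od.Jd_odd hN m).1 hd) β ?_ γ
    rwa [← Od.pe_odd (δ := δ) m]
  push_neg at m
  unfold AC
  set s := (vec 3 (pe δ N : ℤ)).filter fun v => LN 3 β v ∧ ∀ p ∈ N, gm δ 3 N p v = γ p with hs
  have key : ∑ _v ∈ s, (1 : ZMod 2) = 0 := by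
    refine Finset.sum_involution (fun v _ => (![-v 0, -v 2, -v 1] : V3)) (fun v hv => by decide) ?_ ?_ ?_
    · intro v hv _ he
      rw [hs, mem_filter, mem3, bl3] at hv
      have e0 : -v 0 = v 0 := congrFun he 0
      have e1 : -v 2 = v 1 := congrFun he 1
      have k0 : v 0 = 0 := by linarith
      have h := hv.1
      rw [k0, ← e1] at h
      have h3 : (pe δ N : ℤ) = 4 * (v 2 * v 2) := by rw [← h]; ring
      exact hXi (Vn.xi_of hδ hN m h3)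
    · intro v hv
      rw [hs, mem_filter, mem3, bl3] at hv ⊢
      obtain ⟨h, hL, hγ⟩ := hv
      have key : ∀ P : Finset ℕ, Pq P → Ph 3 P (![-v 0, -v 2, -v 1] : V3) = Ph 3 P v := by
        intro P hP
        have hb : bl 3 (![0, 1, -1] : V3) ![0, 1, -1] = 4 := by rw [bl3]; simp
        have hv' : bl 3 (![0, 1, -1] : V3) v = 2 * v 1 - 2 * v 2 := by rw [bl3]; simp <;> ring
        have e1 := refl h1 h2 (Or.inl rfl) hP ![0, 1, -1] v ![v 0, v 2, v 1]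
          (by rw [hb]; exact not_dvd hP (a := 4) (pd60 (by norm_num)))
          (fun i => by
            rw [hb, hv']
            fin_cases i
            · show 4 * v 0 = 4 * v 0 - 2 * (2 * v 1 - 2 * v 2) * 0
              ring
            · show 4 * v 2 = 4 * v 1 - 2 * (2 * v 1 - 2 * v 2) * 1
              ring
            · show 4 * v 1 = 4 * v 2 - 2 * (2 * v 1 - 2 * v 2) * (-1)
              ring)
        have e2 := neg h1 (Or.inl rfl) hP (![v 0, v 2, v 1] : V3) (![-v 0, -v 2, -v 1] : V3) (fun i => by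
          fin_cases i <;> rfl)
        rw [e1, hb, ← mul_assoc, ← jac_mul] at e2
        have e3 : (-1 : ℤ) * -4 = 2 * 2 := by norm_num
        rw [e3, jac_sq (a := 2) hP (not_dvd hP (a := 2) (pd60 (by norm_num))), one_mul] at e2
        exact e2
      refine ⟨?_, ?_, fun p hp => ?_⟩
      · rw [← h]
        show 3 * (-v 0 * -v 0) + 4 * (-v 2 * -v 2) + 4 * (-v 1 * -v 1) + 2 * (-v 2 * -v 1 + -v 1 * -v 2) = _
        ring
      · rw [LN3] at hL ⊢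
        show (5 : ℤ) ∣ -v 2 - -v 0 - β ∧ (5 : ℤ) ∣ -v 1 - -v 0 + β
        have e1 : -v 2 - -v 0 - β = -(v 2 - v 0 + β) := by ring
        have e2 : -v 1 - -v 0 + β = -(v 1 - v 0 - β) := by ring
        rw [e1, e2, dvd_neg, dvd_neg]
        exact ⟨hL.2, hL.1⟩
      · rw [← hγ p hp]
        by_cases hp2 : p = 2
        · unfold gm
          rw [if_pos hp2, if_pos hp2, key _ (Od.Pq_erase hN)]
          congr 1
          refine Vn.om_congr ?_
          rw [Vn.el3, Vn.el3]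
          show (3 : ℤ) ∣ -v 2 - -v 1 - (v 1 - v 2)
          exact ⟨0, by ring⟩
        · rw [Od.gm_odd hp2, Od.gm_odd hp2]
          have h := key {p} (fun q hq => by
            rw [mem_singleton.1 hq]
            exact ⟨(hN p hp).1, hp2, (hN p hp).2⟩)
          unfold Ph at h
          rwa [prod_singleton, prod_singleton] at h
    · intro v hv
      refine ext3 ?_ ?_ ?_
      · show - -v 0 = v 0
        ring
      · show - -v 1 = v 1
        ring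
      · show - -v 2 = v 2
        ring
  rw [sum_const, nsmul_eq_mul, mul_one] at key
  exact (ZMod.natCast_eq_zero_iff_even).1 key

end Pool.Agent.XW
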