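import Pool.Agent.XV.Wt
import Pool.Agent.XW.Odd

/-!
# Project XW: the weights of the pairs of vectors, and the product of all the weights
-/

set_option autoImplicit false

namespace Pool.Agent.XW.Wt

open Finset
open Pool.Agent.Z700 (V3 pr un hh)
open Pool.Agent.NH1 (lz rd)
open Pool.Agent.NH2 (wp)
open Pool.Agent.XV (bl vec ph Ph S_PHI ph_spec)
open Pool.Agent.XW.Od

/-- the pairs at an odd prime, any norm -/
theorem pair_one (h1 : S_PHI) {r : ℕ} (hr : r = 3 ∨ r = 5) {n p : ℕ} (hpp : p.Prime) (hp2 : p ≠ 2)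
    (hp3 : p ≠ 3) (hp5 : p ≠ 5) (d1 : (p : ℤ) ∣ (n : ℤ)) (d2 : ¬ (p : ℤ) ^ 2 ∣ (n : ℤ)) {v w : V3}
    (hv' : bl r v v = (n : ℤ)) (hw' : bl r w w = (n : ℤ)) {T : ℕ} (hT : T < n)
    (hvw : bl r v w = (n : ℤ) - 2 * T) :
    ph r p (rd p v) * ph r p (rd p w) = wp p n T := by
  have hpr : p ≠ r := by rcases hr with rfl | rfl <;> assumption
  set S := n - T with hS
  have hSpos : 0 < S := Nat.sub_pos_of_lt hT
  have hSn : (S : ℤ) = n - T := by
    rw [hS, Nat.cast_sub hT.le]
  have hsum : bl r (fun i => v i + w i) (fun i => v i + w i) = 4 * (S : ℤ) := by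
    have h := XV.Wt.bl_lin r (x := v) (y := w) (z := fun i => v i + w i) (s := 1) (t := 1)
      (fun i => by ring)
    rw [h, hv', hw', hvw, hSn]
    ring
  have hx : ∃ i, v i + w i ≠ 0 := by
    by_contra hcon
    push Not at hcon
    have h := XV.Wt.bl_lin r (x := v) (y := w) (z := fun i => v i + w i) (s := 0) (t := 0)
      (fun i => by rw [hcon i]; ring)
    rw [hsum] at h
    have : (S : ℤ) = 0 := by linarith
    have : S = 0 := by exact_mod_cast this
    omega
  obtain ⟨c, u, hc0, hcu, hprim⟩ := NH1.PP.prim_part (fun i => v i + w i) hx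
  have hc0' : (c : ℤ) ≠ 0 := by exact_mod_cast hc0
  have hcpos : (0 : ℤ) < (c : ℤ) ^ 2 := by positivity
  have hcq0 : (c : ℤ) ^ 2 * bl r u u = 4 * S := by
    have h := XV.Wt.bl_lin r (x := u) (y := u) (z := fun i => v i + w i) (s := (c : ℤ)) (t := 0)
      (fun i => by
        have : v i + w i = c * u i := hcu i
        rw [this]
        ring)
    rw [← hsum, h]
    ring
  have hq0 : 0 ≤ bl r u u := by
    by_contra hcon
    push Not at hcon
    have : (c : ℤ) ^ 2 * bl r u u < 0 := mul_neg_of_pos_of_neg hcpos hcon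
    omega
  obtain ⟨q, hq⟩ := Int.eq_ofNat_of_zero_le hq0
  have hcq : c ^ 2 * q = 4 * S := by
    rw [hq] at hcq0
    exact_mod_cast hcq0
  have hq1 : q ≠ 0 := by
    intro h
    rw [h, mul_zero] at hcq
    omega
  have hpi : Prime (p : ℤ) := Nat.prime_iff_prime_int.1 hpp
  have hloc := XV.Wt.loc_main hr hpp hp2 hp3 hp5 (ph_spec h1 hr hpp hp2 hpr) hv' hw' hcu hq hc0'
    d1 d2 (hprim p hpp)
  have hp4 : (4 : ℕ).factorization p = 0 := by
    apply Nat.factorization_eq_zero_of_not_dvd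
    intro h
    have h1 : p ∣ 2 ^ 2 := by simpa using h
    exact hp2 ((Nat.prime_dvd_prime_iff_eq hpp Nat.prime_two).1 (hpp.dvd_of_dvd_pow h1))
  have hfac : S.factorization p = 2 * c.factorization p + q.factorization p := by
    have h1 := congrArg (fun m => Nat.factorization m p) hcq
    rw [Nat.factorization_mul (pow_ne_zero 2 hc0) hq1, Nat.factorization_mul (by norm_num)
      hSpos.ne', Nat.factorization_pow, Finsupp.add_apply, Finsupp.add_apply, hp4, zero_add,
      Finsupp.smul_apply, smul_eq_mul] at h1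
    omega
  obtain ⟨c', hc'⟩ := Nat.ordProj_dvd c p
  set e := c.factorization p with he
  have hpc' : ¬ p ∣ c' := by
    intro h
    have h1 : p ^ (e + 1) ∣ c := by
      rw [hc', pow_succ]
      exact Nat.mul_dvd_mul_left _ h
    exact Nat.pow_succ_factorization_not_dvd hc0 hpp h1
  have hpc'' : ¬ (p : ℤ) ∣ (c' : ℤ) := fun h => hpc' (by exact_mod_cast h)
  have hpow : 0 < p ^ e := pow_pos hpp.pos _
  have hp2' : ¬ (p : ℤ) ∣ (2 : ℤ) := by
    intro h
    have h3 : p ∣ 2 := by exact_mod_cast h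
    exact hp2 ((Nat.prime_dvd_prime_iff_eq hpp Nat.prime_two).1 h3)
  have hj4 : ∀ x : ℤ, jacobiSym (4 * x) p = jacobiSym x p := by
    intro x
    rw [show (4 : ℤ) = 2 ^ 2 by norm_num, jacobiSym.mul_left, NH1.PP.jac_sq hpp hp2', one_mul]
  by_cases hpq : (p : ℤ) ∣ (q : ℤ)
  · obtain ⟨hpq2, hval⟩ := hloc.2 hpq
    rw [hval]
    have hpqN : p ∣ q := by exact_mod_cast hpq
    obtain ⟨q', hq'⟩ := hpqN
    have hpq' : ¬ p ∣ q' := by
      rintro ⟨a, ha⟩
      apply hpq2
      refine ⟨a, ?_⟩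
      rw [hq', ha]
      push_cast
      ring
    have hq'0 : q' ≠ 0 := by
      intro h
      rw [h, mul_zero] at hq'
      exact hq1 hq'
    have hfq : q.factorization p = 1 := by
      rw [hq', Nat.factorization_mul hpp.ne_zero hq'0, Finsupp.add_apply,
        hpp.factorization_self, Nat.factorization_eq_zero_of_not_dvd hpq']
    rw [hfq] at hfac
    have hSval : S = p ^ (2 * e + 1) * (S / p ^ (2 * e + 1)) := by
      have h1 := Nat.ordProj_mul_ordCompl_eq_self S p
      rw [hfac] at h1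
      exact h1.symm
    set S' := S / p ^ (2 * e + 1) with hS'
    have hcq' : c' ^ 2 * q' = 4 * S' := by
      have h1 : p ^ (2 * e + 1) * (c' ^ 2 * q') = p ^ (2 * e + 1) * (4 * S') := by
        calc p ^ (2 * e + 1) * (c' ^ 2 * q') = (p ^ e * c') ^ 2 * (p * q') := by ring
          _ = c ^ 2 * q := by rw [← hc', ← hq']
          _ = 4 * S := hcq
          _ = p ^ (2 * e + 1) * (4 * S') := by rw [hSval]; ring
      exact Nat.eq_of_mul_eq_mul_left (pow_pos hpp.pos _) h1
    have hwp : wp p n T = jacobiSym ((S' * (n / p) : ℕ) : ℤ) p := by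
      unfold wp
      rw [← hS, hfac, if_neg (by rintro ⟨a, ha⟩; omega)]
    rw [hwp]
    have hq1' : ((q : ℤ) / p) = (q' : ℤ) := by
      rw [hq']
      push_cast
      exact Int.mul_ediv_cancel_left _ hpi.ne_zero
    have hn1 : ((n : ℤ) / p) = ((n / p : ℕ) : ℤ) := by push_cast; rfl
    rw [hq1', hn1, Nat.cast_mul, jacobiSym.mul_left, jacobiSym.mul_left]
    congr 1
    have h2 : (4 : ℤ) * (S' : ℤ) = (c' : ℤ) ^ 2 * q' := by exact_mod_cast hcq'.symm
    rw [← hj4 (S' : ℤ), h2, jacobiSym.mul_left, NH1.PP.jac_sq hpp hpc'', one_mul]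
  · have hval := hloc.1 hpq
    rw [hval]
    have hpqN : ¬ p ∣ q := fun h => hpq (by exact_mod_cast h)
    rw [Nat.factorization_eq_zero_of_not_dvd hpqN, add_zero] at hfac
    have hSval : S = p ^ (2 * e) * (S / p ^ (2 * e)) := by
      have h1 := Nat.ordProj_mul_ordCompl_eq_self S p
      rw [hfac] at h1
      exact h1.symm
    set S' := S / p ^ (2 * e) with hS'
    have hcq' : c' ^ 2 * q = 4 * S' := by
      have h1 : p ^ (2 * e) * (c' ^ 2 * q) = p ^ (2 * e) * (4 * S') := by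
        calc p ^ (2 * e) * (c' ^ 2 * q) = (p ^ e * c') ^ 2 * q := by ring
          _ = c ^ 2 * q := by rw [← hc']
          _ = 4 * S := hcq
          _ = p ^ (2 * e) * (4 * S') := by rw [hSval]; ring
      exact Nat.eq_of_mul_eq_mul_left (pow_pos hpp.pos _) h1
    have hwp : wp p n T = jacobiSym (S' : ℤ) p := by
      unfold wp
      rw [← hS, hfac, if_pos (even_two_mul e)]
    rw [hwp]
    have h2 : (4 : ℤ) * (S' : ℤ) = (c' : ℤ) ^ 2 * q := by exact_mod_cast hcq'.symm
    rw [← hj4 (S' : ℤ), h2, jacobiSym.mul_left, NH1.PP.jac_sq hpp hpc'', one_mul]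


theorem z5 : ∀ e f T : ZMod 5, 3 * (f * f) = 3 * (e * e) → 3 * (e * f) = 3 * (e * e) - 2 * T →
    (3 * (e * e) = 2 → ((if e = 2 then 1 else -1) * (if f = 2 then 1 else -1) : ℤ) =
      if T = 0 then 1 else -1) ∧
    (3 * (e * e) = 3 → ((if e = 1 then 1 else -1) * (if f = 1 then 1 else -1) : ℤ) =
      if T = 0 then 1 else -1) := by decide

theorem z3 : ∀ e f T : ZMod 3, f * f = e * e → e * f = e * e - 2 * T → e * e = 1 →
    ((if e = 1 then 1 else -1) * (if f = 1 then 1 else -1) : ℤ) = if T = 0 then 1 else -1 := by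
  decide

theorem bl5_el (v w : V3) : ((bl 5 v w : ℤ) : ZMod 5) = 3 * (((el 5 v : ℤ) : ZMod 5) * (el 5 w : ℤ)) := by
  rw [← sub_eq_zero]
  have h : bl 5 v w - 3 * (el 5 v * el 5 w) = 5 * (-(2 * (v 0 * w 1) + 2 * (v 1 * w 0)) -
    (v 0 * w 2 + v 2 * w 0) - 4 * (v 1 * w 1) - v 2 * w 2 - 3 * (v 1 * w 2 + v 2 * w 1)) := by
    rw [XV.Wt.bl5]
    unfold el
    rw [if_pos rfl, if_pos rfl]
    ring
  have h2 := congrArg (fun z : ℤ => (z : ZMod 5)) h
  push_cast at h2 ⊢
  rw [h2, show (5 : ZMod 5) = 0 from rfl, zero_mul]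

theorem bl3_el (v w : V3) : ((bl 3 v w : ℤ) : ZMod 3) = ((el 3 v : ℤ) : ZMod 3) * (el 3 w : ℤ) := by
  rw [← sub_eq_zero]
  have h : bl 3 v w - el 3 v * el 3 w = 3 * (v 0 * w 0 + v 1 * w 1 + v 2 * w 2 +
    (v 1 * w 2 + v 2 * w 1)) := by
    rw [XV.Wt.bl3]
    unfold el
    rw [if_neg (by norm_num), if_neg (by norm_num)]
    ring
  have h2 := congrArg (fun z : ℤ => (z : ZMod 3)) h
  push_cast at h2 ⊢
  rw [h2, show (3 : ZMod 3) = 0 from rfl, zero_mul]

/-- the orientations of two vectors -/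
theorem om_om {q : ℕ} (hq : q = 3 ∨ q = 5) {M T : ℕ} (h5 : q = 5 → M % 5 = 2 ∨ M % 5 = 3)
    (h3 : q = 3 → M % 3 = 1) {v w : V3} (hv : bl q v v = (M : ℤ)) (hw : bl q w w = (M : ℤ))
    (hvw : bl q v w = (M : ℤ) - 2 * T) : om q M v * om q M w = if q ∣ T then 1 else -1 := by
  rcases hq with rfl | rfl
  · have hM : ((M : ℤ) : ZMod 3) = 1 := by
      have : (M : ℤ) % 3 = 1 := by have := h3 rfl; omega
      have h : (3 : ℤ) ∣ (M : ℤ) - 1 := by omega
      have := (ZMod.intCast_zmod_eq_zero_iff_dvd ((M : ℤ) - 1) 3).2 h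
      push_cast at this ⊢
      exact sub_eq_zero.1 this
    have a1 := bl3_el v v
    have a2 := bl3_el w w
    have a3 := bl3_el v w
    rw [hv, hM] at a1
    rw [hw, hM] at a2
    have hM' : ((M : ℕ) : ZMod 3) = 1 := by exact_mod_cast hM
    rw [hvw] at a3
    push_cast at a3
    rw [hM'] at a3
    have key := z3 (el 3 v : ℤ) (el 3 w : ℤ) ((T : ℕ) : ZMod 3) (by rw [← a1, ← a2])
      (by rw [← a3, ← a1]) a1.symm
    have e : ∀ u : V3, om 3 M u = if ((el 3 u : ℤ) : ZMod 3) = 1 then 1 else -1 := by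
      intro u
      unfold om
      rw [if_neg (by norm_num : ¬ ((3 : ℕ) = 5 ∧ M % 5 = 2))]
      refine if_congr ?_ rfl rfl
      rw [← ZMod.intCast_zmod_eq_zero_iff_dvd]
      push_cast
      exact sub_eq_zero
    rw [e, e, key]
    exact if_congr (ZMod.natCast_eq_zero_iff T 3) rfl rfl
  · have a1 := bl5_el v v
    have a2 := bl5_el w w
    have a3 := bl5_el v w
    rw [hv] at a1
    rw [hw] at a2
    rw [hvw] at a3
    push_cast at a1 a2 a3
    rw [a1] at a2 a3
    have key := z5 (el 5 v : ℤ) (el 5 w : ℤ) ((T : ℕ) : ZMod 5) a2.symm a3.symm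
    rcases h5 rfl with hM | hM
    · have hM' : ((M : ℕ) : ZMod 5) = 2 := by
        have := (ZMod.natCast_eq_natCast_iff' M 2 5).2 (by omega)
        exact_mod_cast this
      rw [← a1] at key
      have k := key.1 hM'
      have e : ∀ u : V3, om 5 M u = if ((el 5 u : ℤ) : ZMod 5) = 2 then 1 else -1 := by
        intro u
        unfold om
        rw [if_pos (⟨rfl, hM⟩ : (5 : ℕ) = 5 ∧ M % 5 = 2)]
        refine if_congr ?_ rfl rfl
        rw [← ZMod.intCast_zmod_eq_zero_iff_dvd]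
        push_cast
        exact sub_eq_zero
      rw [e, e, k]
      exact if_congr (ZMod.natCast_eq_zero_iff T 5) rfl rfl
    · have hM' : ((M : ℕ) : ZMod 5) = 3 := by
        have := (ZMod.natCast_eq_natCast_iff' M 3 5).2 (by omega)
        exact_mod_cast this
      rw [← a1] at key
      have k := key.2 hM'
      have e : ∀ u : V3, om 5 M u = if ((el 5 u : ℤ) : ZMod 5) = 1 then 1 else -1 := by
        intro u
        unfold om
        rw [if_neg (by omega : ¬ ((5 : ℕ) = 5 ∧ M % 5 = 2))]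
        refine if_congr ?_ rfl rfl
        rw [← ZMod.intCast_zmod_eq_zero_iff_dvd]
        push_cast
        exact sub_eq_zero
      rw [e, e, k]
      exact if_congr (ZMod.natCast_eq_zero_iff T 5) rfl rfl

theorem pe_sq {δ : ℤ} (hδ : Dt δ) {N : Finset ℕ} (hN : Pe N) {p : ℕ} (hp : p ∈ N) (h2 : p ≠ 2) :
    (p : ℤ) ∣ (pe δ N : ℤ) ∧ ¬ (p : ℤ) ^ 2 ∣ (pe δ N : ℤ) := by
  have pp := (hN p hp).1
  refine ⟨by exact_mod_cast (prime_dvd_pe hδ hN pp).2 hp, fun h => ?_⟩
  have h3 : p ^ 2 ∣ pe δ N := by exact_mod_cast h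
  rw [pe_erase hp, md_ne h2, sq] at h3
  have h4 := Nat.dvd_of_mul_dvd_mul_left pp.pos h3
  rw [prime_dvd_pe hδ (Pe.mono hN (erase_subset _ _)) pp] at h4
  simp at h4

theorem wp_pm {p M T : ℕ} (hp : p.Prime) (hT : T < M) (d1 : p ∣ M) (d2 : ¬ p ^ 2 ∣ M) :
    wp p M T = 1 ∨ wp p M T = -1 := by
  have h0 : M - T ≠ 0 := by omega
  have h1 : Nat.Coprime ((M - T) / p ^ (M - T).factorization p) p :=
    (Nat.coprime_ordCompl hp h0).symm
  have h2 : Nat.Coprime (M / p) p := by
    refine (Nat.Prime.coprime_iff_not_dvd hp).2 ?_ |>.symm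
    intro h
    apply d2
    obtain ⟨k, hk⟩ := h
    refine ⟨k, ?_⟩
    have := Nat.mul_div_cancel' d1
    rw [hk] at this
    rw [← this]
    ring
  unfold wp
  split_ifs with h
  · refine jacobiSym.eq_one_or_neg_one ?_
    rw [Int.gcd_natCast_natCast]
    exact h1
  · refine jacobiSym.eq_one_or_neg_one ?_
    rw [Int.gcd_natCast_natCast]
    exact Nat.Coprime.mul_left h1 h2

end Pool.Agent.XW.Wt

namespace Pool.Agent.XW

open Finset
open Pool.Agent.Z700 (V3 pr un hh)
open Pool.Agent.NH1 (lz rd)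
open Pool.Agent.NH2 (wp)
open Pool.Agent.XV (bl vec ph Ph S_PHI ph_spec)
open Pool.Agent.XW.Od

/-- **the weights of the pairs of vectors** -/
theorem t_WTV (h1 : S_PHI) : S_WTV := by
  intro δ hδ q hq N hN hJ5 hJ3 P hP v hv w hw T hT hvw
  have hv' : bl q v v = (pe δ N : ℤ) := (Finset.mem_filter.1 hv).2
  have hw' : bl q w w = (pe δ N : ℤ) := (Finset.mem_filter.1 hw).2
  have hone : ∀ p ∈ N, p ≠ 2 → ph q p (rd p v) * ph q p (rd p w) = wp p (pe δ N) T := by
    intro p hp h2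
    obtain ⟨hpp, hp3, hp5⟩ := hN p hp
    obtain ⟨d1, d2⟩ := Wt.pe_sq hδ hN hp h2
    exact Wt.pair_one h1 hq hpp h2 hp3 hp5 d1 d2 hv' hw' hT hvw
  unfold Pt
  rw [← Finset.prod_mul_distrib]
  refine Finset.prod_congr rfl fun p hp => ?_
  by_cases h2 : p = 2
  · subst h2
    unfold gm wq
    rw [if_pos rfl, if_pos rfl, if_pos rfl]
    have e1 := Wt.om_om (T := T) hq (fun h => (hJ5 h).2.2) (fun h => (hJ3 h).2.1) hv' hw' hvw
    have e2 : Ph q (N.erase 2) v * Ph q (N.erase 2) w = ∏ l ∈ N.erase 2, wp l (pe δ N) T := by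
      unfold Ph
      rw [← Finset.prod_mul_distrib]
      exact Finset.prod_congr rfl fun l hl => hone l (mem_of_mem_erase hl) (ne_of_mem_erase hl)
    rw [← e1, ← e2]
    ring
  · rw [gm_odd h2, gm_odd h2, wq_odd h2, hone p (hP hp) h2]

/-- **the product of all the weights** -/
theorem t_WPN : S_WPN := by
  intro δ hδ N hN T hT0 hT
  by_cases h2 : 2 ∈ N
  · have hM3 := pe_mod3 hδ hN
    have hM5 := pe_mod5 hδ hN
    have key : ∀ q : ℕ, ∏ p ∈ N, wq q N (pe δ N) p T = if q ∣ T then 1 else -1 := by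
      intro q
      rw [← mul_prod_erase N (fun p => wq q N (pe δ N) p T) h2, prod_wq_odd (by simp)]
      unfold wq
      rw [if_pos rfl, mul_assoc]
      have hs : (∏ l ∈ N.erase 2, wp l (pe δ N) T) * ∏ l ∈ N.erase 2, wp l (pe δ N) T = 1 := by
        rw [← prod_mul_distrib]
        refine prod_eq_one fun l hl => ?_
        obtain ⟨d1, d2⟩ := Wt.pe_sq hδ hN (mem_of_mem_erase hl) (ne_of_mem_erase hl)
        rcases Wt.wp_pm (hN l (mem_of_mem_erase hl)).1 hT (by exact_mod_cast d1)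
          (by exact_mod_cast d2) with e | e <;> rw [e] <;> norm_num
      rw [hs, mul_one]
    have fpos : ∀ {q n : ℕ}, Odd (n.factorization q) → q ∣ n := by
      intro q n ho
      by_contra hn
      rw [Nat.factorization_eq_zero_of_not_dvd hn] at ho
      exact absurd ho (by decide)
    refine ⟨fun _ _ => ⟨fun ho => ?_, fun ho => ?_⟩, fun _ _ => ⟨fun ho => ?_, fun ho => ?_⟩⟩
    · have h := fpos ho
      rw [key, if_neg (by omega)]
    · rw [key, if_pos (fpos ho)]
    · have h := fpos ho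
      rw [key, if_neg (by omega)]
    · rw [key, if_pos (fpos ho)]
  · have h := XV.t_WPN N (Pq_of_Pe hN h2) T hT0 (by rw [← pe_odd (δ := δ) h2]; exact hT)
    have ho : Odd (pe δ N) := pe_odd' hN h2
    rw [Jb_odd hN h2, Jd_odd hN h2, prod_wq_odd h2, prod_wq_odd h2]
    simp only [fc_odd ho]
    rw [pe_odd h2]
    exact h

end Pool.Agent.XW
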