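import Pool.Agent.XV.T.Core
import Pool.Agent.XW.Main
import Pool.Agent.XW.T3.Fin
import Pool.Agent.XW.E
import Pool.Agent.XW.Card
import Pool.Agent.XW.Coc
import Pool.Agent.XW.Parb
import Pool.Agent.XW.Sq
import Pool.Agent.XW.Dia
import Pool.Agent.XW.C1
import Pool.Agent.XW.C1A
import Pool.Agent.XW.C2
import Pool.Agent.XW.Cnt5
import Pool.Agent.XW.Van
import Pool.Agent.XW.Wt
import Pool.Agent.XW.PC
import Pool.Agent.XW.PS

/-!
# Project XW: the main statements, unconditionally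
-/

set_option autoImplicit false

namespace Pool.Agent.XW

theorem f_VAN5 : S_VAN5 := t_VAN5 XV.t_PHI XV.t_REF

theorem f_VAN3 : S_VAN3 := t_VAN3 XV.t_PHI XV.t_REF f_V4

theorem f_PS : S_PS := t_PS_of XV.f_PS t_PCG4

theorem f_SQ : S_SQ :=
  t_SQ XV.t_PHI XV.t_REF f_V4 f_VAN5 f_VAN3 t_EQ3 (t_WTV XV.t_PHI) t_WPN f_PS

theorem f_CARD : S_CARD := t_CARD t_PC

theorem f_CLS : S_CLS := t_CLS f_CARD XV.t_LVL t_C20

theorem f_DIA : S_DIA := t_DIA (t_C1 t_C1A t_PARI) t_C2 f_SQ t_WPN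

/-- the values of the class `b` and of the class `d` -/
theorem f_E56 : S_E56 := t_E56 f_DIA XV.f_FE f_CLS XV.t_CM

theorem f_E14 : S_E14 := t_E14 f_DIA f_E56 XV.t_UODQ t_PARB t_COC t_PARI XV.t_CM XV.f_SYE

/-- **the structure theorem** -/
theorem f_MAIN : S_MAIN :=
  t_MAIN f_E14 f_VAN5 f_VAN3 f_V5 f_V3 t_EQ3 (t_EV3 XV.t_PHI XV.t_REF)
    (t_CNT5 XV.t_PHI XV.t_REF) XV.t_PHI

end Pool.Agent.XW
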