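import Pool.Agent.XW.PCD
import Pool.Agent.XV.PCC

/-!
# Project XW-10a: parametrization of the pairs of vectors, even discriminants

Port of `Pool.Agent.XV.PCC` to the norm `4 m`.
-/

set_option autoImplicit false
set_option linter.all false

namespace Pool.Agent.XW

open Finset Matrix
open Pool.Agent.Z700 (V3)
open Pool.Agent.XV (bl vec cpg rot GG PosQ S_PCT)
open Pool.Agent.Y288.Z7 (crs dt dd3 cols crs0 crs1 crs2 ext3 cramer3 small parallel content bez dcross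
  crs_lin crs_sub crs_sub_smul crs_smul dt_crs_left dt_crs_right dt_add dt_sub dt_smul smul_dt dt_comm
  dd3_eq dd3_eq' cols_eq det_cols)
open Pool.Agent.XV.PCC (Qd Fd bl_comm bl_add bl_sub bl_smul smul_bl add_bl sub_bl L1 L2 L3 L4 dt_le mem_vec
  dvd_bl gram_bl gram_iff rot_pos Fd_sub_smul Fd_self Qd_smul Qd_zero bl_self_nonneg)

namespace PCC4

/-! ### norms modulo four -/

theorem norm_mod {q : ℕ} (hq : q = 3 ∨ q = 5) (v : V3) : bl q v v % 4 = 0 ∨ bl q v v % 4 = 3 := by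
  have key : ∃ s x : ℤ, bl q v v = 4 * x - s ^ 2 := by
    rcases hq with rfl | rfl
    · refine ⟨v 0, v 0 ^ 2 + v 1 ^ 2 + v 2 ^ 2 + v 1 * v 2, ?_⟩
      unfold bl
      rw [if_neg (by norm_num)]
      ring
    · refine ⟨v 0 + v 1 + v 2, v 0 ^ 2 + 2 * v 1 ^ 2 + 2 * v 2 ^ 2 + v 0 * v 2 + 2 * (v 1 * v 2), ?_⟩
      unfold bl
      rw [if_pos rfl]
      ring
  obtain ⟨s, x, h⟩ := key
  rw [h]
  rcases Int.even_or_odd' s with ⟨k, rfl | rfl⟩
  · left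
    have : 4 * x - (2 * k) ^ 2 = 4 * (x - k ^ 2) := by ring
    rw [this]
    omega
  · right
    have : 4 * x - (2 * k + 1) ^ 2 = 4 * (x - k ^ 2 - k - 1) + 3 := by ring
    rw [this]
    omega

theorem prim {q m : ℕ} (hq : q = 3 ∨ q = 5) (hm : Squarefree m) (h4 : m % 4 = 1 ∨ m % 4 = 2) {v : V3}
    (h : bl q v v = 4 * m) : ∃ y, dt v y = 1 := by
  apply bez
  intro g hg
  by_contra hne
  obtain ⟨p, hp, hpg⟩ := Nat.exists_prime_and_dvd hne
  have hpv : ∀ i, (p : ℤ) ∣ v i := fun i => (Int.natCast_dvd_natCast.2 hpg).trans (hg i)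
  by_cases h2 : p = 2
  · subst h2
    choose u hu using hpv
    have hv : v = (2 : ℤ) • u := funext fun i => by
      rw [hu i]
      rfl
    rw [hv, bl_smul, smul_bl] at h
    have h5 : bl q u u = m := by linarith
    have h6 := norm_mod hq u
    rw [h5] at h6
    omega
  · have h1 : ((p * p : ℕ) : ℤ) ∣ ((4 * m : ℕ) : ℤ) := by
      push_cast
      rw [← h]
      exact dvd_bl q v p hpv
    have h3 : p * p ∣ 4 * m := by exact_mod_cast h1
    have h4 : Nat.Coprime (p * p) 4 := by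
      have h5 : Nat.Coprime p 2 := (Nat.coprime_primes hp Nat.prime_two).2 h2
      exact Nat.Coprime.mul_left (h5.pow_right 2) (h5.pow_right 2)
    have h5 : p * p ∣ m := h4.dvd_of_dvd_mul_left h3
    exact hp.one_lt.ne' (Nat.isUnit_iff.1 (hm p h5))

/-! ### the parameters -/

open Classical in
/-- the set of the parameters -/
noncomputable def XR (q m : ℕ) (b : ℤ) (D : ℕ) : Finset (ℕ × ℕ × ℕ × ℕ) :=
  (range (D + 1) ×ˢ range (2 * m) ×ˢ range D ×ˢ range (2 * m)).filter fun x =>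
    0 < x.1 ∧ q * x.1 ^ 2 ∣ D ∧ x.2.2.1 < D / (q * x.1 ^ 2) ∧ D / (q * x.1 ^ 2) ∣ x.2.2.1 ^ 2 + m ∧
    Pf q m b x.1 x.2.2.1 (D / (q * x.1 ^ 2)) ((x.2.2.1 ^ 2 + m) / (D / (q * x.1 ^ 2))) x.2.1 x.2.2.2

/-- the conditions defining the set of parameters, with the quotients named -/
structure Wt (q m : ℕ) (b : ℤ) (D e μ β ν D2 d ee g f : ℕ) : Prop where
  he : 0 < e
  hD : D = q * e ^ 2 * D2
  hβ : β < D2
  hμ : μ < 2 * m
  hν : ν < 2 * m
  hb : (2 * m : ℤ) ∣ e * μ - b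
  hd : m * d = μ ^ 2 + q * D2
  hg : D2 * g = β ^ 2 + m
  hee : m * ee = q * β + μ * ν
  hf : m * f = q * g + ν ^ 2
  h4 : (4 : ℤ) ∣ d * f - ee ^ 2

/-- the determinant of the second block -/
theorem blk {q m : ℤ} {μ ν β d ee g f D2 : ℤ} (hd : m * d = μ ^ 2 + q * D2) (hg : D2 * g = β ^ 2 + m)
    (hee : m * ee = q * β + μ * ν) (hf : m * f = q * g + ν ^ 2) :
    m ^ 2 * (d * f - ee ^ 2) = q * (phi g β D2 μ ν + q * m) := by
  have e1 : m ^ 2 * (d * f - ee ^ 2) = (m * d) * (m * f) - (m * ee) ^ 2 := by ring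
  rw [e1, hd, hf, hee]
  unfold phi
  linear_combination q ^ 2 * hg

theorem h4_iff {q m : ℤ} (hm : m ≠ 0) (hc : IsCoprime (4 * m ^ 2) q) {μ ν β d ee g f D2 : ℤ}
    (hd : m * d = μ ^ 2 + q * D2) (hg : D2 * g = β ^ 2 + m)
    (hee : m * ee = q * β + μ * ν) (hf : m * f = q * g + ν ^ 2) :
    4 * m ^ 2 ∣ phi g β D2 μ ν + q * m ↔ (4 : ℤ) ∣ d * f - ee ^ 2 := by
  have h1 := blk hd hg hee hf
  constructor
  · intro h
    have h2 : m ^ 2 * 4 ∣ m ^ 2 * (d * f - ee ^ 2) := by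
      rw [h1, mul_comm (m ^ 2) 4]
      exact h.mul_left q
    exact (mul_dvd_mul_iff_left (pow_ne_zero 2 hm)).1 h2
  · intro h
    have h2 : 4 * m ^ 2 ∣ q * (phi g β D2 μ ν + q * m) := by
      rw [← h1, mul_comm 4 (m ^ 2)]
      exact mul_dvd_mul_left _ h
    exact hc.dvd_of_dvd_mul_left h2

theorem wit_of_mem {q m D : ℕ} (hm : 0 < m) (hc : IsCoprime (4 * (m : ℤ) ^ 2) (q : ℤ)) {b : ℤ} {e μ β ν : ℕ}
    (h : (e, μ, β, ν) ∈ XR q m b D) :
    Wt q m b D e μ β ν (D / (q * e ^ 2)) ((μ ^ 2 + q * (D / (q * e ^ 2))) / m)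
      ((q * β + μ * ν) / m) ((β ^ 2 + m) / (D / (q * e ^ 2)))
      ((q * ((β ^ 2 + m) / (D / (q * e ^ 2))) + ν ^ 2) / m) := by
  simp only [XR, Finset.mem_filter, Finset.mem_product, Finset.mem_range] at h
  obtain ⟨⟨h1, h2, h3, h4⟩, h5, h6, h7, h10, h8, h9, h11, h12, h13⟩ := h
  have k1 := Nat.mul_div_cancel' h9
  have k2 := Nat.mul_div_cancel' h10
  have k3 := Nat.mul_div_cancel' h11
  have k4 := Nat.mul_div_cancel' h12
  refine ⟨h5, (Nat.mul_div_cancel' h6).symm, h7, h2, h4, h8, k1, k2, k3, k4, ?_⟩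
  refine (h4_iff (by exact_mod_cast hm.ne') hc (by exact_mod_cast k1) (by exact_mod_cast k2)
    (by exact_mod_cast k3) (by exact_mod_cast k4)).1 h13

theorem mem_of_wit {q m D : ℕ} (hm : 0 < m) (hc : IsCoprime (4 * (m : ℤ) ^ 2) (q : ℤ)) {b : ℤ}
    {e μ β ν D2 d ee g f : ℕ} (hq0 : 0 < q) (hD0 : 0 < D)
    (h : Wt q m b D e μ β ν D2 d ee g f) : (e, μ, β, ν) ∈ XR q m b D ∧ D / (q * e ^ 2) = D2 ∧
      (μ ^ 2 + q * (D / (q * e ^ 2))) / m = d ∧ (q * β + μ * ν) / m = ee ∧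
      (β ^ 2 + m) / (D / (q * e ^ 2)) = g ∧
      (q * ((β ^ 2 + m) / (D / (q * e ^ 2))) + ν ^ 2) / m = f := by
  obtain ⟨he, hD, hβ, hμ, hν, hb, hd, hg, hee, hf, h4⟩ := h
  have he2 : 0 < e ^ 2 := pow_pos he 2
  have hqe : 0 < q * e ^ 2 := Nat.mul_pos hq0 he2
  have hD' : 0 < D2 := by omega
  have e1 : D / (q * e ^ 2) = D2 := by rw [hD]; exact Nat.mul_div_cancel_left _ hqe
  have e2 : (β ^ 2 + m) / (D / (q * e ^ 2)) = g := by
    rw [e1, ← hg]; exact Nat.mul_div_cancel_left _ hD'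
  refine ⟨?_, e1, ?_, ?_, e2, ?_⟩
  · simp only [XR, Finset.mem_filter, Finset.mem_product, Finset.mem_range]
    rw [e2, e1]
    refine ⟨⟨?_, hμ, ?_, hν⟩, he, ⟨D2, hD⟩, hβ, ⟨g, hg.symm⟩, hb, ⟨d, hd.symm⟩, ⟨ee, hee.symm⟩,
      ⟨f, hf.symm⟩, ?_⟩
    · have h1 : e ≤ e ^ 2 := Nat.le_self_pow two_ne_zero e
      have h2 : e ^ 2 ≤ q * e ^ 2 := Nat.le_mul_of_pos_left _ hq0
      have h3 : q * e ^ 2 * 1 ≤ q * e ^ 2 * D2 := Nat.mul_le_mul_left _ hD'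
      omega
    · have h2 : 1 * D2 ≤ q * e ^ 2 * D2 := Nat.mul_le_mul_right _ hqe
      omega
    · exact (h4_iff (by exact_mod_cast hm.ne') hc (by exact_mod_cast hd) (by exact_mod_cast hg)
        (by exact_mod_cast hee) (by exact_mod_cast hf)).2 h4
  · rw [e1, ← hd]; exact Nat.mul_div_cancel_left _ hm
  · rw [← hee]; exact Nat.mul_div_cancel_left _ hm
  · rw [e2, ← hf]; exact Nat.mul_div_cancel_left _ hm

/-- the Gram matrix of a tuple of parameters -/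
def mm (q m D : ℕ) (x : ℕ × ℕ × ℕ × ℕ) : Matrix (Fin 3) (Fin 3) ℤ :=
  !![4 * (m : ℤ), 2 * (x.2.1 : ℤ), 2 * (x.2.2.2 : ℤ);
     2 * (x.2.1 : ℤ), (((x.2.1 ^ 2 + q * (D / (q * x.1 ^ 2))) / m : ℕ) : ℤ),
       (((q * x.2.2.1 + x.2.1 * x.2.2.2) / m : ℕ) : ℤ);
     2 * (x.2.2.2 : ℤ), (((q * x.2.2.1 + x.2.1 * x.2.2.2) / m : ℕ) : ℤ),
       (((q * ((x.2.2.1 ^ 2 + m) / (D / (q * x.1 ^ 2))) + x.2.2.2 ^ 2) / m : ℕ) : ℤ)]

theorem mm_symm (q m D : ℕ) (x : ℕ × ℕ × ℕ × ℕ) : (mm q m D x)ᵀ = mm q m D x := by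
  ext i j
  fin_cases i <;> fin_cases j <;> rfl

/-- the matrices of the parameters belong to the genus, in terms of the entries -/
theorem pos_of {q : ℕ} (hq0 : 0 < q) {m μ ν d ee f β D2 g : ℤ} (hm : 0 < m) (hD2 : 0 < D2)
    (hc : IsCoprime (q : ℤ) m) (hc4 : IsCoprime (4 : ℤ) q)
    (hd : m * d = μ ^ 2 + q * D2) (hg : D2 * g = β ^ 2 + m)
    (hee : m * ee = q * β + μ * ν) (hf : m * f = q * g + ν ^ 2) (h4 : (4 : ℤ) ∣ d * f - ee ^ 2) :
    PosQ q !![4 * m, 2 * μ, 2 * ν; 2 * μ, d, ee; 2 * ν, ee, f] := by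
  have hn0 : m ≠ 0 := hm.ne'
  have hq' : (0 : ℤ) < q := by exact_mod_cast hq0
  -- the entries of the adjugate
  have a33 : 4 * m * d - 2 * μ * (2 * μ) = 4 * q * D2 := by linear_combination 4 * hd
  have a23 : 4 * m * ee - 2 * μ * (2 * ν) = 4 * q * β := by linear_combination 4 * hee
  have a22 : 4 * m * f - 2 * ν * (2 * ν) = 4 * q * g := by linear_combination 4 * hf
  have b13 : (q : ℤ) ∣ μ * ee - ν * d := by
    refine hc.dvd_of_dvd_mul_left ⟨μ * β - ν * D2, ?_⟩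
    linear_combination μ * hee - ν * hd
  have b12 : (q : ℤ) ∣ μ * f - ν * ee := by
    refine hc.dvd_of_dvd_mul_left ⟨μ * g - ν * β, ?_⟩
    linear_combination μ * hf - ν * hee
  have a13 : (2 * q : ℤ) ∣ 2 * μ * ee - 2 * ν * d := by
    have := mul_dvd_mul_left (2 : ℤ) b13
    have e : 2 * μ * ee - 2 * ν * d = 2 * (μ * ee - ν * d) := by ring
    rwa [e]
  have a12 : (2 * q : ℤ) ∣ 2 * μ * f - 2 * ν * ee := by
    have := mul_dvd_mul_left (2 : ℤ) b12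
    have e : 2 * μ * f - 2 * ν * ee = 2 * (μ * f - ν * ee) := by ring
    rwa [e]
  have hB := blk hd hg hee hf
  have a11 : (4 * q : ℤ) ∣ d * f - ee * ee := by
    have h1 : (q : ℤ) ∣ d * f - ee ^ 2 := by
      have h2 : (q : ℤ) ∣ m ^ 2 * (d * f - ee ^ 2) := by
        rw [hB]
        exact dvd_mul_right _ _
      exact (IsCoprime.pow_right hc).dvd_of_dvd_mul_left h2
    have h2 := hc4.mul_dvd h4 h1
    rwa [pow_two] at h2
  have h24 : (2 * q : ℤ) ∣ 4 * q := ⟨2, by ring⟩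
  refine ⟨?_, ?_, ?_, ?_, ?_, ?_⟩
  · ext i j
    fin_cases i <;> fin_cases j <;> rfl
  · show 0 < 4 * m
    positivity
  · show 0 < 4 * m * d - (2 * μ) ^ 2
    rw [pow_two, a33]
    positivity
  · rw [det_fin_three]
    show 4 * m * d * f - 4 * m * ee * ee - 2 * μ * (2 * μ) * f + 2 * μ * ee * (2 * ν) +
      2 * ν * (2 * μ) * ee - 2 * ν * d * (2 * ν) = 4 * (q : ℤ) ^ 2
    apply mul_left_cancel₀ hn0
    have e1 : m * (4 * m * d * f - 4 * m * ee * ee - 2 * μ * (2 * μ) * f + 2 * μ * ee * (2 * ν) +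
        2 * ν * (2 * μ) * ee - 2 * ν * d * (2 * ν)) =
        4 * (m * d * (m * f) - (m * ee) ^ 2 - μ ^ 2 * (m * f) + 2 * μ * ν * (m * ee) -
          ν ^ 2 * (m * d)) := by ring
    rw [e1, hd, hf, hee]
    linear_combination (4 * (q : ℤ) ^ 2) * hg
  · intro i j
    rw [adjugate_fin_three]
    fin_cases i <;> fin_cases j
    · show (2 * q : ℤ) ∣ d * f - ee * ee
      exact h24.trans a11
    · show (2 * q : ℤ) ∣ -(2 * μ * f) + 2 * ν * ee
      have := a12.neg_right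
      rwa [neg_sub, sub_eq_add_neg, add_comm] at this
    · show (2 * q : ℤ) ∣ 2 * μ * ee - 2 * ν * d
      exact a13
    · show (2 * q : ℤ) ∣ -(2 * μ * f) + ee * (2 * ν)
      have := a12.neg_right
      rwa [neg_sub, sub_eq_add_neg, add_comm, mul_comm (2 * ν) ee] at this
    · show (2 * q : ℤ) ∣ 4 * m * f - 2 * ν * (2 * ν)
      rw [a22]
      exact h24.trans (Dvd.intro _ rfl)
    · show (2 * q : ℤ) ∣ -(4 * m * ee) + 2 * ν * (2 * μ)
      have e : -(4 * m * ee) + 2 * ν * (2 * μ) = 2 * q * (-(2 * β)) := by linear_combination -a23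
      rw [e]
      exact Dvd.intro _ rfl
    · show (2 * q : ℤ) ∣ 2 * μ * ee - d * (2 * ν)
      rw [mul_comm d (2 * ν)]
      exact a13
    · show (2 * q : ℤ) ∣ -(4 * m * ee) + 2 * μ * (2 * ν)
      have e : -(4 * m * ee) + 2 * μ * (2 * ν) = 2 * q * (-(2 * β)) := by linear_combination -a23
      rw [e]
      exact Dvd.intro _ rfl
    · show (2 * q : ℤ) ∣ 4 * m * d - 2 * μ * (2 * μ)
      rw [a33]
      exact h24.trans (Dvd.intro _ rfl)
  · intro i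
    rw [adjugate_fin_three]
    fin_cases i
    · show (4 * q : ℤ) ∣ d * f - ee * ee
      exact a11
    · show (4 * q : ℤ) ∣ 4 * m * f - 2 * ν * (2 * ν)
      rw [a22]
      exact Dvd.intro _ rfl
    · show (4 * q : ℤ) ∣ 4 * m * d - 2 * μ * (2 * μ)
      rw [a33]
      exact Dvd.intro _ rfl

theorem coprime_of {q m : ℕ} (h : Cm q m) : IsCoprime (4 * (m : ℤ) ^ 2) (q : ℤ) ∧
    IsCoprime (q : ℤ) m ∧ IsCoprime (4 : ℤ) q := by
  have h4 : Nat.Coprime 4 q := by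
    rcases h.cl with ⟨rfl, _⟩ | ⟨rfl, _⟩ <;> decide
  have hm : Nat.Coprime q m := by
    rcases h.cl with ⟨rfl, h1⟩ | ⟨rfl, h1⟩
    · refine (Nat.Prime.coprime_iff_not_dvd (by norm_num)).2 (by omega)
    · refine (Nat.Prime.coprime_iff_not_dvd (by norm_num)).2 (by omega)
  have e4 : IsCoprime (4 : ℤ) q := by exact_mod_cast Nat.isCoprime_iff_coprime.2 h4
  have em : IsCoprime (q : ℤ) m := Nat.isCoprime_iff_coprime.2 hm
  exact ⟨IsCoprime.mul_left e4 (IsCoprime.pow_left em.symm), em, e4⟩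

theorem mm_pos {q m D : ℕ} (hC : Cm q m) (hq0 : 0 < q) {b : ℤ} {e μ β ν : ℕ}
    (h : (e, μ, β, ν) ∈ XR q m b D) : PosQ q (mm q m D (e, μ, β, ν)) := by
  obtain ⟨c1, c2, c3⟩ := coprime_of hC
  have hm0 : 0 < m := Nat.pos_of_ne_zero hC.sq.ne_zero
  obtain ⟨he, hD, hβ, hμ, hν, hb, hd, hg, hee, hf, h4⟩ := wit_of_mem hm0 c1 h
  show PosQ q !![4 * (m : ℤ), 2 * (μ : ℤ), 2 * (ν : ℤ);
     2 * (μ : ℤ), (((μ ^ 2 + q * (D / (q * e ^ 2))) / m : ℕ) : ℤ),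
       (((q * β + μ * ν) / m : ℕ) : ℤ);
     2 * (ν : ℤ), (((q * β + μ * ν) / m : ℕ) : ℤ),
       (((q * ((β ^ 2 + m) / (D / (q * e ^ 2))) + ν ^ 2) / m : ℕ) : ℤ)]
  generalize (μ ^ 2 + q * (D / (q * e ^ 2))) / m = d at *
  generalize (q * β + μ * ν) / m = ee at *
  generalize (q * ((β ^ 2 + m) / (D / (q * e ^ 2))) + ν ^ 2) / m = f at *
  generalize (β ^ 2 + m) / (D / (q * e ^ 2)) = g at *
  generalize D / (q * e ^ 2) = D2 at *
  exact pos_of hq0 (m := m) (μ := μ) (ν := ν) (d := d) (ee := ee) (f := f) (β := β) (D2 := D2)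
    (g := g) (by exact_mod_cast hm0) (by exact_mod_cast (by omega : 0 < D2)) c2 c3
    (by exact_mod_cast hd) (by exact_mod_cast hg) (by exact_mod_cast hee) (by exact_mod_cast hf) h4

theorem gram_mm {q m D : ℕ} (hq : q = 3 ∨ q = 5) {e μ β ν : ℕ} {A : Matrix (Fin 3) (Fin 3) ℤ}
    (hA : Aᵀ * GG q * A = mm q m D (e, μ, β, ν)) {v w z : V3} (hc : A = cols v w z) :
    bl q v v = 4 * m ∧ bl q v w = 2 * μ ∧ bl q v z = 2 * ν ∧
      bl q w w = (((μ ^ 2 + q * (D / (q * e ^ 2))) / m : ℕ) : ℤ) ∧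
      bl q w z = (((q * β + μ * ν) / m : ℕ) : ℤ) ∧
      bl q z z = (((q * ((β ^ 2 + m) / (D / (q * e ^ 2))) + ν ^ 2) / m : ℕ) : ℤ) := by
  rw [hc, gram_iff hq v w z _ (mm_symm _ _ _ _)] at hA
  exact hA

/-- the pairs -/
abbrev Pairs (q m : ℕ) (b m2 : ℤ) : Type :=
  {p : V3 × V3 // bl q p.1 p.1 = 4 * m ∧ bl q p.2 p.2 = m2 ∧ bl q p.1 p.2 = 2 * b}

theorem card_pairs {q : ℕ} (hq : q = 3 ∨ q = 5) (m : ℕ) (b m2 : ℤ) :
    Nat.card (Pairs q m b m2) = cpg q (4 * m) (2 * b) m2 := by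
  rw [cpg]
  apply Nat.subtype_card
  intro p
  rw [Finset.mem_filter, Finset.mem_product, mem_vec hq, mem_vec hq, and_assoc]

/-- the parameters and the frames -/
abbrev Fr (q m : ℕ) (b : ℤ) (D : ℕ) : Type :=
  Σ x : {x : ℕ × ℕ × ℕ × ℕ // x ∈ XR q m b D},
    {A : Matrix (Fin 3) (Fin 3) ℤ // Aᵀ * GG q * A = mm q m D x.1 ∧ A.det = 1}

theorem card_fr (h : S_PCT) {q m : ℕ} (hC : Cm q m) (hq : q = 3 ∨ q = 5)
    (b : ℤ) (D : ℕ) : Nat.card (Fr q m b D) = rot q * (XR q m b D).card := by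
  have hq0 : 0 < q := by omega
  have h1 : ∀ x : {x : ℕ × ℕ × ℕ × ℕ // x ∈ XR q m b D},
      Nat.card {A : Matrix (Fin 3) (Fin 3) ℤ // Aᵀ * GG q * A = mm q m D x.1 ∧ A.det = 1} =
        rot q := by
    rintro ⟨⟨e, μ, β, ν⟩, hx⟩
    exact h q hq _ (mm_pos hC hq0 hx)
  haveI : ∀ x : {x : ℕ × ℕ × ℕ × ℕ // x ∈ XR q m b D},
      Finite {A : Matrix (Fin 3) (Fin 3) ℤ // Aᵀ * GG q * A = mm q m D x.1 ∧ A.det = 1} := fun x =>
    Nat.finite_of_card_ne_zero (by rw [h1 x]; exact rot_pos q)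
  rw [Nat.card_sigma, Finset.sum_congr rfl (fun x _ => h1 x), Finset.sum_const, smul_eq_mul,
    Finset.card_univ, Fintype.card_coe, mul_comm]

/-- the pair attached to a frame -/
def toPair (b : ℤ) (m : ℕ) (x : ℕ × ℕ × ℕ × ℕ) (A : Matrix (Fin 3) (Fin 3) ℤ) : V3 × V3 :=
  (fun i => A i 0, (x.1 : ℤ) • (fun i => A i 1) + ((b - x.1 * x.2.1) / (2 * m)) • (fun i => A i 0))

theorem toPair_mem {q m D : ℕ} (hC : Cm q m) (hq : q = 3 ∨ q = 5) {b m2 : ℤ}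
    (hDD : (D : ℤ) = m * m2 - b ^ 2)
    {e μ β ν : ℕ} (hx : (e, μ, β, ν) ∈ XR q m b D) {A : Matrix (Fin 3) (Fin 3) ℤ}
    (hA : Aᵀ * GG q * A = mm q m D (e, μ, β, ν)) :
    bl q (toPair b m (e, μ, β, ν) A).1 (toPair b m (e, μ, β, ν) A).1 = 4 * m ∧
      bl q (toPair b m (e, μ, β, ν) A).2 (toPair b m (e, μ, β, ν) A).2 = m2 ∧
      bl q (toPair b m (e, μ, β, ν) A).1 (toPair b m (e, μ, β, ν) A).2 = 2 * b := by
  have hm0 : 0 < m := Nat.pos_of_ne_zero hC.sq.ne_zero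
  obtain ⟨h1, h2, h3, h4, h5, h6⟩ := gram_mm hq hA (cols_eq A)
  have hw := wit_of_mem hm0 (coprime_of hC).1 hx
  simp only [toPair]
  generalize (fun i => A i 0) = v at *
  generalize (fun i => A i 1) = w at *
  have hn : (m : ℤ) ≠ 0 := by exact_mod_cast hm0.ne'
  obtain ⟨k, hk⟩ := hw.hb
  have hk' : (b - e * μ) / (2 * (m : ℤ)) = -k := by
    rw [show b - (e : ℤ) * μ = 2 * m * (-k) by linarith]
    exact Int.mul_ediv_cancel_left _ (mul_ne_zero two_ne_zero hn)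
  rw [hk']
  refine ⟨h1, ?_, ?_⟩
  · have e1 : bl q ((e : ℤ) • w + (-k) • v) ((e : ℤ) • w + (-k) • v) =
        e ^ 2 * bl q w w - 2 * e * k * bl q v w + k ^ 2 * bl q v v := by
      rw [bl_add, add_bl, add_bl, bl_smul, bl_smul, smul_bl, smul_bl, bl_smul, bl_smul,
        smul_bl, smul_bl, bl_comm q w v]
      ring
    rw [e1, h1, h2, h4]
    have k1 : (m : ℤ) * (((μ ^ 2 + q * (D / (q * e ^ 2))) / m : ℕ) : ℤ) =
        μ ^ 2 + q * ((D / (q * e ^ 2) : ℕ) : ℤ) := by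
      exact_mod_cast hw.hd
    have k2 : (D : ℤ) = q * e ^ 2 * ((D / (q * e ^ 2) : ℕ) : ℤ) := by exact_mod_cast hw.hD
    generalize (((μ ^ 2 + q * (D / (q * e ^ 2))) / m : ℕ) : ℤ) = d at *
    generalize ((D / (q * e ^ 2) : ℕ) : ℤ) = D2 at *
    apply mul_left_cancel₀ hn
    have e2 : (m : ℤ) * (e ^ 2 * d - 2 * e * k * (2 * μ) + k ^ 2 * (4 * m)) =
        e ^ 2 * (m * d) - 2 * (e * μ) * (2 * m * k) + (2 * m * k) ^ 2 := by ring
    rw [e2, k1, ← hk]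
    have e3 : (e : ℤ) ^ 2 * (μ ^ 2 + q * D2) - 2 * (e * μ) * (e * μ - b) + (e * μ - b) ^ 2 =
        (q * e ^ 2 * D2) + b ^ 2 := by ring
    rw [e3, ← k2, hDD]
    ring
  · rw [bl_add, bl_smul, bl_smul, h1, h2]
    linarith

theorem toPair_inj {q m D : ℕ} (hC : Cm q m) (hq : q = 3 ∨ q = 5) {b : ℤ} {e μ β ν e' μ' β' ν' : ℕ}
    (hx : (e, μ, β, ν) ∈ XR q m b D) (hx' : (e', μ', β', ν') ∈ XR q m b D)
    {A A' : Matrix (Fin 3) (Fin 3) ℤ} (hA : Aᵀ * GG q * A = mm q m D (e, μ, β, ν))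
    (hd : A.det = 1)
    (hA' : A'ᵀ * GG q * A' = mm q m D (e', μ', β', ν')) (hd' : A'.det = 1)
    (h : toPair b m (e, μ, β, ν) A = toPair b m (e', μ', β', ν') A') :
    (e, μ, β, ν) = (e', μ', β', ν') ∧ A = A' := by
  have hq0 : (0 : ℤ) < q := by rcases hq with rfl | rfl <;> norm_num
  have hm0 : 0 < m := Nat.pos_of_ne_zero hC.sq.ne_zero
  obtain ⟨h1, h2, h3, h4, h5, h6⟩ := gram_mm hq hA (cols_eq A)
  obtain ⟨h1', h2', h3', h4', h5', h6'⟩ := gram_mm hq hA' (cols_eq A')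
  rw [cols_eq A, det_cols] at hd
  rw [cols_eq A', det_cols] at hd'
  have hw := wit_of_mem hm0 (coprime_of hC).1 hx
  have hw' := wit_of_mem hm0 (coprime_of hC).1 hx'
  simp only [toPair, Prod.mk.injEq] at h
  obtain ⟨hv, hwv⟩ := h
  rw [cols_eq A, cols_eq A']
  rw [← hv] at h1' h2' h3' hd' hwv ⊢
  generalize (fun i => A i 0) = v at *
  generalize (fun i => A i 1) = w at *
  generalize (fun i => A i 2) = z at *
  generalize (fun i => A' i 1) = w' at *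
  generalize (fun i => A' i 2) = z' at *
  generalize (b - (e : ℤ) * μ) / (2 * (m : ℤ)) = k at hwv
  generalize (b - (e' : ℤ) * μ') / (2 * (m : ℤ)) = k' at hwv
  -- the content
  have c1 := congrArg (crs v) hwv
  rw [crs_lin, crs_lin] at c1
  rw [dd3_eq] at hd hd'
  have c2 := congrArg (fun u => dt u z) c1
  have c3 := congrArg (fun u => dt u z') c1
  simp only [smul_dt, hd, hd', mul_one] at c2 c3
  have hee : e = e' := by
    apply Nat.dvd_antisymm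
    · have : (e : ℤ) ∣ e' := ⟨_, c3.symm⟩
      exact_mod_cast this
    · have : (e' : ℤ) ∣ e := ⟨_, c2⟩
      exact_mod_cast this
  subst hee
  have he0 : (e : ℤ) ≠ 0 := by exact_mod_cast hw.he.ne'
  have c4 : crs v w = crs v w' := smul_right_injective _ he0 c1
  have hyv : dt (crs w z) v = 1 := by rw [dt_comm, ← dd3_eq', dd3_eq, hd]
  have c5 : crs v (w' - w) = 0 := by rw [crs_sub, c4, sub_self]
  have c6 := parallel hyv c5
  generalize dt (crs w z) (w' - w) = α at c6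
  have c7 := congrArg (bl q v) c6
  rw [bl_sub, bl_smul, h1, h2, h2'] at c7
  have hα : α = 0 := by
    have b1 : (μ : ℤ) < 2 * m := by exact_mod_cast hw.hμ
    have b2 : (μ' : ℤ) < 2 * m := by exact_mod_cast hw'.hμ
    have b3 : (0 : ℤ) ≤ μ := by positivity
    have b4 : (0 : ℤ) ≤ μ' := by positivity
    exact small c7 (by linarith) (by linarith)
  rw [hα, zero_smul, sub_eq_zero] at c6
  subst c6
  have hμ : μ = μ' := by
    rw [h2] at h2'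
    have : (μ : ℤ) = μ' := by linarith
    exact_mod_cast this
  subst hμ
  -- the third vector
  have c8 : dt (crs v w') (z' - z) = 0 := by rw [dt_sub, hd, hd', sub_self]
  have c9 := cramer3 v w' z (z' - z)
  rw [dd3_eq, hd, one_smul, dt_comm (z' - z) (crs v w'), c8, zero_smul, add_zero] at c9
  generalize dt (z' - z) (crs w' z) = p at c9
  generalize dt (z' - z) (crs z v) = t at c9
  have d1 := congrArg (bl q v) c9
  have d2 := congrArg (bl q w') c9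
  rw [bl_sub, bl_add, bl_smul, bl_smul, h1, h2, h3, h3'] at d1
  rw [bl_sub, bl_add, bl_smul, bl_smul, bl_comm q w' v, h2, h4, h5, h5'] at d2
  obtain ⟨he, hD, hβ, hμ, hν, hb, hd1, hg, hee, hf, -⟩ := hw
  obtain ⟨-, -, hβ', -, hν', -, -, hg', hee', hf', -⟩ := hw'
  have k1 : (m : ℤ) * (((μ ^ 2 + q * (D / (q * e ^ 2))) / m : ℕ) : ℤ) =
      μ ^ 2 + q * ((D / (q * e ^ 2) : ℕ) : ℤ) := by
    exact_mod_cast hd1
  have k3 : (m : ℤ) * (((q * β + μ * ν) / m : ℕ) : ℤ) = q * β + μ * ν := by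
    exact_mod_cast hee
  have k3' : (m : ℤ) * (((q * β' + μ * ν') / m : ℕ) : ℤ) = q * β' + μ * ν' := by
    exact_mod_cast hee'
  have b1 : (β : ℤ) < ((D / (q * e ^ 2) : ℕ) : ℤ) := by exact_mod_cast hβ
  have b2 : (β' : ℤ) < ((D / (q * e ^ 2) : ℕ) : ℤ) := by exact_mod_cast hβ'
  have b3 : (0 : ℤ) ≤ β := by positivity
  have b4 : (0 : ℤ) ≤ β' := by positivity
  have b5 : (ν : ℤ) < 2 * m := by exact_mod_cast hν
  have b6 : (ν' : ℤ) < 2 * m := by exact_mod_cast hν'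
  have b7 : (0 : ℤ) ≤ ν := by positivity
  have b8 : (0 : ℤ) ≤ ν' := by positivity
  generalize (((μ ^ 2 + q * (D / (q * e ^ 2))) / m : ℕ) : ℤ) = dd at *
  generalize (((q * β + μ * ν) / m : ℕ) : ℤ) = ee at *
  generalize (((q * β' + μ * ν') / m : ℕ) : ℤ) = ee' at *
  generalize ((D / (q * e ^ 2) : ℕ) : ℤ) = D2 at *
  have hq1 : (β' : ℤ) - β = t * D2 := by
    have : (q : ℤ) * (β' - β) = q * (t * D2) := by
      have d1' : 2 * ((ν' : ℤ) - ν) = 2 * (p * (2 * m) + t * μ) := by linarith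
      have d1'' : (ν' : ℤ) - ν = p * (2 * m) + t * μ := by linarith
      linear_combination (m : ℤ) * d2 - (μ : ℤ) * d1'' + k3 - k3' + t * k1
    exact mul_left_cancel₀ (by positivity) this
  have hq0 : t = 0 := small hq1 (by linarith) (by linarith)
  rw [hq0, zero_mul, add_zero] at d1
  have hp0 : p = 0 := small d1 (by linarith) (by linarith)
  rw [hq0, zero_mul] at hq1
  rw [hp0, zero_mul] at d1
  rw [hp0, hq0, zero_smul, zero_smul, add_zero, sub_eq_zero] at c9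
  have e1 : β = β' := by exact_mod_cast (by linarith : (β : ℤ) = β')
  have e2 : ν = ν' := by exact_mod_cast (by linarith : (ν : ℤ) = ν')
  rw [e1, e2, c9]
  exact ⟨rfl, rfl⟩

theorem even_of {x y : ℤ} (h : 4 * y = x ^ 2) : ∃ k, x = 2 * k := by
  have h1 : (2 : ℤ) ∣ x ^ 2 := ⟨2 * y, by linarith⟩
  exact Int.prime_two.dvd_of_dvd_pow h1

theorem toPair_surj {q m D : ℕ} (hC : Cm q m) (hq : q = 3 ∨ q = 5) {b m2 : ℤ} (hD0 : 0 < D)
    (hDD : (D : ℤ) = m * m2 - b ^ 2) {v w : V3} (hv : bl q v v = 4 * m) (hw : bl q w w = m2)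
    (hvw : bl q v w = 2 * b) : ∃ (x : ℕ × ℕ × ℕ × ℕ) (A : Matrix (Fin 3) (Fin 3) ℤ),
      x ∈ XR q m b D ∧ (Aᵀ * GG q * A = mm q m D x ∧ A.det = 1) ∧ toPair b m x A = (v, w) := by
  have hq0 : 0 < q := by omega
  have hqZ : (0 : ℤ) < q := by exact_mod_cast hq0
  have hm0 : 0 < m := Nat.pos_of_ne_zero hC.sq.ne_zero
  have hm : (0 : ℤ) < m := by exact_mod_cast hm0
  have hn : (0 : ℤ) < 4 * m := by positivity
  obtain ⟨y, hy⟩ := prim (q := q) hq hC.sq hC.md hv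
  have hcc : (q : ℤ) * Qd q (crs v w) = D := by
    have h1 := L1 hq v w
    rw [hv, hw, hvw] at h1
    linarith
  have hc0 : crs v w ≠ 0 := by
    intro h0
    rw [h0, Qd_zero, mul_zero] at hcc
    have : D = 0 := by exact_mod_cast hcc.symm
    omega
  obtain ⟨e, c, z0, he, hce, hz0⟩ := content (crs v w) hc0
  have heZ : (0 : ℤ) < e := by exact_mod_cast he
  have hcv : dt c v = 0 := by
    have h1 := dt_crs_left v w
    rw [hce, smul_dt] at h1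
    exact (mul_eq_zero.1 h1).resolve_left heZ.ne'
  -- the second vector
  obtain ⟨w0, hw0⟩ : ∃ w0, w0 = crs c y := ⟨_, rfl⟩
  have hvw0 : crs v w0 = c := by
    rw [hw0, dcross, hy, dt_comm v c, hcv, one_smul, zero_smul, sub_zero]
  obtain ⟨w1, hw1⟩ : ∃ w1, w1 = w0 - (bl q v w0 / (4 * m)) • v := ⟨_, rfl⟩
  have hvw1 : crs v w1 = c := by rw [hw1, crs_sub_smul, hvw0]
  have hmm : bl q v w1 = bl q v w0 % (4 * m) := by
    rw [hw1, bl_sub, bl_smul, hv]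
    have := Int.emod_add_mul_ediv (bl q v w0) (4 * m)
    linarith
  have hm1 : 0 ≤ bl q v w1 := by rw [hmm]; exact Int.emod_nonneg _ hn.ne'
  have hm2 : bl q v w1 < 4 * m := by rw [hmm]; exact Int.emod_lt_of_pos _ hn
  -- the determinant
  have hDc : (q : ℤ) * e ^ 2 * Qd q c = D := by
    rw [← hcc, hce, Qd_smul]; ring
  have hc2 : 4 * m * bl q w1 w1 - bl q v w1 ^ 2 = 4 * q * Qd q c := by
    have h1 := L1 hq v w1
    rw [hvw1, hv] at h1
    exact h1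
  have hcpos : 0 < Qd q c := by
    have h1 : 0 < (q : ℤ) * e ^ 2 * Qd q c := by
      rw [hDc]
      exact_mod_cast hD0
    have h2 : 0 < (q : ℤ) * e ^ 2 := by positivity
    exact (mul_pos_iff_of_pos_left h2).1 h1
  have hcw1 : dt c w1 = 0 := by rw [← hvw1]; exact dt_crs_right v w1
  -- the third vector
  obtain ⟨B0, hB0⟩ : ∃ B0, B0 = Fd q c (crs v z0) := ⟨_, rfl⟩
  obtain ⟨z1, hz1⟩ : ∃ z1, z1 = z0 - (B0 / (2 * Qd q c)) • w1 := ⟨_, rfl⟩
  obtain ⟨z2, hz2⟩ : ∃ z2, z2 = z1 - (bl q v z1 / (4 * m)) • v := ⟨_, rfl⟩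
  have hcz : dt c z2 = 1 := by
    rw [hz2, dt_sub, dt_smul, hcv, hz1, dt_sub, dt_smul, hcw1, hz0]; ring
  have hN : bl q v z2 = bl q v z1 % (4 * m) := by
    rw [hz2, bl_sub, bl_smul, hv]
    have := Int.emod_add_mul_ediv (bl q v z1) (4 * m)
    linarith
  have hN0 : 0 ≤ bl q v z2 := by rw [hN]; exact Int.emod_nonneg _ hn.ne'
  have hN1 : bl q v z2 < 4 * m := by rw [hN]; exact Int.emod_lt_of_pos _ hn
  have hvz : crs v z2 = crs v z0 - (B0 / (2 * Qd q c)) • c := by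
    rw [hz2, crs_sub_smul, hz1, crs_sub, crs_smul, hvw1]
  have hB : Fd q c (crs v z2) = B0 % (2 * Qd q c) := by
    rw [hvz, Fd_sub_smul, Fd_self, ← hB0]
    have h1 := Int.emod_add_mul_ediv B0 (2 * Qd q c)
    linarith
  have h2c : 0 < 2 * Qd q c := by linarith
  have hβ0 : 0 ≤ Fd q c (crs v z2) := by
    rw [hB]; exact Int.emod_nonneg _ h2c.ne'
  have hβ1 : Fd q c (crs v z2) < 2 * Qd q c := by
    rw [hB]; exact Int.emod_lt_of_pos _ h2c
  have hdet : dd3 v w1 z2 = 1 := by rw [dd3_eq, hvw1, hcz]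
  have hL3 : 4 * Qd q c * Qd q (crs v z2) - Fd q c (crs v z2) ^ 2 = 4 * m := by
    rw [L3 hq c (crs v z2), ← hvw1, L4, hdet, one_smul, hv]
  have hL2 : 4 * m * bl q w1 z2 - bl q v w1 * bl q v z2 = 2 * q * Fd q c (crs v z2) := by
    have h1 := L2 hq v w1 z2
    rw [hvw1, hv] at h1
    exact h1
  have hL1 : 4 * m * bl q z2 z2 - bl q v z2 ^ 2 = 4 * q * Qd q (crs v z2) := by
    have h1 := L1 hq v z2
    rw [hv] at h1
    exact h1
  have hL4 := L1 hq w1 z2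
  have hg0 : 0 ≤ Qd q (crs v z2) := by
    by_contra hcon
    push Not at hcon
    have h1 : 4 * Qd q c * Qd q (crs v z2) < 0 := mul_neg_of_pos_of_neg (by linarith) hcon
    have h2 := sq_nonneg (Fd q c (crs v z2))
    linarith
  -- the coefficient of `v` in `w`
  have hu : crs v (w - (e : ℤ) • w1) = 0 := by
    rw [crs_sub, crs_smul, hvw1, hce, sub_self]
  have hk := parallel (y := y) (by rw [dt_comm, hy]) hu
  obtain ⟨k, hkdef⟩ : ∃ k, k = dt y (w - (e : ℤ) • w1) := ⟨_, rfl⟩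
  rw [← hkdef] at hk
  have hbk : 2 * b - e * bl q v w1 = 4 * m * k := by
    have h1 := congrArg (bl q v) hk
    rw [bl_sub, bl_smul, bl_smul, hv, hvw] at h1
    linarith
  have hee0 : 0 ≤ bl q w1 z2 := by
    by_contra hcon
    push Not at hcon
    have h1 : (4 * m : ℤ) * bl q w1 z2 < 0 := mul_neg_of_pos_of_neg hn hcon
    have h2 := mul_nonneg hm1 hN0
    have h3 : 0 ≤ 2 * (q : ℤ) * Fd q c (crs v z2) := by positivity
    linarith
  -- halves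
  obtain ⟨μz, hμz⟩ := even_of (x := bl q v w1) (y := m * bl q w1 w1 - q * Qd q c) (by linarith)
  obtain ⟨νz, hνz⟩ := even_of (x := bl q v z2) (y := m * bl q z2 z2 - q * Qd q (crs v z2))
    (by linarith)
  obtain ⟨βz, hβz⟩ := even_of (x := Fd q c (crs v z2)) (y := Qd q c * Qd q (crs v z2) - m)
    (by linarith)
  -- natural numbers
  obtain ⟨μ, hμ⟩ : ∃ μ : ℕ, (μ : ℤ) = μz := ⟨_, Int.toNat_of_nonneg (by linarith)⟩
  obtain ⟨ν, hν⟩ : ∃ ν : ℕ, (ν : ℤ) = νz := ⟨_, Int.toNat_of_nonneg (by linarith)⟩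
  obtain ⟨β, hβ⟩ : ∃ β : ℕ, (β : ℤ) = βz := ⟨_, Int.toNat_of_nonneg (by linarith)⟩
  obtain ⟨D2, hD2⟩ : ∃ D2 : ℕ, (D2 : ℤ) = Qd q c := ⟨_, Int.toNat_of_nonneg hcpos.le⟩
  obtain ⟨d, hd⟩ : ∃ d : ℕ, (d : ℤ) = bl q w1 w1 := ⟨_, Int.toNat_of_nonneg (bl_self_nonneg hq w1)⟩
  obtain ⟨f, hf⟩ : ∃ f : ℕ, (f : ℤ) = bl q z2 z2 := ⟨_, Int.toNat_of_nonneg (bl_self_nonneg hq z2)⟩
  obtain ⟨ee, hee⟩ : ∃ ee : ℕ, (ee : ℤ) = bl q w1 z2 := ⟨_, Int.toNat_of_nonneg hee0⟩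
  obtain ⟨g, hg⟩ : ∃ g : ℕ, (g : ℤ) = Qd q (crs v z2) := ⟨_, Int.toNat_of_nonneg hg0⟩
  rw [← hμ] at hμz
  rw [← hν] at hνz
  rw [← hβ] at hβz
  rw [hμz] at hm1 hm2 hc2 hL2 hbk
  rw [hνz] at hN0 hN1 hL2 hL1
  rw [hβz] at hβ0 hβ1 hL3 hL2
  rw [← hD2] at hDc hc2 hβ1 hL3
  rw [← hg] at hL3 hL1
  rw [← hd] at hc2 hL4
  rw [← hf] at hL1 hL4
  rw [← hee] at hL2 hL4
  have hW : Wt q m b D e μ β ν D2 d ee g f := by
    refine ⟨he, ?_, ?_, ?_, ?_, ?_, ?_, ?_, ?_, ?_, ?_⟩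
    · exact_mod_cast hDc.symm
    · have : (β : ℤ) < D2 := by linarith
      exact_mod_cast this
    · have : (μ : ℤ) < 2 * m := by linarith
      exact_mod_cast this
    · have : (ν : ℤ) < 2 * m := by linarith
      exact_mod_cast this
    · refine ⟨-k, ?_⟩
      linarith
    · have : (m : ℤ) * d = μ ^ 2 + q * D2 := by linarith
      exact_mod_cast this
    · have : (D2 : ℤ) * g = β ^ 2 + m := by linarith
      exact_mod_cast this
    · have : (m : ℤ) * ee = q * β + μ * ν := by linarith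
      exact_mod_cast this
    · have : (m : ℤ) * f = q * g + ν ^ 2 := by linarith
      exact_mod_cast this
    · exact ⟨q * Qd q (crs w1 z2), by linarith⟩
  obtain ⟨hmem, e1, e2, e3, e4, e5⟩ := mem_of_wit hm0 (coprime_of hC).1 hq0 hD0 hW
  refine ⟨(e, μ, β, ν), cols v w1 z2, hmem, ⟨?_, ?_⟩, ?_⟩
  · rw [gram_iff hq v w1 z2 _ (mm_symm _ _ _ _)]
    refine ⟨hv, hμz, hνz, ?_, ?_, ?_⟩
    · show bl q w1 w1 = (((μ ^ 2 + q * (D / (q * e ^ 2))) / m : ℕ) : ℤ)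
      rw [e2, hd]
    · show bl q w1 z2 = (((q * β + μ * ν) / m : ℕ) : ℤ)
      rw [e3, hee]
    · show bl q z2 z2 = (((q * ((β ^ 2 + m) / (D / (q * e ^ 2))) + ν ^ 2) / m : ℕ) : ℤ)
      rw [e5, hf]
  · rw [det_cols, hdet]
  · have hkk : (b - (e : ℤ) * μ) / (2 * m) = k := by
      have : b - (e : ℤ) * μ = 2 * m * k := by linarith
      rw [this]
      exact Int.mul_ediv_cancel_left _ (by positivity)
    refine Prod.ext rfl ?_
    show (e : ℤ) • w1 + ((b - (e : ℤ) * μ) / (2 * m)) • v = w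
    rw [hkk, ← hk]
    abel

theorem mem_TR (q m D : ℕ) (t : ℕ × ℕ) : t ∈ TR q m D ↔ t.1 < D + 1 ∧ 0 < t.1 ∧
    q * t.1 ^ 2 ∣ D ∧ t.2 < D / (q * t.1 ^ 2) ∧ D / (q * t.1 ^ 2) ∣ t.2 ^ 2 + m := by
  unfold TR
  rw [Finset.mem_biUnion]
  constructor
  · rintro ⟨e, he, ht⟩
    obtain ⟨β, hβ, rfl⟩ := Finset.mem_image.1 ht
    have he := Finset.mem_filter.1 he
    have hβ := Finset.mem_filter.1 hβ
    exact ⟨Finset.mem_range.1 he.1, he.2.1, he.2.2, Finset.mem_range.1 hβ.1, hβ.2⟩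
  · rintro ⟨h1, h2, h3, h4, h5⟩
    exact ⟨t.1, Finset.mem_filter.2 ⟨Finset.mem_range.2 h1, h2, h3⟩, Finset.mem_image.2
      ⟨t.2, Finset.mem_filter.2 ⟨Finset.mem_range.2 h4, h5⟩, rfl⟩⟩

/-- the fibres -/
theorem fib (q m : ℕ) (b : ℤ) (D : ℕ) (t : ℕ × ℕ) (ht : t ∈ TR q m D) :
    ((XR q m b D).filter fun x => (x.1, x.2.2.1) = t).card =
      NF q m b t.1 t.2 (D / (q * t.1 ^ 2)) ((t.2 ^ 2 + m) / (D / (q * t.1 ^ 2))) := by
  classical
  obtain ⟨h1, h2, h3, h4, h5⟩ := (mem_TR q m D t).1 ht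
  unfold NF
  refine Finset.card_nbij' (fun x => (x.2.1, x.2.2.2)) (fun p => (t.1, p.1, t.2, p.2)) ?_ ?_ ?_ ?_
  · intro x hx
    have hx := Finset.mem_filter.1 (Finset.mem_coe.1 hx)
    obtain ⟨hq1, hq2⟩ := hx
    unfold XR at hq1
    have hq1 := Finset.mem_filter.1 hq1
    have hq3 := Finset.mem_product.1 hq1.1
    have hq4 := Finset.mem_product.1 hq3.2
    have hq5 := Finset.mem_product.1 hq4.2
    rw [← hq2]
    exact Finset.mem_coe.2 (Finset.mem_filter.2 ⟨Finset.mem_product.2 ⟨hq4.1, hq5.2⟩,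
      hq1.2.2.2.2.2⟩)
  · intro p hp
    have hp := Finset.mem_filter.1 (Finset.mem_coe.1 hp)
    have hp1 := Finset.mem_product.1 hp.1
    refine Finset.mem_coe.2 (Finset.mem_filter.2 ⟨?_, rfl⟩)
    unfold XR
    refine Finset.mem_filter.2 ⟨Finset.mem_product.2 ⟨Finset.mem_range.2 h1, Finset.mem_product.2
      ⟨hp1.1, Finset.mem_product.2 ⟨Finset.mem_range.2 (h4.trans_le
        (Nat.div_le_self _ _)), hp1.2⟩⟩⟩, h2, h3, h4, h5, hp.2⟩
  · intro x hx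
    have hx := Finset.mem_filter.1 (Finset.mem_coe.1 hx)
    obtain ⟨_, hq2⟩ := hx
    rw [← hq2]
  · intro p _
    rfl

theorem card_XR (q m : ℕ) (b : ℤ) (D : ℕ) : (XR q m b D).card = ∑ t ∈ TR q m D,
    NF q m b t.1 t.2 (D / (q * t.1 ^ 2)) ((t.2 ^ 2 + m) / (D / (q * t.1 ^ 2))) := by
  classical
  rw [Finset.card_eq_sum_card_fiberwise (f := fun x => (x.1, x.2.2.1)) (t := TR q m D)]
  · exact Finset.sum_congr rfl fun t ht => fib q m b D t ht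
  · intro x hx
    have hx := Finset.mem_coe.1 hx
    unfold XR at hx
    have hx := Finset.mem_filter.1 hx
    have hx3 := Finset.mem_product.1 hx.1
    exact Finset.mem_coe.2 ((mem_TR q m D _).2 ⟨Finset.mem_range.1 hx3.1, hx.2.1, hx.2.2.1,
      hx.2.2.2.1, hx.2.2.2.2.1⟩)

end PCC4

open PCC4 in
/-- **XW-10a** -/
theorem t_PCC4 (h : S_PCT) : S_PCC4 := by
  intro q m m2 b D hC hD0 hDD
  have hq : q = 3 ∨ q = 5 := by
    rcases hC.cl with ⟨h1, _⟩ | ⟨h1, _⟩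
    · exact Or.inr h1
    · exact Or.inl h1
  rw [← card_XR, ← card_fr h hC hq b D, ← card_pairs hq]
  symm
  refine Nat.card_eq_of_bijective (fun p : Fr q m b D => (⟨toPair b m p.1.1 p.2.1,
    toPair_mem hC hq hDD p.1.2 p.2.2.1⟩ : Pairs q m b m2)) ⟨?_, ?_⟩
  · rintro ⟨⟨⟨e, μ, β, ν⟩, hx⟩, ⟨A, hA⟩⟩ ⟨⟨⟨e', μ', β', ν'⟩, hx'⟩, ⟨A', hA'⟩⟩ heq
    have h1 := congrArg Subtype.val heq
    obtain ⟨h2, h3⟩ := toPair_inj hC hq hx hx' hA.1 hA.2 hA'.1 hA'.2 h1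
    simp only [Prod.mk.injEq] at h2
    obtain ⟨rfl, rfl, rfl, rfl⟩ := h2
    subst h3
    rfl
  · rintro ⟨⟨v, w⟩, hv, hw, hvw⟩
    obtain ⟨x, A, hx, hA, hp⟩ := toPair_surj hC hq hD0 hDD hv hw hvw
    exact ⟨⟨⟨x, hx⟩, ⟨A, hA⟩⟩, Subtype.ext hp⟩

end Pool.Agent.XW
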